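import Pool.Agent.H651_Ample.Fun

/-!
# Function rings as modules over a polynomial ring
-/

set_option autoImplicit false
set_option linter.style.haveILetI false

namespace H651

open Polynomial

attribute [-instance] HahnSeries.instSMul
attribute [-instance] HahnSeries.instModule

variable {K : Type*} [Field K]

theorem algebraMap_ne {c : K} (hc : c ≠ 0) : algebraMap K (LaurentSeries K) c ≠ 0 := by
  rw [LaurentSeries.algebraMap_apply]
  exact HahnSeries.C_ne_zero hc

theorem order_algebraMap (c : K) : (algebraMap K (LaurentSeries K) c).order = 0 := by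
  rw [LaurentSeries.algebraMap_apply]
  exact HahnSeries.order_C

/-- two series of the same order cancel after scaling -/
theorem exists_cancel {f g : LaurentSeries K} (hg : g ≠ 0) (h : OG g.order f) :
    ∃ c : K, OG (g.order + 1) (f - algebraMap K _ c * g) := by
  refine ⟨f.coeff g.order / g.coeff g.order, ?_⟩
  have h0 : g.coeff g.order ≠ 0 := fun h => hg (HahnSeries.coeff_order_eq_zero.1 h)
  intro i hi
  rw [HahnSeries.coeff_sub, LaurentSeries.algebraMap_apply, HahnSeries.C_apply,
    HahnSeries.coeff_single_zero_mul]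
  rcases lt_or_eq_of_le (Int.lt_add_one_iff.1 hi) with h1 | h1
  · rw [h i h1, (og_iff_order hg).2 le_rfl i h1, mul_zero, sub_zero]
  · rw [h1, div_mul_cancel₀ _ h0, sub_self]

/-- evaluation of a polynomial at a function with a pole -/
theorem order_aeval {h : LaurentSeries K} (h0 : h ≠ 0) {n : ℕ} (hn : 1 ≤ n)
    (hh : h.order = -(n : ℤ)) (c : K[X]) (hc : c ≠ 0) :
    aeval h c ≠ 0 ∧ (aeval h c).order = -((n * c.natDegree : ℕ) : ℤ) := by
  have hterm : ∀ k : ℕ, ∀ a : K, a ≠ 0 → algebraMap K (LaurentSeries K) a * h ^ k ≠ 0 ∧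
      (algebraMap K (LaurentSeries K) a * h ^ k).order = -((n * k : ℕ) : ℤ) := by
    intro k a ha
    refine ⟨mul_ne_zero (algebraMap_ne ha) (pow_ne_zero _ h0), ?_⟩
    rw [HahnSeries.order_mul (algebraMap_ne ha) (pow_ne_zero _ h0), order_algebraMap,
      HahnSeries.order_pow, hh, nsmul_eq_mul]
    push_cast
    ring
  have e1 : aeval h c = (∑ k ∈ Finset.range c.natDegree,
      algebraMap K (LaurentSeries K) (c.coeff k) * h ^ k) +
        algebraMap K (LaurentSeries K) c.leadingCoeff * h ^ c.natDegree := by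
    rw [aeval_def, eval₂_eq_sum_range, Finset.sum_range_succ]
    rfl
  have h1 := hterm c.natDegree c.leadingCoeff (leadingCoeff_ne_zero.2 hc)
  rw [e1]
  have h2 := order_add_eq h1.1 (f := ∑ k ∈ Finset.range c.natDegree,
      algebraMap K (LaurentSeries K) (c.coeff k) * h ^ k) (by
    rw [h1.2]
    apply og_sum
    intro k hk
    rw [Finset.mem_range] at hk
    by_cases hk0 : c.coeff k = 0
    · rw [hk0, map_zero, zero_mul]
      exact og_zero _
    · have h3 := hterm k _ hk0
      rw [og_iff_order h3.1, h3.2]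
      have : n * k + n ≤ n * c.natDegree := by
        rw [← Nat.mul_succ]
        exact Nat.mul_le_mul_left _ hk
      push_cast
      have h4 : ((n * k : ℕ) : ℤ) + n ≤ ((n * c.natDegree : ℕ) : ℤ) := by exact_mod_cast this
      push_cast at h4
      have h5 : (1 : ℤ) ≤ n := by exact_mod_cast hn
      linarith)
  exact ⟨h2.1, by rw [h2.2, h1.2]⟩

section

variable {A : Subalgebra K (LaurentSeries K)} (hA : FA A)
include hA

theorem FA.order_nonpos {a : LaurentSeries K} (ha : a ∈ A) (h0 : a ≠ 0) :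
    ∃ m : ℕ, a.order = -(m : ℤ) := by
  rcases le_or_gt a.order 0 with h | h
  · exact ⟨(-a.order).toNat, by omega⟩
  · exfalso
    obtain ⟨c, hc⟩ := hA.const a ha ((og_iff_order h0).2 h.le)
    rw [← hc, order_algebraMap] at h
    exact lt_irrefl _ h

/-- **Apéry bases** -/
theorem FA.apery {n : ℕ} (hn : 1 ≤ n) {h : LaurentSeries K} (hh : h ∈ A) (h0 : h ≠ 0)
    (hord : h.order = -(n : ℤ)) :
    ∃ (a : Fin n → LaurentSeries K) (m : Fin n → ℕ), (∀ i, a i ∈ A) ∧ (∀ i, a i ≠ 0) ∧
      (∀ i, (a i).order = -(m i : ℤ)) ∧ (∀ i, m i % n = i) ∧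
      ∀ f ∈ A, ∃ c : Fin n → K[X], f = ∑ i, aeval h (c i) * a i := by
  classical
  obtain ⟨M, hM⟩ := hA.pole
  have hex : ∀ i : Fin n, ∃ m : ℕ, m % n = i ∧ ∃ a ∈ A, a ≠ 0 ∧ a.order = -(m : ℤ) := by
    intro i
    refine ⟨i + n * M, ?_, hM _ ?_⟩
    · rw [Nat.add_mul_mod_self_left, Nat.mod_eq_of_lt i.2]
    · calc M = 1 * M := (one_mul M).symm
        _ ≤ n * M := Nat.mul_le_mul_right _ hn
        _ ≤ _ := Nat.le_add_left _ _
  have hmin : ∀ i : Fin n, ∃ m : ℕ, (m % n = i ∧ ∃ a ∈ A, a ≠ 0 ∧ a.order = -(m : ℤ)) ∧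
      ∀ m' : ℕ, (m' % n = i ∧ ∃ a ∈ A, a ≠ 0 ∧ a.order = -(m' : ℤ)) → m ≤ m' := by
    intro i
    exact ⟨Nat.find (hex i), Nat.find_spec (hex i), fun m' hm' => Nat.find_min' _ hm'⟩
  choose m hm hm2 using hmin
  choose hmod a haA ha0 hao using hm
  refine ⟨a, m, haA, ha0, hao, hmod, ?_⟩
  have key : ∀ N : ℕ, ∀ f ∈ A, (f ≠ 0 → f.order = -(N : ℤ)) →
      ∃ c : Fin n → K[X], f = ∑ i, aeval h (c i) * a i := by
    intro N
    induction N using Nat.strong_induction_on with
    | _ N ih =>
      intro f hf hfN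
      by_cases hf0 : f = 0
      · refine ⟨0, ?_⟩
        rw [hf0]
        simp
      have hfo := hfN hf0
      let i : Fin n := ⟨N % n, Nat.mod_lt _ hn⟩
      have hi : m i ≤ N := hm2 i N ⟨rfl, f, hf, hf0, hfo⟩
      obtain ⟨k, hk⟩ : ∃ k, N = m i + n * k := by
        have h1 : m i % n = N % n := hmod i
        have h2 : n ∣ N - m i := (Nat.modEq_iff_dvd' hi).1 h1
        obtain ⟨k, hk⟩ := h2
        exact ⟨k, by omega⟩
      have hg0 : h ^ k * a i ≠ 0 := mul_ne_zero (pow_ne_zero _ h0) (ha0 i)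
      have hgo : (h ^ k * a i).order = -(N : ℤ) := by
        rw [HahnSeries.order_mul (pow_ne_zero _ h0) (ha0 i), HahnSeries.order_pow, hord, hao,
          nsmul_eq_mul, hk]
        push_cast
        ring
      obtain ⟨c, hc⟩ := exists_cancel hg0 (f := f) (by
        rw [hgo, ← hfo]
        exact (og_iff_order hf0).2 le_rfl)
      set f' := f - algebraMap K _ c * (h ^ k * a i) with hf'
      have hf'A : f' ∈ A := by
        apply Subalgebra.sub_mem _ hf
        exact A.mul_mem (Subalgebra.algebraMap_mem _ _) (A.mul_mem (A.pow_mem hh k) (haA i))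
      have hfin : ∃ c' : Fin n → K[X], f' = ∑ i, aeval h (c' i) * a i := by
        by_cases hf'0 : f' = 0
        · refine ⟨0, ?_⟩
          rw [hf'0]
          simp
        · obtain ⟨N', hN'⟩ := hA.order_nonpos hf'A hf'0
          have h3 := (og_iff_order hf'0).1 hc
          exact ih N' (by omega) f' hf'A fun _ => hN'
      obtain ⟨c', hc'⟩ := hfin
      refine ⟨c' + Pi.single i (C c * X ^ k), ?_⟩
      have h4 : f = f' + algebraMap K _ c * (h ^ k * a i) := by
        rw [hf']
        ring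
      rw [h4, hc']
      simp only [Pi.add_apply, map_add, add_mul]
      rw [Finset.sum_add_distrib]
      congr 1
      rw [Finset.sum_eq_single i]
      · rw [Pi.single_eq_same, map_mul, aeval_C, map_pow, aeval_X, mul_assoc]
      · intro j _ hj
        rw [Pi.single_eq_of_ne hj, map_zero, zero_mul]
      · intro hi
        exact absurd (Finset.mem_univ i) hi
  intro f hf
  by_cases hf0 : f = 0
  · exact key 0 f hf fun h => absurd hf0 h
  · obtain ⟨N, hN⟩ := hA.order_nonpos hf hf0
    exact key N f hf fun _ => hN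

end

/-- independence over `K[h]` from distinct residues of pole orders -/
theorem indep {n : ℕ} (hn : 1 ≤ n) {h : LaurentSeries K} (h0 : h ≠ 0) (hord : h.order = -(n : ℤ))
    (a : Fin n → LaurentSeries K) (m : Fin n → ℕ) (ha0 : ∀ i, a i ≠ 0)
    (hao : ∀ i, (a i).order = -(m i : ℤ)) (hmod : ∀ i j, m i % n = m j % n → i = j)
    (c : Fin n → K[X]) {r : ℤ} (hr : OG r (∑ i, aeval h (c i) * a i)) (i : Fin n) (hci : c i ≠ 0) :
    r ≤ -((n * (c i).natDegree + m i : ℕ) : ℤ) := by
  have hterm : ∀ i, c i ≠ 0 → aeval h (c i) * a i ≠ 0 ∧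
      (aeval h (c i) * a i).order = -((n * (c i).natDegree + m i : ℕ) : ℤ) := by
    intro i hi
    obtain ⟨h1, h2⟩ := order_aeval h0 hn hord (c i) hi
    refine ⟨mul_ne_zero h1 (ha0 i), ?_⟩
    rw [HahnSeries.order_mul h1 (ha0 i), h2, hao]
    push_cast
    ring
  have h1 := og_of_sum Finset.univ (fun i => aeval h (c i) * a i) (by
    intro i _ j _ hij hi hj heq
    have hci : c i ≠ 0 := fun h => hi (by rw [h, map_zero, zero_mul])
    have hcj : c j ≠ 0 := fun h => hj (by rw [h, map_zero, zero_mul])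
    rw [(hterm i hci).2, (hterm j hcj).2] at heq
    apply hij
    apply hmod
    have h2 : n * (c i).natDegree + m i = n * (c j).natDegree + m j := by omega
    have h3 := congrArg (· % n) h2
    simpa [Nat.mul_add_mod] using h3) hr i (Finset.mem_univ i)
  have h2 := hterm i hci
  rw [og_iff_order h2.1, h2.2] at h1
  exact h1

theorem indep_zero {n : ℕ} (hn : 1 ≤ n) {h : LaurentSeries K} (h0 : h ≠ 0)
    (hord : h.order = -(n : ℤ))
    (a : Fin n → LaurentSeries K) (m : Fin n → ℕ) (ha0 : ∀ i, a i ≠ 0)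
    (hao : ∀ i, (a i).order = -(m i : ℤ)) (hmod : ∀ i j, m i % n = m j % n → i = j)
    (c : Fin n → K[X]) (hr : ∑ i, aeval h (c i) * a i = 0) (i : Fin n) : c i = 0 := by
  by_contra hci
  have := indep hn h0 hord a m ha0 hao hmod c (r := 1) (by rw [hr]; exact og_zero _) i hci
  omega

end H651
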