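import Mathlib

/-!
# Avoiding prime powers
-/

set_option autoImplicit false

namespace H651

/-- for suitable exponents `k` none of the numbers `1 + d q ^ k a` is a prime power -/
theorem exists_good (d q s : ℕ) (hd : 1 ≤ d) (hq : 2 ≤ q) :
    ∃ k, s ≤ d * q ^ k ∧ 1 ≤ k ∧ ∀ a, 1 ≤ a → a ≤ s → ¬ IsPrimePow (1 + d * q ^ k * a) := by
  classical
  set n : ℕ → ℕ := fun a => 1 + d * q * a with hn
  set P : ℕ := ∏ a ∈ Finset.Icc 1 s, Nat.totient (n a ^ 2) with hP
  have hPpos : 0 < P := by
    apply Finset.prod_pos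
    intro a _
    apply Nat.totient_pos.2
    apply pow_pos
    simp only [hn]
    omega
  refine ⟨1 + (s + 1) * P, ?_, by omega, ?_⟩
  · have h1 : s < q ^ (1 + (s + 1) * P) := by
      calc s < 2 ^ s := Nat.lt_two_pow_self
        _ ≤ q ^ s := Nat.pow_le_pow_left hq _
        _ ≤ q ^ (1 + (s + 1) * P) := by
            apply Nat.pow_le_pow_right (by omega)
            nlinarith
    calc s ≤ q ^ (1 + (s + 1) * P) := h1.le
      _ = 1 * q ^ (1 + (s + 1) * P) := (one_mul _).symm
      _ ≤ _ := Nat.mul_le_mul_right _ hd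
  · intro a ha1 has hpp
    have hna : 2 ≤ n a := by
      simp only [hn]
      have : 1 * 1 * 1 ≤ d * q * a := Nat.mul_le_mul (Nat.mul_le_mul hd (by omega)) ha1
      omega
    have hcop : Nat.Coprime q (n a ^ 2) := by
      apply Nat.Coprime.pow_right
      simp only [hn]
      have : d * q * a = q * (d * a) := by ring
      rw [this, Nat.coprime_add_mul_left_right]
      exact Nat.coprime_one_right q
    obtain ⟨m, hm⟩ : Nat.totient (n a ^ 2) ∣ P :=
      Finset.dvd_prod_of_mem _ (Finset.mem_Icc.2 ⟨ha1, has⟩)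
    have h1 : q ^ (1 + (s + 1) * P) ≡ q [MOD n a ^ 2] := by
      rw [pow_add, pow_one, hm]
      have h2 : q ^ ((s + 1) * (Nat.totient (n a ^ 2) * m)) ≡ 1 [MOD n a ^ 2] := by
        have h3 := (Nat.ModEq.pow_totient hcop).pow ((s + 1) * m)
        rw [one_pow, ← pow_mul] at h3
        have h4 : (s + 1) * (Nat.totient (n a ^ 2) * m) = Nat.totient (n a ^ 2) * ((s + 1) * m) := by
          ring
        rw [h4]
        exact h3
      simpa using h2.mul_left q
    have h2 : 1 + d * q ^ (1 + (s + 1) * P) * a ≡ n a [MOD n a ^ 2] := by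
      simp only [hn]
      exact (Nat.ModEq.refl 1).add (((Nat.ModEq.refl d).mul h1).mul_right a)
    set N := 1 + d * q ^ (1 + (s + 1) * P) * a with hN
    have hgt : n a < N := by
      rw [hN]
      simp only [hn]
      have h5 : q < q ^ (1 + (s + 1) * P) := by
        calc q = q ^ 1 := (pow_one q).symm
          _ < q ^ (1 + (s + 1) * P) := Nat.pow_lt_pow_right (by omega) (by
              have : 0 < (s + 1) * P := Nat.mul_pos (by omega) hPpos
              omega)
      have h6 : d * q * a < d * q ^ (1 + (s + 1) * P) * a :=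
        Nat.mul_lt_mul_of_pos_right (Nat.mul_lt_mul_of_pos_left h5 hd) ha1
      omega
    obtain ⟨t, ht⟩ : n a ^ 2 ∣ N - n a := (Nat.modEq_iff_dvd' hgt.le).1 h2.symm
    have hNt : N = n a * (1 + n a * t) := by
      have : N = n a + n a ^ 2 * t := by omega
      rw [this]
      ring
    have ht0 : t ≠ 0 := by
      rintro rfl
      rw [mul_zero, add_zero, mul_one] at hNt
      omega
    rw [isPrimePow_nat_iff] at hpp
    obtain ⟨r, b, hr, hb, hrb⟩ := hpp
    have h7 : n a ∣ r ^ b := by rw [hrb]; exact ⟨_, hNt⟩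
    have h8 : (1 + n a * t) ∣ r ^ b := by rw [hrb]; exact ⟨n a, by rw [hNt]; ring⟩
    obtain ⟨c, _, hc⟩ := (Nat.dvd_prime_pow hr).1 h7
    obtain ⟨c', _, hc'⟩ := (Nat.dvd_prime_pow hr).1 h8
    have hr1 : r ∣ n a := by
      rw [hc]
      apply dvd_pow_self
      rintro rfl
      rw [pow_zero] at hc
      omega
    have hr2 : r ∣ 1 + n a * t := by
      rw [hc']
      apply dvd_pow_self
      rintro rfl
      rw [pow_zero] at hc'
      have : 0 < n a * t := Nat.mul_pos (by omega) (Nat.pos_of_ne_zero ht0)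
      omega
    have hr3 : r ∣ 1 := (Nat.dvd_add_left (hr1.mul_right t)).1 hr2
    exact hr.one_lt.ne' (Nat.dvd_one.1 hr3)

end H651
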