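import Pool.Agent.H651_Ample.Ext

/-!
# Artin–Schreier polynomials
-/

set_option autoImplicit false
set_option linter.style.haveILetI false

namespace H651

open Polynomial Module

universe u

theorem exists_cast_of_pow_eq {A : Type*} [Field A] (p : ℕ) [Fact p.Prime] [CharP A p] {x : A}
    (hx : x ^ p = x) : ∃ n : ℕ, (n : A) = x := by
  have h1 := (Subfield.mem_bot_iff_pow_eq_self (F := A) (p := p)).2 hx
  rw [← ZMod.fieldRange_castHom_eq_bot p, RingHom.mem_fieldRange] at h1
  obtain ⟨z, hz⟩ := h1
  refine ⟨z.val, ?_⟩
  rw [← hz]
  conv_rhs => rw [← ZMod.natCast_zmod_val z, map_natCast]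

theorem sum_of_translates {A : Type*} [Field A] (α : A) (s : Multiset A)
    (hs : ∀ r ∈ s, ∃ n : ℕ, r = α + n) : ∃ N : ℕ, s.sum = (Multiset.card s : A) * α + N := by
  induction s using Multiset.induction_on with
  | empty => exact ⟨0, by simp⟩
  | cons a s ih =>
    obtain ⟨N, hN⟩ := ih fun r hr => hs r (Multiset.mem_cons_of_mem hr)
    obtain ⟨n, hn⟩ := hs a (Multiset.mem_cons_self a s)
    refine ⟨n + N, ?_⟩
    rw [Multiset.sum_cons, hN, hn, Multiset.card_cons]
    push_cast
    ring

/-- the Artin–Schreier polynomial -/
noncomputable def asPoly {F : Type*} [Field F] (p : ℕ) (η : F) : F[X] := X ^ p - (X + C η)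

theorem asPoly_natDegree {F : Type*} [Field F] {p : ℕ} (hp : 2 ≤ p) (η : F) :
    (asPoly p η).natDegree = p := by
  rw [asPoly, natDegree_sub_eq_left_of_natDegree_lt, natDegree_X_pow]
  rw [natDegree_X_pow, natDegree_X_add_C]
  omega

theorem asPoly_monic {F : Type*} [Field F] {p : ℕ} (hp : 2 ≤ p) (η : F) :
    (asPoly p η).Monic := by
  rw [asPoly]
  apply (monic_X_pow p).sub_of_left
  rw [degree_X_add_C, degree_X_pow]
  exact_mod_cast (by omega : 1 < p)

theorem asPoly_separable {F : Type*} [Field F] (p : ℕ) [CharP F p] (η : F) :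
    (asPoly p η).Separable := by
  have h1 : derivative (asPoly p η) = -1 := by
    rw [asPoly, derivative_sub, derivative_X_pow, derivative_add, derivative_X, derivative_C]
    simp
  rw [separable_def, h1]
  exact isCoprime_one_right.neg_right

theorem aeval_asPoly {F A : Type*} [Field F] [Field A] [Algebra F A] (p : ℕ) (η : F) (x : A) :
    aeval x (asPoly p η) = x ^ p - (x + algebraMap F A η) := by
  rw [asPoly, map_sub, map_pow, map_add, aeval_X, aeval_C]

theorem asPoly_irreducible {F : Type u} [Field F] {p : ℕ} [Fact p.Prime] [CharP F p] {η : F}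
    (hη : ∀ b : F, b ^ p - b ≠ η) : Irreducible (asPoly p η) := by
  have hp : 2 ≤ p := (Fact.out : p.Prime).two_le
  set A := AlgebraicClosure F
  haveI : CharP A p := charP_of_injective_algebraMap (algebraMap F A).injective p
  obtain ⟨α, hα⟩ := IsAlgClosed.exists_aeval_eq_zero A (asPoly p η) (by
    rw [degree_eq_natDegree (asPoly_monic hp η).ne_zero, asPoly_natDegree hp]
    exact_mod_cast (by omega : p ≠ 0))
  have hint : IsIntegral F α := ⟨asPoly p η, asPoly_monic hp η, by rwa [← aeval_def]⟩
  have hdvd : minpoly F α ∣ asPoly p η := minpoly.dvd F α hα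
  have hle : (minpoly F α).natDegree ≤ p := by
    rw [← asPoly_natDegree hp η]
    exact natDegree_le_of_dvd hdvd (asPoly_monic hp η).ne_zero
  rcases lt_or_eq_of_le hle with hlt | heq
  · exfalso
    have hpos : 0 < (minpoly F α).natDegree := minpoly.natDegree_pos hint
    have hspl : ((minpoly F α).map (algebraMap F A)).Splits := IsAlgClosed.splits _
    have h1 := hspl.nextCoeff_eq_neg_sum_roots_of_monic ((minpoly.monic hint).map _)
    have hroots : ∀ r ∈ ((minpoly F α).map (algebraMap F A)).roots, ∃ n : ℕ, r = α + n := by
      intro r hr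
      have h2 : aeval r (minpoly F α) = 0 := by
        rw [← eval_map_algebraMap]
        exact (mem_roots'.1 hr).2
      have h3 : aeval r (asPoly p η) = 0 := by
        obtain ⟨t, ht⟩ := hdvd
        rw [ht, map_mul, h2, zero_mul]
      rw [aeval_asPoly] at h3 hα
      have h4 : (r - α) ^ p = r - α := by
        rw [sub_pow_char]
        linear_combination h3 - hα
      obtain ⟨n, hn⟩ := exists_cast_of_pow_eq p h4
      exact ⟨n, by rw [hn]; ring⟩
    obtain ⟨N, hN⟩ := sum_of_translates α _ hroots
    rw [hN, ← hspl.natDegree_eq_card_roots, (minpoly.monic hint).natDegree_map] at h1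
    have hm0 : ((minpoly F α).natDegree : F) ≠ 0 := by
      intro h
      rw [CharP.cast_eq_zero_iff F p] at h
      exact absurd (Nat.le_of_dvd hpos h) (not_le.2 hlt)
    have hm1 : (((minpoly F α).natDegree : ℕ) : A) ≠ 0 := by
      intro h
      apply hm0
      apply (algebraMap F A).injective
      rw [map_natCast, map_zero, h]
    obtain ⟨b, hb⟩ : ∃ b : F, algebraMap F A b = α := by
      refine ⟨(-(minpoly F α).nextCoeff - (N : F)) / ((minpoly F α).natDegree : F), ?_⟩
      rw [map_div₀, map_sub, map_neg, map_natCast, map_natCast]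
      rw [nextCoeff_map (algebraMap F A).injective] at h1
      rw [h1, div_eq_iff hm1]
      ring
    rw [aeval_asPoly] at hα
    apply hη b
    apply (algebraMap F A).injective
    rw [map_sub, map_pow, hb]
    linear_combination hα
  · have h6 : minpoly F α = asPoly p η := by
      apply (eq_of_monic_of_dvd_of_natDegree_le (minpoly.monic hint) (asPoly_monic hp η) hdvd _).symm
      rw [asPoly_natDegree hp, heq]
    rw [← h6]
    exact minpoly.irreducible hint

/-- Artin–Schreier chain -/
theorem hasIrr_artinSchreier (p : ℕ) [Fact p.Prime] (k : ℕ) : ∀ {F : Type u} [Field F],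
    CharP F p → ∀ η : F, (∀ b : F, b ^ p - b ≠ η) → HasIrr F (p ^ k) := by
  have hp : 2 ≤ p := (Fact.out : p.Prime).two_le
  induction k with
  | zero =>
    intro F _ _ η _
    rw [pow_zero]
    exact hasIrr_one F
  | succ k ih =>
    intro F _ _ η hη
    set g : F[X] := asPoly p η with hg
    have hgm : g.Monic := asPoly_monic hp η
    have hgi : Irreducible g := asPoly_irreducible hη
    have hgs : g.Separable := asPoly_separable p η
    have hgd : g.natDegree = p := asPoly_natDegree hp η
    haveI : Fact (Irreducible g) := ⟨hgi⟩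
    set r : AdjoinRoot g := AdjoinRoot.root g with hr
    haveI : CharP (AdjoinRoot g) p :=
      charP_of_injective_algebraMap (algebraMap F (AdjoinRoot g)).injective p
    have hr2 : r ^ p = r + algebraMap F _ η := by
      have h3 : aeval r g = 0 := AdjoinRoot.eval₂_root g
      have h4 : ∀ p' : F[X], p' = asPoly p η → aeval r p' =
          r ^ p - (r + algebraMap F _ η) := by
        intro p' hp'
        rw [hp', aeval_asPoly]
      rw [h4 g hg, sub_eq_zero] at h3
      exact h3
    have hnext : ∀ b : AdjoinRoot g, b ^ p - b ≠ algebraMap F _ η * r ^ (p - 1) := by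
      intro z hz
      obtain ⟨f, hf, hzf⟩ := (AdjoinRoot.powerBasis hgi.ne_zero).exists_eq_aeval z
      rw [AdjoinRoot.powerBasis_dim, hgd] at hf
      rw [AdjoinRoot.powerBasis_gen] at hzf
      set P : F[X] := ∑ i ∈ Finset.range p, C (f.coeff i ^ p) * (X + C η) ^ i with hP
      have h1 : aeval r P = z ^ p := by
        rw [hzf, aeval_eq_sum_range' hf, sum_pow_char, hP, map_sum]
        apply Finset.sum_congr rfl
        intro i _
        rw [map_mul, aeval_C, map_pow, map_pow, map_add, aeval_X, aeval_C, ← hr2,
          Algebra.smul_def, mul_pow, ← pow_mul, ← pow_mul, mul_comm i p]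
      have h2 : aeval r (P - f - C η * X ^ (p - 1)) = 0 := by
        rw [map_sub, map_sub, h1, map_mul, map_pow, aeval_X, aeval_C, ← hzf, hz, sub_self]
      have h3 : g ∣ P - f - C η * X ^ (p - 1) := by
        have h6 := minpoly.dvd F r h2
        rwa [hr, AdjoinRoot.minpoly_root hgi.ne_zero, hgm.leadingCoeff, inv_one, C_1, mul_one] at h6
      have hPd : P.natDegree < p := by
        apply lt_of_le_of_lt (natDegree_sum_le_of_forall_le (n := p - 1) _ _ ?_) (by omega)
        intro i hi
        rw [Finset.mem_range] at hi
        apply (natDegree_C_mul_le _ _).trans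
        rw [natDegree_pow, natDegree_X_add_C]
        omega
      have h4 : P - f - C η * X ^ (p - 1) = 0 := by
        by_contra hne
        have h5 := natDegree_le_of_dvd h3 hne
        rw [hgd] at h5
        have h6 : (P - f - C η * X ^ (p - 1)).natDegree < p := by
          apply lt_of_le_of_lt (natDegree_sub_le _ _)
          apply max_lt
          · exact lt_of_le_of_lt (natDegree_sub_le _ _) (max_lt hPd hf)
          · apply lt_of_le_of_lt (natDegree_C_mul_X_pow_le _ _)
            omega
        omega
      have h5 := congrArg (fun q => coeff q (p - 1)) h4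
      simp only [coeff_sub, coeff_C_mul, coeff_X_pow, if_true, mul_one, coeff_zero] at h5
      have h6 : P.coeff (p - 1) = f.coeff (p - 1) ^ p := by
        rw [hP, finsetSum_coeff, Finset.sum_eq_single (p - 1)]
        · rw [coeff_C_mul]
          have h7 : ((X + C η : F[X]) ^ (p - 1)).Monic := (monic_X_add_C η).pow _
          have h8 : ((X + C η : F[X]) ^ (p - 1)).natDegree = p - 1 := by
            rw [natDegree_pow, natDegree_X_add_C, mul_one]
          have h9 : ((X + C η : F[X]) ^ (p - 1)).coeff (p - 1) = 1 := by
            conv_lhs => rw [← h8, natDegree_pow, natDegree_X_add_C, mul_one]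
            have := h7.coeff_natDegree
            rwa [h8] at this
          rw [h9, mul_one]
        · intro i hi hne
          rw [Finset.mem_range] at hi
          have h10 : ((X + C η : F[X]) ^ i).coeff (p - 1) = 0 := by
            apply coeff_eq_zero_of_natDegree_lt
            rw [natDegree_pow, natDegree_X_add_C]
            omega
          rw [coeff_C_mul, h10, mul_zero]
        · intro h
          exact absurd (Finset.mem_range.2 (by omega)) h
      rw [h6] at h5
      exact hη (f.coeff (p - 1)) (by linear_combination h5)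
    have := HasIrr.step hgm hgs (ih inferInstance _ hnext)
    rw [hgd] at this
    rwa [pow_succ']

end H651
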