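import Pool.Agent.H651_Ample.Dense

/-!
# Dense subfields of complete fields
-/

set_option autoImplicit false
set_option linter.style.haveILetI false

namespace H651

open Polynomial

attribute [-instance] HahnSeries.instSMul
attribute [-instance] HahnSeries.instModule

open scoped NNReal

universe u v

/-- the spectral norm as a valuation -/
noncomputable def specVal (F L : Type*) [NontriviallyNormedField F] [IsUltrametricDist F]
    [CompleteSpace F] [Field L] [Algebra F L] [Algebra.IsAlgebraic F L] : Valuation L ℝ≥0 where
  toFun x := ⟨spectralNorm F L x, spectralNorm_nonneg x⟩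
  map_zero' := Subtype.ext spectralNorm_zero
  map_one' := Subtype.ext spectralNorm_one
  map_mul' x y := Subtype.ext (map_mul (spectralMulAlgNorm F L) x y)
  map_add_le_max' x y := isNonarchimedean_spectralNorm x y

theorem coe_specVal (F L : Type*) [NontriviallyNormedField F] [IsUltrametricDist F]
    [CompleteSpace F] [Field L] [Algebra F L] [Algebra.IsAlgebraic F L] (x : L) :
    (specVal F L x : ℝ) = spectralNorm F L x := rfl

/-- **Dense subfields of complete fields.** -/
theorem ample_of_complete {K : Type u} [Field K] (H : ProSolv K) {F : Type u}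
    [NontriviallyNormedField F] [IsUltrametricDist F] [CompleteSpace F] [Algebra K F]
    (hdense : DenseRange (algebraMap K F))
    (hF : ∃ f : F[X], Irreducible f ∧ f.Separable ∧ 3 ≤ f.natDegree)
    {N : ℕ} (S : Finset (MvPolynomial (Fin N) K)) (x : Fin N → LaurentSeries K)
    (hS : ∀ p ∈ S, MvPolynomial.aeval x p = 0) :
    ∃ y : Fin N → K, ∀ p ∈ S, MvPolynomial.eval y p = 0 := by
  have hext : ∀ c : F, (specVal F (AlgebraicClosure F) (algebraMap F (AlgebraicClosure F) c) : ℝ) =
      ‖c‖ := fun c => by rw [coe_specVal, spectralNorm_extends]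
  refine ample_of_dense (W := F) (A := AlgebraicClosure F) H (specVal F (AlgebraicClosure F))
    ?_ ?_ ?_ hF S x hS
  · intro σ y
    apply NNReal.coe_injective
    rw [coe_specVal, coe_specVal]
    exact (spectralNorm_eq_of_equiv σ y).symm
  · obtain ⟨c, hc0, hc1⟩ := NormedField.exists_norm_lt_one F
    obtain ⟨π, hπ⟩ := hdense.exists_dist_lt c hc0
    have h1 : ‖algebraMap K F π‖ = ‖c‖ := by
      rw [dist_eq_norm] at hπ
      have h2 : algebraMap K F π = c - (c - algebraMap K F π) := by ring
      rw [h2]
      apply le_antisymm
      · rw [sub_eq_add_neg]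
        refine (IsUltrametricDist.norm_add_le_max _ _).trans (max_le le_rfl ?_)
        rw [norm_neg]
        exact hπ.le
      · by_contra hcon
        push Not at hcon
        have h3 : c = (c - (c - algebraMap K F π)) + (c - algebraMap K F π) := by ring
        have h4 : ‖c‖ ≤ max ‖c - (c - algebraMap K F π)‖ ‖c - algebraMap K F π‖ := by
          conv_lhs => rw [h3]
          exact IsUltrametricDist.norm_add_le_max _ _
        exact absurd h4 (not_le.2 (max_lt hcon hπ))
    refine ⟨π, ?_, ?_⟩
    · rintro rfl
      rw [map_zero, norm_zero] at h1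
      exact hc0.ne h1
    · rw [IsScalarTower.algebraMap_apply K F (AlgebraicClosure F), ← NNReal.coe_lt_coe, hext,
        NNReal.coe_one, h1]
      exact hc1
  · intro c a ha
    have ha' : 0 < (specVal F (AlgebraicClosure F) a : ℝ) := by
      rw [NNReal.coe_pos]
      exact (Valuation.pos_iff _).2 ha
    obtain ⟨b, hb⟩ := hdense.exists_dist_lt c ha'
    refine ⟨b, ?_⟩
    rw [← NNReal.coe_lt_coe, hext, ← dist_eq_norm]
    exact hb

end H651
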