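import Pool.Agent.H651_Ample.HenselL

/-!
# Continuity of polynomial expressions in Laurent series
-/

set_option autoImplicit false
set_option linter.style.haveILetI false

namespace H651

open Polynomial

attribute [-instance] HahnSeries.instSMul
attribute [-instance] HahnSeries.instModule

universe u

variable {K : Type u} [Field K] {σ : Type*}

theorem cont_mv (a : MvPolynomial σ K) (z : σ → LaurentSeries K) (M : ℕ) :
    ∃ N : ℕ, ∀ z' : σ → LaurentSeries K, (∀ i, OG (N : ℤ) (z' i - z i)) →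
      OG (M : ℤ) (MvPolynomial.aeval z' a - MvPolynomial.aeval z a) := by
  induction a using MvPolynomial.induction_on generalizing M with
  | C c =>
    refine ⟨0, fun z' _ => ?_⟩
    rw [MvPolynomial.aeval_C, MvPolynomial.aeval_C, sub_self]
    exact og_zero _
  | add p q hp hq =>
    obtain ⟨N₁, h₁⟩ := hp M
    obtain ⟨N₂, h₂⟩ := hq M
    refine ⟨N₁ + N₂, fun z' hz' => ?_⟩
    have e : MvPolynomial.aeval z' (p + q) - MvPolynomial.aeval z (p + q) =
        (MvPolynomial.aeval z' p - MvPolynomial.aeval z p) +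
        (MvPolynomial.aeval z' q - MvPolynomial.aeval z q) := by
      rw [map_add, map_add]
      ring
    rw [e]
    exact (h₁ z' fun i => (hz' i).mono (by push_cast; omega)).add
      (h₂ z' fun i => (hz' i).mono (by push_cast; omega))
  | mul_X p i hp =>
    obtain ⟨B₁, hB₁⟩ := exists_og_bound (z i)
    obtain ⟨B₂, hB₂⟩ := exists_og_bound (MvPolynomial.aeval z p)
    obtain ⟨N₁, h₁⟩ := hp (M + B₁)
    refine ⟨N₁ + M + B₂, fun z' hz' => ?_⟩
    have e : MvPolynomial.aeval z' (p * MvPolynomial.X i) -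
        MvPolynomial.aeval z (p * MvPolynomial.X i) =
        (MvPolynomial.aeval z' p - MvPolynomial.aeval z p) * z' i +
        MvPolynomial.aeval z p * (z' i - z i) := by
      rw [map_mul, map_mul, MvPolynomial.aeval_X, MvPolynomial.aeval_X]
      ring
    rw [e]
    have h3 : OG (-(B₁ : ℤ)) (z' i) := by
      have := ((hz' i).mono (s := -(B₁ : ℤ)) (by omega)).add hB₁
      rwa [sub_add_cancel] at this
    refine OG.add ?_ ?_
    · refine ((h₁ z' fun i => (hz' i).mono (by push_cast; omega)).mul h3).mono ?_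
      push_cast
      omega
    · refine (hB₂.mul (hz' i)).mono ?_
      push_cast
      omega

/-- evaluation at `(z, θ)` -/
noncomputable def phi (z : σ → LaurentSeries K) (θ : LaurentSeries K) :
    (MvPolynomial σ K)[X] →+* LaurentSeries K :=
  eval₂RingHom (MvPolynomial.aeval z : MvPolynomial σ K →ₐ[K] LaurentSeries K).toRingHom θ

theorem phi_C (z : σ → LaurentSeries K) (θ : LaurentSeries K) (a : MvPolynomial σ K) :
    phi z θ (C a) = MvPolynomial.aeval z a := by
  rw [phi, coe_eval₂RingHom, eval₂_C]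
  rfl

theorem phi_X (z : σ → LaurentSeries K) (θ : LaurentSeries K) :
    phi z θ X = θ := by
  rw [phi, coe_eval₂RingHom, eval₂_X]

theorem phi_eq_eval (z : σ → LaurentSeries K) (θ : LaurentSeries K) (G : (MvPolynomial σ K)[X]) :
    phi z θ G =
      (G.map (MvPolynomial.aeval z : MvPolynomial σ K →ₐ[K] LaurentSeries K).toRingHom).eval θ := by
  rw [phi, coe_eval₂RingHom, eval_map]

theorem cont_phi (G : (MvPolynomial σ K)[X]) (z : σ → LaurentSeries K) (θ : LaurentSeries K)
    (M : ℕ) : ∃ N : ℕ, ∀ (z' : σ → LaurentSeries K) (θ' : LaurentSeries K),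
      (∀ i, OG (N : ℤ) (z' i - z i)) → OG (N : ℤ) (θ' - θ) →
      OG (M : ℤ) (phi z' θ' G - phi z θ G) := by
  induction G using Polynomial.induction_on generalizing M with
  | C a =>
    obtain ⟨N, hN⟩ := cont_mv a z M
    refine ⟨N, fun z' θ' hz' _ => ?_⟩
    rw [phi_C, phi_C]
    exact hN z' hz'
  | add p q hp hq =>
    obtain ⟨N₁, h₁⟩ := hp M
    obtain ⟨N₂, h₂⟩ := hq M
    refine ⟨N₁ + N₂, fun z' θ' hz' hθ' => ?_⟩
    have e : phi z' θ' (p + q) - phi z θ (p + q) =
        (phi z' θ' p - phi z θ p) + (phi z' θ' q - phi z θ q) := by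
      rw [map_add, map_add]
      ring
    rw [e]
    exact (h₁ z' θ' (fun i => (hz' i).mono (by push_cast; omega)) (hθ'.mono (by push_cast; omega))).add
      (h₂ z' θ' (fun i => (hz' i).mono (by push_cast; omega)) (hθ'.mono (by push_cast; omega)))
  | monomial n a hp =>
    obtain ⟨B₁, hB₁⟩ := exists_og_bound θ
    obtain ⟨B₂, hB₂⟩ := exists_og_bound (phi z θ (C a * X ^ n))
    obtain ⟨N₁, h₁⟩ := hp (M + B₁)
    refine ⟨N₁ + M + B₂, fun z' θ' hz' hθ' => ?_⟩
    have e : phi z' θ' (C a * X ^ (n + 1)) - phi z θ (C a * X ^ (n + 1)) =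
        (phi z' θ' (C a * X ^ n) - phi z θ (C a * X ^ n)) * θ' +
        phi z θ (C a * X ^ n) * (θ' - θ) := by
      rw [pow_succ, ← mul_assoc, map_mul (phi z' θ') (C a * X ^ n), map_mul (phi z θ) (C a * X ^ n),
        phi_X, phi_X]
      ring
    rw [e]
    have h3 : OG (-(B₁ : ℤ)) θ' := by
      have := (hθ'.mono (s := -(B₁ : ℤ)) (by omega)).add hB₁
      rwa [sub_add_cancel] at this
    refine OG.add ?_ ?_
    · refine ((h₁ z' θ' (fun i => (hz' i).mono (by push_cast; omega))
        (hθ'.mono (by push_cast; omega))).mul h3).mono ?_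
      push_cast
      omega
    · refine (hB₂.mul hθ').mono ?_
      push_cast
      omega

/-- clearing denominators in a polynomial expression, for ring homomorphisms -/
theorem exists_homog' {B : Type*} [CommRing B] [Algebra K B] {N : ℕ} (D : B) (P : Fin N → B)
    (p : MvPolynomial (Fin N) K) :
    ∃ (m : ℕ) (G : B), ∀ (φ : B →+* LaurentSeries K) (x : Fin N → LaurentSeries K),
      (∀ a : K, φ (algebraMap K B a) = algebraMap K _ a) →
      (∀ i, φ D * x i = φ (P i)) → φ G = (φ D) ^ m * MvPolynomial.aeval x p := by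
  induction p using MvPolynomial.induction_on with
  | C a =>
    refine ⟨0, algebraMap K B a, fun φ x hφ _ => ?_⟩
    rw [hφ, pow_zero, one_mul, MvPolynomial.aeval_C]
  | add p q hp hq =>
    obtain ⟨m₁, G₁, h₁⟩ := hp
    obtain ⟨m₂, G₂, h₂⟩ := hq
    refine ⟨m₁ + m₂, D ^ m₂ * G₁ + D ^ m₁ * G₂, fun φ x hφ hx => ?_⟩
    rw [map_add, map_mul, map_mul, h₁ φ x hφ hx, h₂ φ x hφ hx, map_pow, map_pow, map_add]
    ring
  | mul_X p i hp =>
    obtain ⟨m₁, G₁, h₁⟩ := hp
    refine ⟨m₁ + 1, G₁ * P i, fun φ x hφ hx => ?_⟩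
    rw [map_mul, h₁ φ x hφ hx, ← hx i, map_mul, MvPolynomial.aeval_X]
    ring

/-- truncations -/
theorem exists_trunc (f : LaurentSeries K) (M : ℕ) :
    ∃ u : K[X], OG (M : ℤ) (aeval xx u * tt ^ M - f) := by
  obtain ⟨u, hu⟩ := exists_part (f * xx ^ M) 0 0 (by
    intro i hi hi'
    exfalso
    push_cast at hi hi'
    omega)
  refine ⟨u, ?_⟩
  have h1 := (hu.mul (og_tt_pow (K := K) M)).neg
  rw [pow_zero, mul_one] at h1
  have e : aeval xx u * tt ^ M - f = -((f * xx ^ M - aeval xx u) * tt ^ M) := by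
    have : (xx : LaurentSeries K) ^ M * tt ^ M = 1 := by rw [← mul_pow, xx_mul_tt, one_pow]
    calc aeval xx u * tt ^ M - f = aeval xx u * tt ^ M - f * (xx ^ M * tt ^ M) := by
          rw [this, mul_one]
      _ = _ := by ring
  rw [e]
  refine h1.mono ?_
  push_cast
  omega

theorem clear_mv (z : σ → LaurentSeries K)
    (hz : ∀ i, ∃ (k : ℕ) (u : K[X]), z i * xx ^ k = aeval xx u) (a : MvPolynomial σ K) :
    ∃ (k : ℕ) (u : K[X]), MvPolynomial.aeval z a * xx ^ k = aeval xx u := by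
  induction a using MvPolynomial.induction_on with
  | C c =>
    refine ⟨0, C c, ?_⟩
    rw [MvPolynomial.aeval_C, pow_zero, mul_one, aeval_C]
  | add p q hp hq =>
    obtain ⟨k₁, u₁, h₁⟩ := hp
    obtain ⟨k₂, u₂, h₂⟩ := hq
    refine ⟨k₁ + k₂, u₁ * X ^ k₂ + u₂ * X ^ k₁, ?_⟩
    rw [map_add, map_add, map_mul, map_mul, map_pow, map_pow, aeval_X, ← h₁, ← h₂]
    ring
  | mul_X p i hp =>
    obtain ⟨k₁, u₁, h₁⟩ := hp
    obtain ⟨k₂, u₂, h₂⟩ := hz i
    refine ⟨k₁ + k₂, u₁ * u₂, ?_⟩
    rw [map_mul, map_mul, MvPolynomial.aeval_X, ← h₁, ← h₂]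
    ring

theorem clear_poly (z : σ → LaurentSeries K)
    (hz : ∀ i, ∃ (k : ℕ) (u : K[X]), z i * xx ^ k = aeval xx u) (P : (MvPolynomial σ K)[X]) :
    ∃ (k : ℕ) (Q : K[X][X]), Q.map (aeval (xx : LaurentSeries K)).toRingHom =
      C (xx ^ k) *
        P.map (MvPolynomial.aeval z : MvPolynomial σ K →ₐ[K] LaurentSeries K).toRingHom := by
  induction P using Polynomial.induction_on' with
  | add p q hp hq =>
    obtain ⟨k₁, u₁, h₁⟩ := hp
    obtain ⟨k₂, u₂, h₂⟩ := hq
    refine ⟨k₁ + k₂, u₁ * C X ^ k₂ + u₂ * C X ^ k₁, ?_⟩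
    rw [Polynomial.map_add, Polynomial.map_mul, Polynomial.map_mul, h₁, h₂, Polynomial.map_add,
      Polynomial.map_pow, Polynomial.map_pow, map_C]
    have e : (aeval (xx : LaurentSeries K)).toRingHom (X : K[X]) = xx := aeval_X xx
    rw [e, pow_add, C_mul, C_pow, C_pow]
    ring
  | monomial n a =>
    obtain ⟨k, u, h⟩ := clear_mv z hz a
    refine ⟨k, monomial n u, ?_⟩
    rw [map_monomial, map_monomial, C_mul_monomial]
    congr 1
    rw [mul_comm]
    exact h.symm

end H651
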