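import Pool.Agent.H651_Ample.Gal

/-!
# The key lemma: a root rational over an overfield is rational
-/

set_option autoImplicit false
set_option linter.style.haveILetI false

namespace H651

open IntermediateField Polynomial

universe u

/-- divisibility of degrees -/
theorem dvd_natDegree_of_roots {W A : Type*} [Field W] [Field A] [Algebra W A] [IsAlgClosed A]
    {d : ℕ} (n : ℕ) (r : W[X]) (hn : r.natDegree = n) (hr0 : r ≠ 0)
    (hr : ∀ y : A, aeval y r = 0 → d ∣ (minpoly W y).natDegree) : d ∣ r.natDegree := by
  induction n using Nat.strong_induction_on generalizing r with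
  | _ n ih =>
    rcases Nat.eq_zero_or_pos n with h0 | hpos
    · rw [hn, h0]
      exact dvd_zero d
    · have hdeg : (r.map (algebraMap W A)).degree ≠ 0 := by
        rw [degree_map, degree_eq_natDegree hr0, hn]
        exact_mod_cast hpos.ne'
      obtain ⟨y, hy⟩ := IsAlgClosed.exists_root _ hdeg
      have hy' : aeval y r = 0 := by
        rw [← eval_map_algebraMap]
        exact hy
      have hint : IsIntegral W y := IsAlgebraic.isIntegral ⟨r, hr0, hy'⟩
      obtain ⟨t, ht⟩ := minpoly.dvd W y hy'
      have hm0 : minpoly W y ≠ 0 := minpoly.ne_zero hint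
      have ht0 : t ≠ 0 := by
        rintro rfl
        rw [mul_zero] at ht
        exact hr0 ht
      have hnd : r.natDegree = (minpoly W y).natDegree + t.natDegree := by
        conv_lhs => rw [ht]
        exact natDegree_mul hm0 ht0
      have hmpos := minpoly.natDegree_pos hint
      have h1 := ih t.natDegree (by omega) t rfl ht0 (fun z hz => hr z (by
        rw [ht, map_mul, hz, mul_zero]))
      rw [hnd]
      exact dvd_add (hr y hy') h1

/-- the degree of a rational root over a field between is `1` modulo `d` -/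
theorem natDegree_minpoly_mod {K F W A : Type*} [Field K] [Field F] [Field W] [Field A]
    [Algebra K F] [Algebra F A] [Algebra K A] [IsScalarTower K F A] [Algebra W A] [IsAlgClosed A]
    (hrange : ∀ x : F, ∃ z : W, algebraMap W A z = algebraMap F A x)
    (f : K[X]) (hf0 : f ≠ 0) {d : ℕ} (y₁ : W)
    (hy : aeval (algebraMap W A y₁) f = 0) (hsimple : aeval (algebraMap W A y₁) (derivative f) ≠ 0)
    (hother : ∀ y : A, aeval y f = 0 → y ≠ algebraMap W A y₁ → d ∣ (minpoly W y).natDegree) :
    ∃ a, (minpoly F (algebraMap W A y₁)).natDegree = 1 + d * a := by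
  set α : A := algebraMap W A y₁ with hα
  have hfF : aeval α (f.map (algebraMap K F)) = 0 := by rw [aeval_map_algebraMap, hy]
  have hfF0 : f.map (algebraMap K F) ≠ 0 :=
    (Polynomial.map_ne_zero_iff (algebraMap K F).injective).2 hf0
  have hint : IsIntegral F α := IsAlgebraic.isIntegral ⟨_, hfF0, hfF⟩
  set μ := minpoly F α with hμ
  have hμm : μ.Monic := minpoly.monic hint
  obtain ⟨t, ht⟩ := minpoly.dvd F α hfF
  -- lift to `W`
  choose ψ hψ using hrange
  set μW : W[X] := ∑ i ∈ Finset.range (μ.natDegree + 1), C (ψ (μ.coeff i)) * X ^ i with hμW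
  have hmap : μW.map (algebraMap W A) = μ.map (algebraMap F A) := by
    ext1 i
    rw [coeff_map, coeff_map, hμW, finsetSum_coeff]
    simp only [coeff_C_mul, coeff_X_pow, mul_ite, mul_one, mul_zero]
    rw [Finset.sum_ite_eq]
    split_ifs with hi
    · exact hψ _
    · rw [Finset.mem_range, not_lt] at hi
      rw [map_zero, coeff_eq_zero_of_natDegree_lt (by omega), map_zero]
  have hnd : μW.natDegree = μ.natDegree := by
    rw [← natDegree_map_eq_of_injective (algebraMap W A).injective, hmap,
      natDegree_map_eq_of_injective (algebraMap F A).injective]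
  have hμW0 : μW ≠ 0 := by
    intro h
    rw [h, Polynomial.map_zero] at hmap
    exact (Polynomial.map_ne_zero_iff (algebraMap F A).injective).2 hμm.ne_zero hmap.symm
  have hroot : μW.IsRoot y₁ := by
    apply (algebraMap W A).injective
    rw [map_zero, ← eval₂_at_apply, ← eval_map, hmap, eval_map_algebraMap]
    exact minpoly.aeval F α
  obtain ⟨r, hr⟩ := dvd_iff_isRoot.2 hroot
  have hr0 : r ≠ 0 := by
    rintro rfl
    rw [mul_zero] at hr
    exact hμW0 hr
  have hrd : μW.natDegree = 1 + r.natDegree := by
    conv_lhs => rw [hr]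
    rw [natDegree_mul (X_sub_C_ne_zero y₁) hr0, natDegree_X_sub_C]
  have hdvd : d ∣ r.natDegree := by
    apply dvd_natDegree_of_roots (A := A) _ r rfl hr0
    intro y hyr
    have h1 : aeval y μW = 0 := by rw [hr, map_mul, hyr, mul_zero]
    have h2 : aeval y μ = 0 := by
      rw [← eval_map_algebraMap, ← hmap, eval_map_algebraMap, h1]
    have h3 : aeval y f = 0 := by
      rw [← aeval_map_algebraMap F, ht, map_mul, h2, zero_mul]
    apply hother y h3
    rintro rfl
    apply hsimple
    have h4 : aeval α (derivative μ) = 0 := by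
      rw [← eval_map_algebraMap, ← derivative_map, ← hmap, derivative_map, eval_map_algebraMap,
        hr, derivative_mul, map_add, map_mul, map_mul, hyr, mul_zero, zero_add, map_sub,
        aeval_X, aeval_C, ← hα, sub_self, zero_mul]
    rw [← aeval_map_algebraMap F, ← derivative_map, ht, derivative_mul, map_add, map_mul, map_mul,
      h4, zero_mul]
    have h5 : aeval α μ = 0 := minpoly.aeval F α
    rw [h5, zero_mul, add_zero]
  obtain ⟨a, ha⟩ := hdvd
  exact ⟨a, by rw [← hnd, hrd, ha]⟩

/-- the arithmetic of block sizes -/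
theorem arith_blocks {d s a a' q : ℕ} (hd : 1 ≤ d) (hsd : s ≤ d)
    (hnpp : ∀ a, 1 ≤ a → a ≤ s → ¬ IsPrimePow (1 + d * a)) (has : a ≤ s)
    (hq : IsPrimePow q) (h : 1 + d * a = q * (1 + d * a')) : False := by
  have hq1 : 1 < q := hq.one_lt
  have h1 : d ∣ q - 1 := by
    have h2 : d * a = (q - 1) + d * (q * a') := by
      have : q * (1 + d * a') = (q - 1) + 1 + d * (q * a') := by
        rw [Nat.sub_add_cancel hq1.le]
        ring
      omega
    have h3 : d ∣ (q - 1) + d * (q * a') := ⟨a, h2.symm⟩
    exact (Nat.dvd_add_left (dvd_mul_right d _)).1 h3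
  obtain ⟨c, hc⟩ := h1
  have hc1 : 1 ≤ c := by
    rcases Nat.eq_zero_or_pos c with h | h
    · rw [h, mul_zero] at hc
      omega
    · exact h
  have hq' : q = 1 + d * c := by omega
  rcases Nat.eq_zero_or_pos a' with h0 | h0
  · rw [h0, mul_zero, add_zero, mul_one] at h
    have ha1 : 1 ≤ a := by
      rcases Nat.eq_zero_or_pos a with h' | h'
      · rw [h', mul_zero] at h
        omega
      · exact h'
    exact hnpp a ha1 has (h ▸ hq)
  · rw [hq'] at h
    have h2 : d * a = d * (a' + c + d * c * a') := by
      have : (1 + d * c) * (1 + d * a') = 1 + d * (a' + c + d * c * a') := by ring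
      omega
    have h3 : a = a' + c + d * c * a' := Nat.eq_of_mul_eq_mul_left hd h2
    have h4 : d * 1 * 1 ≤ d * c * a' := Nat.mul_le_mul (Nat.mul_le_mul_left _ hc1) h0
    omega

/-- **The key lemma.** -/
theorem key_lemma {K W A : Type u} [Field K] [Field W] [Field A] [Algebra K W] [Algebra W A]
    [Algebra K A] [IsScalarTower K W A] [IsAlgClosed A] (H : ProSolv K) (f : K[X]) (hf0 : f ≠ 0)
    {d s : ℕ} (hd : 1 ≤ d) (hdeg : f.natDegree ≤ 1 + d * s) (hsd : s ≤ d)
    (hnpp : ∀ a, 1 ≤ a → a ≤ s → ¬ IsPrimePow (1 + d * a)) (y₁ : W)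
    (hy : aeval (algebraMap W A y₁) f = 0) (hsimple : aeval (algebraMap W A y₁) (derivative f) ≠ 0)
    (hother : ∀ y : A, aeval y f = 0 → y ≠ algebraMap W A y₁ → d ∣ (minpoly W y).natDegree) :
    ∃ a : K, algebraMap K W a = y₁ := by
  classical
  by_contra hcon
  set α : A := algebraMap W A y₁ with hα
  have hint : IsIntegral K α := IsAlgebraic.isIntegral ⟨f, hf0, hy⟩
  have hαK : ∀ a : K, algebraMap K A a ≠ α := by
    intro a ha
    apply hcon
    refine ⟨a, (algebraMap W A).injective ?_⟩
    rw [← IsScalarTower.algebraMap_apply, ha]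
  -- separability
  have hsep : (minpoly K α).Separable := by
    obtain ⟨t, ht⟩ := minpoly.dvd K α hy
    rw [separable_iff_derivative_ne_zero (minpoly.irreducible hint)]
    intro h
    apply hsimple
    rw [ht, derivative_mul, h, zero_mul, zero_add, map_mul, minpoly.aeval, zero_mul]
  set M : IntermediateField K A := K⟮α⟯ with hM
  haveI hMfin : FiniteDimensional K M := adjoin.finiteDimensional hint
  haveI hMsep : Algebra.IsSeparable K M :=
    (isSeparable_adjoin_simple_iff_isSeparable K A).2 hsep
  have hMbot : M ≠ ⊥ := by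
    intro h
    rw [hM, adjoin_simple_eq_bot_iff, mem_bot] at h
    obtain ⟨a, ha⟩ := h
    exact hαK a ha
  -- a minimal subextension
  have hex : ∃ n : ℕ, ∃ F : IntermediateField K A, F ≤ M ∧ F ≠ ⊥ ∧ Module.finrank K F = n :=
    ⟨_, M, le_rfl, hMbot, rfl⟩
  obtain ⟨F, hFM, hFbot, hFn⟩ := Nat.find_spec hex
  haveI hFfin : FiniteDimensional K F :=
    FiniteDimensional.of_injective (inclusion hFM).toLinearMap (inclusion hFM).injective
  haveI hFsep : Algebra.IsSeparable K F := by
    refine ⟨fun x => ?_⟩
    have h1 : IsSeparable K (inclusion hFM x) := Algebra.IsSeparable.isSeparable K _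
    unfold IsSeparable at h1 ⊢
    rwa [minpoly.algHom_eq _ (inclusion hFM).injective] at h1
  have hFmin : ∀ F' : IntermediateField K A, F' ≤ F → F' = ⊥ ∨ F' = F := by
    intro F' hF'
    by_cases hb : F' = ⊥
    · exact Or.inl hb
    · right
      have h1 : Module.finrank K F ≤ Module.finrank K F' := by
        rw [hFn]
        exact Nat.find_min' hex ⟨F', hF'.trans hFM, hb, rfl⟩
      exact eq_of_le_of_finrank_le hF' h1
  obtain ⟨β, hβ⟩ := Field.exists_primitive_element K F
  have hβF : K⟮(β : A)⟯ = F := by
    have h1 := congrArg lift hβ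
    rwa [lift_adjoin_simple, lift_top] at h1
  have hβint : IsIntegral K (β : A) := by
    have h1 : IsIntegral K β := Algebra.IsIntegral.isIntegral β
    exact h1.map F.val
  have hβmin : minpoly K (β : A) = minpoly K β := minpoly.algHom_eq F.val F.val.injective β
  have hq : IsPrimePow (minpoly K (β : A)).natDegree := by
    apply isPrimePow_of_atom H (β : A) hβint
    · rw [hβmin]
      exact Algebra.IsSeparable.isSeparable K β
    · exact IsAlgClosed.splits _
    · intro a ha
      apply hFbot
      rw [← hβF, adjoin_simple_eq_bot_iff, mem_bot]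
      exact ⟨a, ha⟩
    · intro F' hF'
      rw [hβF] at hF' ⊢
      exact hFmin F' hF'
  have hqF : (minpoly K (β : A)).natDegree = Module.finrank K F := by
    rw [← adjoin.finrank hβint, hβF]
  -- degrees
  have hrangeM : ∀ x ∈ M, ∃ z : W, algebraMap W A z = x := by
    intro x hx
    have h1 : M ≤ (IsScalarTower.toAlgHom K W A).fieldRange := by
      rw [hM, adjoin_simple_le_iff]
      exact ⟨y₁, rfl⟩
    obtain ⟨z, hz⟩ := h1 hx
    exact ⟨z, hz⟩
  obtain ⟨a, ha⟩ := natDegree_minpoly_mod (K := K) (F := K) (W := W) (A := A)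
    (fun x => ⟨algebraMap K W x, by rw [← IsScalarTower.algebraMap_apply]⟩) f hf0 y₁ hy hsimple
    hother
  obtain ⟨a', ha'⟩ := natDegree_minpoly_mod (K := K) (F := F) (W := W) (A := A)
    (fun x => hrangeM _ (hFM x.2)) f hf0 y₁ hy hsimple hother
  rw [← hα] at ha ha'
  have hintF : IsIntegral F α := hint.tower_top
  have htower : Module.finrank K F * (minpoly F α).natDegree = (minpoly K α).natDegree := by
    rw [← adjoin.finrank hintF, ← adjoin.finrank hint]
    have h1 : (adjoin F {α}).restrictScalars K = M := by
      apply le_antisymm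
      · rw [restrictScalars_adjoin, adjoin_le_iff]
        rintro z (hz | hz)
        · exact hFM hz
        · rw [Set.mem_singleton_iff] at hz
          rw [hz]
          exact mem_adjoin_simple_self K α
      · rw [hM, adjoin_simple_le_iff]
        exact mem_adjoin_simple_self F α
    have h2 : Module.finrank K (adjoin F {α}) = Module.finrank K M := by
      rw [← h1]
      rfl
    rw [Module.finrank_mul_finrank K F (adjoin F {α}), h2]
  have has : a ≤ s := by
    have h1 : (minpoly K α).natDegree ≤ f.natDegree :=
      natDegree_le_of_dvd (minpoly.dvd K α hy) hf0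
    rw [ha] at h1
    have h2 : d * a ≤ d * s := by omega
    exact Nat.le_of_mul_le_mul_left h2 hd
  rw [hqF] at hq
  apply arith_blocks hd hsd hnpp has hq (a' := a')
  rw [← ha, ← ha', htower]

end H651
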