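import Pool.Agent.H651_Ample.Apery

/-!
# Plane models
-/

set_option autoImplicit false
set_option linter.style.haveILetI false

namespace H651

open Polynomial

attribute [-instance] HahnSeries.instSMul
attribute [-instance] HahnSeries.instModule

/-- evaluation of a polynomial in two variables -/
noncomputable def ev2 {K F : Type*} [Field K] [Field F] [Algebra K F] (h g : F) : K[X][X] →+* F :=
  eval₂RingHom (aeval (R := K) h).toRingHom g

section general

variable {K F : Type*} [Field K] [Field F] [Algebra K F]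

theorem ev2_C (h g : F) (u : K[X]) : ev2 h g (C u) = aeval h u := by
  rw [ev2, coe_eval₂RingHom, eval₂_C]
  rfl

theorem ev2_X (h g : F) : ev2 (K := K) h g X = g := by
  rw [ev2, coe_eval₂RingHom, eval₂_X]

theorem ev2_sum (h g : F) (P : K[X][X]) (n : ℕ) (hn : P.natDegree < n) :
    ev2 h g P = ∑ j ∈ Finset.range n, aeval h (P.coeff j) * g ^ j := by
  rw [ev2, coe_eval₂RingHom, eval₂_eq_sum_range' _ hn]
  rfl

end general

variable {K : Type*} [Field K]

/-- the characteristic polynomial relation -/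
theorem charpoly_rel {n : ℕ} {h g : LaurentSeries K} (a : Fin n → LaurentSeries K)
    (i₀ : Fin n) (hi₀ : a i₀ ≠ 0) (M : Matrix (Fin n) (Fin n) K[X])
    (hM : ∀ i, g * a i = ∑ j, aeval h (M i j) * a j) : ev2 h g M.charpoly = 0 := by
  have h1 : ev2 h g M.charpoly = (M.map (aeval (R := K) h).toRingHom).charpoly.eval g := by
    rw [Matrix.charpoly_map, eval_map]
    rfl
  rw [h1, Matrix.eval_charpoly, ← Matrix.exists_mulVec_eq_zero_iff]
  refine ⟨a, fun h => hi₀ (by rw [h]; rfl), ?_⟩
  funext i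
  rw [Matrix.sub_mulVec, Pi.sub_apply, Pi.zero_apply, sub_eq_zero]
  have h2 : ((Matrix.scalar (Fin n)) g).mulVec a i = g * a i := by
    rw [Matrix.scalar_apply, Matrix.mulVec_diagonal]
  rw [h2, hM]
  rfl

theorem natDegree_bound {n c j : ℕ} (hj : j < n) (h : n * c + (n - 1) * j ≤ n * (n - 1)) :
    c + j ≤ n - 1 := by
  by_contra hcon
  push Not at hcon
  obtain ⟨k, rfl⟩ : ∃ k, n = j + k + 1 := ⟨n - 1 - j, by omega⟩
  simp only [Nat.add_sub_cancel] at h hcon
  have h1 : k + 1 ≤ c := by omega
  have h2 : (j + k + 1) * (k + 1) ≤ (j + k + 1) * c := Nat.mul_le_mul_left _ h1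
  have h3 : (j + k + 1) * (k + 1) + (j + k) * j = (j + k + 1) * (j + k) + (k + 1) := by ring
  omega

/-- **plane models**: the relation between functions with pole orders `n` and `n - 1` -/
theorem plane_rel {A : Subalgebra K (LaurentSeries K)} (hA : FA A) {n : ℕ} (hn : 2 ≤ n)
    {h g : LaurentSeries K} (hh : h ∈ A) (h0 : h ≠ 0) (hord : h.order = -(n : ℤ))
    (hg : g ∈ A) (g0 : g ≠ 0) (gord : g.order = -((n - 1 : ℕ) : ℤ)) :
    ∃ R : K[X][X], R.Monic ∧ R.natDegree = n ∧ ev2 h g R = 0 ∧
      (R.coeff 0).natDegree = n - 1 ∧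
      ∀ j, 1 ≤ j → j < n → (R.coeff j) ≠ 0 → (R.coeff j).natDegree + j ≤ n - 1 := by
  classical
  have hn1 : 1 ≤ n := by omega
  obtain ⟨a, m, haA, ha0, hao, hmod, hspan⟩ := hA.apery hn1 hh h0 hord
  have hM := fun i => hspan _ (A.mul_mem hg (haA i))
  choose M hM using hM
  have hrel := charpoly_rel (h := h) (g := g) a ⟨0, by omega⟩ (ha0 _) (Matrix.of M) hM
  set R := (Matrix.of M).charpoly with hR
  have hRm : R.Monic := Matrix.charpoly_monic _
  have hRd : R.natDegree = n := by
    rw [hR, Matrix.charpoly_natDegree_eq_dim, Fintype.card_fin]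
  -- the powers of `g`
  have hga0 : ∀ i : Fin n, g ^ (i : ℕ) ≠ 0 := fun i => pow_ne_zero _ g0
  have hgao : ∀ i : Fin n, (g ^ (i : ℕ)).order = -(((n - 1) * i : ℕ) : ℤ) := by
    intro i
    rw [HahnSeries.order_pow, gord, nsmul_eq_mul]
    push_cast
    ring
  have hgmod : ∀ i j : Fin n, ((n - 1) * (i : ℕ)) % n = ((n - 1) * (j : ℕ)) % n → i = j := by
    intro i j hij
    have h1 : (n - 1) * (i : ℕ) ≡ (n - 1) * (j : ℕ) [MOD n] := hij
    have hco : Nat.gcd n (n - 1) = 1 := by
      have := (Nat.coprime_self_sub_right (show 1 ≤ n by omega)).2 (Nat.coprime_one_right n)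
      exact this
    have h2 := Nat.ModEq.cancel_left_of_coprime hco h1
    have h3 : (i : ℕ) % n = (j : ℕ) % n := h2
    rw [Nat.mod_eq_of_lt i.2, Nat.mod_eq_of_lt j.2] at h3
    exact Fin.ext h3
  have hsum : ∑ i : Fin n, aeval h (R.coeff i) * g ^ (i : ℕ) = -g ^ n := by
    have h1 := ev2_sum h g R (n + 1) (by omega)
    rw [hrel, Finset.sum_range_succ] at h1
    have h2 : R.coeff n = 1 := by rw [← hRd]; exact hRm.coeff_natDegree
    rw [h2, map_one, one_mul] at h1
    rw [Finset.sum_range] at h1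
    exact eq_neg_of_add_eq_zero_left h1.symm
  have hgn0 : g ^ n ≠ 0 := pow_ne_zero _ g0
  have hgn : (g ^ n).order = -((n * (n - 1) : ℕ) : ℤ) := by
    rw [HahnSeries.order_pow, gord, nsmul_eq_mul]
    push_cast
    ring
  have hbd : ∀ i : Fin n, R.coeff i ≠ 0 → n * (R.coeff i).natDegree + (n - 1) * i ≤ n * (n - 1) := by
    intro i hi
    have h1 := indep hn1 h0 hord (fun i : Fin n => g ^ (i : ℕ)) (fun i => (n - 1) * i)
      hga0 hgao hgmod (fun i => R.coeff i) (r := -((n * (n - 1) : ℕ) : ℤ)) (by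
        rw [hsum]
        exact ((og_iff_order hgn0).2 hgn.ge).neg) i hi
    omega
  have hbd' : ∀ j, 1 ≤ j → j < n → (R.coeff j) ≠ 0 → (R.coeff j).natDegree + j ≤ n - 1 := by
    intro j _ hjn hj0
    exact natDegree_bound hjn (hbd ⟨j, hjn⟩ hj0)
  refine ⟨R, hRm, hRd, hrel, ?_, hbd'⟩
  -- the coefficient of `g ^ 0`
  by_contra hne
  have hterm : ∀ i : Fin n, R.coeff i ≠ 0 →
      OG (-((n * (n - 1) : ℕ) : ℤ) + 1) (aeval h (R.coeff i) * g ^ (i : ℕ)) := by
    intro i hi
    obtain ⟨h1, h2⟩ := order_aeval h0 hn1 hord (R.coeff i) hi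
    rw [og_iff_order (mul_ne_zero h1 (hga0 i)), HahnSeries.order_mul h1 (hga0 i), h2, hgao]
    have h3 := hbd i hi
    rcases Nat.eq_zero_or_pos (i : ℕ) with hi0 | hi0
    · rw [hi0] at h3 ⊢
      have h4 : (R.coeff 0).natDegree < n - 1 := by
        rw [mul_zero, add_zero] at h3
        have := Nat.le_of_mul_le_mul_left h3 (by omega : 0 < n)
        omega
      have h5 : n * (R.coeff 0).natDegree + n ≤ n * (n - 1) := by
        rw [← Nat.mul_succ]
        exact Nat.mul_le_mul_left _ h4
      rw [mul_zero]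
      omega
    · have h4 := hbd' i hi0 i.2 hi
      have h5 : n * ((R.coeff i).natDegree + i) ≤ n * (n - 1) := Nat.mul_le_mul_left _ h4
      rw [mul_add] at h5
      have h6 : n * (i : ℕ) = (n - 1) * i + i := by
        obtain ⟨k, rfl⟩ : ∃ k, n = k + 1 := ⟨n - 1, by omega⟩
        rw [Nat.add_sub_cancel]
        ring
      omega
  have hall : OG (-((n * (n - 1) : ℕ) : ℤ) + 1) (∑ i : Fin n, aeval h (R.coeff i) * g ^ (i : ℕ)) := by
    apply og_sum
    intro i _
    by_cases hi : R.coeff i = 0
    · rw [hi, map_zero, zero_mul]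
      exact og_zero _
    · exact hterm i hi
  rw [hsum] at hall
  have h7 := (og_iff_order (neg_ne_zero.2 hgn0)).1 hall
  rw [HahnSeries.order_neg, hgn] at h7
  omega

/-- the fractions: every element is a polynomial in `h, g` over a denominator in `h` -/
theorem plane_frac {A : Subalgebra K (LaurentSeries K)} (hA : FA A) {n : ℕ} (hn : 2 ≤ n)
    {h g : LaurentSeries K} (hh : h ∈ A) (h0 : h ≠ 0) (hord : h.order = -(n : ℤ))
    (hg : g ∈ A) (g0 : g ≠ 0) (gord : g.order = -((n - 1 : ℕ) : ℤ)) :
    (∀ P : K[X][X], P.natDegree < n → ev2 h g P = 0 → P = 0) ∧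
    (∃ Q : K[X], Q ≠ 0 ∧ ∀ a ∈ A, ∃ P : K[X][X], aeval h Q * a = ev2 h g P) ∧
    (∀ b ∈ A, b ≠ 0 → ∃ N : K[X], N ≠ 0 ∧ ∃ T ∈ A, b * T = aeval h N) := by
  classical
  have hn1 : 1 ≤ n := by omega
  obtain ⟨a, m, haA, ha0, hao, hmod, hspan⟩ := hA.apery hn1 hh h0 hord
  have hga0 : ∀ i : Fin n, g ^ (i : ℕ) ≠ 0 := fun i => pow_ne_zero _ g0
  have hgao : ∀ i : Fin n, (g ^ (i : ℕ)).order = -(((n - 1) * i : ℕ) : ℤ) := by
    intro i
    rw [HahnSeries.order_pow, gord, nsmul_eq_mul]
    push_cast
    ring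
  have hgmod : ∀ i j : Fin n, ((n - 1) * (i : ℕ)) % n = ((n - 1) * (j : ℕ)) % n → i = j := by
    intro i j hij
    have h1 : (n - 1) * (i : ℕ) ≡ (n - 1) * (j : ℕ) [MOD n] := hij
    have hco : Nat.gcd n (n - 1) = 1 := by
      have := (Nat.coprime_self_sub_right (show 1 ≤ n by omega)).2 (Nat.coprime_one_right n)
      exact this
    have h2 := Nat.ModEq.cancel_left_of_coprime hco h1
    have h3 : (i : ℕ) % n = (j : ℕ) % n := h2
    rw [Nat.mod_eq_of_lt i.2, Nat.mod_eq_of_lt j.2] at h3
    exact Fin.ext h3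
  have hind : ∀ P : K[X][X], P.natDegree < n → ev2 h g P = 0 → P = 0 := by
    intro P hP hP0
    rw [ev2_sum h g P n hP, Finset.sum_range] at hP0
    ext1 j
    rcases lt_or_ge j n with hj | hj
    · exact indep_zero hn1 h0 hord (fun i : Fin n => g ^ (i : ℕ)) (fun i => (n - 1) * i)
        hga0 hgao hgmod (fun i => P.coeff i) hP0 ⟨j, hj⟩
    · rw [coeff_eq_zero_of_natDegree_lt (by omega), coeff_zero]
  refine ⟨hind, ?_, ?_⟩
  · have hB := fun i : Fin n => hspan _ (A.pow_mem hg (i : ℕ))
    choose B hB using hB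
    set B' : Matrix (Fin n) (Fin n) K[X] := Matrix.of B with hB'
    have hdet : B'.det ≠ 0 := by
      intro hdet
      obtain ⟨v, hv, hv2⟩ := Matrix.exists_vecMul_eq_zero_iff.2 hdet
      apply hv
      funext j
      refine indep_zero hn1 h0 hord (fun i : Fin n => g ^ (i : ℕ)) (fun i => (n - 1) * i)
        hga0 hgao hgmod v ?_ j
      calc ∑ i, aeval h (v i) * g ^ (i : ℕ)
          = ∑ i, ∑ k, aeval h (v i * B i k) * a k := by
            refine Finset.sum_congr rfl fun i _ => ?_
            rw [hB i, Finset.mul_sum]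
            refine Finset.sum_congr rfl fun k _ => ?_
            rw [map_mul]
            ring
        _ = ∑ k, (∑ i, aeval h (v i * B i k)) * a k := by
            rw [Finset.sum_comm]
            refine Finset.sum_congr rfl fun k _ => ?_
            rw [Finset.sum_mul]
        _ = 0 := by
            apply Finset.sum_eq_zero
            intro k _
            rw [← map_sum]
            have := congrFun hv2 k
            have h2 : ∑ i, v i * B i k = 0 := this
            rw [h2, map_zero, zero_mul]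
    refine ⟨B'.det, hdet, ?_⟩
    have hak : ∀ k : Fin n, aeval h B'.det * a k =
        ∑ j : Fin n, aeval h (B'.adjugate k j) * g ^ (j : ℕ) := by
      intro k
      calc aeval h B'.det * a k = ∑ i, aeval h ((B'.adjugate * B') k i) * a i := by
            rw [Matrix.adjugate_mul]
            rw [Finset.sum_eq_single k]
            · rw [Matrix.smul_apply, Matrix.one_apply_eq, smul_eq_mul, mul_one]
            · intro i _ hi
              rw [Matrix.smul_apply, Matrix.one_apply_ne hi.symm, smul_eq_mul, mul_zero, map_zero,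
                zero_mul]
            · intro hk
              exact absurd (Finset.mem_univ k) hk
        _ = ∑ i, ∑ j, aeval h (B'.adjugate k j) * aeval h (B j i) * a i := by
            refine Finset.sum_congr rfl fun i _ => ?_
            rw [Matrix.mul_apply, map_sum, Finset.sum_mul]
            refine Finset.sum_congr rfl fun j _ => ?_
            rw [map_mul]
            rfl
        _ = ∑ j, aeval h (B'.adjugate k j) * g ^ (j : ℕ) := by
            rw [Finset.sum_comm]
            refine Finset.sum_congr rfl fun j _ => ?_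
            rw [hB j, Finset.mul_sum]
            refine Finset.sum_congr rfl fun i _ => ?_
            ring
    intro f hf
    obtain ⟨c, hc⟩ := hspan f hf
    refine ⟨∑ k, ∑ j : Fin n, C (c k * B'.adjugate k j) * X ^ (j : ℕ), ?_⟩
    rw [map_sum, hc, Finset.mul_sum]
    refine Finset.sum_congr rfl fun k _ => ?_
    rw [map_sum]
    calc aeval h B'.det * (aeval h (c k) * a k) = aeval h (c k) * (aeval h B'.det * a k) := by ring
      _ = _ := by
        rw [hak, Finset.mul_sum]
        refine Finset.sum_congr rfl fun j _ => ?_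
        rw [map_mul, map_pow, ev2_C, ev2_X, map_mul]
        ring
  · intro b hb hb0
    have hM := fun i => hspan _ (A.mul_mem hb (haA i))
    choose M hM using hM
    have hrel := charpoly_rel (h := h) (g := b) a ⟨0, by omega⟩ (ha0 _) (Matrix.of M) hM
    have hex : ∃ N : ℕ, ∃ P : K[X][X], P ≠ 0 ∧ ev2 h b P = 0 ∧ P.natDegree = N :=
      ⟨_, _, (Matrix.charpoly_monic (Matrix.of M)).ne_zero, hrel, rfl⟩
    obtain ⟨P, hP0, hPe, hPd⟩ := Nat.find_spec hex
    have hmin : ∀ P' : K[X][X], P' ≠ 0 → ev2 h b P' = 0 → P.natDegree ≤ P'.natDegree := by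
      intro P' h1 h2
      rw [hPd]
      exact Nat.find_min' hex ⟨P', h1, h2, rfl⟩
    have hdec : P = X * P.divX + C (P.coeff 0) := (X_mul_divX_add P).symm
    have hc0 : P.coeff 0 ≠ 0 := by
      intro hc0
      rw [hc0, C_0, add_zero] at hdec
      have h1 : P.divX ≠ 0 := by
        intro h1
        rw [h1, mul_zero] at hdec
        exact hP0 hdec
      have h2 : ev2 h b P.divX = 0 := by
        rw [hdec, map_mul, ev2_X] at hPe
        exact (mul_eq_zero.1 hPe).resolve_left hb0
      have h3 := hmin _ h1 h2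
      rw [natDegree_divX_eq_natDegree_tsub_one] at h3
      have h4 : P.natDegree = 0 := by omega
      rw [eq_C_of_natDegree_eq_zero h4, hc0, C_0] at hP0
      exact hP0 rfl
    refine ⟨P.coeff 0, hc0, -ev2 h b P.divX, ?_, ?_⟩
    · apply A.neg_mem
      rw [ev2_sum h b P.divX _ (Nat.lt_succ_self _)]
      apply A.sum_mem
      intro j _
      refine A.mul_mem ?_ (A.pow_mem hb j)
      have : Algebra.adjoin K {h} ≤ A := by
        rw [Algebra.adjoin_le_iff]
        intro w hw
        rw [Set.mem_singleton_iff] at hw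
        rw [hw]
        exact hh
      exact this (aeval_mem_adjoin_singleton K h)
    · rw [hdec, map_add, map_mul, ev2_X, ev2_C] at hPe
      rw [mul_neg]
      exact (eq_neg_of_add_eq_zero_right hPe).symm

end H651
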