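import Pool.Agent.H651_Ample.Pert
import Pool.Agent.H651_Ample.KL
import Pool.Agent.H651_Ample.Plane

/-!
# The core argument: rational points on plane models
-/

set_option autoImplicit false
set_option linter.style.haveILetI false

namespace H651

open Polynomial

universe u v

/-- a common bound for finitely many elements -/
theorem exists_bound {K : Type*} [Field K] {Γ₀ : Type*} [LinearOrderedCommGroupWithZero Γ₀]
    (w : Valuation K Γ₀) (T : Finset K) :
    ∃ C : K, C ≠ 0 ∧ 1 ≤ w C ∧ ∀ t ∈ T, w t ≤ w C := by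
  classical
  induction T using Finset.induction_on with
  | empty => exact ⟨1, one_ne_zero, by rw [map_one], by simp⟩
  | insert a T ha ih =>
    obtain ⟨C, hC0, hC1, hC⟩ := ih
    rcases le_total (w a) (w C) with h | h
    · refine ⟨C, hC0, hC1, fun t ht => ?_⟩
      rcases Finset.mem_insert.1 ht with rfl | ht
      · exact h
      · exact hC t ht
    · refine ⟨a, ?_, hC1.trans h, fun t ht => ?_⟩
      · rintro rfl
        rw [map_zero] at h
        exact absurd (hC1.trans h) (by simp)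
      · rcases Finset.mem_insert.1 ht with rfl | ht
        · exact le_rfl
        · exact (hC t ht).trans h

/-- a polynomial does not vanish at a very large element -/
theorem eval_ne_zero_of_large {A : Type*} [Field A] {Γ₀ : Type*}
    [LinearOrderedCommGroupWithZero Γ₀] {w : Valuation A Γ₀} {c : Γ₀} {E : A[X]} (hE : E ≠ 0)
    (hEc : PB w c E) (hlc : 1 ≤ c * w E.leadingCoeff) {x : A} (hc : 1 ≤ c) (hx : c ^ 2 < w x) :
    E.eval x ≠ 0 := by
  intro h
  have hx1 : 1 < w x := lt_of_le_of_lt (one_le_pow₀ hc) hx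
  have hx0 : 0 < w x := lt_trans zero_lt_one hx1
  have hc0 : 0 < c := lt_of_lt_of_le zero_lt_one hc
  rw [eval_eq_sum_range, Finset.sum_range_succ] at h
  have hlead : 0 < w (E.coeff E.natDegree * x ^ E.natDegree) := by
    rw [map_mul, map_pow]
    exact mul_pos ((Valuation.pos_iff w).2 (leadingCoeff_ne_zero.2 hE)) (pow_pos hx0 _)
  have h1 : w (∑ i ∈ Finset.range E.natDegree, E.coeff i * x ^ i) <
      w (E.coeff E.natDegree * x ^ E.natDegree) := by
    apply w.map_sum_lt hlead.ne'
    intro i hi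
    rw [Finset.mem_range] at hi
    rw [map_mul, map_mul, map_pow, map_pow]
    have h2 : c * (w (E.coeff i) * w x ^ i) < c * (w (E.coeff E.natDegree) * w x ^ E.natDegree) := by
      calc c * (w (E.coeff i) * w x ^ i) ≤ c * (c * w x ^ i) :=
            mul_le_mul_right (mul_le_mul_left (hEc i) _) _
        _ = c ^ 2 * w x ^ i := by rw [pow_two, mul_assoc]
        _ < w x * w x ^ i := mul_lt_mul_of_pos_right hx (pow_pos hx0 _)
        _ = w x ^ (i + 1) := (pow_succ' _ _).symm
        _ ≤ w x ^ E.natDegree := pow_le_pow_right₀ hx1.le hi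
        _ = 1 * w x ^ E.natDegree := (one_mul _).symm
        _ ≤ (c * w E.leadingCoeff) * w x ^ E.natDegree := mul_le_mul_left hlc _
        _ = c * (w (E.coeff E.natDegree) * w x ^ E.natDegree) := by rw [mul_assoc]; rfl
    exact lt_of_mul_lt_mul_left h2 zero_le
  have h2 : E.coeff E.natDegree * x ^ E.natDegree =
      -∑ i ∈ Finset.range E.natDegree, E.coeff i * x ^ i := by
    linear_combination h
  rw [h2, Valuation.map_neg] at h1
  exact lt_irrefl _ h1

/-- the coefficients of the plane relation -/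
noncomputable def rK {K : Type*} [Field K] (R : K[X][X]) (s j i : ℕ) : K :=
  if s < i + j then 0 else (R.coeff j).coeff i

theorem rK_zero {K : Type*} [Field K] (R : K[X][X]) (s : ℕ) (j i : ℕ) (h : s < i + j) :
    rK R s j i = 0 := by rw [rK, if_pos h]

theorem rK_eq {K : Type*} [Field K] {R : K[X][X]} {s : ℕ} (hR0 : (R.coeff 0).natDegree = s)
    (hRj : ∀ j, 1 ≤ j → j < s + 1 → R.coeff j ≠ 0 → (R.coeff j).natDegree + j ≤ s)
    {j : ℕ} (hj : j < s + 1) (i : ℕ) : (R.coeff j).coeff i = rK R s j i := by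
  rw [rK]
  split_ifs with h
  · rcases Nat.eq_zero_or_pos j with h0 | h0
    · subst h0
      exact coeff_eq_zero_of_natDegree_lt (by omega)
    · by_cases hz : R.coeff j = 0
      · rw [hz, coeff_zero]
      · have := hRj j h0 hj hz
        exact coeff_eq_zero_of_natDegree_lt (by omega)
  · rfl

/-- the relation between the plane model and the perturbed polynomial -/
theorem pert_identity {K : Type*} [Field K] {R : K[X][X]} {s d : ℕ} (hd : 1 ≤ d)
    (hRm : R.Monic) (hRd : R.natDegree = s + 1) (hR0 : (R.coeff 0).natDegree = s)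
    (hRj : ∀ j, 1 ≤ j → j < s + 1 → R.coeff j ≠ 0 → (R.coeff j).natDegree + j ≤ s)
    (G : K[X]) (ε x y : K) (hx : x * (ε * y ^ (d - 1)) = -(G.eval y)) :
    (ε * y ^ (d - 1)) ^ s * ev2 x y R =
      (pert G d s (rK R s) ((R.coeff 0).coeff s) ε).eval y := by
  have h1 : ev2 x y R = (∑ j ∈ Finset.range (s + 1), ∑ i ∈ Finset.range (s + 1),
      rK R s j i * x ^ i * y ^ j) + y ^ (s + 1) := by
    rw [ev2_sum x y R (s + 2) (by omega), Finset.sum_range_succ]
    have h2 : R.coeff (s + 1) = 1 := by rw [← hRd]; exact hRm.coeff_natDegree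
    rw [h2, map_one, one_mul]
    congr 1
    apply Finset.sum_congr rfl
    intro j hj
    rw [Finset.mem_range] at hj
    rw [coe_aeval_eq_eval, eval_eq_sum_range' (n := s + 1), Finset.sum_mul]
    · apply Finset.sum_congr rfl
      intro i _
      rw [rK_eq hR0 hRj hj]
    · rcases Nat.eq_zero_or_pos j with h0 | h0
      · subst h0
        omega
      · by_cases hz : R.coeff j = 0
        · rw [hz, natDegree_zero]
          omega
        · have := hRj j h0 hj hz
          omega
  have hs0 : (R.coeff 0).coeff s = rK R s 0 s := rK_eq hR0 hRj (by omega) s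
  rw [h1, pert_eq, eval_add, eval_add, eval_mul, eval_C, eval_pow, eval_neg, eval_mul, eval_C,
    eval_pow, eval_X, mul_add]
  have h3 : (ε * y ^ (d - 1)) ^ s * y ^ (s + 1) = ε ^ s * y ^ (d * s + 1) := by
    obtain ⟨m, rfl⟩ : ∃ m, d = m + 1 := ⟨d - 1, by omega⟩
    rw [Nat.add_sub_cancel, mul_pow, mul_assoc, ← pow_mul, ← pow_add]
    congr 2
    ring
  rw [h3]
  have h4 : ∀ j i, i ≤ s → (ε * y ^ (d - 1)) ^ s * (rK R s j i * x ^ i * y ^ j) =
      rK R s j i * (-(G.eval y)) ^ i * (ε * y ^ (d - 1)) ^ (s - i) * y ^ j := by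
    intro j i hi
    obtain ⟨k, rfl⟩ : ∃ k, s = i + k := ⟨s - i, by omega⟩
    rw [Nat.add_sub_cancel_left, ← hx, pow_add, mul_pow x]
    ring
  have h5 : (ε * y ^ (d - 1)) ^ s * ∑ j ∈ Finset.range (s + 1), ∑ i ∈ Finset.range (s + 1),
      rK R s j i * x ^ i * y ^ j =
      (∑ j ∈ Finset.range (s + 1), ∑ i ∈ Finset.range s,
        rK R s j i * (-(G.eval y)) ^ i * (ε * y ^ (d - 1)) ^ (s - i) * y ^ j) +
        ∑ j ∈ Finset.range (s + 1), rK R s j s * (-(G.eval y)) ^ s * y ^ j := by
    rw [← Finset.sum_add_distrib, Finset.mul_sum]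
    apply Finset.sum_congr rfl
    intro j _
    rw [Finset.mul_sum, Finset.sum_range_succ]
    congr 1
    · apply Finset.sum_congr rfl
      intro i hi
      rw [Finset.mem_range] at hi
      exact h4 j i hi.le
    · rw [h4 j s le_rfl, Nat.sub_self, pow_zero, mul_one]
  have h6 : ∑ j ∈ Finset.range (s + 1), rK R s j s * (-(G.eval y)) ^ s * y ^ j =
      (R.coeff 0).coeff s * (-(G.eval y)) ^ s := by
    rw [Finset.sum_eq_single 0]
    · rw [pow_zero, mul_one, hs0]
    · intro j _ hj
      rw [rK_zero R s j s (by omega), zero_mul, zero_mul]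
    · intro h
      exact absurd (Finset.mem_range.2 (by omega)) h
  rw [h5, h6]
  unfold prest
  rw [eval_finsetSum]
  have h7 : ∀ j ∈ Finset.range (s + 1), (∑ i ∈ Finset.range s,
      C (rK R s j i) * (-G) ^ i * (C ε * X ^ (d - 1)) ^ (s - i) * X ^ j).eval y =
      ∑ i ∈ Finset.range s,
        rK R s j i * (-(G.eval y)) ^ i * (ε * y ^ (d - 1)) ^ (s - i) * y ^ j := by
    intro j _
    rw [eval_finsetSum]
    apply Finset.sum_congr rfl
    intro i _
    rw [eval_mul, eval_mul, eval_mul, eval_C, eval_pow, eval_neg, eval_pow, eval_mul, eval_C,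
      eval_pow, eval_X, eval_pow, eval_X]
  rw [Finset.sum_congr rfl h7]
  ring

theorem pert_map {K A : Type*} [Field K] [Field A] (φ : K →+* A) (G : K[X]) (d s : ℕ)
    (r : ℕ → ℕ → K) (c₀ ε : K) :
    (pert G d s r c₀ ε).map φ = pert (G.map φ) d s (fun j i => φ (r j i)) (φ c₀) (φ ε) := by
  unfold pert
  simp only [Polynomial.map_add, Polynomial.map_mul, Polynomial.map_pow, Polynomial.map_neg,
    map_C, map_X, Polynomial.map_sum, map_pow]

/-- an element fixed by all automorphisms and separable is rational -/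
theorem mem_range_of_fixed {W A : Type*} [Field W] [Field A] [Algebra W A] [Normal W A] (y : A)
    (hsep : (minpoly W y).Separable) (hfix : ∀ σ : A ≃ₐ[W] A, σ y = y) :
    ∃ z : W, algebraMap W A z = y := by
  by_contra hcon
  have hnot : y ∉ (⊥ : Subalgebra W A) := by
    intro h
    rw [Algebra.mem_bot] at h
    obtain ⟨z, hz⟩ := h
    exact hcon ⟨z, hz⟩
  have hint : IsIntegral W y := Normal.isIntegral inferInstance y
  obtain ⟨z', hne, h1⟩ := (notMem_iff_exists_ne_and_isConjRoot hsep (Normal.splits inferInstance y)).1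
    hnot
  obtain ⟨σ, hσ⟩ := isConjRoot_iff_exists_algEquiv.1 h1
  apply hne
  have h3 := congrArg σ.symm hσ
  rw [AlgEquiv.symm_apply_apply] at h3
  have h4 := hfix σ.symm
  exact (h3.trans h4).symm

/-- **The core argument.** -/
theorem core {K W A : Type u} [Field K] [Field W] [Field A] [Algebra K W] [Algebra W A]
    [Algebra K A] [IsScalarTower K W A] [IsAlgClosed A] [Normal W A] (H : ProSolv K)
    {Γ₀ : Type v} [LinearOrderedCommGroupWithZero Γ₀] (w : Valuation A Γ₀)
    (hinv : ∀ (σ : A ≃ₐ[W] A) (x : A), w (σ x) = w x)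
    (hnt : ∃ π : K, π ≠ 0 ∧ w (algebraMap K A π) < 1)
    {d s : ℕ} (hd : 1 ≤ d) (hs : 1 ≤ s) (hsd : s ≤ d)
    (hnpp : ∀ a, 1 ≤ a → a ≤ s → ¬ IsPrimePow (1 + d * a))
    (G : K[X]) (hGm : G.Monic) (hGd : G.natDegree = d) (δ : K) (hδ : δ ≠ 0)
    (hKr : ∀ y : A, w (aeval y G) < w (algebraMap K A δ) → d ∣ (minpoly W y).natDegree)
    (R : K[X][X]) (hRm : R.Monic) (hRd : R.natDegree = s + 1) (hR0 : (R.coeff 0).natDegree = s)
    (hRj : ∀ j, 1 ≤ j → j < s + 1 → R.coeff j ≠ 0 → (R.coeff j).natDegree + j ≤ s)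
    (E : K[X]) (hE : E ≠ 0) :
    ∃ ξ ζ : K, ev2 ξ ζ R = 0 ∧ E.eval ξ ≠ 0 := by
  classical
  set v : Valuation K Γ₀ := w.comap (algebraMap K A) with hv
  have hvw : ∀ a : K, w (algebraMap K A a) = v a := fun a => rfl
  set c₀ : K := (R.coeff 0).coeff s with hc₀def
  have hc₀0 : c₀ ≠ 0 := by
    rw [hc₀def]
    have h1 : R.coeff 0 ≠ 0 := by
      intro h
      rw [h, natDegree_zero] at hR0
      omega
    have h2 := leadingCoeff_ne_zero.2 h1
    rwa [leadingCoeff, hR0] at h2
  -- the bound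
  obtain ⟨C₁, hC₁0, hC₁1, hC₁⟩ := exists_bound v
    ((Finset.range (d + 1)).image (fun k => G.coeff k) ∪
      (Finset.range (s + 1) ×ˢ Finset.range (s + 1)).image (fun x => rK R s x.1 x.2) ∪
      (Finset.range (E.natDegree + 1)).image (fun k => E.coeff k) ∪
      {c₀, c₀⁻¹, δ⁻¹, E.leadingCoeff⁻¹})
  set c : Γ₀ := v C₁ with hcdef
  have hc0 : 0 < c := lt_of_lt_of_le zero_lt_one hC₁1
  have hG' : ∀ k, v (G.coeff k) ≤ c := by
    intro k
    rcases lt_or_ge k (d + 1) with hk | hk
    · apply hC₁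
      simp only [Finset.mem_union, Finset.mem_image, Finset.mem_range]
      exact Or.inl (Or.inl (Or.inl ⟨k, hk, rfl⟩))
    · rw [coeff_eq_zero_of_natDegree_lt (by omega), map_zero]
      exact zero_le
  have hr' : ∀ j i, v (rK R s j i) ≤ c := by
    intro j i
    by_cases hji : s < i + j
    · rw [rK_zero R s j i hji, map_zero]
      exact zero_le
    · apply hC₁
      simp only [Finset.mem_union, Finset.mem_image, Finset.mem_product, Finset.mem_range]
      exact Or.inl (Or.inl (Or.inr ⟨(j, i), ⟨by simp; omega, by simp; omega⟩, rfl⟩))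
  have hE' : ∀ k, v (E.coeff k) ≤ c := by
    intro k
    rcases lt_or_ge k (E.natDegree + 1) with hk | hk
    · apply hC₁
      simp only [Finset.mem_union, Finset.mem_image, Finset.mem_range]
      exact Or.inl (Or.inr ⟨k, hk, rfl⟩)
    · rw [coeff_eq_zero_of_natDegree_lt (by omega), map_zero]
      exact zero_le
  have hinvle : ∀ a : K, a ≠ 0 → v a⁻¹ ≤ c → 1 ≤ c * v a := by
    intro a ha h
    have h1 : v a⁻¹ * v a = 1 := by rw [← map_mul, inv_mul_cancel₀ ha, map_one]
    rw [← h1]
    exact mul_le_mul_left h _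
  have hc₀1 : v c₀ ≤ c := hC₁ _ (by simp)
  have hc₀2 : 1 ≤ c * v c₀ := hinvle c₀ hc₀0 (hC₁ _ (by simp))
  have hδ2 : 1 ≤ c * v δ := hinvle δ hδ (hC₁ _ (by simp))
  have hElc : 1 ≤ c * v E.leadingCoeff :=
    hinvle _ (leadingCoeff_ne_zero.2 hE) (hC₁ _ (by simp))
  -- the small element
  obtain ⟨π, hπ0, hπ⟩ := hnt
  set N : ℕ := d * s + 2 * s + 5 with hN
  set ε : K := π / C₁ ^ N with hεdef
  have hε0 : ε ≠ 0 := div_ne_zero hπ0 (pow_ne_zero _ hC₁0)
  have heN : v ε * c ^ N < 1 := by
    rw [hcdef, ← map_pow, ← map_mul, hεdef, div_mul_cancel₀ _ (pow_ne_zero _ hC₁0)]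
    exact hπ
  have hesmall : ∀ k, k ≤ N → v ε * c ^ k < 1 := fun k hk =>
    lt_of_le_of_lt (mul_le_mul_right (pow_le_pow_c hC₁1 hk) _) heN
  have he0 : 0 < v ε := (Valuation.pos_iff v).2 hε0
  have he1 : v ε ≤ 1 := by
    have := hesmall 0 (by omega)
    rw [pow_zero, mul_one] at this
    exact this.le
  -- the perturbed polynomial
  set f : K[X] := pert G d s (rK R s) c₀ ε with hf
  have hfmap : f.map (algebraMap K A) = pert (G.map (algebraMap K A)) d s
      (fun j i => algebraMap K A (rK R s j i)) (algebraMap K A c₀) (algebraMap K A ε) :=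
    pert_map _ _ _ _ _ _ _
  have hfd : f.natDegree = d * s + 1 := pert_natDegree hGd hd (rK_zero R s) hε0
  have hf0 : f ≠ 0 := by
    intro h
    rw [h, natDegree_zero] at hfd
    omega
  have haev : ∀ (P : K[X]) (y : A), aeval y P = (P.map (algebraMap K A)).eval y := fun P y => by
    rw [eval_map_algebraMap]
  obtain ⟨y₁, hy₁, hy₁', hcy₁, hH, hother⟩ := pert_roots w (G := G.map (algebraMap K A)) (d := d)
    (s := s) (r := fun j i => algebraMap K A (rK R s j i)) (c₀ := algebraMap K A c₀)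
    (ε := algebraMap K A ε) hC₁1 (hGm.map _) (by rw [hGm.natDegree_map, hGd]) hd hs
    (fun k => by rw [coeff_map]; exact hG' k) (fun j i => hr' j i)
    (fun j i hji => by rw [rK_zero R s j i hji, map_zero]) hc₀1 hc₀2
    (by simpa using hε0) (hesmall _ (by omega))
  rw [← hfmap] at hy₁ hy₁' hother
  rw [← haev] at hy₁
  rw [derivative_map, ← haev] at hy₁'
  -- the large root is rational over `W`
  have hfixed : ∀ σ : A ≃ₐ[W] A, σ y₁ = y₁ := by
    intro σ
    by_contra hne
    have h1 : aeval (σ y₁) f = 0 := by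
      have h2 : aeval (σ y₁) f = σ (aeval y₁ f) := by
        have h3 := aeval_algHom_apply ((σ : A →ₐ[W] A).restrictScalars K) y₁ f
        exact h3
      rw [h2, hy₁, map_zero]
    rw [haev] at h1
    have h2 := (hother (σ y₁) h1 hne).1
    rw [hinv] at h2
    exact absurd hcy₁ (not_lt.2 h2)
  have hsepW : (minpoly W y₁).Separable := by
    have hint : IsIntegral W y₁ := Normal.isIntegral inferInstance y₁
    have h1 : aeval y₁ (f.map (algebraMap K W)) = 0 := by rw [aeval_map_algebraMap, hy₁]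
    obtain ⟨t, ht⟩ := minpoly.dvd W y₁ h1
    rw [separable_iff_derivative_ne_zero (minpoly.irreducible hint)]
    intro h
    apply hy₁'
    rw [← aeval_map_algebraMap W, ← derivative_map, ht, derivative_mul, h, zero_mul, zero_add,
      map_mul, minpoly.aeval, zero_mul]
  obtain ⟨z₁, hz₁⟩ := mem_range_of_fixed y₁ hsepW hfixed
  -- the other roots
  have hother' : ∀ y : A, aeval y f = 0 → y ≠ algebraMap W A z₁ → d ∣ (minpoly W y).natDegree := by
    intro y hy hne
    rw [hz₁] at hne
    apply hKr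
    rw [haev] at hy
    have h1 := (hother y hy hne).2
    rw [← haev] at h1
    by_contra hcon
    push Not at hcon
    have h2 : (1 : Γ₀) ≤ v ε * c ^ (d * s + 2 * s + 2) := by
      calc (1 : Γ₀) = 1 ^ s := (one_pow s).symm
        _ ≤ (c * v δ) ^ s := pow_le_pow_left' hδ2 s
        _ = c ^ s * v δ ^ s := mul_pow _ _ _
        _ ≤ c ^ s * w (aeval y G) ^ s := mul_le_mul_right (pow_le_pow_left' hcon s) _
        _ ≤ c ^ s * (v ε * c ^ (d * s + s + 2)) := mul_le_mul_right h1 _
        _ = v ε * c ^ (d * s + 2 * s + 2) := by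
          rw [mul_left_comm, ← pow_add]
          congr 2
          omega
    exact absurd h2 (not_le.2 (hesmall _ (by omega)))
  obtain ⟨ζ, hζ⟩ := key_lemma (W := W) (A := A) H f hf0 hd (by omega) hsd hnpp z₁
    (by rw [hz₁, hy₁]) (by rw [hz₁]; exact hy₁') hother'
  have hζy : algebraMap K A ζ = y₁ := by
    rw [IsScalarTower.algebraMap_apply K W A, hζ, hz₁]
  have hζf : f.eval ζ = 0 := by
    apply (algebraMap K A).injective
    rw [map_zero, ← eval₂_at_apply, ← eval_map, eval_map_algebraMap, hζy, hy₁]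
  have hvζ : c < v ζ := by
    rw [← hvw, hζy]
    exact hcy₁
  have hζ0 : ζ ≠ 0 := by
    rintro rfl
    rw [map_zero] at hvζ
    exact absurd hvζ (not_lt.2 zero_le)
  set ξ : K := -(G.eval ζ) / (ε * ζ ^ (d - 1)) with hξ
  have hden : ε * ζ ^ (d - 1) ≠ 0 := mul_ne_zero hε0 (pow_ne_zero _ hζ0)
  have hξ' : ξ * (ε * ζ ^ (d - 1)) = -(G.eval ζ) := by rw [hξ, div_mul_cancel₀ _ hden]
  refine ⟨ξ, ζ, ?_, ?_⟩
  · have h1 := pert_identity hd hRm hRd hR0 hRj G ε ξ ζ hξ'
    rw [← hf, hζf] at h1
    exact (mul_eq_zero.1 h1).resolve_left (pow_ne_zero _ hden)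
  · apply eval_ne_zero_of_large hE hE' hElc hC₁1
    have hGζ : v (G.eval ζ) = v ζ ^ d := eval_large hC₁1 hG' hGm hGd hvζ
    have h1 : v ξ * v ε = v ζ := by
      have h2 := congrArg v hξ'
      rw [map_mul, map_mul, map_pow, Valuation.map_neg, hGζ] at h2
      have h3 : (v ξ * v ε) * v ζ ^ (d - 1) = v ζ * v ζ ^ (d - 1) := by
        rw [← pow_succ', Nat.sub_add_cancel hd, ← h2, mul_assoc]
      exact mul_right_cancel₀ (pow_pos ((Valuation.pos_iff v).2 hζ0) _).ne' h3
    have h2 : v ζ * v ε ^ s = v c₀ := by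
      rw [← hvw ζ, hζy]
      exact hH
    by_contra hcon
    push Not at hcon
    have h3 : (1 : Γ₀) ≤ v ε * c ^ 3 := by
      calc (1 : Γ₀) ≤ c * v c₀ := hc₀2
        _ = c * (v ξ * v ε * v ε ^ s) := by rw [h1, h2]
        _ ≤ c * (c ^ 2 * v ε * 1) :=
            mul_le_mul_right (mul_le_mul' (mul_le_mul_left hcon _) (pow_le_one' he1 s)) _
        _ = v ε * c ^ 3 := by
            rw [mul_one, pow_succ' c 2]
            ac_rfl
    exact absurd h3 (not_le.2 (hesmall _ (by omega)))

end H651
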