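import Mathlib

/-!
# Decomposition groups of valuations in finite Galois extensions
-/

set_option autoImplicit false
set_option linter.style.haveILetI false

namespace H651

open Polynomial

section Basic

variable {K N : Type*} [Field K] [Field N] [Algebra K N] {Γ₀ : Type*}
  [LinearOrderedCommGroupWithZero Γ₀]

/-- the decomposition group of a valuation -/
def decG (K : Type*) {N : Type*} [Field K] [Field N] [Algebra K N] {Γ₀ : Type*}
    [LinearOrderedCommGroupWithZero Γ₀] (w : Valuation N Γ₀) : Subgroup (N ≃ₐ[K] N) where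
  carrier := {σ | ∀ x, w (σ x) ≤ 1 ↔ w x ≤ 1}
  mul_mem' := by
    intro σ τ hσ hτ x
    rw [AlgEquiv.mul_apply, hσ (τ x), hτ x]
  one_mem' := by
    intro x
    rw [AlgEquiv.one_apply]
  inv_mem' := by
    intro σ hσ x
    have h := hσ (σ⁻¹ x)
    rw [← AlgEquiv.mul_apply, mul_inv_cancel, AlgEquiv.one_apply] at h
    exact h.symm

theorem mem_decG {w : Valuation N Γ₀} {σ : N ≃ₐ[K] N} :
    σ ∈ decG K w ↔ ∀ x, w (σ x) ≤ 1 ↔ w x ≤ 1 := Iff.rfl

theorem one_lt_iff_inv_lt_one' {w : Valuation N Γ₀} {x : N} (hx : x ≠ 0) :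
    w x < 1 ↔ ¬ w x⁻¹ ≤ 1 := by
  have h0 : 0 < w x := (Valuation.pos_iff w).2 hx
  rw [map_inv₀, not_le, one_lt_inv₀ h0]

theorem decG_lt_one {w : Valuation N Γ₀} {σ : N ≃ₐ[K] N} (hσ : σ ∈ decG K w) (x : N) :
    w (σ x) < 1 ↔ w x < 1 := by
  by_cases hx : x = 0
  · rw [hx, map_zero]
  · have hσx : σ x ≠ 0 := (_root_.map_ne_zero σ).2 hx
    rw [one_lt_iff_inv_lt_one' hσx, one_lt_iff_inv_lt_one' hx, ← map_inv₀ σ, hσ x⁻¹]

end Basic

section Finite

variable {K N : Type*} [Field K] [Field N] [Algebra K N] [FiniteDimensional K N]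
  {Γ₀ : Type*} [LinearOrderedCommGroupWithZero Γ₀]

theorem pow_closed {w : Valuation N Γ₀} {σ : N ≃ₐ[K] N} (h : ∀ a, w a ≤ 1 → w (σ a) ≤ 1)
    (j : ℕ) (a : N) (ha : w a ≤ 1) : w ((σ ^ j) a) ≤ 1 := by
  induction j with
  | zero => rwa [pow_zero, AlgEquiv.one_apply]
  | succ j ih =>
    rw [pow_succ', AlgEquiv.mul_apply]
    exact h _ ih

theorem mem_decG_of_le {w : Valuation N Γ₀} {σ : N ≃ₐ[K] N} (h : ∀ a, w a ≤ 1 → w (σ a) ≤ 1) :
    σ ∈ decG K w := by
  intro x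
  refine ⟨fun hx => ?_, h x⟩
  have h1 : σ ^ (orderOf σ) = 1 := pow_orderOf_eq_one σ
  have h2 : 0 < orderOf σ := orderOf_pos σ
  have h3 := pow_closed h (orderOf σ - 1) (σ x) hx
  rwa [← AlgEquiv.mul_apply, ← pow_succ, Nat.sub_add_cancel h2, h1, AlgEquiv.one_apply] at h3

theorem exists_sep {w : Valuation N Γ₀} {σ : N ≃ₐ[K] N} (hσ : σ ∉ decG K w) :
    ∃ y : N, 1 < w y ∧ w (σ y) < 1 := by
  obtain ⟨a, ha1, ha2⟩ : ∃ a, w a ≤ 1 ∧ 1 < w (σ a) := by
    by_contra hcon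
    push Not at hcon
    exact hσ (mem_decG_of_le hcon)
  obtain ⟨b, hb1, hb2⟩ : ∃ b, 1 < w b ∧ w (σ b) ≤ 1 := by
    by_contra hcon
    push Not at hcon
    apply hσ
    have h1 : σ⁻¹ ∈ decG K w := by
      apply mem_decG_of_le
      intro a ha
      by_contra h2
      push Not at h2
      have h3 := hcon _ h2
      rw [← AlgEquiv.mul_apply, mul_inv_cancel, AlgEquiv.one_apply] at h3
      exact absurd ha (not_le.2 h3)
    have h2 := (decG K w).inv_mem h1
    rwa [inv_inv] at h2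
  have ha0 : a ≠ 0 := by
    rintro rfl
    rw [map_zero, map_zero] at ha2
    exact absurd ha2 (not_lt.2 zero_le_one)
  have hwa : 0 < w a := (Valuation.pos_iff w).2 ha0
  refine ⟨b / a, ?_, ?_⟩
  · rw [map_div₀, one_lt_div₀ hwa]
    exact lt_of_le_of_lt ha1 hb1
  · rw [map_div₀, map_div₀, div_lt_one₀ (lt_trans zero_lt_one ha2)]
    exact lt_of_le_of_lt hb2 ha2

/-- two distinct primes cannot both be bad -/
theorem bad_prime_unique {w : Valuation N Γ₀} {θ : N} (hθ : w θ ≤ 1) {k l : ℕ} (hk : k.Prime)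
    (hl : l.Prime) (hbk : w (∑ i ∈ Finset.range k, θ ^ i) < 1)
    (hbl : w (∑ i ∈ Finset.range l, θ ^ i) < 1) : k = l := by
  by_contra hne
  set R := w.valuationSubring
  set t : R := ⟨θ, (Valuation.mem_valuationSubring_iff _ _).2 hθ⟩ with ht
  have hres : ∀ x : R, w (x : N) < 1 → IsLocalRing.residue R x = 0 := by
    intro x hx
    rw [IsLocalRing.residue_eq_zero_iff, IsLocalRing.mem_maximalIdeal, mem_nonunits_iff]
    intro hu
    have h1 : w ((x : N)) = 1 := by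
      obtain ⟨u, rfl⟩ := hu
      have h2 : w ((u : R) : N) * w (((u⁻¹ : Rˣ) : R) : N) = 1 := by
        rw [← map_mul]
        have : ((u : R) : N) * (((u⁻¹ : Rˣ) : R) : N) = 1 := by
          have h3 : (u : R) * ((u⁻¹ : Rˣ) : R) = 1 := Units.mul_inv u
          exact_mod_cast congrArg (Subtype.val) h3
        rw [this, map_one]
      have h3 : w ((u : R) : N) ≤ 1 := (Valuation.mem_valuationSubring_iff _ _).1 (u : R).2
      have h4 : w (((u⁻¹ : Rˣ) : R) : N) ≤ 1 :=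
        (Valuation.mem_valuationSubring_iff _ _).1 ((u⁻¹ : Rˣ) : R).2
      apply le_antisymm h3
      rw [← h2]
      calc w ((u : R) : N) * w (((u⁻¹ : Rˣ) : R) : N) ≤ w ((u : R) : N) * 1 :=
            mul_le_mul_right h4 _
        _ = w ((u : R) : N) := mul_one _
    rw [h1] at hx
    exact lt_irrefl _ hx
  set κ := IsLocalRing.ResidueField R
  set s := IsLocalRing.residue R t with hs
  have hk' : ∑ i ∈ Finset.range k, s ^ i = 0 := by
    have h1 := hres (∑ i ∈ Finset.range k, t ^ i) (by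
      push_cast
      exact hbk)
    rw [map_sum] at h1
    simpa only [map_pow] using h1
  have hl' : ∑ i ∈ Finset.range l, s ^ i = 0 := by
    have h1 := hres (∑ i ∈ Finset.range l, t ^ i) (by
      push_cast
      exact hbl)
    rw [map_sum] at h1
    simpa only [map_pow] using h1
  have hk1 : s ^ k = 1 := by
    have h1 := geom_sum_mul s k
    rw [hk', zero_mul] at h1
    exact (sub_eq_zero.1 h1.symm)
  have hl1 : s ^ l = 1 := by
    have h1 := geom_sum_mul s l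
    rw [hl', zero_mul] at h1
    exact (sub_eq_zero.1 h1.symm)
  have hcop : Nat.gcd k l = 1 := (Nat.coprime_primes hk hl).2 hne
  have hs1 : s = 1 := by
    have h1 : s ^ Nat.gcd k l = 1 := pow_gcd_eq_one.2 ⟨hk1, hl1⟩
    rwa [hcop, pow_one] at h1
  rw [hs1] at hk' hl'
  simp only [one_pow, Finset.sum_const, Finset.card_range, nsmul_eq_mul, mul_one] at hk' hl'
  have h1 : ((Nat.gcd k l : ℕ) : κ) = 0 := by
    have h2 := Nat.gcd_eq_gcd_ab k l
    have h3 : ((Nat.gcd k l : ℤ) : κ) = 0 := by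
      rw [h2]
      rw [Int.cast_add, Int.cast_mul, Int.cast_mul, Int.cast_natCast, Int.cast_natCast, hk', hl',
        zero_mul, zero_mul, add_zero]
    exact_mod_cast h3
  rw [hcop, Nat.cast_one] at h1
  exact one_ne_zero h1

theorem geom_large {w : Valuation N Γ₀} {θ : N} (hθ : 1 < w θ) {k : ℕ} (hk : 2 ≤ k) :
    1 < w (∑ i ∈ Finset.range k, θ ^ i) := by
  obtain ⟨m, rfl⟩ : ∃ m, k = m + 1 := ⟨k - 1, by omega⟩
  have h1 : w (∑ i ∈ Finset.range m, θ ^ i) < w (θ ^ m) := by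
    apply w.map_sum_lt
    · rw [map_pow]
      exact (pow_pos (lt_trans zero_lt_one hθ) m).ne'
    · intro i hi
      rw [Finset.mem_range] at hi
      rw [map_pow, map_pow]
      exact pow_lt_pow_right₀ hθ hi
  rw [Finset.sum_range_succ, Valuation.map_add_eq_of_lt_right w h1, map_pow]
  exact one_lt_pow₀ hθ (by omega)

theorem geom_small {w : Valuation N Γ₀} {θ : N} (hθ : w θ < 1) {k : ℕ} (hk : 2 ≤ k) :
    w (∑ i ∈ Finset.range k, θ ^ i - 1) < 1 := by
  obtain ⟨m, rfl⟩ : ∃ m, k = m + 1 := ⟨k - 1, by omega⟩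
  rw [Finset.sum_range_succ', pow_zero, add_sub_cancel_right]
  apply w.map_sum_lt one_ne_zero
  intro i _
  rw [map_pow]
  exact pow_lt_one₀ zero_le hθ (by omega)

/-- elements separating the valuation from one of its conjugates, integral everywhere -/
theorem exists_sep_integral {w : Valuation N Γ₀} {σ : N ≃ₐ[K] N} (hσ : σ ∉ decG K w) :
    ∃ u : N, (∀ ρ : N ≃ₐ[K] N, w (ρ u) ≤ 1) ∧ w (u - 1) < 1 ∧ w (σ u) < 1 := by
  classical
  obtain ⟨y, hy1, hy2⟩ := exists_sep hσ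
  -- a good prime
  obtain ⟨k, hk, hgood⟩ : ∃ k : ℕ, k.Prime ∧ ∀ ρ : N ≃ₐ[K] N, w (ρ y) ≤ 1 →
      ¬ w (∑ i ∈ Finset.range k, (ρ y) ^ i) < 1 := by
    set f : (N ≃ₐ[K] N) → ℕ := fun ρ =>
      if h : ∃ k : ℕ, k.Prime ∧ w (∑ i ∈ Finset.range k, (ρ y) ^ i) < 1 then h.choose else 0
      with hf
    obtain ⟨k, hkM, hk⟩ := Nat.exists_infinite_primes (Finset.univ.sup f + 1)
    refine ⟨k, hk, fun ρ hρ hbad => ?_⟩
    have h1 : ∃ k : ℕ, k.Prime ∧ w (∑ i ∈ Finset.range k, (ρ y) ^ i) < 1 := ⟨k, hk, hbad⟩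
    have h2 : f ρ = h1.choose := by
      simp only [hf]
      rw [dif_pos h1]
    have h3 : k = f ρ := by
      rw [h2]
      exact bad_prime_unique hρ hk h1.choose_spec.1 hbad h1.choose_spec.2
    have h4 : f ρ ≤ Finset.univ.sup f := Finset.le_sup (Finset.mem_univ ρ)
    omega
  have hk2 := hk.two_le
  set S : N := ∑ i ∈ Finset.range k, y ^ i with hS
  have hρS : ∀ ρ : N ≃ₐ[K] N, ρ S = ∑ i ∈ Finset.range k, (ρ y) ^ i := by
    intro ρ
    rw [hS, map_sum]
    simp only [map_pow]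
  have hge : ∀ ρ : N ≃ₐ[K] N, 1 ≤ w (ρ S) := by
    intro ρ
    rw [hρS]
    rcases le_or_gt (w (ρ y)) 1 with h | h
    · exact not_lt.1 (hgood ρ h)
    · exact (geom_large h hk2).le
  have hS1 : 1 < w S := geom_large hy1 hk2
  have hS0 : S ≠ 0 := by
    intro h
    rw [h, map_zero] at hS1
    exact absurd hS1 (not_lt.2 zero_le_one)
  have hle : ∀ ρ : N ≃ₐ[K] N, w (ρ S⁻¹) ≤ 1 := by
    intro ρ
    rw [map_inv₀, map_inv₀]
    exact inv_le_one_of_one_le₀ (hge ρ)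
  refine ⟨1 - S⁻¹, fun ρ => ?_, ?_, ?_⟩
  · rw [map_sub, map_one]
    exact (w.map_sub _ _).trans (max_le (by rw [map_one]) (hle ρ))
  · have h1 : (1 - S⁻¹ : N) - 1 = -S⁻¹ := by ring
    rw [h1, Valuation.map_neg, map_inv₀]
    exact inv_lt_one_of_one_lt₀ hS1
  · have h1 := geom_small hy2 hk2
    rw [← hρS] at h1
    have hσS0 : σ S ≠ 0 := (_root_.map_ne_zero σ).2 hS0
    have h2 : σ (1 - S⁻¹) = (σ S - 1) * (σ S)⁻¹ := by
      rw [map_sub, map_one, map_inv₀, sub_mul, mul_inv_cancel₀ hσS0, one_mul]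
    rw [h2, map_mul]
    have h3 := hle σ
    rw [map_inv₀] at h3
    calc w (σ S - 1) * w (σ S)⁻¹ ≤ w (σ S - 1) * 1 := mul_le_mul_right h3 _
      _ = w (σ S - 1) := mul_one _
      _ < 1 := h1

/-- products of elements close to one -/
theorem prod_close {ι : Type*} (w : Valuation N Γ₀) (s : Finset ι) (f : ι → N)
    (hf : ∀ i ∈ s, w (f i) ≤ 1) (hf1 : ∀ i ∈ s, w (f i - 1) < 1) :
    w (∏ i ∈ s, f i - 1) < 1 := by
  classical
  induction s using Finset.induction_on with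
  | empty => simp
  | insert a s ha ih =>
    rw [Finset.prod_insert ha]
    have h1 : f a * ∏ i ∈ s, f i - 1 = f a * (∏ i ∈ s, f i - 1) + (f a - 1) := by ring
    rw [h1]
    refine lt_of_le_of_lt (w.map_add _ _) (max_lt ?_ (hf1 a (Finset.mem_insert_self a s)))
    rw [map_mul]
    calc w (f a) * w (∏ i ∈ s, f i - 1) ≤ 1 * w (∏ i ∈ s, f i - 1) :=
          mul_le_mul_left (hf a (Finset.mem_insert_self a s)) _
      _ = w (∏ i ∈ s, f i - 1) := one_mul _
      _ < 1 := ih (fun i hi => hf i (Finset.mem_insert_of_mem hi))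
          (fun i hi => hf1 i (Finset.mem_insert_of_mem hi))

theorem prod_le_one' {ι : Type*} (w : Valuation N Γ₀) (s : Finset ι) (f : ι → N)
    (hf : ∀ i ∈ s, w (f i) ≤ 1) : w (∏ i ∈ s, f i) ≤ 1 := by
  rw [map_prod]
  exact Finset.prod_le_one' hf

theorem prod_lt_one {ι : Type*} (w : Valuation N Γ₀) (s : Finset ι) (f : ι → N)
    (hf : ∀ i ∈ s, w (f i) ≤ 1) {j : ι} (hj : j ∈ s) (hj1 : w (f j) < 1) :
    w (∏ i ∈ s, f i) < 1 := by
  classical
  rw [← Finset.mul_prod_erase s f hj, map_mul]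
  calc w (f j) * w (∏ i ∈ s.erase j, f i) ≤ w (f j) * 1 :=
        mul_le_mul_right (prod_le_one' w _ f fun i hi => hf i (Finset.mem_of_mem_erase hi)) _
    _ = w (f j) := mul_one _
    _ < 1 := hj1

/-- **Approximation for conjugate valuations** of arbitrary rank. -/
theorem crt (w : Valuation N Γ₀) : ∃ u : N, (∀ ρ : N ≃ₐ[K] N, w (ρ u) ≤ 1) ∧ w (u - 1) < 1 ∧
    ∀ σ : N ≃ₐ[K] N, σ ∉ decG K w → w (σ u) < 1 := by
  classical
  set s : Finset (N ≃ₐ[K] N) := Finset.univ.filter (fun σ => σ ∉ decG K w) with hs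
  have hex : ∀ σ : N ≃ₐ[K] N, ∃ u : N, σ ∈ s → (∀ ρ : N ≃ₐ[K] N, w (ρ u) ≤ 1) ∧
      w (u - 1) < 1 ∧ w (σ u) < 1 := by
    intro σ
    by_cases hσ : σ ∈ s
    · obtain ⟨u, hu⟩ := exists_sep_integral (Finset.mem_filter.1 hσ).2
      exact ⟨u, fun _ => hu⟩
    · exact ⟨0, fun h => absurd h hσ⟩
  choose f hf using hex
  refine ⟨∏ σ ∈ s, f σ, fun ρ => ?_, ?_, fun σ hσ => ?_⟩
  · rw [map_prod]
    exact prod_le_one' w _ _ fun σ hσ => (hf σ hσ).1 ρ
  · exact prod_close w _ _ (fun σ hσ => by simpa using (hf σ hσ).1 1) fun σ hσ => (hf σ hσ).2.1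
  · have hσs : σ ∈ s := Finset.mem_filter.2 ⟨Finset.mem_univ _, hσ⟩
    rw [map_prod]
    exact prod_lt_one w _ _ (fun τ hτ => (hf τ hτ).1 σ) hσs (hf σ hσs).2.2

/-- the same with an element fixed by the decomposition group -/
theorem crt_fixed (w : Valuation N Γ₀) : ∃ u : N, (∀ τ ∈ decG K w, τ u = u) ∧
    (∀ ρ : N ≃ₐ[K] N, w (ρ u) ≤ 1) ∧ w (u - 1) < 1 ∧
    ∀ σ : N ≃ₐ[K] N, σ ∉ decG K w → w (σ u) < 1 := by
  classical
  obtain ⟨u, h1, h2, h3⟩ := crt (K := K) w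
  set s : Finset (N ≃ₐ[K] N) := Finset.univ.filter (fun σ => σ ∈ decG K w) with hs
  have hmem : ∀ τ, τ ∈ s ↔ τ ∈ decG K w := fun τ => by
    rw [hs, Finset.mem_filter]
    exact ⟨fun h => h.2, fun h => ⟨Finset.mem_univ _, h⟩⟩
  refine ⟨∏ τ ∈ s, τ u, fun τ hτ => ?_, fun ρ => ?_, ?_, fun σ hσ => ?_⟩
  · rw [map_prod]
    apply Finset.prod_bij (fun ρ _ => τ * ρ)
    · intro ρ hρ
      rw [hmem] at hρ ⊢
      exact (decG K w).mul_mem hτ hρ
    · intro a _ b _ hab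
      exact mul_left_cancel hab
    · intro b hb
      rw [hmem] at hb
      refine ⟨τ⁻¹ * b, ?_, by group⟩
      rw [hmem]
      exact (decG K w).mul_mem ((decG K w).inv_mem hτ) hb
    · intro ρ _
      rw [AlgEquiv.mul_apply]
  · rw [map_prod]
    exact prod_le_one' w _ _ fun σ _ => by
      rw [← AlgEquiv.mul_apply]
      exact h1 _
  · apply prod_close w _ _ (fun σ _ => h1 σ)
    intro τ hτ
    rw [hmem] at hτ
    have h4 : τ u - 1 = τ (u - 1) := by rw [map_sub, map_one]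
    rw [h4, decG_lt_one hτ]
    exact h2
  · have h1s : (1 : N ≃ₐ[K] N) ∈ s := by
      rw [hmem]
      exact (decG K w).one_mem
    rw [map_prod]
    apply prod_lt_one w _ _ (fun τ _ => by
      rw [← AlgEquiv.mul_apply]
      exact h1 _) h1s
    rw [AlgEquiv.one_apply]
    exact h3 σ hσ

/-- **The trace argument.** -/
theorem exists_approx [IsGalois K N] (w : Valuation N Γ₀) (c u : N)
    (hc : ∀ τ ∈ decG K w, τ c = c) (hu : ∀ τ ∈ decG K w, τ u = u) {ε : Γ₀}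
    (h1 : w (c * (1 - u)) < ε) (h2 : ∀ σ : N ≃ₐ[K] N, σ ∉ decG K w → w (σ (c * u)) < ε) :
    ∃ b : K, w (c - algebraMap K N b) < ε := by
  classical
  set H := decG K w with hH
  set x : N := c * u with hx
  have hxH : ∀ τ ∈ H, τ x = x := fun τ hτ => by rw [hx, map_mul, hc τ hτ, hu τ hτ]
  have hcoset : ∀ σ τ : N ≃ₐ[K] N, (σ : (N ≃ₐ[K] N) ⧸ H) = (τ : (N ≃ₐ[K] N) ⧸ H) → σ x = τ x := by
    intro σ τ h
    rw [QuotientGroup.eq] at h
    have h3 := hxH _ h
    rw [AlgEquiv.mul_apply] at h3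
    have h4 := congrArg σ h3
    rw [← AlgEquiv.mul_apply, mul_inv_cancel, AlgEquiv.one_apply] at h4
    exact h4.symm
  set T : N := ∑ q : (N ≃ₐ[K] N) ⧸ H, q.out x with hT
  have hTfix : ∀ ρ : N ≃ₐ[K] N, ρ T = T := by
    intro ρ
    rw [hT, map_sum]
    apply Fintype.sum_equiv (MulAction.toPerm ρ)
    intro q
    rw [← AlgEquiv.mul_apply]
    apply hcoset
    rw [QuotientGroup.out_eq']
    have h3 : ((ρ * q.out : N ≃ₐ[K] N) : (N ≃ₐ[K] N) ⧸ H) = ρ • (q.out : (N ≃ₐ[K] N) ⧸ H) := rfl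
    rw [h3, QuotientGroup.out_eq']
    rfl
  obtain ⟨b, hb⟩ := (IsGalois.mem_range_algebraMap_iff_fixed (F := K) T).2 hTfix
  refine ⟨b, ?_⟩
  have hε : 0 < ε := lt_of_le_of_lt zero_le h1
  set q₀ : (N ≃ₐ[K] N) ⧸ H := ((1 : N ≃ₐ[K] N) : (N ≃ₐ[K] N) ⧸ H) with hq₀
  have h3 : T = x + ∑ q ∈ (Finset.univ.erase q₀), q.out x := by
    rw [hT, ← Finset.add_sum_erase _ _ (Finset.mem_univ q₀)]
    congr 1
    have h4 := hcoset (q₀.out) 1 (by rw [QuotientGroup.out_eq'])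
    rw [h4, AlgEquiv.one_apply]
  rw [hb, h3]
  have h4 : c - (x + ∑ q ∈ (Finset.univ.erase q₀), q.out x) =
      c * (1 - u) - ∑ q ∈ (Finset.univ.erase q₀), q.out x := by
    rw [hx]
    ring
  rw [h4]
  refine lt_of_le_of_lt (w.map_sub _ _) (max_lt h1 ?_)
  apply w.map_sum_lt hε.ne'
  intro q hq
  apply h2
  intro hmem
  apply (Finset.mem_erase.1 hq).1
  have h5 : ((q.out : N ≃ₐ[K] N) : (N ≃ₐ[K] N) ⧸ H) = q₀ := by
    rw [hq₀, QuotientGroup.eq, mul_one]
    exact H.inv_mem hmem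
  rwa [QuotientGroup.out_eq'] at h5

/-- residues of integral elements fixed by the decomposition group -/
theorem exists_residue [IsGalois K N] (w : Valuation N Γ₀) (c : N)
    (hc : ∀ τ ∈ decG K w, τ c = c) (hc1 : ∀ σ : N ≃ₐ[K] N, w (σ c) ≤ 1) :
    ∃ b : K, w (c - algebraMap K N b) < 1 := by
  obtain ⟨u, hu1, _, hu3, hu4⟩ := crt_fixed (K := K) w
  apply exists_approx w c u hc hu1
  · rw [map_mul, Valuation.map_sub_swap]
    calc w c * w (u - 1) ≤ 1 * w (u - 1) := mul_le_mul_left (by simpa using hc1 1) _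
      _ = w (u - 1) := one_mul _
      _ < 1 := hu3
  · intro σ hσ
    rw [map_mul, map_mul]
    calc w (σ c) * w (σ u) ≤ 1 * w (σ u) := mul_le_mul_left (hc1 σ) _
      _ = w (σ u) := one_mul _
      _ < 1 := hu4 σ hσ

/-- density in the rank one case -/
theorem exists_dense [IsGalois K N] (w : Valuation N Γ₀)
    (harch : ∀ x c : Γ₀, x < 1 → ∀ ε, 0 < ε → ∃ m : ℕ, x ^ m * c < ε) (c : N)
    (hc : ∀ τ ∈ decG K w, τ c = c) {ε : Γ₀} (hε : 0 < ε) :
    ∃ b : K, w (c - algebraMap K N b) < ε := by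
  classical
  obtain ⟨u, hu1, hu2, hu3, hu4⟩ := crt_fixed (K := K) w
  -- a common exponent
  obtain ⟨m₁, hm₁⟩ := harch (w (u - 1)) (w c) hu3 ε hε
  have hex : ∀ σ : N ≃ₐ[K] N, ∃ m : ℕ, σ ∉ decG K w → w (σ u) ^ m * w (σ c) < ε := by
    intro σ
    by_cases hσ : σ ∈ decG K w
    · exact ⟨0, fun h => absurd hσ h⟩
    · obtain ⟨m, hm⟩ := harch (w (σ u)) (w (σ c)) (hu4 σ hσ) ε hε
      exact ⟨m, fun _ => hm⟩
  choose f hf using hex
  set m : ℕ := max (m₁ + 1) (Finset.univ.sup f + 1) with hm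
  have hmm₁ : m₁ ≤ m := by omega
  have hm0 : m ≠ 0 := by omega
  have hfm : ∀ σ, f σ ≤ m := by
    intro σ
    have : f σ ≤ Finset.univ.sup f := Finset.le_sup (Finset.mem_univ σ)
    omega
  have hpow : ∀ x : Γ₀, x ≤ 1 → ∀ a b : ℕ, a ≤ b → x ^ b ≤ x ^ a := by
    intro x hx a b hab
    obtain ⟨k, rfl⟩ : ∃ k, b = a + k := ⟨b - a, by omega⟩
    rw [pow_add]
    calc x ^ a * x ^ k ≤ x ^ a * 1 := mul_le_mul_right (pow_le_one' hx k) _
      _ = x ^ a := mul_one _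
  set U : N := 1 - (1 - u ^ m) ^ m with hU
  have hum : w (1 - u ^ m) ≤ w (u - 1) := by
    have h1 : (1 - u ^ m) = -((u - 1) * ∑ i ∈ Finset.range m, u ^ i) := by
      rw [mul_comm, geom_sum_mul]
      ring
    rw [h1, Valuation.map_neg, map_mul]
    calc w (u - 1) * w (∑ i ∈ Finset.range m, u ^ i) ≤ w (u - 1) * 1 := by
          apply mul_le_mul_right
          apply w.map_sum_le
          intro i _
          rw [map_pow]
          exact pow_le_one' (by simpa using hu2 1) i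
      _ = w (u - 1) := mul_one _
  apply exists_approx w c U hc
  · intro τ hτ
    rw [hU, map_sub, map_pow, map_sub, map_pow, map_one, hu1 τ hτ]
  · have h1 : 1 - U = (1 - u ^ m) ^ m := by rw [hU]; ring
    rw [h1, map_mul, map_pow, mul_comm]
    calc w (1 - u ^ m) ^ m * w c ≤ w (u - 1) ^ m * w c :=
          mul_le_mul_left (pow_le_pow_left' hum m) _
      _ ≤ w (u - 1) ^ m₁ * w c := mul_le_mul_left (hpow _ hu3.le _ _ hmm₁) _
      _ < ε := hm₁
  · intro σ hσ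
    have h1 : w (σ U) ≤ w (σ u) ^ m := by
      have h2 : σ U = 1 - (1 - (σ u) ^ m) ^ m := by
        rw [hU, map_sub, map_pow, map_sub, map_pow, map_one]
      have h3 : 1 - (1 - (σ u) ^ m) ^ m =
          (σ u) ^ m * ∑ i ∈ Finset.range m, (1 - (σ u) ^ m) ^ i := by
        have h4 := geom_sum_mul (1 - (σ u) ^ m) m
        linear_combination h4
      rw [h2, h3, map_mul, map_pow]
      calc w (σ u) ^ m * w (∑ i ∈ Finset.range m, (1 - (σ u) ^ m) ^ i) ≤ w (σ u) ^ m * 1 := by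
            apply mul_le_mul_right
            apply w.map_sum_le
            intro i _
            rw [map_pow]
            apply pow_le_one'
            refine (w.map_sub _ _).trans (max_le (by rw [map_one]) ?_)
            rw [map_pow]
            exact pow_le_one' (hu2 σ) m
        _ = w (σ u) ^ m := mul_one _
    rw [map_mul, map_mul, mul_comm]
    calc w (σ U) * w (σ c) ≤ w (σ u) ^ m * w (σ c) := mul_le_mul_left h1 _
      _ ≤ w (σ u) ^ (f σ) * w (σ c) := mul_le_mul_left (hpow _ (hu2 σ) _ _ (hfm σ)) _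
      _ < ε := hf σ hσ

end Finite

end H651
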