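import Pool.Agent.H651_Ample.Plane

/-!
# From rational points of plane models to solutions
-/

set_option autoImplicit false
set_option linter.style.haveILetI false

namespace H651

open Polynomial

attribute [-instance] HahnSeries.instSMul
attribute [-instance] HahnSeries.instModule

universe u

/-- clearing denominators in a polynomial expression -/
theorem exists_homog {K : Type u} [Field K] {N : ℕ} (D : K[X]) (P : Fin N → K[X][X])
    (p : MvPolynomial (Fin N) K) :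
    ∃ (m : ℕ) (G : K[X][X]), ∀ (F : Type u) [Field F] [Algebra K F] (h g : F) (x : Fin N → F),
      (∀ i, aeval h D * x i = ev2 h g (P i)) →
        ev2 h g G = (aeval h D) ^ m * MvPolynomial.aeval x p := by
  induction p using MvPolynomial.induction_on with
  | C a =>
    refine ⟨0, C (C a), fun F _ _ h g x _ => ?_⟩
    rw [ev2_C, aeval_C, pow_zero, one_mul, MvPolynomial.aeval_C]
  | add p q hp hq =>
    obtain ⟨m₁, G₁, h₁⟩ := hp
    obtain ⟨m₂, G₂, h₂⟩ := hq
    refine ⟨m₁ + m₂, C (D ^ m₂) * G₁ + C (D ^ m₁) * G₂, fun F _ _ h g x hx => ?_⟩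
    rw [map_add, map_mul, map_mul, ev2_C, ev2_C, h₁ F h g x hx, h₂ F h g x hx, map_pow, map_pow,
      map_add]
    ring
  | mul_X p i hp =>
    obtain ⟨m₁, G₁, h₁⟩ := hp
    refine ⟨m₁ + 1, G₁ * P i, fun F _ _ h g x hx => ?_⟩
    rw [map_mul, h₁ F h g x hx, ← hx i, map_mul, MvPolynomial.aeval_X]
    ring

/-- rational points of the plane models in a family give solutions of the system -/
theorem propC {K : Type u} [Field K] (θ : LaurentSeries K) (Q : K[X][X])
    (h0 : ev θ Q = 0) (h1 : ev θ (derivative Q) ≠ 0) {N : ℕ}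
    (S : Finset (MvPolynomial (Fin N) K)) (x : Fin N → LaurentSeries K)
    (hx : ∀ i, x i ∈ IntermediateField.adjoin K {xx, θ})
    (hS : ∀ p ∈ S, MvPolynomial.aeval x p = 0) :
    ∃ M : ℕ, ∀ n ≥ M, ∃ R : K[X][X], R.Monic ∧ R.natDegree = n ∧ (R.coeff 0).natDegree = n - 1 ∧
      (∀ j, 1 ≤ j → j < n → R.coeff j ≠ 0 → (R.coeff j).natDegree + j ≤ n - 1) ∧
      ∃ E : K[X], E ≠ 0 ∧ ∀ ξ ζ : K, ev2 ξ ζ R = 0 → E.eval ξ ≠ 0 →
        ∃ y : Fin N → K, ∀ p ∈ S, MvPolynomial.eval y p = 0 := by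
  classical
  obtain ⟨A, hA, hfrac⟩ := exists_FA θ Q h0 h1
  obtain ⟨M, hM⟩ := hA.pole
  refine ⟨M + 2, fun n hn => ?_⟩
  obtain ⟨h, hh, hne, hord⟩ := hM n (by omega)
  obtain ⟨g, hg, gne, gord⟩ := hM (n - 1) (by omega)
  obtain ⟨R, hRm, hRd, hRe, hR0, hRj⟩ := plane_rel hA (by omega) hh hne hord hg gne gord
  refine ⟨R, hRm, hRd, hR0, hRj, ?_⟩
  obtain ⟨hind, ⟨E₀, hE₀, hE₀'⟩, hinv⟩ := plane_frac hA (by omega) hh hne hord hg gne gord
  have h2 : ∀ i, ∃ N' : K[X], N' ≠ 0 ∧ aeval h N' * x i ∈ A := by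
    intro i
    obtain ⟨a, ha, b, hb, hb0, hab⟩ := hfrac (x i) (hx i)
    obtain ⟨N', hN', T, hT, hbT⟩ := hinv b hb hb0
    refine ⟨N', hN', ?_⟩
    have : aeval h N' * x i = a * T := by
      rw [← hbT, ← hab]
      ring
    rw [this]
    exact A.mul_mem ha hT
  choose N' hN' hN'A using h2
  have hpolyA : ∀ u : K[X], aeval h u ∈ A := by
    intro u
    have : Algebra.adjoin K {h} ≤ A := by
      rw [Algebra.adjoin_le_iff]
      intro w hw
      rw [Set.mem_singleton_iff] at hw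
      rw [hw]
      exact hh
    exact this (aeval_mem_adjoin_singleton K h)
  have h3 : ∀ i, aeval h (∏ j, N' j) * x i ∈ A := by
    intro i
    rw [← Finset.mul_prod_erase _ _ (Finset.mem_univ i), map_mul]
    have : aeval h (N' i) * aeval h (∏ j ∈ Finset.univ.erase i, N' j) * x i =
        (aeval h (N' i) * x i) * aeval h (∏ j ∈ Finset.univ.erase i, N' j) := by ring
    rw [this]
    exact A.mul_mem (hN'A i) (hpolyA _)
  have h4 : ∀ i, ∃ P : K[X][X], aeval h (E₀ * ∏ j, N' j) * x i = ev2 h g P := by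
    intro i
    obtain ⟨P, hP⟩ := hE₀' _ (h3 i)
    exact ⟨P, by rw [← hP, map_mul]; ring⟩
  choose P hP using h4
  refine ⟨E₀ * ∏ j, N' j, mul_ne_zero hE₀ (Finset.prod_ne_zero_iff.2 fun j _ => hN' j), ?_⟩
  intro ξ ζ hξζ hE
  refine ⟨fun i => ev2 ξ ζ (P i) / (E₀ * ∏ j, N' j).eval ξ, fun p hp => ?_⟩
  obtain ⟨m, G, hG⟩ := exists_homog (E₀ * ∏ j, N' j) P p
  have h5 := hG (LaurentSeries K) h g x hP
  rw [hS p hp, mul_zero] at h5
  have h6 : G %ₘ R = 0 := by
    apply hind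
    · rw [← hRd]
      apply natDegree_modByMonic_lt _ hRm
      intro hR1
      rw [hR1, natDegree_one] at hRd
      omega
    · rw [modByMonic_eq_sub_mul_div, map_sub, map_mul, h5, hRe, zero_mul, sub_zero]
  have h7 : ev2 ξ ζ G = 0 := by
    have h8 : G = R * (G /ₘ R) := by
      have := modByMonic_add_div G R
      rw [h6, zero_add] at this
      exact this.symm
    rw [h8, map_mul, hξζ, zero_mul]
  have h9 := hG K ξ ζ (fun i => ev2 ξ ζ (P i) / (E₀ * ∏ j, N' j).eval ξ) (by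
    intro i
    rw [← coe_aeval_eq_eval, mul_div_cancel₀]
    rw [coe_aeval_eq_eval]
    exact hE)
  rw [h7] at h9
  have h10 : (aeval ξ (E₀ * ∏ j, N' j)) ^ m ≠ 0 := by
    apply pow_ne_zero
    rw [coe_aeval_eq_eval]
    exact hE
  have h11 := (mul_eq_zero.1 h9.symm).resolve_left h10
  rw [← MvPolynomial.coe_aeval_eq_eval]
  exact h11

end H651
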