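import Pool.Agent.H651_Ample.Gen
import Pool.Agent.H651_Ample.PropC

/-!
# Reduction of solvability in `K((t))` to curves
-/

set_option autoImplicit false
set_option linter.style.haveILetI false

namespace H651

open Polynomial

attribute [-instance] HahnSeries.instSMul
attribute [-instance] HahnSeries.instModule

universe u

variable {K : Type u} [Field K]

/-- **Reduction to curves**: a system solvable in `K((t))` has a solution in a finite separable
extension of `K(t)` inside `K((t))`. -/
theorem redA {N : ℕ} (S : Finset (MvPolynomial (Fin N) K)) (x : Fin N → LaurentSeries K)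
    (hS : ∀ p ∈ S, MvPolynomial.aeval x p = 0) :
    ∃ (θ : LaurentSeries K) (Q : K[X][X]) (x' : Fin N → LaurentSeries K),
      ev θ Q = 0 ∧ ev θ (derivative Q) ≠ 0 ∧
      (∀ i, x' i ∈ IntermediateField.adjoin K {xx, θ}) ∧
      ∀ p ∈ S, MvPolynomial.aeval x' p = 0 := by
  classical
  obtain ⟨E, s, θ, z, P, hPm, hP0, hP1, hPd, hrep⟩ := exists_generic x
  choose b A hb hbA using hrep
  set D : MvPolynomial s K := ∏ i, b i with hD
  have hDz : MvPolynomial.aeval z D ≠ 0 := by
    rw [hD, map_prod]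
    exact Finset.prod_ne_zero_iff.2 fun i _ => hb i
  set A' : Fin N → (MvPolynomial s K)[X] := fun i => C (∏ j ∈ Finset.univ.erase i, b j) * A i
    with hA'
  have hDA : ∀ i, phi z θ (C D) * x i = phi z θ (A' i) := by
    intro i
    rw [hA', phi_C, hD]
    simp only
    rw [map_mul, phi_C, ← Finset.mul_prod_erase _ _ (Finset.mem_univ i), map_mul, ← hbA i]
    ring
  have hbase : ∀ (z' : s → LaurentSeries K) (θ' : LaurentSeries K) (a : K),
      phi z' θ' (algebraMap K (MvPolynomial s K)[X] a) = algebraMap K _ a := by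
    intro z' θ' a
    have : algebraMap K (MvPolynomial s K)[X] a = C (MvPolynomial.C a) := rfl
    rw [this, phi_C, MvPolynomial.aeval_C]
  choose m G hG using fun p : MvPolynomial (Fin N) K =>
    exists_homog' (B := (MvPolynomial s K)[X]) (C D) A' p
  -- choose the approximation
  obtain ⟨N₁, hN₁⟩ := cont_phi (derivative P) z θ ((phi z θ (derivative P)).order.toNat + 1)
  have hfeval : (P.map (MvPolynomial.aeval z : MvPolynomial s K →ₐ[K] LaurentSeries K).toRingHom).eval
      θ = 0 := by rw [← phi_eq_eval, hP0]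
  have hf'eval : (derivative (P.map (MvPolynomial.aeval z :
      MvPolynomial s K →ₐ[K] LaurentSeries K).toRingHom)).eval θ ≠ 0 := by
    rw [derivative_map, ← phi_eq_eval]
    exact hP1
  obtain ⟨N₂, hN₂⟩ := hensel_laurent _ θ hfeval hf'eval N₁
  choose N₃ hN₃ using fun j : ℕ => cont_mv (P.coeff j) z N₂
  obtain ⟨N₄, hN₄⟩ := cont_mv D z ((MvPolynomial.aeval z D).order.toNat + 1)
  set Nt : ℕ := N₁ + N₄ + ∑ j ∈ Finset.range (P.natDegree + 1), N₃ j with hNt
  have hNt1 : N₁ ≤ Nt := by rw [hNt, add_assoc]; exact Nat.le_add_right _ _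
  have hNt4 : N₄ ≤ Nt := by rw [hNt, add_comm N₁, add_assoc]; exact Nat.le_add_right _ _
  choose u hu using fun i : s => exists_trunc (z i) Nt
  set z' : s → LaurentSeries K := fun i => aeval xx (u i) * tt ^ Nt with hz'
  have hzz : ∀ i, OG (Nt : ℤ) (z' i - z i) := hu
  -- the new root
  obtain ⟨θ', hθ', hθθ⟩ := hN₂ (P.map (MvPolynomial.aeval z' :
      MvPolynomial s K →ₐ[K] LaurentSeries K).toRingHom) (by
    rw [hPm.natDegree_map, hPm.natDegree_map]) (by
    intro j
    rw [coeff_map, coeff_map]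
    rcases lt_or_ge j (P.natDegree + 1) with hj | hj
    · apply hN₃ j z'
      intro i
      refine (hzz i).mono ?_
      have := Finset.single_le_sum (f := N₃) (fun i _ => Nat.zero_le _) (Finset.mem_range.2 hj)
      rw [hNt]
      push_cast
      have h2 : (N₃ j : ℤ) ≤ ∑ j ∈ Finset.range (P.natDegree + 1), (N₃ j : ℤ) := by
        exact_mod_cast this
      omega
    · rw [coeff_eq_zero_of_natDegree_lt (by omega), map_zero, map_zero, sub_zero]
      exact og_zero _)
  have hnz : ∀ {f g : LaurentSeries K}, f ≠ 0 → OG ((f.order.toNat + 1 : ℕ) : ℤ) (g - f) →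
      g ≠ 0 := by
    intro f g hf hfg hg
    rw [hg, zero_sub] at hfg
    have h2 := (og_iff_order (neg_ne_zero.2 hf)).1 hfg
    rw [HahnSeries.order_neg] at h2
    omega
  have hP0' : phi z' θ' P = 0 := by rw [phi_eq_eval, hθ']
  have hP1' : phi z' θ' (derivative P) ≠ 0 := by
    apply hnz hP1
    exact hN₁ z' θ' (fun i => (hzz i).mono (by exact_mod_cast hNt1)) hθθ
  have hD' : MvPolynomial.aeval z' D ≠ 0 := by
    apply hnz hDz
    exact hN₄ z' (fun i => (hzz i).mono (by exact_mod_cast hNt4))
  -- the new solution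
  set x' : Fin N → LaurentSeries K := fun i => phi z' θ' (A' i) / phi z' θ' (C D) with hx'
  have hDA' : ∀ i, phi z' θ' (C D) * x' i = phi z' θ' (A' i) := by
    intro i
    rw [hx']
    simp only
    rw [mul_div_cancel₀]
    rw [phi_C]
    exact hD'
  -- clearing denominators
  have hxt : ∀ k : ℕ, (tt : LaurentSeries K) ^ k * xx ^ k = 1 := by
    intro k
    rw [← mul_pow, tt_mul_xx, one_pow]
  have hz'c : ∀ i, ∃ (k : ℕ) (v : K[X]), z' i * xx ^ k = aeval xx v := by
    intro i
    refine ⟨Nt, u i, ?_⟩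
    rw [hz']
    simp only
    rw [mul_assoc, hxt, mul_one]
  obtain ⟨k, Q, hQ⟩ := clear_poly z' hz'c P
  have hevQ : ∀ T : K[X][X], ev θ' T = (T.map (aeval (xx : LaurentSeries K)).toRingHom).eval θ' := by
    intro T
    rw [ev, coe_eval₂RingHom, eval_map]
  refine ⟨θ', Q, x', ?_, ?_, ?_, ?_⟩
  · rw [hevQ, hQ, eval_mul, hθ', mul_zero]
  · rw [hevQ, ← derivative_map, hQ, derivative_C_mul, eval_mul, eval_C, derivative_map,
      ← phi_eq_eval]
    exact mul_ne_zero (pow_ne_zero _ xx_ne_zero) hP1'
  · have hxxm : (xx : LaurentSeries K) ∈ IntermediateField.adjoin K {xx, θ'} :=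
      IntermediateField.subset_adjoin _ _ (by simp)
    have hθm : θ' ∈ IntermediateField.adjoin K {xx, θ'} :=
      IntermediateField.subset_adjoin _ _ (by simp)
    have hpolyx : ∀ v : K[X], aeval (xx : LaurentSeries K) v ∈
        IntermediateField.adjoin K {xx, θ'} := by
      intro v
      have h5 : aeval (xx : LaurentSeries K) v ∈ Algebra.adjoin K {(xx : LaurentSeries K)} :=
        aeval_mem_adjoin_singleton K xx
      have h6 : Algebra.adjoin K {(xx : LaurentSeries K)} ≤
          (IntermediateField.adjoin K {xx, θ'}).toSubalgebra := by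
        rw [Algebra.adjoin_le_iff]
        rintro w hw
        rw [Set.mem_singleton_iff] at hw
        rw [hw]
        exact hxxm
      exact h6 h5
    have haz : ∀ a : MvPolynomial s K, MvPolynomial.aeval z' a ∈
        IntermediateField.adjoin K {xx, θ'} := by
      intro a
      obtain ⟨l, v, hv⟩ := clear_mv z' hz'c a
      have : MvPolynomial.aeval z' a = aeval xx v / xx ^ l := by
        rw [← hv, mul_div_assoc, div_self (pow_ne_zero _ xx_ne_zero), mul_one]
      rw [this]
      exact div_mem (hpolyx v) (pow_mem hxxm l)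
    have hphim : ∀ T : (MvPolynomial s K)[X], phi z' θ' T ∈
        IntermediateField.adjoin K {xx, θ'} := by
      intro T
      rw [phi, coe_eval₂RingHom, eval₂_eq_sum_range]
      apply sum_mem
      intro j _
      exact mul_mem (haz _) (pow_mem hθm j)
    intro i
    exact div_mem (hphim _) (hphim _)
  · intro p hp
    have h1 := hG p (phi z θ) x (hbase z θ) hDA
    rw [hS p hp, mul_zero] at h1
    obtain ⟨T, hT⟩ := hPd _ h1
    have h2 := hG p (phi z' θ') x' (hbase z' θ') hDA'
    rw [hT, map_mul, hP0', zero_mul] at h2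
    have h3 : phi z' θ' (C D) ^ m p ≠ 0 := by
      apply pow_ne_zero
      rw [phi_C]
      exact hD'
    exact (mul_eq_zero.1 h2.symm).resolve_left h3

/-- **Plane models for systems solvable in `K((t))`.** -/
theorem planeModels {N : ℕ} (S : Finset (MvPolynomial (Fin N) K)) (x : Fin N → LaurentSeries K)
    (hS : ∀ p ∈ S, MvPolynomial.aeval x p = 0) :
    ∃ M : ℕ, ∀ n ≥ M, ∃ R : K[X][X], R.Monic ∧ R.natDegree = n ∧ (R.coeff 0).natDegree = n - 1 ∧
      (∀ j, 1 ≤ j → j < n → R.coeff j ≠ 0 → (R.coeff j).natDegree + j ≤ n - 1) ∧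
      ∃ E : K[X], E ≠ 0 ∧ ∀ ξ ζ : K, ev2 ξ ζ R = 0 → E.eval ξ ≠ 0 →
        ∃ y : Fin N → K, ∀ p ∈ S, MvPolynomial.eval y p = 0 := by
  obtain ⟨θ, Q, x', h0, h1, hx', hS'⟩ := redA S x hS
  exact propC θ Q h0 h1 S x' hx' hS'

end H651
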