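import Pool.Agent.H651_Ample.Krasner
import Pool.Agent.H651_Ample.Arith
import Pool.Agent.H651_Ample.Red

/-!
# Fields dense in a field with invariant valuation
-/

set_option autoImplicit false
set_option linter.style.haveILetI false

namespace H651

open Polynomial

attribute [-instance] HahnSeries.instSMul
attribute [-instance] HahnSeries.instModule

universe u v

/-- the conclusion from suitable approximate polynomials -/
theorem ample_of_polys {K W A : Type u} [Field K] [Field W] [Field A] [Algebra K W] [Algebra W A]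
    [Algebra K A] [IsScalarTower K W A] [IsAlgClosed A] [Normal W A] (H : ProSolv K)
    {Γ₀ : Type v} [LinearOrderedCommGroupWithZero Γ₀] (w : Valuation A Γ₀)
    (hinv : ∀ (σ : A ≃ₐ[W] A) (x : A), w (σ x) = w x)
    (hnt : ∃ π : K, π ≠ 0 ∧ w (algebraMap K A π) < 1)
    {d₀ q : ℕ} (hd₀ : 1 ≤ d₀) (hq : 2 ≤ q)
    (hpol : ∀ k : ℕ, ∃ G : K[X], G.Monic ∧ G.natDegree = d₀ * q ^ k ∧ ∃ δ : K, δ ≠ 0 ∧
      ∀ y : A, w (aeval y G) < w (algebraMap K A δ) → d₀ * q ^ k ∣ (minpoly W y).natDegree)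
    {N : ℕ} (S : Finset (MvPolynomial (Fin N) K)) (x : Fin N → LaurentSeries K)
    (hS : ∀ p ∈ S, MvPolynomial.aeval x p = 0) :
    ∃ y : Fin N → K, ∀ p ∈ S, MvPolynomial.eval y p = 0 := by
  obtain ⟨M, hM⟩ := planeModels S x hS
  set s := M + 1 with hs
  obtain ⟨k, hk1, hk2, hk3⟩ := exists_good d₀ q s hd₀ hq
  obtain ⟨G, hGm, hGd, δ, hδ, hKr⟩ := hpol k
  obtain ⟨R, hRm, hRd, hR0, hRj, E, hE, hpt⟩ := hM (s + 1) (by omega)
  rw [Nat.add_sub_cancel] at hR0 hRj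
  have hd : 1 ≤ d₀ * q ^ k := Nat.mul_pos hd₀ (pow_pos (by omega) k)
  obtain ⟨ξ, ζ, h1, h2⟩ := core H w hinv hnt hd (by omega) hk1 hk3 G hGm hGd δ hδ hKr R hRm hRd
    hR0 hRj E hE
  exact hpt ξ ζ h1 h2

/-- **Dense subfields.** -/
theorem ample_of_dense {K W A : Type u} [Field K] [Field W] [Field A] [Algebra K W] [Algebra W A]
    [Algebra K A] [IsScalarTower K W A] [IsAlgClosed A] [Normal W A] (H : ProSolv K)
    {Γ₀ : Type v} [LinearOrderedCommGroupWithZero Γ₀] (w : Valuation A Γ₀)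
    (hinv : ∀ (σ : A ≃ₐ[W] A) (x : A), w (σ x) = w x)
    (hnt : ∃ π : K, π ≠ 0 ∧ w (algebraMap K A π) < 1)
    (hdense : ∀ (c : W) (a : A), a ≠ 0 → ∃ b : K, w (algebraMap W A (c - algebraMap K W b)) < w a)
    (hW : ∃ f : W[X], Irreducible f ∧ f.Separable ∧ 3 ≤ f.natDegree)
    {N : ℕ} (S : Finset (MvPolynomial (Fin N) K)) (x : Fin N → LaurentSeries K)
    (hS : ∀ p ∈ S, MvPolynomial.aeval x p = 0) :
    ∃ y : Fin N → K, ∀ p ∈ S, MvPolynomial.eval y p = 0 := by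
  obtain ⟨d₀, q, hd₀, hq, hirr⟩ := exists_hasIrr hW
  refine ample_of_polys H w hinv hnt hd₀ hq.two_le (fun k => ?_) S x hS
  obtain ⟨g, hgm, hgi, hgs, hgd⟩ := hirr k
  exact krasner_poly w hinv hdense (Nat.mul_pos hd₀ (pow_pos hq.pos k)) g hgm hgi hgs hgd

end H651
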