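import Pool.Agent.H651_Ample.RegA

/-!
# Curve data from a simple root
-/

set_option autoImplicit false
set_option linter.style.haveILetI false

namespace H651

open Polynomial

attribute [-instance] HahnSeries.instSMul
attribute [-instance] HahnSeries.instModule

variable {K : Type*} [Field K]

/-- a monic equation with a simple root gives curve data -/
theorem exists_CD_monic (y : LaurentSeries K) (Φ : K[X][X]) (hΦ : Φ.Monic)
    (h0 : ev y Φ = 0) (h1 : ev y (derivative Φ) ≠ 0) : ∃ D : CD K, D.y = y := by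
  classical
  obtain ⟨e, he⟩ : ∃ e, Φ.natDegree = e + 1 := by
    rcases Nat.eq_zero_or_pos Φ.natDegree with h | h
    · exfalso
      apply h1
      rw [hΦ.natDegree_eq_zero.1 h, derivative_one, map_zero]
    · exact ⟨Φ.natDegree - 1, by omega⟩
  set s : ℕ := 1 + ∑ j ∈ Finset.range (e + 1), (Φ.coeff j).natDegree with hs
  have hsj : ∀ j < e + 1, (Φ.coeff j).natDegree ≤ s := by
    intro j hj
    have := Finset.single_le_sum (f := fun j => (Φ.coeff j).natDegree) (fun i _ => Nat.zero_le _)
      (Finset.mem_range.2 hj)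
    omega
  have hv : ∀ i : ℕ, ∃ v : PowerSeries K, jj K v = aeval xx (Φ.coeff i) * tt ^ (s * (e + 1 - i)) := by
    intro i
    rcases lt_or_ge i (e + 1) with hi | hi
    · apply exists_of_og
      have h2 := (og_aeval_xx (Φ.coeff i)).mul (og_tt_pow (K := K) (s * (e + 1 - i)))
      refine h2.mono ?_
      have h3 := hsj i hi
      have h4 : s * 1 ≤ s * (e + 1 - i) := Nat.mul_le_mul_left _ (by omega)
      omega
    · rcases eq_or_lt_of_le hi with hi' | hi'
      · refine ⟨1, ?_⟩
        rw [← hi', ← he, hΦ.coeff_natDegree, map_one, map_one, Nat.sub_self, mul_zero, pow_zero,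
          mul_one]
      · refine ⟨0, ?_⟩
        rw [coeff_eq_zero_of_natDegree_lt (by omega), map_zero, map_zero, zero_mul]
  choose v hv using hv
  have hvtop : v (e + 1) = 1 := by
    apply jj_injective
    rw [hv, ← he, hΦ.coeff_natDegree, map_one, map_one, Nat.sub_self, mul_zero, pow_zero,
          mul_one]
  have hvz : ∀ i, e + 1 < i → v i = 0 := by
    intro i hi
    apply jj_injective
    rw [hv, coeff_eq_zero_of_natDegree_lt (by omega), map_zero, map_zero, zero_mul]
  set Φ₀ : (PowerSeries K)[X] := ∑ i ∈ Finset.range (e + 2), C (v i) * X ^ i with hΦ₀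
  have hc : ∀ i, Φ₀.coeff i = v i := by
    intro i
    rw [hΦ₀, finsetSum_coeff]
    simp only [coeff_C_mul, coeff_X_pow, mul_ite, mul_one, mul_zero]
    rw [Finset.sum_ite_eq]
    split_ifs with h
    · rfl
    · rw [Finset.mem_range, not_lt] at h
      exact (hvz i (by omega)).symm
  have hdeg : Φ₀.natDegree ≤ e + 1 := by
    rw [natDegree_le_iff_coeff_eq_zero]
    intro i hi
    rw [hc, hvz i hi]
  have hmon : Φ₀.Monic := monic_of_natDegree_le_of_coeff_eq_one (e + 1) hdeg (by rw [hc, hvtop])
  have hdeg' : Φ₀.natDegree = e + 1 := by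
    apply le_antisymm hdeg
    apply le_natDegree_of_ne_zero
    rw [hc, hvtop]
    exact one_ne_zero
  have hxt : ∀ n : ℕ, (xx : LaurentSeries K) ^ n * tt ^ n = 1 := by
    intro n
    rw [← mul_pow, xx_mul_tt, one_pow]
  have hiota : iota s Φ = C (xx ^ (s * (e + 1))) * Φ₀.map (jj K) := by
    ext1 i
    rw [coeff_iota, coeff_C_mul, coeff_map, hc, hv]
    rcases le_or_gt i (e + 1) with hi | hi
    · have h2 : s * (e + 1) = s * i + s * (e + 1 - i) := by
        rw [← mul_add]
        congr 1
        omega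
      rw [h2, pow_add]
      calc aeval xx (Φ.coeff i) * xx ^ (s * i)
          = aeval xx (Φ.coeff i) * xx ^ (s * i) * (xx ^ (s * (e + 1 - i)) * tt ^ (s * (e + 1 - i))) := by
            rw [hxt, mul_one]
        _ = _ := by ring
    · rw [coeff_eq_zero_of_natDegree_lt (by omega), map_zero, zero_mul, zero_mul, mul_zero]
  set y' : LaurentSeries K := tt ^ s * y with hy'
  have hyy' : xx ^ s * y' = y := by rw [hy', ← mul_assoc, hxt, one_mul]
  have hroot : (Φ₀.map (jj K)).eval y' = 0 := by
    have h2 := eval_iota s y' Φ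
    rw [hyy', h0, hiota, eval_mul, eval_C] at h2
    exact (mul_eq_zero.1 h2).resolve_left (pow_ne_zero _ xx_ne_zero)
  have hint : IsIntegral (PowerSeries K) y' := by
    refine ⟨Φ₀, hmon, ?_⟩
    rw [← eval_map]
    exact hroot
  obtain ⟨y₀, hy₀⟩ := (IsIntegrallyClosed.isIntegral_iff (K := LaurentSeries K)).1 hint
  have hy₀' : jj K y₀ = y' := hy₀
  have hroot₀ : Φ₀.IsRoot y₀ := by
    apply jj_injective
    rw [map_zero]
    rw [← hy₀', eval_map, eval₂_at_apply] at hroot
    exact hroot
  have hmul := mul_divByMonic_eq_iff_isRoot.2 hroot₀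
  set Ψ := Φ₀ /ₘ (X - C y₀) with hΨ
  have hΨm : Ψ.Monic := by
    have : ((X - C y₀) * Ψ).Monic := by rw [hmul]; exact hmon
    exact (monic_X_sub_C y₀).of_mul_monic_left this
  have hΨd : Ψ.natDegree = e := by
    have h2 := (monic_X_sub_C y₀).natDegree_mul hΨm
    rw [hmul, hdeg', natDegree_X_sub_C] at h2
    omega
  have hne : Ψ.eval y₀ ≠ 0 := by
    intro h
    have h2 : (derivative Φ₀).eval y₀ = 0 := by
      rw [← hmul, derivative_mul, eval_add, eval_mul, eval_mul, h, eval_sub, eval_X, eval_C,
        sub_self, mul_zero, zero_mul, add_zero]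
    have h3 : (derivative (Φ₀.map (jj K))).eval y' = 0 := by
      rw [derivative_map, ← hy₀', eval_map, eval₂_at_apply, h2, map_zero]
    have h4 : (derivative (iota s Φ)).eval y' = 0 := by
      rw [hiota, derivative_C_mul, eval_mul, h3, mul_zero]
    have h5 : derivative (iota s Φ) = C (xx ^ s) * iota s (derivative Φ) := by
      ext1 i
      rw [coeff_derivative, coeff_iota, coeff_C_mul, coeff_iota, coeff_derivative, map_mul]
      have h6 : aeval (xx : LaurentSeries K) ((i : K[X]) + 1) = (i : LaurentSeries K) + 1 := by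
        rw [map_add, map_natCast, map_one]
      rw [h6, mul_add, mul_one, pow_add]
      ring
    rw [h5, eval_mul, eval_C, eval_iota, hyy'] at h4
    exact h1 ((mul_eq_zero.1 h4).resolve_left (pow_ne_zero _ xx_ne_zero))
  refine ⟨⟨s, by omega, e, Ψ, hΨm, hΨd, y₀, Φ, hΦ, he, ?_, ?_, hne⟩, ?_⟩
  · rw [hiota, ← hmul, Polynomial.map_mul]
    exact ⟨C (xx ^ (s * (e + 1))) * (X - C y₀).map (jj K), by ring⟩
  · rw [hy₀', hyy', h0]
  · change xx ^ s * jj K y₀ = y
    rw [hy₀', hyy']

/-- a simple root gives curve data -/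
theorem exists_CD (θ : LaurentSeries K) (Q : K[X][X])
    (h0 : ev θ Q = 0) (h1 : ev θ (derivative Q) ≠ 0) :
    ∃ D : CD K, ∃ c : K[X], c ≠ 0 ∧ D.y = aeval xx c * θ := by
  have hQ : Q ≠ 0 := by
    rintro rfl
    rw [derivative_zero, map_zero] at h1
    exact h1 rfl
  have hn : 1 ≤ Q.natDegree := by
    by_contra h
    have h2 : Q.natDegree = 0 := by omega
    rw [eq_C_of_natDegree_eq_zero h2, derivative_C, map_zero] at h1
    exact h1 rfl
  set c := Q.leadingCoeff with hc
  have hc0 : c ≠ 0 := leadingCoeff_ne_zero.2 hQ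
  set Φ := integralNormalization Q with hΦ
  have hcomp : Φ.comp (C c * X) = C (c ^ (Q.natDegree - 1)) * Q := by
    ext1 i
    rw [comp_C_mul_X_coeff, coeff_C_mul, hΦ, integralNormalization_coeff_mul_leadingCoeff_pow _ hn,
      mul_comm]
  have hev : ∀ P : K[X][X], ev (aeval xx c * θ) P = ev θ (P.comp (C c * X)) := by
    intro P
    have : ev (aeval xx c * θ) = (ev θ).comp (compRingHom (C c * X)) := by
      apply Polynomial.ringHom_ext
      · intro a
        rw [ev_C, RingHom.comp_apply, coe_compRingHom_apply, C_comp, ev_C]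
      · rw [ev_X, RingHom.comp_apply, coe_compRingHom_apply, X_comp, map_mul, ev_C, ev_X]
    rw [this]
    rfl
  have hcx : aeval (xx : LaurentSeries K) c ≠ 0 := aeval_xx_ne_zero hc0
  obtain ⟨D, hD⟩ := exists_CD_monic (aeval xx c * θ) Φ (monic_integralNormalization hQ)
    (by rw [hev, hcomp, map_mul, h0, mul_zero])
    (by
      intro h
      have h2 := congrArg derivative hcomp
      rw [derivative_comp, derivative_C_mul, derivative_C_mul, derivative_X, mul_one] at h2
      have h3 := congrArg (ev θ) h2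
      rw [map_mul, ← hev, h, mul_zero, map_mul, ev_C, map_pow] at h3
      exact mul_ne_zero (pow_ne_zero _ hcx) h1 h3.symm)
  exact ⟨D, c, hc0, hD⟩

end H651
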