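import Mathlib

/-!
# Separable irreducible polynomials of large degree
-/

set_option autoImplicit false
set_option linter.style.haveILetI false

namespace H651

open Polynomial Module

universe u

/-- `F` has a separable irreducible polynomial of degree `n` -/
def HasIrr (F : Type u) [Field F] (n : ℕ) : Prop :=
  ∃ g : F[X], g.Monic ∧ Irreducible g ∧ g.Separable ∧ g.natDegree = n

theorem HasIrr.of_ext (F E : Type u) [Field F] [Field E] [Algebra F E] [FiniteDimensional F E]
    [Algebra.IsSeparable F E] : HasIrr F (finrank F E) := by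
  obtain ⟨α, hα⟩ := Field.exists_primitive_element F E
  have hint : IsIntegral F α := Algebra.IsIntegral.isIntegral α
  exact ⟨minpoly F α, minpoly.monic hint, minpoly.irreducible hint,
    Algebra.IsSeparable.isSeparable F α,
    (Field.primitive_element_iff_minpoly_natDegree_eq F α).1 hα⟩

theorem isSeparable_adjoinRoot {E : Type u} [Field E] {g : E[X]} [Fact (Irreducible g)]
    (hgm : g.Monic) (hgs : g.Separable) : Algebra.IsSeparable E (AdjoinRoot g) := by
  have h1 : Algebra.IsSeparable E (IntermediateField.adjoin E {AdjoinRoot.root g}) := by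
    rw [IntermediateField.isSeparable_adjoin_simple_iff_isSeparable]
    rw [IsSeparable, AdjoinRoot.minpoly_root hgm.ne_zero, hgm.leadingCoeff, inv_one, C_1, mul_one]
    exact hgs
  have h2 : IntermediateField.adjoin E {AdjoinRoot.root g} = ⊤ :=
    IntermediateField.adjoin_root_eq_top g
  rw [h2] at h1
  exact Algebra.IsSeparable.of_algHom E _
    (IntermediateField.topEquiv (F := E) (E := AdjoinRoot g)).symm.toAlgHom

theorem HasIrr.trans (F : Type u) {E : Type u} [Field F] [Field E] [Algebra F E]
    [FiniteDimensional F E] [Algebra.IsSeparable F E] {n : ℕ} (h : HasIrr E n) :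
    HasIrr F (finrank F E * n) := by
  obtain ⟨g, hgm, hgi, hgs, rfl⟩ := h
  haveI : Fact (Irreducible g) := ⟨hgi⟩
  haveI : FiniteDimensional E (AdjoinRoot g) := (AdjoinRoot.powerBasis hgi.ne_zero).finite
  haveI : Algebra.IsSeparable E (AdjoinRoot g) := isSeparable_adjoinRoot hgm hgs
  haveI : FiniteDimensional F (AdjoinRoot g) := FiniteDimensional.trans F E _
  haveI : Algebra.IsSeparable F (AdjoinRoot g) := Algebra.IsSeparable.trans F E _
  have h1 : finrank E (AdjoinRoot g) = g.natDegree := by
    rw [(AdjoinRoot.powerBasis hgi.ne_zero).finrank, AdjoinRoot.powerBasis_dim]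
  rw [← h1, finrank_mul_finrank]
  exact HasIrr.of_ext F _

theorem hasIrr_one (F : Type u) [Field F] : HasIrr F 1 :=
  ⟨X, monic_X, irreducible_X, separable_X, natDegree_X⟩

/-- the step: adjoining a root -/
theorem HasIrr.step {F : Type u} [Field F] {g : F[X]} [Fact (Irreducible g)] (hgm : g.Monic)
    (hgs : g.Separable) {n : ℕ} (h : HasIrr (AdjoinRoot g) n) :
    HasIrr F (g.natDegree * n) := by
  have hgi : Irreducible g := Fact.out
  haveI : FiniteDimensional F (AdjoinRoot g) := (AdjoinRoot.powerBasis hgi.ne_zero).finite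
  haveI : Algebra.IsSeparable F (AdjoinRoot g) := isSeparable_adjoinRoot hgm hgs
  have h1 : finrank F (AdjoinRoot g) = g.natDegree := by
    rw [(AdjoinRoot.powerBasis hgi.ne_zero).finrank, AdjoinRoot.powerBasis_dim]
  rw [← h1]
  exact HasIrr.trans F h

/-- Kummer chain, odd case -/
theorem hasIrr_kummer_odd {F : Type u} [Field F] {q : ℕ} (hq : q.Prime) (hq2 : q ≠ 2)
    (hqF : (q : F) ≠ 0) {η : F} (hη : ∀ b : F, b ^ q ≠ η) (k : ℕ) : HasIrr F (q ^ k) := by
  have hη0 : η ≠ 0 := by
    rintro rfl
    exact hη 0 (zero_pow hq.ne_zero)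
  refine ⟨X ^ (q ^ k) - C η, monic_X_pow_sub_C _ (pow_ne_zero _ hq.ne_zero),
    X_pow_sub_C_irreducible_of_prime_pow hq hq2 k hη, ?_, natDegree_X_pow_sub_C⟩
  apply separable_X_pow_sub_C _ _ hη0
  rw [Nat.cast_pow]
  exact pow_ne_zero _ hqF

/-- Kummer chain, even case -/
theorem hasIrr_kummer_two (k : ℕ) : ∀ {F : Type u} [Field F], (2 : F) ≠ 0 →
    (∃ i : F, i ^ 2 = -1) → ∀ η : F, (∀ b : F, b ^ 2 ≠ η) → HasIrr F (2 ^ k) := by
  induction k with
  | zero =>
    intro F _ _ _ η _
    rw [pow_zero]
    exact hasIrr_one F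
  | succ k ih =>
    intro F _ h2 hi η hη
    obtain ⟨i, hi⟩ := hi
    have hη0 : η ≠ 0 := by
      rintro rfl
      exact hη 0 (zero_pow two_ne_zero)
    set g : F[X] := X ^ 2 - C η with hg
    have hgm : g.Monic := monic_X_pow_sub_C _ two_ne_zero
    have hgi : Irreducible g := X_pow_sub_C_irreducible_of_prime Nat.prime_two hη
    have hgs : g.Separable := separable_X_pow_sub_C _ (by exact_mod_cast h2) hη0
    have hgd : g.natDegree = 2 := natDegree_X_pow_sub_C
    haveI : Fact (Irreducible g) := ⟨hgi⟩
    set r : AdjoinRoot g := AdjoinRoot.root g with hr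
    have hr2 : r ^ 2 = algebraMap F _ η := by
      have h3 : eval₂ (AdjoinRoot.of g) r g = 0 := AdjoinRoot.eval₂_root g
      have h4 : ∀ p : F[X], p = X ^ 2 - C η → eval₂ (AdjoinRoot.of g) r p =
          r ^ 2 - algebraMap F _ η := by
        intro p hp
        rw [hp, eval₂_sub, eval₂_pow, eval₂_X, eval₂_C]
        rfl
      rw [h4 g hg, sub_eq_zero] at h3
      exact h3
    have hinj : Function.Injective (algebraMap F (AdjoinRoot g)) :=
      (algebraMap F (AdjoinRoot g)).injective
    have hpb := AdjoinRoot.powerBasis hgi.ne_zero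
    have hlin : ∀ z : AdjoinRoot g, ∃ a b : F, z = algebraMap F _ a + algebraMap F _ b * r := by
      intro z
      obtain ⟨f, hf, hz⟩ := (AdjoinRoot.powerBasis hgi.ne_zero).exists_eq_aeval z
      rw [AdjoinRoot.powerBasis_dim, hgd] at hf
      rw [AdjoinRoot.powerBasis_gen] at hz
      refine ⟨f.coeff 0, f.coeff 1, ?_⟩
      rw [hz, aeval_eq_sum_range' hf, Finset.sum_range_succ, Finset.sum_range_one, pow_zero,
        pow_one, Algebra.smul_def, Algebra.smul_def, mul_one]
    have hind : ∀ a b : F, algebraMap F (AdjoinRoot g) a + algebraMap F _ b * r = 0 →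
        a = 0 ∧ b = 0 := by
      intro a b hab
      have h4 : aeval r (C b * X + C a) = 0 := by
        rw [map_add, map_mul, aeval_C, aeval_X, aeval_C, add_comm]
        exact hab
      have h5 : g ∣ C b * X + C a := by
        have h6 := minpoly.dvd F r h4
        rwa [hr, AdjoinRoot.minpoly_root hgi.ne_zero, hgm.leadingCoeff, inv_one, C_1, mul_one] at h6
      have h7 : C b * X + C a = 0 := by
        by_contra hne
        have h8 := natDegree_le_of_dvd h5 hne
        rw [hgd] at h8
        have h9 : (C b * X + C a).natDegree ≤ 1 := natDegree_linear_le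
        omega
      constructor
      · have := congrArg (fun p => coeff p 0) h7
        simpa using this
      · have := congrArg (fun p => coeff p 1) h7
        simpa using this
    have hnext : ∀ b : AdjoinRoot g, b ^ 2 ≠ r := by
      intro z hz
      obtain ⟨a, b, rfl⟩ := hlin z
      have h3 : algebraMap F (AdjoinRoot g) (a ^ 2 + b ^ 2 * η) +
          algebraMap F _ (2 * a * b - 1) * r = 0 := by
        rw [map_add, map_pow, map_mul, map_pow, ← hr2, map_sub, map_mul, map_mul, map_one,
          map_ofNat]
        linear_combination hz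
      obtain ⟨h4, h5⟩ := hind _ _ h3
      have hb : b ≠ 0 := by
        rintro rfl
        rw [mul_zero, zero_sub, neg_eq_zero] at h5
        exact one_ne_zero h5
      apply hη (i * a / b)
      rw [div_pow, mul_pow, hi, div_eq_iff (pow_ne_zero 2 hb)]
      linear_combination -h4
    have h2' : (2 : AdjoinRoot g) ≠ 0 := by
      intro h
      apply h2
      apply hinj
      rw [map_ofNat, map_zero, h]
    have := HasIrr.step hgm hgs (ih h2' ⟨algebraMap F _ i, by rw [← map_pow, hi, map_neg, map_one]⟩
      r hnext)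
    rw [hgd] at this
    rwa [pow_succ']

end H651
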