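import Pool.Agent.H651_Ample.Overring

/-!
# Fields with infinite decomposition groups
-/

set_option autoImplicit false
set_option linter.style.haveILetI false

namespace H651

open Polynomial

attribute [-instance] HahnSeries.instSMul
attribute [-instance] HahnSeries.instModule

universe u v

section Iota

variable {K A : Type*} [Field K] [Field A] [Algebra K A] {Γ₀ : Type*}
  [LinearOrderedCommGroupWithZero Γ₀] (w : Valuation A Γ₀)

/-- the embedding of valuation rings -/
def iotaO (K : Type*) {A : Type*} [Field K] [Field A] [Algebra K A] {Γ₀ : Type*}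
    [LinearOrderedCommGroupWithZero Γ₀] (w : Valuation A Γ₀) : resO K w →+* w.valuationSubring :=
  (phiO K w).codRestrict w.valuationSubring (fun x => phiO_le w x)

instance iota_local : IsLocalHom (iotaO K w) := by
  constructor
  intro a ha
  rw [(Valuation.valuationSubring.integers w).isUnit_iff_valuation_eq_one] at ha
  rw [(Valuation.valuationSubring.integers (w.comap (algebraMap K A))).isUnit_iff_valuation_eq_one]
  exact ha

/-- the map of residue fields -/
noncomputable def chiO (K : Type*) {A : Type*} [Field K] [Field A] [Algebra K A] {Γ₀ : Type*}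
    [LinearOrderedCommGroupWithZero Γ₀] (w : Valuation A Γ₀) :
    IsLocalRing.ResidueField (resO K w) →+* IsLocalRing.ResidueField w.valuationSubring :=
  IsLocalRing.ResidueField.map (iotaO K w)

theorem small_iff (Q : (resO K w)[X]) (y : w.valuationSubring) :
    w (eval₂ (phiO K w) (y : A) Q) < 1 ↔
      eval₂ (chiO K w) (IsLocalRing.residue w.valuationSubring y)
        (Q.map (IsLocalRing.residue (resO K w))) = 0 := by
  have h1 : eval₂ (chiO K w) (IsLocalRing.residue w.valuationSubring y)
      (Q.map (IsLocalRing.residue (resO K w))) =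
      IsLocalRing.residue w.valuationSubring (eval₂ (iotaO K w) y Q) := by
    rw [eval₂_map, hom_eval₂]
    rfl
  have h2 : (w.valuationSubring).subtype (eval₂ (iotaO K w) y Q) =
      eval₂ (phiO K w) (y : A) Q := by
    rw [hom_eval₂]
    rfl
  rw [h1, residue_zero_iff w, ← h2]
  rfl

end Iota

section Main

variable {K A : Type u} [Field K] [Field A] [Algebra K A] {Γ₀ : Type v}
  [LinearOrderedCommGroupWithZero Γ₀]

/-- the residue field has a separable irreducible polynomial of degree at least three -/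
theorem residue_exists [IsAlgClosed A] [Algebra.IsAlgebraic K A] (w : Valuation A Γ₀) (x : A)
    (hx : IsSeparable K x)
    (hroots : ∀ a ∈ ((minpoly K x).map (algebraMap K A)).roots, w a ≤ 1)
    (hdiff : ∀ a ∈ ((minpoly K x).map (algebraMap K A)).roots,
      ∀ b ∈ ((minpoly K x).map (algebraMap K A)).roots, a ≠ b → w (a - b) = 1)
    {σ₁ σ₂ σ₃ : A ≃ₐ[K] A} (h1 : σ₁ ∈ decG K w) (h2 : σ₂ ∈ decG K w) (h3 : σ₃ ∈ decG K w)
    (h12 : σ₁ x ≠ σ₂ x) (h13 : σ₁ x ≠ σ₃ x) (h23 : σ₂ x ≠ σ₃ x) :
    ∃ f : (IsLocalRing.ResidueField (resO K w))[X],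
      Irreducible f ∧ f.Separable ∧ 3 ≤ f.natDegree := by
  classical
  have hint : IsIntegral K x := Algebra.IsIntegral.isIntegral x
  set P := minpoly K x with hP
  have hPm : P.Monic := minpoly.monic hint
  set PA := P.map (algebraMap K A) with hPA
  have hPAm : PA.Monic := hPm.map _
  have hspl : PA.Splits := IsAlgClosed.splits _
  set s := PA.roots with hs
  have hPAs : PA = (s.map (fun a => X - C a)).prod := hspl.eq_prod_roots_of_monic hPAm
  have hcoef : ∀ k, w (algebraMap K A (P.coeff k)) ≤ 1 := by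
    intro k
    have h4 := pb_prod_X_sub_C w s hroots k
    rwa [← hPAs, hPA, coeff_map] at h4
  obtain ⟨P₀, hP₀, -, hP₀m⟩ := lifts_and_natDegree_eq_and_monic (f := (resO K w).subtype) (p := P)
    ((lifts_iff_coeff_lifts P).2 fun k => ⟨⟨P.coeff k, hcoef k⟩, rfl⟩) hPm
  set R := w.valuationSubring with hR
  set s' : Multiset R := s.pmap (fun a (h : w a ≤ 1) => (⟨a, h⟩ : R)) hroots with hs'
  have hs's : s'.map R.subtype = s := by
    rw [hs', Multiset.map_pmap]
    exact (Multiset.pmap_eq_map (p := fun a => w a ≤ 1) (fun a => a) s hroots).trans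
      (Multiset.map_id' s)
  have hP₀ι : P₀.map (iotaO K w) = (s'.map (fun a => X - C a)).prod := by
    apply Polynomial.map_injective R.subtype (ValuationSubring.subtype_injective R)
    rw [Polynomial.map_map, Polynomial.map_multiset_prod, Multiset.map_map]
    have h4 : R.subtype.comp (iotaO K w) = (algebraMap K A).comp (resO K w).subtype := rfl
    rw [h4, ← Polynomial.map_map, hP₀, ← hPA, hPAs]
    conv_lhs => rw [← hs's]
    rw [Multiset.map_map]
    congr 1
    apply Multiset.map_congr rfl
    intro a _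
    simp
  set s'' := s'.map (IsLocalRing.residue R) with hs''
  set Pb := P₀.map (IsLocalRing.residue (resO K w)) with hPb
  have hPbm : Pb.Monic := hP₀m.map _
  have hPbχ : Pb.map (chiO K w) = (s''.map (fun a => X - C a)).prod := by
    rw [hPb, Polynomial.map_map]
    have h4 : (chiO K w).comp (IsLocalRing.residue (resO K w)) =
        (IsLocalRing.residue R).comp (iotaO K w) := rfl
    rw [h4, ← Polynomial.map_map, hP₀ι, Polynomial.map_multiset_prod, Multiset.map_map, hs'',
      Multiset.map_map]
    congr 1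
    apply Multiset.map_congr rfl
    intro a _
    simp
  have hmem : ∀ a ∈ s', (a : A) ∈ s := by
    intro a ha
    rw [← hs's]
    exact Multiset.mem_map_of_mem _ ha
  have hnodup : s''.Nodup := by
    rw [hs'']
    apply Multiset.Nodup.map_on
    · intro a ha b hb hab
      by_contra hne
      have h4 : (a : A) ≠ b := fun h => hne (Subtype.ext h)
      have h5 := hdiff a (hmem a ha) b (hmem b hb) h4
      have h6 : IsLocalRing.residue R (a - b) = 0 := by rw [map_sub, hab, sub_self]
      rw [residue_zero_iff w] at h6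
      have h7 : ((a - b : R) : A) = (a : A) - b := rfl
      rw [h7, h5] at h6
      exact lt_irrefl _ h6
    · apply Multiset.Nodup.of_map R.subtype
      rw [hs's]
      exact nodup_roots (Separable.map hx)
  have hPbsep : Pb.Separable := by
    rw [← separable_map (chiO K w)]
    rw [← nodup_roots_iff_of_splits]
    · rw [hPbχ, roots_multiset_prod_X_sub_C]
      exact hnodup
    · exact (hPbm.map _).ne_zero
    · rw [hPbχ]
      apply Splits.multisetProd
      intro f hf
      rw [Multiset.mem_map] at hf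
      obtain ⟨a, _, rfl⟩ := hf
      exact Splits.X_sub_C a
  letI : Algebra (IsLocalRing.ResidueField (resO K w)) (IsLocalRing.ResidueField R) :=
    (chiO K w).toAlgebra
  -- conjugates of `x` are roots
  have hxs : ∀ σ : A ≃ₐ[K] A, σ x ∈ s := by
    intro σ
    rw [hs, mem_roots hPAm.ne_zero, IsRoot.def, hPA, eval_map_algebraMap]
    have h4 := aeval_algHom_apply (σ : A →ₐ[K] A) x P
    rw [hP, minpoly.aeval, map_zero] at h4
    exact h4
  have hxle : ∀ σ : A ≃ₐ[K] A, w (σ x) ≤ 1 := fun σ => hroots _ (hxs σ)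
  set xb : (A ≃ₐ[K] A) → IsLocalRing.ResidueField R := fun σ =>
    IsLocalRing.residue R ⟨σ x, hxle σ⟩ with hxb
  have hsmall : w (eval₂ (phiO K w) ((⟨(1 : A ≃ₐ[K] A) x, hxle 1⟩ : R) : A) P₀) < 1 := by
    have h4 : eval₂ (phiO K w) ((⟨(1 : A ≃ₐ[K] A) x, hxle 1⟩ : R) : A) P₀ = 0 := by
      have h5 : eval₂ (phiO K w) x P₀ = 0 := by
        have h6 : phiO K w = (algebraMap K A).comp (resO K w).subtype := rfl
        rw [h6, ← eval₂_map, hP₀, ← aeval_def, hP, minpoly.aeval]
      exact h5
    rw [h4, map_zero]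
    exact zero_lt_one
  have hroot1 : aeval (xb 1) Pb = 0 := by
    rw [small_iff] at hsmall
    exact hsmall
  have hintb : IsIntegral (IsLocalRing.ResidueField (resO K w)) (xb 1) :=
    ⟨Pb, hPbm, by rw [← aeval_def]; exact hroot1⟩
  set g := minpoly (IsLocalRing.ResidueField (resO K w)) (xb 1) with hg
  have hgroot : ∀ σ ∈ decG K w, (g.map (chiO K w)).eval (xb σ) = 0 := by
    intro σ hσ
    obtain ⟨G₀, hG₀⟩ := (mem_lifts _).1 (mem_lifts_of_surjective
      (IsLocalRing.residue_surjective (R := resO K w)) g)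
    have h4 : w (eval₂ (phiO K w) ((⟨(1 : A ≃ₐ[K] A) x, hxle 1⟩ : R) : A) G₀) < 1 := by
      rw [small_iff, hG₀]
      exact minpoly.aeval _ (xb 1)
    have h5 : eval₂ (phiO K w) (σ x) G₀ = σ (eval₂ (phiO K w) x G₀) := by
      have h6 := hom_eval₂ G₀ (phiO K w) (σ : A →+* A) x
      have h7 : (σ : A →+* A).comp (phiO K w) = phiO K w := by
        ext a
        exact σ.commutes _
      rw [h7] at h6
      exact h6.symm
    have h6 : w (eval₂ (phiO K w) ((⟨σ x, hxle σ⟩ : R) : A) G₀) < 1 := by
      have h7 : w (σ (eval₂ (phiO K w) x G₀)) < 1 := by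
        rw [decG_lt_one hσ]
        exact h4
      rw [← h5] at h7
      exact h7
    rw [small_iff, hG₀] at h6
    rw [eval_map]
    exact h6
  have hne : ∀ σ τ : A ≃ₐ[K] A, σ x ≠ τ x → xb σ ≠ xb τ := by
    intro σ τ h heq
    have h5 := hdiff _ (hxs σ) _ (hxs τ) h
    have h6 : IsLocalRing.residue R (⟨σ x, hxle σ⟩ - ⟨τ x, hxle τ⟩) = 0 := by
      rw [map_sub]
      exact sub_eq_zero.2 heq
    rw [residue_zero_iff w] at h6
    have h7 : (((⟨σ x, hxle σ⟩ : R) - ⟨τ x, hxle τ⟩ : R) : A) = σ x - τ x := rfl
    rw [h7, h5] at h6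
    exact lt_irrefl _ h6
  refine ⟨g, minpoly.irreducible hintb, ?_, ?_⟩
  · exact hPbsep.of_dvd (minpoly.dvd _ _ hroot1)
  · have h4 := three_le_natDegree ((Polynomial.map_ne_zero_iff (chiO K w).injective).2
      (minpoly.ne_zero hintb)) (hgroot σ₁ h1) (hgroot σ₂ h2) (hgroot σ₃ h3)
      (hne _ _ h12) (hne _ _ h13) (hne _ _ h23)
    rwa [natDegree_map] at h4

/-- **Main theorem.** -/
theorem ample_of_infinite [IsAlgClosed A] [Algebra.IsAlgebraic K A] (H : ProSolv K)
    (V : ValuationSubring A) (hV : V ≠ ⊤)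
    (hD : 3 ≤ ((decG K V.valuation : Subgroup (A ≃ₐ[K] A)) : Set (A ≃ₐ[K] A)).encard)
    {N : ℕ} (S : Finset (MvPolynomial (Fin N) K)) (x : Fin N → LaurentSeries K)
    (hS : ∀ p ∈ S, MvPolynomial.aeval x p = 0) :
    ∃ y : Fin N → K, ∀ p ∈ S, MvPolynomial.eval y p = 0 := by
  classical
  by_cases hmax : ∃ V₁ : ValuationSubring A, V ≤ V₁ ∧ V₁ ≠ ⊤ ∧
      ∀ V' : ValuationSubring A, V₁ ≤ V' → V' = V₁ ∨ V' = ⊤
  · obtain ⟨V₁, h1, h2, h3⟩ := hmax
    exact ample_of_arch H V₁.valuation (arch_of_max h3) (exists_small h2)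
      (hD.trans (Set.encard_le_encard (decG_mono h1))) S x hS
  · obtain ⟨z, hz, σ₁, h1, σ₂, h2, σ₃, h3, h12, h13, h23⟩ := exists_three hD
    set s := ((minpoly K z).map (algebraMap K A)).roots with hs
    obtain ⟨V', hVV', hV', hF⟩ := exists_overring hV hmax
      (s.toFinset ∪ (s.toFinset ×ˢ s.toFinset).image (fun p => (p.1 - p.2)⁻¹))
    have hroots : ∀ a ∈ s, V'.valuation a ≤ 1 := by
      intro a ha
      rw [V'.valuation_le_one_iff]
      apply hF
      rw [Finset.mem_union, Multiset.mem_toFinset]
      exact Or.inl ha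
    have hdiff : ∀ a ∈ s, ∀ b ∈ s, a ≠ b → V'.valuation (a - b) = 1 := by
      intro a ha b hb hab
      apply le_antisymm
      · exact (V'.valuation.map_sub _ _).trans (max_le (hroots a ha) (hroots b hb))
      · have h4 : V'.valuation (a - b)⁻¹ ≤ 1 := by
          rw [V'.valuation_le_one_iff]
          apply hF
          rw [Finset.mem_union, Finset.mem_image]
          right
          exact ⟨(a, b), by simp only [Finset.mem_product, Multiset.mem_toFinset]; exact ⟨ha, hb⟩,
            rfl⟩
        have h5 : 0 < V'.valuation (a - b) := (Valuation.pos_iff _).2 (sub_ne_zero.2 hab)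
        rw [map_inv₀, inv_le_one₀ h5] at h4
        exact h4
    have hle := decG_mono (K := K) hVV'
    exact ample_of_residue H V'.valuation (exists_small hV')
      (residue_exists V'.valuation z hz hroots hdiff (hle h1) (hle h2) (hle h3) h12 h13 h23) S x hS

open scoped Pointwise in
/-- the decomposition group of Mathlib -/
theorem decomposition_le (V : ValuationSubring A) :
    V.decompositionSubgroup K ≤ decG K V.valuation := by
  intro σ hσ
  have h1 : σ • V = V := hσ
  rw [mem_decG]
  simp only [ValuationSubring.valuation_le_one_iff]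
  intro x
  have h2 := ValuationSubring.smul_mem_pointwise_smul_iff (g := σ) (S := V) (x := x)
  rw [h1] at h2
  exact h2

end Main

end H651
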