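import Pool.Agent.H651_Ample.ExistsCD

/-!
# Function rings: summary
-/

set_option autoImplicit false
set_option linter.style.haveILetI false

namespace H651

open Polynomial

attribute [-instance] HahnSeries.instSMul
attribute [-instance] HahnSeries.instModule

variable {K : Type*} [Field K]

/-- a ring of functions with poles at one rational place only, all large pole orders occurring -/
structure FA (A : Subalgebra K (LaurentSeries K)) : Prop where
  const : ∀ a ∈ A, OG 0 a → ∃ c : K, algebraMap K _ c = a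
  pole : ∃ M : ℕ, ∀ m ≥ M, ∃ a ∈ A, a ≠ 0 ∧ a.order = -(m : ℤ)

theorem CD.fa (D : CD K) : FA (RR D.s D.Ψ D.y) where
  const a ha h := D.const_of_og ha h
  pole := by
    obtain ⟨M, hM⟩ := D.exists_pole 0
    refine ⟨M, fun m hm => ?_⟩
    obtain ⟨G, hG, h1, h2⟩ := hM m hm
    exact ⟨_, ⟨G, hG, rfl⟩, h1, h2⟩

theorem CD.frac (D : CD K) (f : LaurentSeries K)
    (hf : f ∈ IntermediateField.adjoin K {xx, D.y}) :
    ∃ a ∈ RR D.s D.Ψ D.y, ∃ b ∈ RR D.s D.Ψ D.y, b ≠ 0 ∧ b * f = a := by
  obtain ⟨M, hM⟩ := D.exists_pole (1 + D.s)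
  obtain ⟨G, hG, h1, -⟩ := hM M le_rfl
  set A := RR D.s D.Ψ D.y with hA
  have hGA : ev D.y G ∈ A := ⟨G, hG.toZero, rfl⟩
  have hX : xx * ev D.y G ∈ A := by
    refine ⟨C X * G, ?_, ?_⟩
    · have h2 : Reg D.s D.Ψ (D.s + 1) G := by rw [add_comm]; exact hG
      exact h2.X_mul.toZero
    · rw [map_mul, ev_C, aeval_X]
  have hY : D.y * ev D.y G ∈ A := by
    refine ⟨X * G, hG.Y_mul.toZero, ?_⟩
    rw [map_mul, ev_X]
  have h2 : IntermediateField.adjoin K {xx, D.y} ≤
      IntermediateField.adjoin K (A : Set (LaurentSeries K)) := by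
    rw [IntermediateField.adjoin_le_iff]
    rintro z (rfl | hz)
    · have h3 : (xx : LaurentSeries K) = (xx * ev D.y G) / ev D.y G := by
        rw [mul_div_assoc, div_self h1, mul_one]
      rw [h3]
      exact div_mem (IntermediateField.subset_adjoin _ _ hX)
        (IntermediateField.subset_adjoin _ _ hGA)
    · rw [Set.mem_singleton_iff] at hz
      subst hz
      have h3 : D.y = (D.y * ev D.y G) / ev D.y G := by
        rw [mul_div_assoc, div_self h1, mul_one]
      rw [h3]
      exact div_mem (IntermediateField.subset_adjoin _ _ hY)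
        (IntermediateField.subset_adjoin _ _ hGA)
  have h3 := h2 hf
  rw [IntermediateField.mem_adjoin_iff_div] at h3
  obtain ⟨r, hr, t, ht, hrt⟩ := h3
  rw [Algebra.adjoin_eq] at hr ht
  by_cases ht0 : t = 0
  · refine ⟨0, A.zero_mem, 1, A.one_mem, one_ne_zero, ?_⟩
    rw [hrt, ht0, div_zero, mul_zero]
  · refine ⟨r, hr, t, ht, ht0, ?_⟩
    rw [hrt, mul_div_cancel₀ _ ht0]

/-- **Function rings exist**: for a simple root `θ` over `K(t)` there is a function ring with
`K(t)(θ)` in its field of fractions. -/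
theorem exists_FA (θ : LaurentSeries K) (Q : K[X][X])
    (h0 : ev θ Q = 0) (h1 : ev θ (derivative Q) ≠ 0) :
    ∃ A : Subalgebra K (LaurentSeries K), FA A ∧
      ∀ f ∈ IntermediateField.adjoin K {xx, θ}, ∃ a ∈ A, ∃ b ∈ A, b ≠ 0 ∧ b * f = a := by
  obtain ⟨D, c, hc0, hD⟩ := exists_CD θ Q h0 h1
  refine ⟨RR D.s D.Ψ D.y, D.fa, fun f hf => D.frac f ?_⟩
  have h2 : IntermediateField.adjoin K {xx, θ} ≤ IntermediateField.adjoin K {xx, D.y} := by
    rw [IntermediateField.adjoin_le_iff]
    have hx : (xx : LaurentSeries K) ∈ IntermediateField.adjoin K {xx, D.y} :=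
      IntermediateField.subset_adjoin _ _ (by simp)
    have hy : D.y ∈ IntermediateField.adjoin K {xx, D.y} :=
      IntermediateField.subset_adjoin _ _ (by simp)
    rintro z (rfl | hz)
    · exact hx
    · rw [Set.mem_singleton_iff] at hz
      subst hz
      have hcx : aeval (xx : LaurentSeries K) c ≠ 0 := aeval_xx_ne_zero hc0
      have h3 : z = D.y / aeval xx c := by
        rw [hD, mul_div_cancel_left₀ _ hcx]
      have h4 : aeval (xx : LaurentSeries K) c ∈ IntermediateField.adjoin K {xx, D.y} := by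
        have h5 : aeval (xx : LaurentSeries K) c ∈ Algebra.adjoin K {(xx : LaurentSeries K)} :=
          aeval_mem_adjoin_singleton K xx
        have h6 : Algebra.adjoin K {(xx : LaurentSeries K)} ≤
            (IntermediateField.adjoin K {xx, D.y}).toSubalgebra := by
          rw [Algebra.adjoin_le_iff]
          rintro w hw
          rw [Set.mem_singleton_iff] at hw
          rw [hw]
          exact hx
        exact h6 h5
      rw [h3]
      exact div_mem hy h4
  exact h2 hf

end H651
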