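import Pool.Agent.H651_Ample.Grp

/-!
# Minimal extensions of fields whose finite Galois extensions are solvable
-/

set_option autoImplicit false
set_option linter.style.haveILetI false

namespace H651

open IntermediateField Polynomial

universe u

/-- all finite Galois extensions of `K` have solvable Galois group -/
def ProSolv (K : Type u) [Field K] : Prop :=
  ∀ (L : Type u) [Field L] [Algebra K L] [FiniteDimensional K L] [IsGalois K L],
    Group.IsSolvable (L ≃ₐ[K] L)

/-- **A proper separable extension without intermediate fields has prime power degree**, when all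
finite Galois groups over the base are solvable. -/
theorem isPrimePow_of_atom {K Ω : Type u} [Field K] [Field Ω] [Algebra K Ω] (H : ProSolv K)
    (α : Ω) (hint : IsIntegral K α) (hsep : (minpoly K α).Separable)
    (hspl : ((minpoly K α).map (algebraMap K Ω)).Splits)
    (hα : ∀ a : K, algebraMap K Ω a ≠ α)
    (hmin : ∀ F : IntermediateField K Ω, F ≤ K⟮α⟯ → F = ⊥ ∨ F = K⟮α⟯) :
    IsPrimePow (minpoly K α).natDegree := by
  classical
  set N : IntermediateField K Ω := adjoin K ((minpoly K α).rootSet Ω) with hN
  haveI hspf : IsSplittingField K N (minpoly K α) := adjoin_rootSet_isSplittingField hspl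
  haveI hgal : IsGalois K N := IsGalois.of_separable_splitting_field hsep
  haveI hfd : FiniteDimensional K N := IsSplittingField.finiteDimensional N (minpoly K α)
  haveI hsolv : Group.IsSolvable (N ≃ₐ[K] N) := H N
  have hαN : K⟮α⟯ ≤ N := by
    rw [adjoin_simple_le_iff]
    apply subset_adjoin
    rw [mem_rootSet]
    exact ⟨minpoly.ne_zero hint, minpoly.aeval K α⟩
  set E : IntermediateField K N := restrict hαN with hE
  have hlift : lift E = K⟮α⟯ := lift_restrict hαN
  have hEbot : E ≠ ⊥ := by
    intro h
    have h1 : K⟮α⟯ = ⊥ := by rw [← hlift, h, lift_bot]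
    rw [adjoin_simple_eq_bot_iff, mem_bot] at h1
    obtain ⟨a, ha⟩ := h1
    exact hα a ha
  have hcoatom : IsCoatom E.fixingSubgroup := by
    refine ⟨?_, ?_⟩
    · intro h
      apply hEbot
      rw [← IsGalois.fixedField_fixingSubgroup E, h, IsGalois.fixedField_top]
    · intro B hB
      have h1 : fixedField B ≤ E := by
        rw [← IsGalois.fixedField_fixingSubgroup E]
        exact (fixedField_antitone (F := K) (E := N)) hB.le
      have h2 : lift (fixedField B) ≤ K⟮α⟯ := by
        rw [← hlift]
        intro x hx
        have hx' := lift_le _ hx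
        have : (⟨x, hx'⟩ : N) ∈ fixedField B := (mem_lift (⟨x, hx'⟩ : N)).1 hx
        exact (mem_lift (⟨x, hx'⟩ : N)).2 (h1 this)
      rcases hmin _ h2 with h3 | h3
      · have h4 : fixedField B = ⊥ := by
          apply lift_injective N
          rw [h3, lift_bot]
        rw [← fixingSubgroup_fixedField B, h4, IntermediateField.fixingSubgroup_bot]
      · exfalso
        have h4 : fixedField B = E := by
          apply lift_injective N
          rw [h3, hlift]
        apply hB.ne
        rw [← fixingSubgroup_fixedField B, h4]
  have hidx := isPrimePow_index _ hcoatom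
  rw [← finrank_eq_fixingSubgroup_index] at hidx
  have h5 : Module.finrank K E = (minpoly K α).natDegree := by
    rw [← adjoin.finrank hint, ← (restrictAlgEquiv hαN).toLinearEquiv.finrank_eq]
  rwa [h5] at hidx

end H651
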