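import Pool.Agent.H651_Ample.Reg

/-!
# Laurent series fields are separable extensions
-/

set_option autoImplicit false
set_option linter.style.haveILetI false

namespace H651

attribute [-instance] HahnSeries.instSMul
attribute [-instance] HahnSeries.instModule

variable {K : Type*} [Field K]

theorem coeff_pow_char (p : ℕ) [hp : Fact p.Prime] [CharP K p] (f : PowerSeries K) (m : ℕ) :
    PowerSeries.coeff (p * m) (f ^ p) = (PowerSeries.coeff m f) ^ p := by
  have h0 : p ≠ 0 := hp.out.ne_zero
  haveI : ExpChar K p := ExpChar.prime hp.out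
  have h1 : PowerSeries.map (frobenius K p) (PowerSeries.expand p h0 f) = f ^ p := by
    exact MvPowerSeries.map_frobenius_expand (σ := Unit) p h0 (f := f)
  rw [← h1, PowerSeries.coeff_map, PowerSeries.coeff_expand_mul, frobenius_def]

/-- a finite family of Laurent series has a common denominator -/
theorem exists_common {ι : Type*} [Finite ι] (v : ι → LaurentSeries K) :
    ∃ (M : ℕ) (f : ι → PowerSeries K), ∀ i, jj K (f i) = tt ^ M * v i := by
  classical
  haveI := Fintype.ofFinite ι
  refine ⟨∑ i, (-(v i).order).toNat, ?_⟩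
  have h1 : ∀ i, OG 0 (tt ^ (∑ i, (-(v i).order).toNat) * v i) := by
    intro i
    by_cases hi : v i = 0
    · rw [hi, mul_zero]
      exact og_zero 0
    · refine ((og_tt_pow _).mul ((og_iff_order hi).2 le_rfl)).mono ?_
      have h2 : (-(v i).order).toNat ≤ ∑ i, (-(v i).order).toNat :=
        Finset.single_le_sum (f := fun i => (-(v i).order).toNat) (fun _ _ => Nat.zero_le _)
          (Finset.mem_univ i)
      omega
  exact ⟨fun i => (exists_of_og (h1 i)).choose, fun i => (exists_of_og (h1 i)).choose_spec⟩

theorem coeff_sum_C {ι : Type*} (s : Finset ι) (c : ι → K) (f : ι → PowerSeries K) (m : ℕ) :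
    PowerSeries.coeff m (∑ i ∈ s, PowerSeries.C (c i) * f i) =
      ∑ i ∈ s, c i * PowerSeries.coeff m (f i) := by
  rw [map_sum]
  refine Finset.sum_congr rfl fun i _ => ?_
  rw [PowerSeries.coeff_C_mul]

theorem jj_C (c : K) : jj K (PowerSeries.C c) = algebraMap K _ c := by
  rw [LaurentSeries.algebraMap_apply, ← PowerSeries.coe_C]

/-- the power map preserves linear independence -/
theorem linInd_pow (p : ℕ) [hp : Fact p.Prime] [CharP K p] {ι : Type*} [Fintype ι]
    (v : ι → LaurentSeries K) (hv : LinearIndependent K v) :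
    LinearIndependent K (fun i => v i ^ p) := by
  classical
  rw [Fintype.linearIndependent_iff] at hv ⊢
  intro c hc
  obtain ⟨M, f, hf⟩ := exists_common v
  -- the relation for power series
  have hrel : ∑ i, PowerSeries.C (c i) * f i ^ p = 0 := by
    apply jj_injective
    rw [map_zero, map_sum]
    have : (tt : LaurentSeries K) ^ (M * p) * ∑ i, c i • v i ^ p = 0 := by rw [hc, mul_zero]
    rw [← this, Finset.mul_sum]
    refine Finset.sum_congr rfl fun i _ => ?_
    rw [map_mul, map_pow (jj K), hf, jj_C, mul_pow, ← pow_mul, Algebra.smul_def]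
    ring
  have hcoef : ∀ m : ℕ, ∑ i, c i * (PowerSeries.coeff m (f i)) ^ p = 0 := by
    intro m
    have h1 := congrArg (PowerSeries.coeff (p * m)) hrel
    rw [coeff_sum_C, map_zero] at h1
    rw [← h1]
    refine Finset.sum_congr rfl fun i _ => ?_
    rw [coeff_pow_char]
  let k₀ : Subfield K := (frobenius K p).fieldRange
  let b := Module.Basis.ofVectorSpace k₀ K
  have hpow : ∀ z : k₀, ∃ a : K, a ^ p = z := by
    intro z
    obtain ⟨a, ha⟩ := z.2
    exact ⟨a, ha⟩
  have key : ∀ l, ∀ i, b.repr (c i) l = 0 := by
    intro l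
    choose a ha using fun i => hpow (b.repr (c i) l)
    have h2 : ∀ m : ℕ, ∑ i, a i * PowerSeries.coeff m (f i) = 0 := by
      intro m
      have hw : ∀ i, (PowerSeries.coeff m (f i)) ^ p ∈ k₀ := fun i => ⟨_, rfl⟩
      have h3 : ∑ i, (⟨_, hw i⟩ : k₀) • c i = 0 := by
        rw [← hcoef m]
        refine Finset.sum_congr rfl fun i _ => ?_
        rw [Subfield.smul_def, smul_eq_mul, mul_comm]
      have h4 := congrArg (fun z => b.repr z l) h3
      simp only [map_sum, map_smul, map_zero, Finsupp.coe_zero, Pi.zero_apply,
        Finsupp.coe_finsetSum, Finset.sum_apply, Finsupp.coe_smul, Pi.smul_apply] at h4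
      have h5 := congrArg (fun z : k₀ => (z : K)) h4
      simp only [smul_eq_mul, AddSubmonoidClass.coe_finsetSum, MulMemClass.coe_mul,
        ZeroMemClass.coe_zero] at h5
      have h6 : (∑ i, a i * PowerSeries.coeff m (f i)) ^ p = 0 := by
        rw [← h5]
        have h7 : (∑ i, a i * PowerSeries.coeff m (f i)) ^ p =
            frobenius K p (∑ i, a i * PowerSeries.coeff m (f i)) := rfl
        rw [h7, map_sum]
        refine Finset.sum_congr rfl fun i _ => ?_
        rw [map_mul, frobenius_def, frobenius_def, ha]
        ring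
      exact pow_eq_zero_iff (hp.out.ne_zero) |>.1 h6
    have h8 : ∑ i, a i • v i = 0 := by
      have h9 : ∑ i, PowerSeries.C (a i) * f i = 0 := by
        ext m
        rw [coeff_sum_C, h2, map_zero]
      have h10 := congrArg (jj K) h9
      rw [map_zero, map_sum] at h10
      have h11 : (tt : LaurentSeries K) ^ M * ∑ i, a i • v i = 0 := by
        rw [← h10, Finset.mul_sum]
        refine Finset.sum_congr rfl fun i _ => ?_
        rw [map_mul, hf, jj_C, Algebra.smul_def]
        ring
      exact (mul_eq_zero.1 h11).resolve_left (pow_ne_zero _ tt_ne_zero)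
    intro i
    have h12 := hv a h8 i
    apply Subtype.ext
    rw [← ha i, h12, zero_pow hp.out.ne_zero]
    rfl
  intro i
  have h13 : b.repr (c i) = 0 := by
    ext l
    rw [key l i]
    rfl
  exact (LinearEquiv.map_eq_zero_iff b.repr).1 h13

end H651
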