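import Pool.Agent.H651_Ample.Cont
import Pool.Agent.H651_Ample.Sep

/-!
# Generic points over separating transcendence bases
-/

set_option autoImplicit false
set_option linter.style.haveILetI false

namespace H651

open Polynomial

attribute [-instance] HahnSeries.instSMul
attribute [-instance] HahnSeries.instModule

universe u

variable {K : Type u} [Field K]

/-- a finitely generated subextension of `K((t))` has a separating transcendence basis -/
theorem exists_sep_basis (E : IntermediateField K (LaurentSeries K)) [Algebra.EssFiniteType K E] :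
    ∃ s : Finset E, IsTranscendenceBasis K ((↑) : s → E) ∧
      Algebra.IsSeparable (IntermediateField.adjoin K (s : Set E)) E := by
  classical
  obtain ⟨p, hp⟩ := CharP.exists K
  rcases CharP.char_is_prime_or_zero K p with hp' | hp'
  · haveI : Fact p.Prime := ⟨hp'⟩
    haveI : ExpChar K p := ExpChar.prime hp'
    apply exists_isTranscendenceBasis_and_isSeparable_of_linearIndepOn_pow_of_essFiniteType p hp'
    intro s hs
    have h1 : LinearIndependent K (fun i : s => ((i : E) : LaurentSeries K)) := by
      have h2 : LinearIndependent K (fun i : s => (i : E)) := hs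
      exact h2.map' (E.val.toLinearMap) (LinearMap.ker_eq_bot.2 (E.val.toRingHom.injective))
    have h3 := linInd_pow p _ h1
    have h4 : LinearIndependent K (fun i : s => ((i : E) ^ p : E)) := by
      apply LinearIndependent.of_comp (E.val.toLinearMap)
      exact h3
    exact h4
  · subst hp'
    haveI : CharZero K := CharP.charP_to_charZero K
    exact exists_isTranscendenceBasis_and_isSeparable_of_perfectField K E

variable {E : Type*} [Field E] [Algebra K E]

/-- fractions in a field generated by a set -/
theorem exists_frac_mv (s : Set E) (u : E) (hu : u ∈ IntermediateField.adjoin K s) :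
    ∃ a b : MvPolynomial s K, MvPolynomial.aeval ((↑) : s → E) b ≠ 0 ∧
      MvPolynomial.aeval ((↑) : s → E) b * u = MvPolynomial.aeval ((↑) : s → E) a := by
  rw [IntermediateField.mem_adjoin_iff] at hu
  obtain ⟨a, b, hab⟩ := hu
  by_cases hb : MvPolynomial.aeval ((↑) : s → E) b = 0
  · refine ⟨0, 1, ?_, ?_⟩
    · rw [map_one]
      exact one_ne_zero
    · have : u = 0 := by
        rw [hab]
        have hb' : MvPolynomial.aeval (Subtype.val : s → E) b = 0 := hb
        rw [hb', div_zero]
      rw [this, mul_zero, map_zero]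
  · refine ⟨a, b, hb, ?_⟩
    rw [hab]
    exact mul_div_cancel₀ _ hb

/-- clearing denominators of polynomials over a generated field -/
theorem exists_clear (s : Set E) (q : (IntermediateField.adjoin K s)[X]) :
    ∃ (b : MvPolynomial s K) (G : (MvPolynomial s K)[X]),
      MvPolynomial.aeval ((↑) : s → E) b ≠ 0 ∧
      G.map (MvPolynomial.aeval ((↑) : s → E) : MvPolynomial s K →ₐ[K] E).toRingHom =
        C (MvPolynomial.aeval ((↑) : s → E) b) *
          q.map (algebraMap (IntermediateField.adjoin K s) E) := by
  induction q using Polynomial.induction_on' with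
  | add p q hp hq =>
    obtain ⟨b₁, G₁, h₁, h₁'⟩ := hp
    obtain ⟨b₂, G₂, h₂, h₂'⟩ := hq
    refine ⟨b₁ * b₂, C b₂ * G₁ + C b₁ * G₂, ?_, ?_⟩
    · rw [map_mul]
      exact mul_ne_zero h₁ h₂
    · rw [Polynomial.map_add, Polynomial.map_mul, Polynomial.map_mul, h₁', h₂', map_C, map_C,
        Polynomial.map_add, map_mul, C_mul]
      simp only [AlgHom.toRingHom_eq_coe, RingHom.coe_coe]
      ring
  | monomial n c =>
    obtain ⟨a, b, hb, hab⟩ := exists_frac_mv s c.1 c.2
    refine ⟨b, monomial n a, hb, ?_⟩
    rw [map_monomial, map_monomial, C_mul_monomial]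
    congr 1
    exact hab.symm

/-- **generic point data** -/
theorem exists_generic {N : ℕ} (x : Fin N → LaurentSeries K) :
    ∃ (E : IntermediateField K (LaurentSeries K)) (s : Set E) (θ : LaurentSeries K)
      (z : s → LaurentSeries K) (P : (MvPolynomial s K)[X]), P.Monic ∧ phi z θ P = 0 ∧
        phi z θ (derivative P) ≠ 0 ∧ (∀ G, phi z θ G = 0 → P ∣ G) ∧
        ∀ i, ∃ (b : MvPolynomial s K) (A : (MvPolynomial s K)[X]),
          MvPolynomial.aeval z b ≠ 0 ∧ MvPolynomial.aeval z b * x i = phi z θ A := by
  classical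
  set E : IntermediateField K (LaurentSeries K) := IntermediateField.adjoin K (Set.range x) with hE
  haveI hess : Algebra.EssFiniteType K E :=
    IntermediateField.essFiniteType_iff.2 (IntermediateField.fg_adjoin_of_finite (Set.finite_range x))
  obtain ⟨t, ht, hsep⟩ := exists_sep_basis E
  set s : Set E := (t : Set E) with hs
  set F₀ := IntermediateField.adjoin K s with hF₀
  haveI : Algebra.IsSeparable F₀ E := hsep
  -- finiteness
  haveI hfin : FiniteDimensional F₀ E := by
    obtain ⟨g, hg⟩ := IntermediateField.fg_top K E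
    have h1 : IntermediateField.adjoin F₀ (g : Set E) = ⊤ :=
      IntermediateField.adjoin_eq_top_of_adjoin_eq_top K hg
    have h2 : FiniteDimensional F₀ (IntermediateField.adjoin F₀ (g : Set E)) :=
      IntermediateField.finiteDimensional_adjoin fun y _ => Algebra.IsIntegral.isIntegral y
    rw [h1] at h2
    exact Module.Finite.equiv IntermediateField.topEquiv.toLinearEquiv
  obtain ⟨θ₀, hθ₀⟩ := Field.exists_primitive_element F₀ E
  let e : MvPolynomial s K →ₐ[K] E := MvPolynomial.aeval ((↑) : s → E)
  have hinj : Function.Injective e := ht.1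
  letI : Algebra (MvPolynomial s K) E := e.toRingHom.toAlgebra
  have halg : ∀ a, algebraMap (MvPolynomial s K) E a = e a := fun _ => rfl
  haveI hfaith : FaithfulSMul (MvPolynomial s K) E :=
    (faithfulSMul_iff_algebraMap_injective _ _).2 hinj
  -- every element is algebraic
  have hclear : ∀ q : F₀[X], ∃ (b : MvPolynomial s K) (G : (MvPolynomial s K)[X]),
      e b ≠ 0 ∧ G.map (algebraMap (MvPolynomial s K) E) = C (e b) * q.map (algebraMap F₀ E) :=
    fun q => exists_clear s q
  have haeval : ∀ (G : (MvPolynomial s K)[X]) (w : E),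
      aeval w G = (G.map (algebraMap (MvPolynomial s K) E)).eval w := by
    intro G w
    rw [eval_map_algebraMap]
  have halgb : ∀ w : E, IsAlgebraic (MvPolynomial s K) w := by
    intro w
    obtain ⟨b, G, hb, hG⟩ := hclear (minpoly F₀ w)
    refine ⟨G, ?_, ?_⟩
    · rintro rfl
      rw [Polynomial.map_zero] at hG
      have h1 : (minpoly F₀ w).map (algebraMap F₀ E) ≠ 0 :=
        (Polynomial.map_ne_zero_iff (algebraMap F₀ E).injective).2
          (minpoly.ne_zero (Algebra.IsIntegral.isIntegral w))
      exact mul_ne_zero (C_ne_zero.2 hb) h1 hG.symm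
    · rw [haeval, hG, eval_mul, eval_map_algebraMap, minpoly.aeval, mul_zero]
  obtain ⟨d, hd, hint⟩ := (halgb θ₀).exists_integral_multiple
  have hed : e d ≠ 0 := fun h => hd (hinj (h.trans (map_zero e).symm))
  have hdθ : d • θ₀ = e d * θ₀ := Algebra.smul_def d θ₀
  rw [hdθ] at hint
  set θ : E := e d * θ₀ with hθ
  -- `θ` generates
  have hedF : e d ∈ F₀ := by
    have h1 : e d ∈ Algebra.adjoin K s := by
      have h2 : e d ∈ (MvPolynomial.aeval ((↑) : s → E) : MvPolynomial s K →ₐ[K] E).range :=
        ⟨d, rfl⟩
      rw [← Algebra.adjoin_range_eq_range_aeval, Subtype.range_coe] at h2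
      exact h2
    exact IntermediateField.algebra_adjoin_le_adjoin K s h1
  have hgen : IntermediateField.adjoin F₀ {θ} = ⊤ := by
    rw [eq_top_iff, ← hθ₀, IntermediateField.adjoin_simple_le_iff]
    have h1 : θ ∈ IntermediateField.adjoin F₀ {θ} := IntermediateField.mem_adjoin_simple_self F₀ θ
    have h2 : e d ∈ IntermediateField.adjoin F₀ {θ} :=
      (IntermediateField.adjoin F₀ {θ}).algebraMap_mem ⟨e d, hedF⟩
    have h3 : θ₀ = θ / e d := by rw [hθ, mul_div_cancel_left₀ _ hed]
    rw [h3]
    exact div_mem h1 h2
  have hrep : ∀ w : E, ∃ (b : MvPolynomial s K) (A : (MvPolynomial s K)[X]), e b ≠ 0 ∧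
      e b * w = aeval θ A := by
    intro w
    have h1 : w ∈ (IntermediateField.adjoin F₀ {θ}).toSubalgebra := by
      rw [hgen]
      trivial
    rw [IntermediateField.adjoin_simple_toSubalgebra_of_isAlgebraic
      (Algebra.IsAlgebraic.isAlgebraic θ), Algebra.adjoin_singleton_eq_range_aeval] at h1
    obtain ⟨q, hq⟩ := h1
    obtain ⟨b, G, hb, hG⟩ := hclear q
    refine ⟨b, G, hb, ?_⟩
    rw [haeval, hG, eval_mul, eval_C, eval_map_algebraMap]
    congr 1
    exact hq.symm
  -- the minimal polynomial
  set P := minpoly (MvPolynomial s K) θ with hP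
  have hPm : P.Monic := minpoly.monic hint
  have hP0 : aeval θ P = 0 := minpoly.aeval _ _
  have hPdvd : ∀ G : (MvPolynomial s K)[X], aeval θ G = 0 → P ∣ G :=
    fun G hG => minpoly.isIntegrallyClosed_dvd hint hG
  have hP1 : aeval θ (derivative P) ≠ 0 := by
    obtain ⟨b, G, hb, hG⟩ := hclear (minpoly F₀ θ)
    have hG0 : aeval θ G = 0 := by
      rw [haeval, hG, eval_mul, eval_map_algebraMap, minpoly.aeval, mul_zero]
    obtain ⟨T, hT⟩ := hPdvd G hG0
    intro h
    have h1 : aeval θ (derivative G) = 0 := by
      rw [hT, derivative_mul, map_add, map_mul, map_mul, h, hP0, zero_mul, zero_mul, add_zero]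
    have h2 : aeval θ (derivative G) = e b * aeval θ (derivative (minpoly F₀ θ)) := by
      rw [haeval, ← derivative_map, hG, derivative_C_mul, eval_mul, eval_C, derivative_map,
        eval_map_algebraMap]
    have h3 : aeval θ (derivative (minpoly F₀ θ)) ≠ 0 :=
      (Algebra.IsSeparable.isSeparable F₀ θ).aeval_derivative_ne_zero (minpoly.aeval _ _)
    rw [h1] at h2
    exact mul_ne_zero hb h3 h2.symm
  -- transfer to Laurent series
  refine ⟨E, s, (θ : LaurentSeries K), fun i => ((i : E) : LaurentSeries K), P, hPm, ?_⟩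
  have hz : ∀ a : MvPolynomial s K, MvPolynomial.aeval
      (fun i : s => ((i : E) : LaurentSeries K)) a = ((e a : E) : LaurentSeries K) := by
    intro a
    exact (MvPolynomial.aeval_algebraMap_apply (A := E) (B := LaurentSeries K)
      ((↑) : s → E) a)
  have hphi : ∀ G : (MvPolynomial s K)[X],
      phi (fun i : s => ((i : E) : LaurentSeries K)) (θ : LaurentSeries K) G =
        ((aeval θ G : E) : LaurentSeries K) := by
    intro G
    have h1 : phi (fun i : s => ((i : E) : LaurentSeries K)) (θ : LaurentSeries K) =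
        (E.val.toRingHom).comp (aeval θ : (MvPolynomial s K)[X] →ₐ[MvPolynomial s K] E).toRingHom := by
      apply Polynomial.ringHom_ext
      · intro a
        rw [phi_C, hz, RingHom.comp_apply]
        have : (aeval θ : (MvPolynomial s K)[X] →ₐ[MvPolynomial s K] E).toRingHom (C a) = e a := by
          exact aeval_C θ a
        rw [this]
        rfl
      · rw [phi_X, RingHom.comp_apply]
        have : (aeval θ : (MvPolynomial s K)[X] →ₐ[MvPolynomial s K] E).toRingHom X = θ := by
          exact aeval_X θ
        rw [this]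
        rfl
    rw [h1]
    rfl
  have hcoe : ∀ w : E, ((w : E) : LaurentSeries K) = 0 ↔ w = 0 := fun w => by
    exact_mod_cast Iff.rfl
  refine ⟨?_, ?_, ?_, ?_⟩
  · rw [hphi, hP0]
    rfl
  · rw [hphi]
    exact fun h => hP1 ((hcoe _).1 h)
  · intro G hG
    rw [hphi] at hG
    exact hPdvd G ((hcoe _).1 hG)
  · intro i
    have hxi : x i ∈ E := IntermediateField.subset_adjoin _ _ ⟨i, rfl⟩
    obtain ⟨b, A, hb, hA⟩ := hrep ⟨x i, hxi⟩
    refine ⟨b, A, ?_, ?_⟩
    · rw [hz]
      exact fun h => hb ((hcoe _).1 h)
    · rw [hz, hphi, ← hA]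
      rfl

end H651
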