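import Mathlib

/-!
# Maximal subgroups of finite solvable groups have prime power index
-/

set_option autoImplicit false
set_option linter.style.haveILetI false

namespace H651

open Subgroup
open scoped commutatorElement

/-- a nontrivial finite solvable group has a nontrivial normal subgroup of prime power order -/
theorem exists_normal_pgroup (G : Type*) [Group G] [Finite G] [Group.IsSolvable G] [Nontrivial G] :
    ∃ (p : ℕ) (_ : p.Prime) (A : Subgroup G), A.Normal ∧ A ≠ ⊥ ∧ IsPGroup p A := by
  classical
  have hex : ∃ n, derivedSeries G n = ⊥ := Group.IsSolvable.solvable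
  have hspec := Nat.find_spec hex
  have hpos : Nat.find hex ≠ 0 := by
    intro h
    rw [h, derivedSeries_zero] at hspec
    exact top_ne_bot hspec
  obtain ⟨k, hk⟩ := Nat.exists_eq_succ_of_ne_zero hpos
  have hmin : derivedSeries G k ≠ ⊥ := Nat.find_min hex (by omega)
  set D := derivedSeries G k with hD
  have hDn : D.Normal := derivedSeries_normal G k
  have hcomm : ∀ a ∈ D, ∀ b ∈ D, a * b = b * a := by
    intro a ha b hb
    have h1 : ⁅D, D⁆ = ⊥ := by
      rw [hD, ← derivedSeries_succ]
      rw [hk] at hspec
      exact hspec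
    have h2 : ⁅a, b⁆ ∈ ⁅D, D⁆ := Subgroup.commutator_mem_commutator ha hb
    rw [h1, Subgroup.mem_bot] at h2
    exact commutatorElement_eq_one_iff_mul_comm.1 h2
  -- a prime dividing the order
  have hcard : Nat.card D ≠ 1 := by
    intro h
    exact hmin (Subgroup.eq_bot_of_card_eq D h)
  obtain ⟨p, hp, hpd⟩ := Nat.exists_prime_and_dvd hcard
  haveI : Fact p.Prime := ⟨hp⟩
  obtain ⟨x, hx⟩ := exists_prime_orderOf_dvd_card' (G := D) p hpd
  refine ⟨p, hp, ⟨⟨⟨{a | a ∈ D ∧ a ^ p = 1}, ?_⟩, ?_⟩, ?_⟩, ?_, ?_, ?_⟩
  · rintro a b ⟨ha, ha'⟩ ⟨hb, hb'⟩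
    refine ⟨D.mul_mem ha hb, ?_⟩
    have : Commute a b := hcomm a ha b hb
    rw [this.mul_pow, ha', hb', one_mul]
  · exact ⟨D.one_mem, one_pow _⟩
  · rintro a ⟨ha, ha'⟩
    refine ⟨D.inv_mem ha, ?_⟩
    rw [inv_pow, ha', inv_one]
  · refine ⟨?_⟩
    rintro a ⟨ha, ha'⟩ g
    refine ⟨hDn.conj_mem a ha g, ?_⟩
    rw [conj_pow, ha', mul_one, mul_inv_cancel]
  · intro h
    have hxm : (x : G) ∈ (⊥ : Subgroup G) := by
      rw [← h]
      refine ⟨x.2, ?_⟩
      have := pow_orderOf_eq_one x
      rw [hx] at this
      have h2 := congrArg (fun z : D => (z : G)) this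
      simpa using h2
    rw [Subgroup.mem_bot] at hxm
    have : x = 1 := Subtype.ext hxm
    rw [this, orderOf_one] at hx
    exact hp.one_lt.ne hx
  · intro a
    refine ⟨1, ?_⟩
    have := a.2.2
    apply Subtype.ext
    simpa using this

/-- maximal subgroups of finite solvable groups with trivial core -/
theorem isPrimePow_index_aux {G : Type*} [Group G] [Finite G] [Group.IsSolvable G]
    (M : Subgroup G) (hM : IsCoatom M) (hcore : M.normalCore = ⊥) : IsPrimePow M.index := by
  classical
  haveI : Nontrivial G := by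
    by_contra hcon
    rw [not_nontrivial_iff_subsingleton] at hcon
    exact hM.1 (Subsingleton.elim _ _)
  obtain ⟨p, hp, A, hAn, hA0, hAp⟩ := exists_normal_pgroup G
  haveI : Fact p.Prime := ⟨hp⟩
  have hAM : ¬ A ≤ M := by
    intro h
    have h1 : A ≤ M.normalCore := Subgroup.normal_le_normalCore.2 h
    rw [hcore] at h1
    exact hA0 (eq_bot_iff.2 h1)
  have hsup : A ⊔ M = ⊤ := by
    apply hM.2
    refine lt_of_le_of_ne le_sup_right fun h => hAM ?_
    rw [h]
    exact le_sup_left
  obtain ⟨k, hk⟩ := hAp.exists_card_eq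
  have h1 : A.relIndex M = A.index := by
    rw [← Subgroup.relIndex_sup_left M A, hsup, Subgroup.relIndex_top_right]
  have h2 : M.index ∣ Nat.card A := by
    have e1 : Nat.card A * A.index = Nat.card G := Subgroup.card_mul_index A
    have e2 : Nat.card M * M.index = Nat.card G := Subgroup.card_mul_index M
    have e3 : Nat.card (A.subgroupOf M) * A.relIndex M = Nat.card M :=
      Subgroup.card_mul_index (A.subgroupOf M)
    have hpos : 0 < A.index := Nat.pos_of_ne_zero Subgroup.index_ne_zero_of_finite
    refine ⟨Nat.card (A.subgroupOf M), ?_⟩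
    apply Nat.eq_of_mul_eq_mul_right hpos
    rw [e1, ← e2, ← e3, h1]
    ring
  rw [hk] at h2
  obtain ⟨j, hj, hj'⟩ := (Nat.dvd_prime_pow hp).1 h2
  rw [isPrimePow_nat_iff]
  refine ⟨p, j, hp, ?_, hj'.symm⟩
  rcases Nat.eq_zero_or_pos j with h | h
  · exfalso
    rw [h, pow_zero, Subgroup.index_eq_one] at hj'
    exact hM.1 hj'
  · exact h

/-- **maximal subgroups of finite solvable groups have prime power index** -/
theorem isPrimePow_index {G : Type*} [Group G] [Finite G] [Group.IsSolvable G]
    (M : Subgroup G) (hM : IsCoatom M) : IsPrimePow M.index := by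
  classical
  obtain ⟨N, hNn, hN⟩ : ∃ N : Subgroup G, N.Normal ∧ N = M.normalCore :=
    ⟨_, Subgroup.normalCore_normal M, rfl⟩
  have hNM : N ≤ M := by rw [hN]; exact Subgroup.normalCore_le M
  let f := QuotientGroup.mk' N
  have hf : Function.Surjective f := QuotientGroup.mk'_surjective N
  have hker : f.ker = N := QuotientGroup.ker_mk' N
  have hcm : (M.map f).comap f = M := by
    rw [Subgroup.comap_map_eq, hker, sup_eq_left.2 hNM]
  have hidx : (M.map f).index = M.index := by
    rw [← Subgroup.index_comap_of_surjective (M.map f) hf, hcm]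
  rw [← hidx]
  apply isPrimePow_index_aux
  · refine ⟨?_, ?_⟩
    · intro h
      apply hM.1
      rw [← hcm, h, Subgroup.comap_top]
    · intro H hH
      have h1 : M < H.comap f := by
        refine lt_of_le_of_ne ?_ ?_
        · calc M = (M.map f).comap f := hcm.symm
            _ ≤ H.comap f := Subgroup.comap_mono hH.le
        · intro h
          apply hH.ne
          calc M.map f = (H.comap f).map f := congrArg (Subgroup.map f) h
            _ = H := Subgroup.map_comap_eq_self_of_surjective hf H
      have h2 := hM.2 _ h1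
      rw [← Subgroup.map_comap_eq_self_of_surjective hf H, h2]
      exact Subgroup.map_top_of_surjective f hf
  · rw [eq_bot_iff]
    have h1 : ((M.map f).normalCore).comap f ≤ N := by
      have h2 : ((M.map f).normalCore).comap f ≤ M.normalCore := by
        apply Subgroup.normal_le_normalCore.2
        calc ((M.map f).normalCore).comap f ≤ (M.map f).comap f :=
              Subgroup.comap_mono (Subgroup.normalCore_le _)
          _ = M := hcm
      exact h2.trans hN.symm.le
    intro x hx
    obtain ⟨y, rfl⟩ := hf x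
    have hy : y ∈ N := h1 hx
    rw [Subgroup.mem_bot]
    rw [← hker] at hy
    exact hy

end H651
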