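import Pool.Agent.H651_Ample.Decomp

/-!
# The field attached to a valuation of an algebraically closed field
-/

set_option autoImplicit false
set_option linter.style.haveILetI false

namespace H651

open Polynomial

universe u v

section Val

variable {K N : Type*} [Field K] [Field N] [Algebra K N] [FiniteDimensional K N]
  {Γ₀ : Type*} [LinearOrderedCommGroupWithZero Γ₀]

theorem decG_val_le {w : Valuation N Γ₀} {τ : N ≃ₐ[K] N} (hτ : τ ∈ decG K w) (x : N) :
    w (τ x) ≤ w x := by
  by_cases hx : x = 0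
  · rw [hx, map_zero]
  by_contra hcon
  push Not at hcon
  have hwx : 0 < w x := (Valuation.pos_iff w).2 hx
  set u := τ x / x with hu
  have hu1 : 1 < w u := by rwa [hu, map_div₀, one_lt_div₀ hwx]
  have hj : ∀ j : ℕ, 1 < w ((τ ^ j) u) := by
    intro j
    have h1 := (decG K w).pow_mem hτ j u
    by_contra h2
    exact absurd hu1 (not_lt.2 (h1.1 (not_lt.1 h2)))
  have hprod : ∀ j : ℕ, (τ ^ j) x = x * ∏ i ∈ Finset.range j, (τ ^ i) u := by
    intro j
    induction j with
    | zero => rw [pow_zero, AlgEquiv.one_apply, Finset.range_zero, Finset.prod_empty, mul_one]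
    | succ j ih =>
      have h1 : (τ ^ j) x ≠ 0 := (_root_.map_ne_zero _).2 hx
      rw [Finset.prod_range_succ, ← mul_assoc, ← ih, hu, map_div₀, mul_div_cancel₀ _ h1,
        ← AlgEquiv.mul_apply, ← pow_succ]
  have hge : ∀ j : ℕ, 1 ≤ w (∏ i ∈ Finset.range j, (τ ^ i) u) := by
    intro j
    rw [map_prod]
    exact Finset.one_le_prod' fun i _ => (hj i).le
  have h1 := hprod (orderOf τ)
  have h2 : 0 < orderOf τ := orderOf_pos τ
  rw [pow_orderOf_eq_one, AlgEquiv.one_apply] at h1
  have h3 : ∏ i ∈ Finset.range (orderOf τ), (τ ^ i) u = 1 := by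
    have h4 : x * ∏ i ∈ Finset.range (orderOf τ), (τ ^ i) u = x * 1 := by rw [mul_one]; exact h1.symm
    exact mul_left_cancel₀ hx h4
  obtain ⟨m, hm⟩ : ∃ m, orderOf τ = m + 1 := ⟨orderOf τ - 1, by omega⟩
  rw [hm, Finset.prod_range_succ] at h3
  have h4 : 1 < w ((∏ i ∈ Finset.range m, (τ ^ i) u) * (τ ^ m) u) := by
    rw [map_mul]
    calc 1 < w ((τ ^ m) u) := hj m
      _ = 1 * w ((τ ^ m) u) := (one_mul _).symm
      _ ≤ _ := mul_le_mul_left (hge m) _
  rw [h3, map_one] at h4
  exact lt_irrefl _ h4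

theorem decG_val_eq {w : Valuation N Γ₀} {τ : N ≃ₐ[K] N} (hτ : τ ∈ decG K w) (x : N) :
    w (τ x) = w x := by
  apply le_antisymm (decG_val_le hτ x)
  have h1 := decG_val_le ((decG K w).inv_mem hτ) (τ x)
  rwa [← AlgEquiv.mul_apply, inv_mul_cancel, AlgEquiv.one_apply] at h1

end Val

section

variable {K A : Type u} [Field K] [Field A] [Algebra K A] {Γ₀ : Type v}
  [LinearOrderedCommGroupWithZero Γ₀]

/-- the condition defining the field -/
def HCond (K : Type u) {A : Type u} [Field K] [Field A] [Algebra K A] {Γ₀ : Type v}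
    [LinearOrderedCommGroupWithZero Γ₀] (w : Valuation A Γ₀) (N : IntermediateField K A)
    (c : A) : Prop :=
  FiniteDimensional K N ∧ IsGalois K N ∧ c ∈ N ∧
    ∀ τ : A ≃ₐ[K] A, (∀ x ∈ N, w (τ x) ≤ 1 ↔ w x ≤ 1) → τ c = c

theorem HCond.mono {w : Valuation A Γ₀} {N N' : IntermediateField K A} {c : A} (h : HCond K w N c)
    (hN : N ≤ N') (hfd : FiniteDimensional K N') (hg : IsGalois K N') : HCond K w N' c :=
  ⟨hfd, hg, hN h.2.2.1, fun τ hτ => h.2.2.2 τ fun x hx => hτ x (hN hx)⟩

theorem HCond_common {w : Valuation A Γ₀} {c c' : A} (h : ∃ N, HCond K w N c)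
    (h' : ∃ N, HCond K w N c') : ∃ N, HCond K w N c ∧ HCond K w N c' := by
  obtain ⟨N, hN⟩ := h
  obtain ⟨N', hN'⟩ := h'
  haveI := hN.1
  haveI := hN.2.1
  haveI := hN'.1
  haveI := hN'.2.1
  have hfd : FiniteDimensional K ↥(N ⊔ N') := inferInstance
  have hg : IsGalois K ↥(N ⊔ N') := { }
  exact ⟨N ⊔ N', hN.mono le_sup_left hfd hg, hN'.mono le_sup_right hfd hg⟩

/-- **The field attached to a valuation**: the union of the decomposition fields of finite Galois
subextensions. -/
def hField (K : Type u) {A : Type u} [Field K] [Field A] [Algebra K A] {Γ₀ : Type v}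
    [LinearOrderedCommGroupWithZero Γ₀] (w : Valuation A Γ₀) : IntermediateField K A where
  carrier := {c | ∃ N, HCond K w N c}
  mul_mem' := by
    intro a b ha hb
    obtain ⟨N, h1, h2⟩ := HCond_common ha hb
    exact ⟨N, h1.1, h1.2.1, N.mul_mem h1.2.2.1 h2.2.2.1, fun τ hτ => by
      rw [map_mul, h1.2.2.2 τ hτ, h2.2.2.2 τ hτ]⟩
  add_mem' := by
    intro a b ha hb
    obtain ⟨N, h1, h2⟩ := HCond_common ha hb
    exact ⟨N, h1.1, h1.2.1, N.add_mem h1.2.2.1 h2.2.2.1, fun τ hτ => by
      rw [map_add, h1.2.2.2 τ hτ, h2.2.2.2 τ hτ]⟩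
  algebraMap_mem' := by
    intro r
    exact ⟨⊥, inferInstance, inferInstance, (⊥ : IntermediateField K A).algebraMap_mem r,
      fun τ _ => τ.commutes r⟩
  inv_mem' := by
    rintro a ⟨N, h1⟩
    exact ⟨N, h1.1, h1.2.1, N.inv_mem h1.2.2.1, fun τ hτ => by rw [map_inv₀, h1.2.2.2 τ hτ]⟩

theorem mem_hField {w : Valuation A Γ₀} {c : A} : c ∈ hField K w ↔ ∃ N, HCond K w N c := Iff.rfl

/-- elements fixed by a finite level decomposition group lie in the field -/
theorem mem_hField_of_fixed {w : Valuation A Γ₀} {N : IntermediateField K A}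
    [hfd : FiniteDimensional K N] [hg : IsGalois K N] (c : N)
    (hc : ∀ σ ∈ decG K (w.comap (algebraMap N A)), σ c = c) : (c : A) ∈ hField K w := by
  refine ⟨N, hfd, hg, c.2, fun τ hτ => ?_⟩
  have h1 : ∀ x : N, algebraMap N A (τ.restrictNormal N x) = τ x := fun x =>
    AlgEquiv.restrictNormal_commutes τ N x
  have h2 : τ.restrictNormal N ∈ decG K (w.comap (algebraMap N A)) := by
    intro x
    rw [Valuation.comap_apply, Valuation.comap_apply, h1]
    exact hτ x x.2
  have h3 := congrArg (algebraMap N A) (hc _ h2)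
  rw [h1] at h3
  exact h3

theorem fixed_of_HCond [Normal K A] {w : Valuation A Γ₀} {N : IntermediateField K A} {c : A}
    (h : HCond K w N c) :
    ∀ σ ∈ decG K (w.comap (algebraMap N A)), σ (⟨c, h.2.2.1⟩ : N) = ⟨c, h.2.2.1⟩ := by
  haveI := h.1
  haveI := h.2.1
  intro σ hσ
  have h1 : ∀ x : N, (σ.liftNormal A) (x : A) = algebraMap N A (σ x) := fun x =>
    AlgEquiv.liftNormal_commutes σ A x
  have h2 := h.2.2.2 (σ.liftNormal A) (by
    intro x hx
    have h3 := h1 ⟨x, hx⟩
    have h4 := hσ ⟨x, hx⟩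
    rw [Valuation.comap_apply, Valuation.comap_apply] at h4
    rw [← h3] at h4
    exact h4)
  apply (algebraMap N A).injective
  rw [← h1]
  exact h2

/-- the splitting field inside an algebraically closed field -/
theorem exists_galois_level [IsAlgClosed A] {y : A} (hint : IsIntegral K y)
    (hsep : (minpoly K y).Separable) :
    ∃ N : IntermediateField K A, FiniteDimensional K N ∧ IsGalois K N ∧ y ∈ N := by
  set N : IntermediateField K A := IntermediateField.adjoin K ((minpoly K y).rootSet A) with hN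
  haveI h1 : IsSplittingField K N (minpoly K y) :=
    IntermediateField.adjoin_rootSet_isSplittingField (IsAlgClosed.splits _)
  refine ⟨N, IsSplittingField.finiteDimensional N (minpoly K y),
    IsGalois.of_separable_splitting_field hsep, ?_⟩
  rw [hN]
  apply IntermediateField.subset_adjoin
  rw [mem_rootSet]
  exact ⟨minpoly.ne_zero hint, minpoly.aeval K y⟩

/-- conjugates over the field are conjugates under finite level decomposition groups -/
theorem exists_decG_conj {w : Valuation A Γ₀} {N : IntermediateField K A}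
    [hfd : FiniteDimensional K N] [hg : IsGalois K N] (y : N) (σ : A ≃ₐ[hField K w] A) :
    ∃ τ ∈ decG K (w.comap (algebraMap N A)), σ (y : A) = algebraMap N A (τ y) := by
  classical
  set D := decG K (w.comap (algebraMap N A)) with hD
  set O : Finset N := (Finset.univ.filter (fun τ : N ≃ₐ[K] N => τ ∈ D)).image (fun τ => τ y) with hO
  have hmemO : ∀ z, z ∈ O ↔ ∃ τ ∈ D, τ y = z := by
    intro z
    simp only [hO, Finset.mem_image, Finset.mem_filter, Finset.mem_univ, true_and]
  set P : N[X] := ∏ z ∈ O, (X - C z) with hP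
  have hPfix : ∀ τ ∈ D, P.map (τ : N →+* N) = P := by
    intro τ hτ
    rw [hP, Polynomial.map_prod]
    apply Finset.prod_bij (fun z _ => τ z)
    · intro z hz
      rw [hmemO] at hz ⊢
      obtain ⟨ρ, hρ, rfl⟩ := hz
      exact ⟨τ * ρ, D.mul_mem hτ hρ, by rw [AlgEquiv.mul_apply]⟩
    · intro a _ b _ hab
      exact τ.injective hab
    · intro b hb
      rw [hmemO] at hb
      obtain ⟨ρ, hρ, rfl⟩ := hb
      refine ⟨τ⁻¹ (ρ y), ?_, ?_⟩
      · rw [hmemO]
        exact ⟨τ⁻¹ * ρ, D.mul_mem (D.inv_mem hτ) hρ, by rw [AlgEquiv.mul_apply]⟩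
      · rw [← AlgEquiv.mul_apply, mul_inv_cancel, AlgEquiv.one_apply]
    · intro z _
      rw [Polynomial.map_sub, map_X, map_C]
      rfl
  have hcoef : ∀ k, algebraMap N A (P.coeff k) ∈ hField K w := by
    intro k
    apply mem_hField_of_fixed
    intro τ hτ
    have h1 := congrArg (fun Q => coeff Q k) (hPfix τ hτ)
    simp only [coeff_map] at h1
    exact h1
  have hmapσ : (P.map (algebraMap N A)).map (σ : A →+* A) = P.map (algebraMap N A) := by
    ext k
    rw [coeff_map, coeff_map]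
    exact σ.commutes ⟨_, hcoef k⟩
  have hy0 : (P.map (algebraMap N A)).eval (y : A) = 0 := by
    have h1 : P.eval y = 0 := by
      rw [hP, eval_prod]
      apply Finset.prod_eq_zero ((hmemO y).2 ⟨1, D.one_mem, by rw [AlgEquiv.one_apply]⟩)
      rw [eval_sub, eval_X, eval_C, sub_self]
    have h2 : (P.map (algebraMap N A)).eval (algebraMap N A y) = algebraMap N A (P.eval y) := by
      rw [eval_map, eval₂_at_apply]
    have h3 : (y : A) = algebraMap N A y := rfl
    rw [h3, h2, h1, map_zero]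
  have hσ0 : (P.map (algebraMap N A)).eval (σ (y : A)) = 0 := by
    rw [← hmapσ, eval_map]
    have h1 := eval₂_at_apply (p := P.map (algebraMap N A)) (σ : A →+* A) (y : A)
    have h2 : (σ : A →+* A) (y : A) = σ (y : A) := rfl
    rw [h2] at h1
    rw [h1, hy0, map_zero]
  rw [hP, Polynomial.map_prod, eval_prod, Finset.prod_eq_zero_iff] at hσ0
  obtain ⟨z, hz, hz0⟩ := hσ0
  rw [Polynomial.map_sub, map_X, map_C, eval_sub, eval_X, eval_C, sub_eq_zero] at hz0
  obtain ⟨τ, hτ, rfl⟩ := (hmemO z).1 hz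
  exact ⟨τ, hτ, hz0⟩

/-- **Invariance.** -/
theorem hField_inv [IsAlgClosed A] [Algebra.IsAlgebraic K A] (w : Valuation A Γ₀)
    (σ : A ≃ₐ[hField K w] A) (x : A) : w (σ x) = w x := by
  set q := ringExpChar K with hq
  haveI : ExpChar K q := ringExpChar.expChar K
  haveI : ExpChar (separableClosure K A) q := expChar_of_injective_algebraMap
    (algebraMap K (separableClosure K A)).injective q
  obtain ⟨m, hm⟩ := (isPurelyInseparable_iff_pow_mem (separableClosure K A) q
    (E := A)).1 inferInstance x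
  obtain ⟨y', hy'⟩ := hm
  have hy : x ^ q ^ m ∈ separableClosure K A := by
    rw [← hy']
    exact y'.2
  rw [mem_separableClosure_iff] at hy
  obtain ⟨N, hfd, hg, hyN⟩ := exists_galois_level
    (Algebra.IsIntegral.isIntegral (R := K) (x ^ q ^ m)) hy
  obtain ⟨τ, hτ, h1⟩ := exists_decG_conj (w := w) (⟨x ^ q ^ m, hyN⟩ : N) σ
  have h2 := decG_val_eq hτ (⟨x ^ q ^ m, hyN⟩ : N)
  rw [Valuation.comap_apply, Valuation.comap_apply, ← h1] at h2
  have h3 : algebraMap N A (⟨x ^ q ^ m, hyN⟩ : N) = x ^ q ^ m := rfl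
  have h4 : ((⟨x ^ q ^ m, hyN⟩ : N) : A) = x ^ q ^ m := rfl
  rw [h3, h4, map_pow, map_pow, map_pow] at h2
  have h5 : q ^ m ≠ 0 := pow_ne_zero _ (expChar_ne_zero K q)
  exact (pow_left_inj₀ zero_le zero_le h5).1 h2

end

end H651
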