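import Pool.Agent.H651_Ample.Hensel

/-!
# Simple roots over Laurent series persist
-/

set_option autoImplicit false
set_option linter.style.haveILetI false

namespace H651

open Polynomial

attribute [-instance] HahnSeries.instSMul
attribute [-instance] HahnSeries.instModule

variable {K : Type*} [Field K]

theorem og_X_add_C_pow {B : ℕ} {θ : LaurentSeries K} (hθ : OG (-(B : ℤ)) θ) (j k : ℕ) :
    OG (-((B * j : ℕ) : ℤ)) (((X + C θ) ^ j).coeff k) := by
  induction j generalizing k with
  | zero =>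
    rw [pow_zero, coeff_one]
    split_ifs
    · simpa using og_one
    · exact og_zero _
  | succ j ih =>
    rw [pow_succ (X + C θ) j, mul_add ((X + C θ) ^ j), coeff_add, coeff_mul_C]
    refine OG.add ?_ ?_
    · rcases k with _ | k
      · rw [coeff_mul_X_zero]
        exact og_zero _
      · rw [coeff_mul_X]
        refine (ih k).mono ?_
        push_cast
        nlinarith
    · refine ((ih k).mul hθ).mono ?_
      push_cast
      linarith

theorem og_taylor {B : ℕ} {θ : LaurentSeries K} (hθ : OG (-(B : ℤ)) θ) {N : ℤ} {d : ℕ}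
    {P : (LaurentSeries K)[X]} (hPd : P.natDegree ≤ d) (hP : ∀ j, OG N (P.coeff j)) (k : ℕ) :
    OG (N - (B * d : ℕ)) ((taylor θ P).coeff k) := by
  rw [taylor_apply, comp, eval₂_eq_sum_range, finsetSum_coeff]
  apply og_sum
  intro j hj
  rw [Finset.mem_range] at hj
  rw [coeff_C_mul]
  refine ((hP j).mul (og_X_add_C_pow hθ j k)).mono ?_
  have : B * j ≤ B * d := Nat.mul_le_mul_left _ (by omega)
  omega

theorem exists_og_bound (f : LaurentSeries K) : ∃ B : ℕ, OG (-(B : ℤ)) f := by
  by_cases h : f = 0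
  · exact ⟨0, by rw [h]; exact og_zero _⟩
  · exact ⟨(-f.order).toNat, (og_iff_order h).2 (by omega)⟩

theorem exists_og_bound_all (s : Finset (LaurentSeries K)) : ∃ B : ℕ, ∀ f ∈ s, OG (-(B : ℤ)) f := by
  classical
  induction s using Finset.induction_on with
  | empty => exact ⟨0, by simp⟩
  | insert a s ha ih =>
    obtain ⟨B, hB⟩ := ih
    obtain ⟨B', hB'⟩ := exists_og_bound a
    refine ⟨B + B', fun f hf => ?_⟩
    rcases Finset.mem_insert.1 hf with rfl | hf
    · exact hB'.mono (by omega)
    · exact (hB f hf).mono (by omega)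

/-- a polynomial with coefficients of nonnegative order comes from power series -/
theorem exists_lift (h : (LaurentSeries K)[X]) (hh : ∀ k, OG 0 (h.coeff k)) :
    ∃ H : (PowerSeries K)[X], H.map (jj K) = h := by
  classical
  choose v hv using fun k => exists_of_og (hh k)
  refine ⟨∑ k ∈ Finset.range (h.natDegree + 1), C (v k) * X ^ k, ?_⟩
  ext1 k
  rw [coeff_map, finsetSum_coeff]
  simp only [coeff_C_mul, coeff_X_pow, mul_ite, mul_one, mul_zero]
  rw [Finset.sum_ite_eq]
  split_ifs with hk
  · exact hv k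
  · rw [Finset.mem_range, not_lt] at hk
    rw [map_zero, coeff_eq_zero_of_natDegree_lt (by omega)]

/-- **persistence of simple roots** -/
theorem hensel_laurent (f : (LaurentSeries K)[X]) (θ : LaurentSeries K) (h0 : f.eval θ = 0)
    (h1 : (derivative f).eval θ ≠ 0) (M : ℕ) :
    ∃ N : ℕ, ∀ g : (LaurentSeries K)[X], g.natDegree ≤ f.natDegree →
      (∀ j, OG (N : ℤ) (g.coeff j - f.coeff j)) → ∃ θ', g.eval θ' = 0 ∧ OG (M : ℤ) (θ' - θ) := by
  classical
  set d := f.natDegree with hd
  obtain ⟨B₁, hB₁⟩ := exists_og_bound θ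
  obtain ⟨B₂, hB₂⟩ := exists_og_bound_all
    ((Finset.range (d + 1)).image fun k => (taylor θ f).coeff k)
  have hB₂' : ∀ k, OG (-(B₂ : ℤ)) ((taylor θ f).coeff k) := by
    intro k
    rcases lt_or_ge k (d + 1) with hk | hk
    · exact hB₂ _ (Finset.mem_image_of_mem _ (Finset.mem_range.2 hk))
    · rw [coeff_eq_zero_of_natDegree_lt (by rw [natDegree_taylor]; omega)]
      exact og_zero _
  set u := (derivative f).eval θ with hu
  set e := u.order with he
  set m : ℕ := M + B₂ + e.toNat + 1 with hm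
  set N : ℕ := B₁ * d + m + e.toNat + 1 with hN
  have huinv : OG (-e) u⁻¹ := by
    rw [og_iff_order (inv_ne_zero h1)]
    have h2 : u * u⁻¹ = 1 := mul_inv_cancel₀ h1
    have h3 := congrArg HahnSeries.order h2
    rw [HahnSeries.order_mul h1 (inv_ne_zero h1), HahnSeries.order_one] at h3
    omega
  refine ⟨N, fun g hgd hg => ?_⟩
  have hdiff : ∀ k, OG ((N : ℤ) - (B₁ * d : ℕ)) ((taylor θ g).coeff k - (taylor θ f).coeff k) := by
    intro k
    rw [← coeff_sub, ← map_sub]
    apply og_taylor hB₁
    · exact (natDegree_sub_le _ _).trans (max_le hgd le_rfl)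
    · intro j
      rw [coeff_sub]
      exact hg j
  have hf0 : (taylor θ f).coeff 0 = 0 := by rw [taylor_coeff_zero, h0]
  have hf1 : (taylor θ f).coeff 1 = u := by rw [taylor_coeff_one]
  set h : (LaurentSeries K)[X] := C (u⁻¹ * xx ^ m) * (taylor θ g).comp (C (tt ^ m) * X) with hh
  have hcoef : ∀ k, h.coeff k = u⁻¹ * xx ^ m * ((taylor θ g).coeff k * (tt ^ m) ^ k) := by
    intro k
    rw [hh, coeff_C_mul, comp_C_mul_X_coeff]
  have hxt : (xx : LaurentSeries K) ^ m * tt ^ m = 1 := by
    rw [← mul_pow, xx_mul_tt, one_pow]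
  have hc0 : OG 1 (h.coeff 0) := by
    rw [hcoef, pow_zero, mul_one]
    have h2 := hdiff 0
    rw [hf0, sub_zero] at h2
    refine ((huinv.mul (og_xx_pow m)).mul h2).mono ?_
    rw [hN]
    push_cast
    omega
  have hc1 : OG 1 (h.coeff 1 - 1) := by
    have h2 : h.coeff 1 - 1 = u⁻¹ * ((taylor θ g).coeff 1 - (taylor θ f).coeff 1) := by
      rw [hcoef, pow_one, hf1, mul_sub, inv_mul_cancel₀ h1]
      congr 1
      calc u⁻¹ * xx ^ m * ((taylor θ g).coeff 1 * tt ^ m)
          = u⁻¹ * (taylor θ g).coeff 1 * (xx ^ m * tt ^ m) := by ring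
        _ = _ := by rw [hxt, mul_one]
    rw [h2]
    refine (huinv.mul (hdiff 1)).mono ?_
    rw [hN]
    push_cast
    omega
  have hck : ∀ k, 2 ≤ k → OG 0 (h.coeff k) := by
    intro k hk
    obtain ⟨j, rfl⟩ := Nat.exists_eq_add_of_le hk
    have h2 : h.coeff (2 + j) = u⁻¹ * ((taylor θ g).coeff (2 + j) * tt ^ (m * (1 + j))) := by
      rw [hcoef]
      have h3 : ((tt : LaurentSeries K) ^ m) ^ (2 + j) = tt ^ m * tt ^ (m * (1 + j)) := by
        rw [← pow_mul, ← pow_add]
        congr 1
        ring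
      rw [h3]
      calc u⁻¹ * xx ^ m * ((taylor θ g).coeff (2 + j) * (tt ^ m * tt ^ (m * (1 + j))))
          = u⁻¹ * ((taylor θ g).coeff (2 + j) * tt ^ (m * (1 + j))) * (xx ^ m * tt ^ m) := by ring
        _ = _ := by rw [hxt, mul_one]
    rw [h2]
    have h4 : OG (-(B₂ : ℤ)) ((taylor θ g).coeff (2 + j)) := by
      have h5 := ((hdiff (2 + j)).mono (s := -(B₂ : ℤ)) (by rw [hN]; push_cast; omega)).add
        (hB₂' (2 + j))
      rwa [sub_add_cancel] at h5
    refine (huinv.mul (h4.mul (og_tt_pow _))).mono ?_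
    have h6 : m * 1 ≤ m * (1 + j) := Nat.mul_le_mul_left _ (by omega)
    omega
  obtain ⟨H, hH⟩ := exists_lift h (by
    intro k
    rcases k with _ | _ | k
    · exact hc0.mono (by norm_num)
    · have := (hc1.mono (s := 0) (by norm_num)).add og_one
      rwa [sub_add_cancel] at this
    · exact hck _ (by omega))
  have hX : ∀ v : PowerSeries K, OG 1 (jj K v) → v ∈ Ideal.span {(PowerSeries.X : PowerSeries K)} := by
    intro v hv
    rw [Ideal.mem_span_singleton, PowerSeries.X_dvd_iff, ← PowerSeries.coeff_zero_eq_constantCoeff]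
    have h2 := hv 0 (by norm_num)
    have h3 := PowerSeries.coeff_coe (R := K) v 0
    rw [h2] at h3
    simpa using h3.symm
  obtain ⟨w, hw, -⟩ := hensel_adic (PowerSeries K) (Ideal.span {(PowerSeries.X : PowerSeries K)})
    H 0 (by
      apply hX
      rw [← coeff_zero_eq_eval_zero, ← coeff_map, hH]
      exact hc0) (by
      have h2 : (derivative H).eval 0 - 1 ∈ Ideal.span {(PowerSeries.X : PowerSeries K)} := by
        apply hX
        rw [← coeff_zero_eq_eval_zero, coeff_derivative, map_sub, map_mul]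
        simp only [Nat.cast_zero, zero_add, map_one, mul_one]
        rw [← coeff_map, hH]
        exact hc1
      rw [(Ideal.Quotient.eq).2 h2, map_one]
      exact isUnit_one)
  refine ⟨θ + tt ^ m * jj K w, ?_, ?_⟩
  · have h2 : h.eval (jj K w) = 0 := by
      rw [← hH, eval_map, eval₂_at_apply]
      have : H.eval w = 0 := hw
      rw [this, map_zero]
    rw [hh, eval_mul, eval_C, eval_comp, eval_mul, eval_C, eval_X, taylor_eval] at h2
    rw [add_comm]
    exact (mul_eq_zero.1 h2).resolve_left (mul_ne_zero (inv_ne_zero h1) (pow_ne_zero _ xx_ne_zero))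
  · rw [add_sub_cancel_left]
    refine ((og_tt_pow m).mul (og_jj w)).mono ?_
    rw [hm]
    push_cast
    omega

end H651
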