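import Pool.Agent.H651_Ample.ArtinS

/-!
# Separable irreducible polynomials of large degree, the Galois theoretic part
-/

set_option autoImplicit false
set_option linter.style.haveILetI false

namespace H651

open Polynomial Module

universe u

/-- a cyclic extension of degree `p` in characteristic `p` comes from Artin–Schreier -/
theorem exists_artinSchreier {F N : Type u} [Field F] [Field N] [Algebra F N]
    [FiniteDimensional F N] [IsGalois F N] {p : ℕ} [Fact p.Prime] [CharP F p]
    (hp : finrank F N = p) : ∃ η : F, ∀ b : F, b ^ p - b ≠ η := by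
  haveI : CharP N p := charP_of_injective_algebraMap (algebraMap F N).injective p
  have hp2 : 2 ≤ p := (Fact.out : p.Prime).two_le
  have hcard : Nat.card (N ≃ₐ[F] N) = p := by rw [IsGalois.card_aut_eq_finrank, hp]
  haveI : IsCyclic (N ≃ₐ[F] N) := isCyclic_of_prime_card hcard
  obtain ⟨σ, hσ⟩ := IsCyclic.exists_generator (α := N ≃ₐ[F] N)
  have hord : orderOf σ = p := by rw [orderOf_eq_card_of_forall_mem_zpowers hσ, hcard]
  classical
  -- an element of trace one
  obtain ⟨β, hβ⟩ : ∃ β : N, ∑ τ : N ≃ₐ[F] N, τ β = 1 := by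
    have h1 : Algebra.trace F N ≠ 0 := Algebra.trace_ne_zero F N
    obtain ⟨β₀, hβ₀⟩ : ∃ β₀, Algebra.trace F N β₀ ≠ 0 := by
      by_contra hcon
      push Not at hcon
      exact h1 (LinearMap.ext hcon)
    refine ⟨(Algebra.trace F N β₀)⁻¹ • β₀, ?_⟩
    rw [← trace_eq_sum_automorphisms, map_smul, smul_eq_mul, inv_mul_cancel₀ hβ₀, map_one]
  set t : ℕ → N := fun i => (σ ^ i) β with ht
  have hsum : ∑ i ∈ Finset.range p, t i = 1 := by
    rw [← hβ, ← IsCyclic.image_range_orderOf hσ, hord, Finset.sum_image]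
    intro i hi j hj hij
    rw [Finset.coe_range, Set.mem_Iio] at hi hj
    exact pow_injOn_Iio_orderOf (by rw [Set.mem_Iio, hord]; exact hi)
      (by rw [Set.mem_Iio, hord]; exact hj) hij
  have htp : t p = t 0 := by
    simp only [ht]
    rw [← hord, pow_orderOf_eq_one, pow_zero]
  have hσt : ∀ i, σ (t i) = t (i + 1) := by
    intro i
    simp only [ht]
    rw [pow_succ', AlgEquiv.mul_apply]
  set α : N := ∑ i ∈ Finset.range p, (i : N) * t i with hα
  have hp0 : (p : N) = 0 := CharP.cast_eq_zero N p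
  have hσα : σ α = α - 1 := by
    have h1 : σ α = ∑ i ∈ Finset.range p, (i : N) * t (i + 1) := by
      rw [hα, map_sum]
      apply Finset.sum_congr rfl
      intro i _
      rw [map_mul, map_natCast, hσt]
    have h2 : ∑ i ∈ Finset.range p, ((i + 1 : ℕ) : N) * t (i + 1) = α := by
      have h3 := Finset.sum_range_succ' (fun i : ℕ => (i : N) * t i) p
      rw [Finset.sum_range_succ, hp0, zero_mul, add_zero, Nat.cast_zero, zero_mul, add_zero] at h3
      rw [hα, h3]
    have h3 : ∑ i ∈ Finset.range p, t (i + 1) = 1 := by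
      have h4 := Finset.sum_range_succ' t p
      rw [Finset.sum_range_succ, htp] at h4
      rw [← hsum]
      exact (add_right_cancel h4).symm
    rw [h1, ← h2, ← h3, ← Finset.sum_sub_distrib]
    apply Finset.sum_congr rfl
    intro i _
    push_cast
    ring
  have hfix : ∀ τ : N ≃ₐ[F] N, τ (α ^ p - α) = α ^ p - α := by
    intro τ
    have h1 : σ (α ^ p - α) = α ^ p - α := by
      rw [map_sub, map_pow, hσα, sub_pow_char, one_pow]
      ring
    have h2 : τ ∈ Subgroup.zpowers σ := hσ τ
    rw [← mem_powers_iff_mem_zpowers] at h2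
    obtain ⟨n, rfl⟩ := h2
    induction n with
    | zero => simp
    | succ n ih =>
      simp only at ih ⊢
      rw [pow_succ, AlgEquiv.mul_apply, h1, ih]
  obtain ⟨η, hη⟩ := (IsGalois.mem_range_algebraMap_iff_fixed (F := F) (α ^ p - α)).2 hfix
  refine ⟨η, fun b hb => ?_⟩
  have h1 : (α - algebraMap F N b) ^ p = α - algebraMap F N b := by
    rw [sub_pow_char, ← map_pow]
    have h2 := congrArg (algebraMap F N) hb
    rw [hη, map_sub] at h2
    linear_combination -h2
  obtain ⟨n, hn⟩ := exists_cast_of_pow_eq p h1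
  have h2 : α = algebraMap F N (b + n) := by
    rw [map_add, map_natCast, hn]
    ring
  rw [h2, AlgEquiv.commutes] at hσα
  exact one_ne_zero (sub_eq_self.1 hσα.symm)

/-- a cyclic extension of degree `q` with enough roots of unity comes from Kummer theory -/
theorem exists_kummer {F N : Type u} [Field F] [Field N] [Algebra F N]
    [FiniteDimensional F N] [IsGalois F N] {q : ℕ} (hq : q.Prime)
    (hfr : finrank F N = q) (hζ : ∃ ζ : F, IsPrimitiveRoot ζ q) :
    ∃ η : F, ∀ b : F, b ^ q ≠ η := by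
  haveI : Fact q.Prime := ⟨hq⟩
  have hcard : Nat.card (N ≃ₐ[F] N) = q := by rw [IsGalois.card_aut_eq_finrank, hfr]
  haveI : IsCyclic (N ≃ₐ[F] N) := isCyclic_of_prime_card hcard
  have hK : (primitiveRoots (finrank F N) F).Nonempty := by
    obtain ⟨ζ, hζ⟩ := hζ
    refine ⟨ζ, ?_⟩
    rw [mem_primitiveRoots finrank_pos, hfr]
    exact hζ
  obtain ⟨α, ⟨η, hη⟩, hα⟩ := exists_root_adjoin_eq_top_of_isCyclic F N hK
  have hirr := irreducible_X_pow_sub_C_of_root_adjoin_eq_top hη.symm hα
  rw [hfr] at hirr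
  exact ⟨η, pow_ne_of_irreducible_X_pow_sub_C hirr dvd_rfl hq.ne_one⟩

/-- a Galois extension whose group is a nontrivial `q`-group has a subextension of degree `q` -/
theorem exists_cyclic_sub {F L : Type u} [Field F] [Field L] [Algebra F L]
    [FiniteDimensional F L] [IsGalois F L] {q m : ℕ} (hq : q.Prime)
    (hfr : finrank F L = q ^ (m + 1)) :
    ∃ N : IntermediateField F L, IsGalois F N ∧ finrank F N = q := by
  haveI : Fact q.Prime := ⟨hq⟩
  have hcard : Nat.card (L ≃ₐ[F] L) = q ^ (m + 1) := by rw [IsGalois.card_aut_eq_finrank, hfr]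
  obtain ⟨H, hH⟩ := Sylow.exists_subgroup_card_pow_prime (G := L ≃ₐ[F] L) q (n := m)
    (by rw [hcard]; exact pow_dvd_pow q (Nat.le_succ m))
  have hidx : H.index = q := by
    have h1 := H.card_mul_index
    rw [hH, hcard, pow_succ] at h1
    exact Nat.eq_of_mul_eq_mul_left (pow_pos hq.pos m) h1
  haveI hn : H.Normal := by
    apply Subgroup.normal_of_index_eq_minFac_card
    rw [hidx, hcard, hq.pow_minFac (Nat.succ_ne_zero m)]
  refine ⟨IntermediateField.fixedField H, inferInstance, ?_⟩
  rw [IntermediateField.finrank_eq_fixingSubgroup_index,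
    IntermediateField.fixingSubgroup_fixedField, hidx]

theorem hasIrr_of_galois {F₀ L : Type u} [Field F₀] [Field L] [Algebra F₀ L]
    [FiniteDimensional F₀ L] [IsGalois F₀ L] (hi : ∃ i : F₀, i ^ 2 = -1) {q : ℕ} (hq : q.Prime)
    (hdvd : q ∣ finrank F₀ L)
    (hζ : (q : F₀) = 0 ∨ ((q : F₀) ≠ 0 ∧ ∃ ζ : L, IsPrimitiveRoot ζ q)) :
    ∃ d, 1 ≤ d ∧ ∀ k, HasIrr F₀ (d * q ^ k) := by
  haveI : Fact q.Prime := ⟨hq⟩
  obtain ⟨P⟩ : Nonempty (Sylow q (L ≃ₐ[F₀] L)) := inferInstance
  set F := IntermediateField.fixedField (P : Subgroup (L ≃ₐ[F₀] L)) with hF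
  have hPcard : finrank F L = Nat.card P := IntermediateField.finrank_fixedField_eq_card _
  obtain ⟨m, hm⟩ : ∃ m, Nat.card P = q ^ (m + 1) := by
    obtain ⟨m, hm⟩ := (IsPGroup.iff_card (p := q)).1 P.isPGroup'
    have h1 : q ∣ Nat.card P := by
      apply Sylow.dvd_card_of_dvd_card
      rwa [IsGalois.card_aut_eq_finrank]
    rcases Nat.eq_zero_or_pos m with h0 | h0
    · rw [h0, pow_zero] at hm
      rw [hm] at h1
      exact absurd (Nat.dvd_one.1 h1) hq.ne_one
    · exact ⟨m - 1, by rw [hm, Nat.sub_add_cancel h0]⟩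
  rw [hm] at hPcard
  obtain ⟨N, hN, hNd⟩ := exists_cyclic_sub hq hPcard
  refine ⟨finrank F₀ F, finrank_pos, fun k => HasIrr.trans F₀ ?_⟩
  rcases hζ with h0 | ⟨h0, ζ, hζ⟩
  · have h0' : (q : F) = 0 := by
      rw [← map_natCast (algebraMap F₀ F), h0, map_zero]
    haveI : CharP F q := (CharP.charP_iff_prime_eq_zero hq).2 h0'
    obtain ⟨η, hη⟩ := exists_artinSchreier (F := F) (N := N) (p := q) hNd
    exact hasIrr_artinSchreier q k inferInstance η hη
  · have h0' : (q : F) ≠ 0 := by
      rw [← map_natCast (algebraMap F₀ F)]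
      exact (_root_.map_ne_zero _).2 h0
    -- the root of unity lies in `F`
    have hζF : ∃ z : F, algebraMap F L z = ζ := by
      have hint : IsIntegral F ζ := Algebra.IsIntegral.isIntegral ζ
      have h1 : (minpoly F ζ).natDegree ∣ q ^ (m + 1) := by
        rw [← hPcard]
        exact minpoly.degree_dvd hint
      have h2 : (minpoly F ζ).natDegree ≤ q - 1 := by
        have h3 : aeval ζ (∑ i ∈ Finset.range q, (X : F[X]) ^ i) = 0 := by
          rw [map_sum]
          simp only [map_pow, aeval_X]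
          exact hζ.geom_sum_eq_zero hq.one_lt
        have h4 : (∑ i ∈ Finset.range q, (X : F[X]) ^ i) ≠ 0 := by
          intro h
          have h5 := congrArg (fun p => coeff p 0) h
          simp only [finsetSum_coeff, coeff_X_pow, coeff_zero] at h5
          rw [Finset.sum_eq_single 0] at h5
          · simp at h5
          · intro b _ hb
            rw [if_neg (Ne.symm hb)]
          · intro h6
            exact absurd (Finset.mem_range.2 hq.pos) h6
        refine (natDegree_le_of_dvd (minpoly.dvd F ζ h3) h4).trans ?_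
        apply natDegree_sum_le_of_forall_le
        intro i hi
        rw [Finset.mem_range] at hi
        rw [natDegree_X_pow]
        omega
      obtain ⟨j, _, hj⟩ := (Nat.dvd_prime_pow hq).1 h1
      have h5 : (minpoly F ζ).natDegree = 1 := by
        rcases Nat.eq_zero_or_pos j with hj0 | hj0
        · rw [hj, hj0, pow_zero]
        · exfalso
          have h6 : q ≤ q ^ j := Nat.le_self_pow hj0.ne' q
          have := hq.two_le
          omega
      have h6 := minpoly.natDegree_eq_one_iff.1 h5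
      obtain ⟨z, hz⟩ := h6
      exact ⟨z, hz⟩
    obtain ⟨z, hz⟩ := hζF
    have hzp : IsPrimitiveRoot z q := by
      apply IsPrimitiveRoot.of_map_of_injective (f := algebraMap F L) _ (algebraMap F L).injective
      rw [hz]
      exact hζ
    obtain ⟨η, hη⟩ := exists_kummer (F := F) (N := N) hq hNd ⟨z, hzp⟩
    by_cases hq2 : q = 2
    · subst hq2
      obtain ⟨i, hi⟩ := hi
      exact hasIrr_kummer_two k (by exact_mod_cast h0')
        ⟨algebraMap F₀ F i, by rw [← map_pow, hi, map_neg, map_one]⟩ η hη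
    · exact hasIrr_kummer_odd hq hq2 h0' hη k

theorem exists_hasIrr_of_i {F₀ : Type u} [Field F₀] (hi : ∃ i : F₀, i ^ 2 = -1)
    (h : ∃ f : F₀[X], Irreducible f ∧ f.Separable ∧ 2 ≤ f.natDegree) :
    ∃ d q, 1 ≤ d ∧ q.Prime ∧ ∀ k, HasIrr F₀ (d * q ^ k) := by
  classical
  obtain ⟨f, hfi, hfs, hf2⟩ := h
  set A := AlgebraicClosure F₀
  set L₁ : IntermediateField F₀ A := IntermediateField.adjoin F₀ (f.rootSet A) with hL₁
  haveI h1 : IsSplittingField F₀ L₁ f :=
    IntermediateField.adjoin_rootSet_isSplittingField (IsAlgClosed.splits _)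
  haveI h2 : IsGalois F₀ L₁ := IsGalois.of_separable_splitting_field hfs
  haveI h3 : FiniteDimensional F₀ L₁ := IsSplittingField.finiteDimensional L₁ f
  have hfin : finrank F₀ L₁ ≠ 1 := by
    have hdeg : f.degree ≠ 0 := by
      rw [degree_eq_natDegree hfi.ne_zero]
      exact_mod_cast (by omega : f.natDegree ≠ 0)
    obtain ⟨α, hα⟩ := IsAlgClosed.exists_aeval_eq_zero A f hdeg
    have hαL : α ∈ L₁ := by
      rw [hL₁]
      apply IntermediateField.subset_adjoin
      rw [mem_rootSet]
      exact ⟨hfi.ne_zero, hα⟩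
    have h4 : (minpoly F₀ (⟨α, hαL⟩ : L₁)).natDegree ≤ finrank F₀ L₁ := minpoly.natDegree_le _
    have h5 : minpoly F₀ (⟨α, hαL⟩ : L₁) = minpoly F₀ α := by
      rw [IntermediateField.minpoly_eq]
    have h6 : (minpoly F₀ α).natDegree = f.natDegree := by
      rw [← minpoly.eq_of_irreducible hfi hα, natDegree_mul_C]
      exact inv_ne_zero (leadingCoeff_ne_zero.2 hfi.ne_zero)
    rw [h5, h6] at h4
    omega
  set q := (finrank F₀ L₁).minFac with hqdef
  have hq : q.Prime := Nat.minFac_prime hfin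
  have hqd : q ∣ finrank F₀ L₁ := Nat.minFac_dvd _
  by_cases hq0 : (q : F₀) = 0
  · obtain ⟨d, hd, hk⟩ := hasIrr_of_galois (L := L₁) hi hq hqd (Or.inl hq0)
    exact ⟨d, q, hd, hq, hk⟩
  · set g : F₀[X] := X ^ q - 1 with hg
    set L₂ : IntermediateField F₀ A := IntermediateField.adjoin F₀ (g.rootSet A) with hL₂
    haveI h4 : IsSplittingField F₀ L₂ g :=
      IntermediateField.adjoin_rootSet_isSplittingField (IsAlgClosed.splits _)
    haveI h5 : IsGalois F₀ L₂ :=
      IsGalois.of_separable_splitting_field (p := g) (X_pow_sub_one_separable_iff.2 hq0)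
    haveI h6 : FiniteDimensional F₀ L₂ := IsSplittingField.finiteDimensional L₂ g
    haveI h7 : IsGalois F₀ ↥(L₁ ⊔ L₂) := { }
    haveI h8 : FiniteDimensional F₀ ↥(L₁ ⊔ L₂) := inferInstance
    have hqd' : q ∣ finrank F₀ ↥(L₁ ⊔ L₂) := by
      apply hqd.trans
      exact IntermediateField.finrank_dvd_of_le_right (le_sup_left : L₁ ≤ L₁ ⊔ L₂)
    haveI : NeZero ((q : ℕ) : A) := ⟨by
      rw [← map_natCast (algebraMap F₀ A)]
      exact (_root_.map_ne_zero _).2 hq0⟩
    obtain ⟨ζ, hζ⟩ := HasEnoughRootsOfUnity.exists_primitiveRoot A q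
    have hζL : ζ ∈ L₁ ⊔ L₂ := by
      apply (le_sup_right : L₂ ≤ L₁ ⊔ L₂)
      rw [hL₂]
      apply IntermediateField.subset_adjoin
      rw [mem_rootSet, hg]
      refine ⟨(monic_X_pow_sub_C (1 : F₀) hq.ne_zero).ne_zero, ?_⟩
      rw [map_sub, map_pow, aeval_X, map_one, hζ.pow_eq_one, sub_self]
    have hζ' : IsPrimitiveRoot (⟨ζ, hζL⟩ : ↥(L₁ ⊔ L₂)) q := by
      apply IsPrimitiveRoot.of_map_of_injective (f := algebraMap ↥(L₁ ⊔ L₂) A) _
        (algebraMap ↥(L₁ ⊔ L₂) A).injective
      exact hζ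
    obtain ⟨d, hd, hk⟩ := hasIrr_of_galois (L := ↥(L₁ ⊔ L₂)) hi hq hqd'
      (Or.inr ⟨hq0, _, hζ'⟩)
    exact ⟨d, q, hd, hq, hk⟩

/-- **A field with a separable irreducible polynomial of degree at least three has separable
irreducible polynomials of degrees `d q ^ k` for all `k`**, for some `d` and some prime `q`. -/
theorem exists_hasIrr {W : Type u} [Field W]
    (h : ∃ f : W[X], Irreducible f ∧ f.Separable ∧ 3 ≤ f.natDegree) :
    ∃ d q, 1 ≤ d ∧ q.Prime ∧ ∀ k, HasIrr W (d * q ^ k) := by
  classical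
  by_cases hi : ∃ i : W, i ^ 2 = -1
  · obtain ⟨f, h1, h2, h3⟩ := h
    exact exists_hasIrr_of_i hi ⟨f, h1, h2, by omega⟩
  · push Not at hi
    have h2 : (2 : W) ≠ 0 := by
      intro h2
      apply hi 1
      rw [one_pow]
      linear_combination h2
    set g : W[X] := X ^ 2 - C (-1) with hg
    have hgm : g.Monic := monic_X_pow_sub_C _ two_ne_zero
    have hgi : Irreducible g := X_pow_sub_C_irreducible_of_prime Nat.prime_two hi
    have hgs : g.Separable :=
      separable_X_pow_sub_C _ (by exact_mod_cast h2) (neg_ne_zero.2 one_ne_zero)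
    have hgd : g.natDegree = 2 := natDegree_X_pow_sub_C
    haveI : Fact (Irreducible g) := ⟨hgi⟩
    haveI : FiniteDimensional W (AdjoinRoot g) := (AdjoinRoot.powerBasis hgi.ne_zero).finite
    haveI : Algebra.IsSeparable W (AdjoinRoot g) := isSeparable_adjoinRoot hgm hgs
    have hfr : finrank W (AdjoinRoot g) = 2 := by
      rw [(AdjoinRoot.powerBasis hgi.ne_zero).finrank, AdjoinRoot.powerBasis_dim, hgd]
    have hi' : ∃ i : AdjoinRoot g, i ^ 2 = -1 := by
      refine ⟨AdjoinRoot.root g, ?_⟩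
      have h3 : aeval (AdjoinRoot.root g) g = 0 := AdjoinRoot.eval₂_root g
      have h4 : ∀ p : W[X], p = X ^ 2 - C (-1) → aeval (AdjoinRoot.root g) p =
          (AdjoinRoot.root g) ^ 2 - algebraMap W _ (-1) := by
        intro p hp
        rw [hp, map_sub, map_pow, aeval_X, aeval_C]
      rw [h4 g hg, sub_eq_zero, map_neg, map_one] at h3
      exact h3
    obtain ⟨f, hfi, hfs, hf3⟩ := h
    obtain ⟨p, hpi, hpd⟩ : ∃ p : (AdjoinRoot g)[X], Irreducible p ∧
        p ∣ f.map (algebraMap W (AdjoinRoot g)) := by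
      apply WfDvdMonoid.exists_irreducible_factor
      · intro hu
        have := natDegree_eq_zero_of_isUnit hu
        rw [natDegree_map] at this
        omega
      · exact (Polynomial.map_ne_zero_iff (algebraMap W (AdjoinRoot g)).injective).2 hfi.ne_zero
    have hps : p.Separable := (hfs.map (f := algebraMap W (AdjoinRoot g))).of_dvd hpd
    have hp2 : 2 ≤ p.natDegree := by
      by_contra hcon
      have hp1 : p.degree = 1 := by
        have := hpi.natDegree_pos
        rw [degree_eq_natDegree hpi.ne_zero]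
        exact_mod_cast (by omega : p.natDegree = 1)
      obtain ⟨β, hβ⟩ := exists_root_of_degree_eq_one hp1
      have h4 : aeval β f = 0 := by
        rw [← eval_map_algebraMap]
        obtain ⟨t, ht⟩ := hpd
        rw [ht, eval_mul, hβ.eq_zero, zero_mul]
      have h5 : (minpoly W β).natDegree = f.natDegree := by
        rw [← minpoly.eq_of_irreducible hfi h4, natDegree_mul_C]
        exact inv_ne_zero (leadingCoeff_ne_zero.2 hfi.ne_zero)
      have h6 := minpoly.natDegree_le (A := W) β
      rw [h5, hfr] at h6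
      omega
    obtain ⟨d, q, hd, hq, hk⟩ := exists_hasIrr_of_i hi' ⟨p, hpi, hps, hp2⟩
    refine ⟨finrank W (AdjoinRoot g) * d, q, ?_, hq, fun k => ?_⟩
    · rw [hfr]
      omega
    · rw [mul_assoc]
      exact HasIrr.trans W (hk k)

end H651
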