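import Pool.Agent.H651_Ample.Core
import Pool.Agent.H651_Ample.Sylow

/-!
# Krasner's lemma and approximation of polynomials, for arbitrary valuations
-/

set_option autoImplicit false
set_option linter.style.haveILetI false

namespace H651

open Polynomial

universe u v

/-- lower bounds for values in algebraic extensions -/
theorem exists_le_value {W A : Type*} [Field W] [Field A] [Algebra W A]
    {Γ₀ : Type*} [LinearOrderedCommGroupWithZero Γ₀] (w : Valuation A Γ₀) (y : A)
    (hint : IsIntegral W y) (hy : y ≠ 0) :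
    ∃ b : W, b ≠ 0 ∧ w (algebraMap W A b) ≤ w y := by
  classical
  rcases le_or_gt 1 (w y) with h1 | h1
  · exact ⟨1, one_ne_zero, by rw [map_one, map_one]; exact h1⟩
  set P := minpoly W y with hP
  obtain ⟨C, hC0, hC1, hC⟩ := exists_bound (w.comap (algebraMap W A))
    ((Finset.range (P.natDegree + 1)).image (fun k => P.coeff k))
  have hC' : ∀ k, w (algebraMap W A (P.coeff k)) ≤ w (algebraMap W A C) := by
    intro k
    rcases lt_or_ge k (P.natDegree + 1) with hk | hk
    · apply hC
      simp only [Finset.mem_image, Finset.mem_range]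
      exact ⟨k, hk, rfl⟩
    · rw [coeff_eq_zero_of_natDegree_lt (by omega), map_zero, map_zero]
      exact zero_le
  have h0 : P.coeff 0 ≠ 0 := minpoly.coeff_zero_ne_zero hint hy
  refine ⟨P.coeff 0 / C, div_ne_zero h0 hC0, ?_⟩
  have h2 : algebraMap W A (P.coeff 0) =
      -(∑ k ∈ Finset.range P.natDegree, algebraMap W A (P.coeff (k + 1)) * y ^ (k + 1)) := by
    have h3 : aeval y P = 0 := minpoly.aeval W y
    rw [aeval_eq_sum_range, Finset.sum_range_succ'] at h3
    simp only [Algebra.smul_def, pow_zero, mul_one] at h3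
    linear_combination h3
  have h3 : w (algebraMap W A (P.coeff 0)) ≤ w (algebraMap W A C) * w y := by
    rw [h2, Valuation.map_neg]
    apply w.map_sum_le
    intro k _
    rw [map_mul, map_pow, pow_succ']
    calc w (algebraMap W A (P.coeff (k + 1))) * (w y * w y ^ k)
        ≤ w (algebraMap W A C) * (w y * 1) :=
          mul_le_mul' (hC' _) (mul_le_mul_right (pow_le_one' h1.le k) _)
      _ = w (algebraMap W A C) * w y := by rw [mul_one]
  have hC0' : 0 < w (algebraMap W A C) :=
    (Valuation.pos_iff w).2 ((_root_.map_ne_zero _).2 hC0)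
  rw [map_div₀, map_div₀, div_le_iff₀ hC0', mul_comm]
  exact h3

/-- **Krasner's lemma** for a valuation invariant under automorphisms over `W` -/
theorem krasner_mem {W A : Type*} [Field W] [Field A] [Algebra W A] [Normal W A]
    {Γ₀ : Type*} [LinearOrderedCommGroupWithZero Γ₀] (w : Valuation A Γ₀)
    (hinv : ∀ (σ : A ≃ₐ[W] A) (x : A), w (σ x) = w x) (η y : A)
    (hsep : (minpoly W η).Separable)
    (h : ∀ σ : A ≃ₐ[W] A, σ η ≠ η → w (y - η) < w (σ η - η)) :
    η ∈ IntermediateField.adjoin W {y} := by
  set B := IntermediateField.adjoin W {y} with hB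
  have hsepB : (minpoly B η).Separable :=
    Separable.of_dvd (hsep.map (f := algebraMap W B)) (minpoly.dvd_map_of_isScalarTower W B η)
  obtain ⟨z, hz⟩ := mem_range_of_fixed (W := B) η hsepB (by
    intro σ
    by_contra hne
    have h1 := h (σ.restrictScalars W) hne
    have hyB : y ∈ B := IntermediateField.mem_adjoin_simple_self W y
    have hy : σ y = y := σ.commutes ⟨y, hyB⟩
    have h2 : w ((σ.restrictScalars W) (η - y)) = w (η - y) := hinv _ _
    have h3 : (σ.restrictScalars W) (η - y) = σ η - y := by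
      rw [AlgEquiv.restrictScalars_apply, map_sub, hy]
    have h4 : (σ.restrictScalars W) η - η = (σ η - y) + (y - η) := by
      rw [AlgEquiv.restrictScalars_apply]
      ring
    rw [h3] at h2
    rw [h4] at h1
    have h5 := w.map_add (σ η - y) (y - η)
    rw [h2, Valuation.map_sub_swap, max_self] at h5
    exact absurd h1 (not_lt.2 h5))
  rw [← hz]
  exact z.2

/-- lower bound for finitely many values -/
theorem exists_lower {K A : Type*} [Field K] [Field A] [Algebra K A] {Γ₀ : Type*}
    [LinearOrderedCommGroupWithZero Γ₀] (w : Valuation A Γ₀)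
    (hcof : ∀ y : A, y ≠ 0 → ∃ b : K, b ≠ 0 ∧ w (algebraMap K A b) ≤ w y) (T : Finset A) :
    ∃ δ : K, δ ≠ 0 ∧ w (algebraMap K A δ) ≤ 1 ∧
      ∀ t ∈ T, t ≠ 0 → w (algebraMap K A δ) ≤ w t := by
  classical
  induction T using Finset.induction_on with
  | empty => exact ⟨1, one_ne_zero, by rw [map_one, map_one], by simp⟩
  | insert a T ha ih =>
    obtain ⟨δ, hδ0, hδ1, hδ⟩ := ih
    by_cases ha0 : a = 0
    · refine ⟨δ, hδ0, hδ1, fun t ht ht0 => ?_⟩
      rcases Finset.mem_insert.1 ht with rfl | ht
      · exact absurd ha0 ht0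
      · exact hδ t ht ht0
    · obtain ⟨b, hb0, hb⟩ := hcof a ha0
      rcases le_total (w (algebraMap K A b)) (w (algebraMap K A δ)) with h | h
      · refine ⟨b, hb0, h.trans hδ1, fun t ht ht0 => ?_⟩
        rcases Finset.mem_insert.1 ht with rfl | ht
        · exact hb
        · exact h.trans (hδ t ht ht0)
      · refine ⟨δ, hδ0, hδ1, fun t ht ht0 => ?_⟩
        rcases Finset.mem_insert.1 ht with rfl | ht
        · exact h.trans hb
        · exact hδ t ht ht0

/-- if a product of values is small then one of them is small -/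
theorem exists_small_factor {A : Type*} [Field A] {Γ₀ : Type*}
    [LinearOrderedCommGroupWithZero Γ₀] (w : Valuation A Γ₀) (c : Γ₀) (s : Multiset A) (y : A)
    (h : w ((s.map (fun a => y - a)).prod) < c ^ Multiset.card s) :
    ∃ a ∈ s, w (y - a) < c := by
  by_contra hcon
  push Not at hcon
  apply absurd h (not_lt.2 _)
  clear h
  induction s using Multiset.induction_on with
  | empty => simp
  | cons a s ih =>
    rw [Multiset.map_cons, Multiset.prod_cons, map_mul, Multiset.card_cons, pow_succ']
    exact mul_le_mul' (hcon a (Multiset.mem_cons_self a s))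
      (ih fun b hb => hcon b (Multiset.mem_cons_of_mem hb))

/-- **Approximation of an irreducible polynomial**. -/
theorem krasner_poly {K W A : Type*} [Field K] [Field W] [Field A] [Algebra K W] [Algebra W A]
    [Algebra K A] [IsScalarTower K W A] [IsAlgClosed A] [Normal W A]
    {Γ₀ : Type*} [LinearOrderedCommGroupWithZero Γ₀] (w : Valuation A Γ₀)
    (hinv : ∀ (σ : A ≃ₐ[W] A) (x : A), w (σ x) = w x)
    (hdense : ∀ (c : W) (a : A), a ≠ 0 → ∃ b : K, w (algebraMap W A (c - algebraMap K W b)) < w a)
    {d : ℕ} (hd : 1 ≤ d) (g : W[X]) (hgm : g.Monic) (hgi : Irreducible g) (hgs : g.Separable)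
    (hgd : g.natDegree = d) :
    ∃ G : K[X], G.Monic ∧ G.natDegree = d ∧ ∃ δ : K, δ ≠ 0 ∧
      ∀ y : A, w (aeval y G) < w (algebraMap K A δ) → d ∣ (minpoly W y).natDegree := by
  classical
  have hKW : ∀ b : K, algebraMap K A b = algebraMap W A (algebraMap K W b) :=
    fun b => IsScalarTower.algebraMap_apply K W A b
  -- cofinality
  have hcof : ∀ y : A, y ≠ 0 → ∃ b : K, b ≠ 0 ∧ w (algebraMap K A b) ≤ w y := by
    intro y hy
    obtain ⟨c, hc0, hc⟩ := exists_le_value (W := W) w y (Normal.isIntegral inferInstance y) hy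
    obtain ⟨b, hb⟩ := hdense c (algebraMap W A c) ((_root_.map_ne_zero _).2 hc0)
    have h1 : w (algebraMap W A (algebraMap K W b)) = w (algebraMap W A c) := by
      have h2 : algebraMap W A (algebraMap K W b) =
          algebraMap W A c - algebraMap W A (c - algebraMap K W b) := by
        rw [map_sub]
        ring
      rw [h2]
      exact Valuation.map_sub_eq_of_lt_left w hb
    refine ⟨b, ?_, ?_⟩
    · rintro rfl
      rw [map_zero, map_zero, map_zero, eq_comm] at h1
      exact hc0 (by simpa using h1)
    · rw [hKW, h1]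
      exact hc
  set gA : A[X] := g.map (algebraMap W A) with hgA
  have hspl : gA.Splits := IsAlgClosed.splits _
  have hgAm : gA.Monic := hgm.map _
  have hgAd : gA.natDegree = d := by rw [hgA, hgm.natDegree_map, hgd]
  have hcard : Multiset.card gA.roots = d := by rw [← hspl.natDegree_eq_card_roots, hgAd]
  obtain ⟨δ₁, hδ0, hδ1, hδ⟩ := exists_lower (K := K) w hcof
    ((gA.roots.toFinset ×ˢ gA.roots.toFinset).image (fun x => x.1 - x.2))
  have hroot_sep : ∀ η ∈ gA.roots, ∀ η' ∈ gA.roots, η ≠ η' →
      w (algebraMap K A δ₁) ≤ w (η - η') := by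
    intro η hη η' hη' hne
    apply hδ _ _ (sub_ne_zero.2 hne)
    rw [Finset.mem_image]
    exact ⟨(η, η'), by simp only [Finset.mem_product, Multiset.mem_toFinset]; exact ⟨hη, hη'⟩, rfl⟩
  -- the Krasner property for `g`
  have hkr : ∀ y : A, w (aeval y g) < w (algebraMap K A δ₁) ^ d →
      d ∣ (minpoly W y).natDegree := by
    intro y hy
    have h1 : aeval y g = (gA.roots.map (fun a => y - a)).prod := by
      rw [← eval_map_algebraMap]
      exact hspl.eval_eq_prod_roots_of_monic hgAm y
    rw [h1, ← hcard] at hy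
    obtain ⟨η, hη, hyη⟩ := exists_small_factor w _ _ y hy
    have hη0 : aeval η g = 0 := by
      rw [← eval_map_algebraMap]
      exact (mem_roots'.1 hη).2
    have hmin : minpoly W η = g := by
      rw [← minpoly.eq_of_irreducible hgi hη0, hgm.leadingCoeff, inv_one, C_1, mul_one]
    have hmem : η ∈ IntermediateField.adjoin W {y} := by
      apply krasner_mem w hinv η y (by rw [hmin]; exact hgs)
      intro σ hσ
      refine lt_of_lt_of_le hyη (hroot_sep _ ?_ _ hη hσ)
      rw [mem_roots hgAm.ne_zero, IsRoot.def, hgA, eval_map_algebraMap]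
      have h2 := aeval_algHom_apply (σ : A →ₐ[W] A) η g
      rw [hη0, map_zero] at h2
      exact h2
    have hinty : IsIntegral W y := Normal.isIntegral inferInstance y
    have hintη : IsIntegral W η := Normal.isIntegral inferInstance η
    have h2 : IntermediateField.adjoin W {η} ≤ IntermediateField.adjoin W {y} :=
      (IntermediateField.adjoin_simple_le_iff).2 hmem
    have h3 := IntermediateField.finrank_dvd_of_le_right h2
    rwa [IntermediateField.adjoin.finrank hintη, IntermediateField.adjoin.finrank hinty, hmin,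
      hgd] at h3
  -- the bound
  obtain ⟨C₁, hC₁0, hC₁1, hC₁⟩ := exists_bound (w.comap (algebraMap W A))
    ((Finset.range (d + 1)).image (fun k => g.coeff k))
  have hC₁' : ∀ k, w (algebraMap W A (g.coeff k)) ≤ w (algebraMap W A C₁) := by
    intro k
    rcases lt_or_ge k (d + 1) with hk | hk
    · apply hC₁
      simp only [Finset.mem_image, Finset.mem_range]
      exact ⟨k, hk, rfl⟩
    · rw [coeff_eq_zero_of_natDegree_lt (by omega), map_zero, map_zero]
      exact zero_le
  set c := w (algebraMap W A C₁) with hcdef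
  have hc1 : 1 ≤ c := hC₁1
  have hC₁A : algebraMap W A C₁ ≠ 0 := (_root_.map_ne_zero _).2 hC₁0
  have hδA : algebraMap K A δ₁ ≠ 0 := (_root_.map_ne_zero _).2 hδ0
  set τ : A := (algebraMap K A δ₁) ^ d / (algebraMap W A C₁) ^ d with hτ
  have hτ0 : τ ≠ 0 := div_ne_zero (pow_ne_zero _ hδA) (pow_ne_zero _ hC₁A)
  have hτc : w τ * c ^ d = w (algebraMap K A δ₁) ^ d := by
    rw [hcdef, ← map_pow, ← map_mul, hτ, div_mul_cancel₀ _ (pow_ne_zero _ hC₁A), map_pow]
  have hτ1 : w τ ≤ 1 := by
    have h1 : w τ * c ^ d ≤ 1 := by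
      rw [hτc]
      exact pow_le_one' hδ1 d
    calc w τ = w τ * 1 := (mul_one _).symm
      _ ≤ w τ * c ^ d := mul_le_mul_right (one_le_pow₀ hc1) _
      _ ≤ 1 := h1
  choose b hb using fun k : ℕ => hdense (g.coeff k) τ hτ0
  set G : K[X] := X ^ d + ∑ k ∈ Finset.range d, C (b k) * X ^ k with hG
  have hsumdeg : (∑ k ∈ Finset.range d, C (b k) * X ^ k : K[X]).degree < d := by
    apply lt_of_le_of_lt (degree_sum_le _ _)
    rw [Finset.sup_lt_iff (by exact_mod_cast WithBot.bot_lt_coe d)]
    intro k hk
    rw [Finset.mem_range] at hk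
    exact lt_of_le_of_lt (degree_C_mul_X_pow_le _ _) (by exact_mod_cast hk)
  have hGm : G.Monic := monic_X_pow_add hsumdeg
  have hGd : G.natDegree = d := by
    rw [hG, natDegree_add_eq_left_of_degree_lt, natDegree_X_pow]
    rw [degree_X_pow]
    exact hsumdeg
  have hgsum : g = X ^ d + ∑ k ∈ Finset.range d, C (g.coeff k) * X ^ k := by
    conv_lhs => rw [g.as_sum_range_C_mul_X_pow, hgd, Finset.sum_range_succ]
    have : g.coeff d = 1 := by rw [← hgd]; exact hgm.coeff_natDegree
    rw [this, C_1, one_mul, add_comm]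
  have hdiff : ∀ y : A, aeval y g - aeval y G =
      ∑ k ∈ Finset.range d, algebraMap W A (g.coeff k - algebraMap K W (b k)) * y ^ k := by
    intro y
    conv_lhs => rw [hgsum]
    rw [hG, map_add, map_add, map_pow, map_pow, aeval_X, aeval_X, add_sub_add_left_eq_sub, map_sum,
      map_sum, ← Finset.sum_sub_distrib]
    apply Finset.sum_congr rfl
    intro k _
    rw [map_mul, map_mul, map_pow, map_pow, aeval_X, aeval_X, aeval_C, aeval_C, map_sub, sub_mul,
      hKW]
  have hGA : ∀ y : A, aeval y G = (G.map (algebraMap K A)).eval y := fun y => by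
    rw [eval_map_algebraMap]
  have hGc : PB w c (G.map (algebraMap K A)) := by
    intro k
    rw [coeff_map, hKW]
    rcases lt_trichotomy k d with hk | hk | hk
    · have h1 : G.coeff k = b k := by
        rw [hG, coeff_add, coeff_X_pow, if_neg hk.ne, zero_add, finsetSum_coeff,
          Finset.sum_eq_single k]
        · rw [coeff_C_mul, coeff_X_pow, if_pos rfl, mul_one]
        · intro j _ hj
          rw [coeff_C_mul, coeff_X_pow, if_neg (Ne.symm hj), mul_zero]
        · intro h
          exact absurd (Finset.mem_range.2 hk) h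
      have h2 : algebraMap W A (algebraMap K W (b k)) =
          algebraMap W A (g.coeff k) - algebraMap W A (g.coeff k - algebraMap K W (b k)) := by
        rw [map_sub]
        ring
      rw [h1, h2]
      refine (w.map_sub _ _).trans (max_le (hC₁' k) ?_)
      exact (hb k).le.trans (hτ1.trans hc1)
    · rw [hk, ← hGd, hGm.coeff_natDegree, map_one, map_one, map_one]
      exact hc1
    · rw [coeff_eq_zero_of_natDegree_lt (by omega), map_zero, map_zero, map_zero]
      exact zero_le
  refine ⟨G, hGm, hGd, δ₁ ^ d, pow_ne_zero _ hδ0, fun y hy => hkr y ?_⟩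
  rw [map_pow, map_pow] at hy
  have hyc : w y ≤ c := by
    by_contra hcon
    push Not at hcon
    rw [hGA, eval_large hc1 hGc (hGm.map _) (by rw [hGm.natDegree_map, hGd]) hcon] at hy
    have h1 : (1 : Γ₀) ≤ w y ^ d := one_le_pow₀ (hc1.trans hcon.le)
    exact absurd (lt_of_le_of_lt h1 hy) (not_lt.2 (pow_le_one' hδ1 d))
  have h1 : aeval y g = aeval y G + (aeval y g - aeval y G) := by ring
  rw [h1]
  refine lt_of_le_of_lt (w.map_add _ _) (max_lt hy ?_)
  rw [hdiff]
  apply w.map_sum_lt (pow_pos ((Valuation.pos_iff w).2 hδA) d).ne'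
  intro k hk
  rw [Finset.mem_range] at hk
  rw [map_mul, map_pow, ← hτc]
  have h2 : w y ^ k ≤ c ^ d := (pow_le_pow_left' hyc k).trans (pow_le_pow_right₀ hc1 hk.le)
  calc w (algebraMap W A (g.coeff k - algebraMap K W (b k))) * w y ^ k
      ≤ w (algebraMap W A (g.coeff k - algebraMap K W (b k))) * c ^ d := mul_le_mul_right h2 _
    _ < w τ * c ^ d :=
      mul_lt_mul_of_pos_right (hb k) (pow_pos (lt_of_lt_of_le zero_lt_one hc1) d)

end H651
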