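import Mathlib

/-!
# Orders of Laurent series
-/

set_option autoImplicit false
set_option linter.style.haveILetI false

namespace H651

open Polynomial HahnSeries

attribute [-instance] HahnSeries.instSMul
attribute [-instance] HahnSeries.instModule

variable {K : Type*} [Field K]

/-- the Laurent series `f` has order at least `r` -/
def OG (r : ℤ) (f : LaurentSeries K) : Prop := ∀ i < r, f.coeff i = 0

theorem og_iff {r : ℤ} {f : LaurentSeries K} : OG r f ↔ (r : WithTop ℤ) ≤ f.orderTop := by
  rw [le_orderTop_iff_forall]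
  constructor
  · intro h j hj
    exact h j (by exact_mod_cast hj)
  · intro h j hj
    exact h j (by exact_mod_cast hj)

theorem og_iff_order {r : ℤ} {f : LaurentSeries K} (hf : f ≠ 0) : OG r f ↔ r ≤ f.order := by
  rw [le_order_iff_forall hf]
  rfl

theorem og_zero (r : ℤ) : OG r (0 : LaurentSeries K) := fun _ _ => rfl

theorem OG.mono {r s : ℤ} {f : LaurentSeries K} (h : OG r f) (hs : s ≤ r) : OG s f :=
  fun i hi => h i (lt_of_lt_of_le hi hs)

theorem OG.add {r : ℤ} {f g : LaurentSeries K} (hf : OG r f) (hg : OG r g) : OG r (f + g) := by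
  intro i hi
  rw [HahnSeries.coeff_add, hf i hi, hg i hi, add_zero]

theorem OG.neg {r : ℤ} {f : LaurentSeries K} (hf : OG r f) : OG r (-f) := by
  intro i hi
  rw [HahnSeries.coeff_neg, hf i hi, neg_zero]

theorem OG.sub {r : ℤ} {f g : LaurentSeries K} (hf : OG r f) (hg : OG r g) : OG r (f - g) := by
  intro i hi
  rw [HahnSeries.coeff_sub, hf i hi, hg i hi, sub_zero]

theorem OG.mul {r s : ℤ} {f g : LaurentSeries K} (hf : OG r f) (hg : OG s g) :
    OG (r + s) (f * g) := by
  rw [og_iff] at *
  refine le_trans ?_ orderTop_add_le_mul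
  push_cast
  exact add_le_add hf hg

theorem OG.mul0 {r : ℤ} {f g : LaurentSeries K} (hf : OG r f) (hg : OG 0 g) :
    OG r (f * g) := by
  have := hf.mul hg
  rwa [add_zero] at this

theorem og_one : OG 0 (1 : LaurentSeries K) := by
  rw [og_iff_order one_ne_zero, order_one]

theorem OG.pow {r : ℤ} {f : LaurentSeries K} (hf : OG r f) (n : ℕ) : OG (n * r) (f ^ n) := by
  induction n with
  | zero => simpa using og_one
  | succ n ih =>
    rw [pow_succ]
    have := ih.mul hf
    push_cast
    rwa [add_mul, one_mul]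

theorem OG.pow0 {f : LaurentSeries K} (hf : OG 0 f) (n : ℕ) : OG 0 (f ^ n) := by
  have := hf.pow n
  rwa [mul_zero] at this

theorem og_sum {ι : Type*} {r : ℤ} (s : Finset ι) (f : ι → LaurentSeries K)
    (h : ∀ i ∈ s, OG r (f i)) : OG r (∑ i ∈ s, f i) := by
  classical
  induction s using Finset.induction_on with
  | empty => simpa using og_zero r
  | insert a s ha ih =>
    rw [Finset.sum_insert ha]
    exact (h a (Finset.mem_insert_self a s)).add
      (ih fun i hi => h i (Finset.mem_insert_of_mem hi))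

theorem og_algebraMap (a : K) : OG 0 (algebraMap K (LaurentSeries K) a) := by
  intro i hi
  rw [LaurentSeries.algebraMap_apply, HahnSeries.C_apply, coeff_single_of_ne hi.ne]

theorem coeff_fsum {ι : Type*} (s : Finset ι) (f : ι → LaurentSeries K) (i : ℤ) :
    (∑ j ∈ s, f j).coeff i = ∑ j ∈ s, (f j).coeff i := by
  classical
  induction s using Finset.induction_on with
  | empty => rw [Finset.sum_empty, Finset.sum_empty]; rfl
  | insert a s ha ih => rw [Finset.sum_insert ha, Finset.sum_insert ha, HahnSeries.coeff_add, ih]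

theorem coeff_smul' (a : K) (f : LaurentSeries K) (i : ℤ) :
    (a • f).coeff i = a * f.coeff i := by
  rw [Algebra.smul_def, LaurentSeries.algebraMap_apply, HahnSeries.C_apply, coeff_single_zero_mul]

theorem eq_zero_of_og {f : LaurentSeries K} (h : ∀ r : ℕ, OG r f) : f = 0 := by
  ext i
  exact h (i.toNat + 1) i (by push_cast; have := Int.self_le_toNat i; omega)

theorem og_single (i : ℤ) (a : K) : OG i (single i a : LaurentSeries K) := by
  intro j hj
  rw [coeff_single_of_ne hj.ne]

/-- the distinct orders lemma -/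
theorem og_of_sum {ι : Type*} (s : Finset ι) (f : ι → LaurentSeries K)
    (hd : ∀ i ∈ s, ∀ j ∈ s, i ≠ j → f i ≠ 0 → f j ≠ 0 → (f i).order ≠ (f j).order) {r : ℤ}
    (h : OG r (∑ i ∈ s, f i)) : ∀ i ∈ s, OG r (f i) := by
  classical
  by_contra hcon
  push Not at hcon
  obtain ⟨i, hi, hir⟩ := hcon
  have hne : (s.filter fun i => f i ≠ 0).Nonempty :=
    ⟨i, by
      rw [Finset.mem_filter]
      exact ⟨hi, fun h0 => hir (by rw [h0]; exact og_zero r)⟩⟩
  obtain ⟨k, hk, hkmin⟩ := Finset.exists_min_image _ (fun i => (f i).order) hne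
  rw [Finset.mem_filter] at hk
  have hi0 : f i ≠ 0 := fun h0 => hir (by rw [h0]; exact og_zero r)
  rw [og_iff_order hi0, not_le] at hir
  have hkr : (f k).order < r := lt_of_le_of_lt (hkmin i (by
    rw [Finset.mem_filter]; exact ⟨hi, hi0⟩)) hir
  have h1 := h _ hkr
  have h2 : (∑ i ∈ s, f i).coeff (f k).order = (f k).coeff (f k).order := by
    have e1 : (∑ i ∈ s, f i).coeff (f k).order = ∑ i ∈ s, (f i).coeff (f k).order := by
      exact map_sum (HahnSeries.coeff.addMonoidHom (f k).order) f s
    rw [e1]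
    apply Finset.sum_eq_single_of_mem k hk.1
    intro j hj hjk
    by_cases hj0 : f j = 0
    · rw [hj0]; rfl
    · have h3 : (f k).order ≤ (f j).order := hkmin j (by
        rw [Finset.mem_filter]; exact ⟨hj, hj0⟩)
      have h4 := hd j hj k hk.1 hjk hj0 hk.2
      exact coeff_eq_zero_of_lt_order (lt_of_le_of_ne h3 (Ne.symm h4))
  rw [h2] at h1
  exact hk.2 (coeff_order_eq_zero.1 h1)

/-- the inverse `1 / t` of the variable -/
noncomputable def xx : LaurentSeries K := single (-1) 1

theorem xx_ne_zero : (xx : LaurentSeries K) ≠ 0 := single_ne_zero one_ne_zero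

theorem xx_pow (n : ℕ) : (xx : LaurentSeries K) ^ n = single (-(n : ℤ)) 1 := by
  rw [xx, single_pow, one_pow]
  congr 1
  simp

theorem order_xx_pow (n : ℕ) : ((xx : LaurentSeries K) ^ n).order = -(n : ℤ) := by
  rw [xx_pow, order_single one_ne_zero]

theorem og_xx_pow (n : ℕ) : OG (-(n : ℤ)) ((xx : LaurentSeries K) ^ n) := by
  rw [xx_pow]
  exact og_single _ _

/-- the variable `t` -/
noncomputable def tt : LaurentSeries K := single 1 1

theorem tt_ne_zero : (tt : LaurentSeries K) ≠ 0 := single_ne_zero one_ne_zero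

theorem tt_pow (n : ℕ) : (tt : LaurentSeries K) ^ n = single (n : ℤ) 1 := by
  rw [tt, single_pow, one_pow]
  congr 1
  simp

theorem tt_mul_xx : (tt : LaurentSeries K) * xx = 1 := by
  rw [tt, xx, single_mul_single]
  simp

theorem xx_mul_tt : (xx : LaurentSeries K) * tt = 1 := by
  rw [mul_comm, tt_mul_xx]

theorem og_tt_pow (n : ℕ) : OG (n : ℤ) ((tt : LaurentSeries K) ^ n) := by
  rw [tt_pow]
  exact og_single _ _

/-- coefficients of polynomials in `1 / t` -/
theorem coeff_aeval_xx (u : K[X]) (i : ℤ) :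
    (aeval (xx : LaurentSeries K) u).coeff i = if i ≤ 0 then u.coeff (-i).toNat else 0 := by
  rw [aeval_eq_sum_range]
  rw [coeff_fsum]
  split_ifs with hi
  · rw [Finset.sum_eq_single (-i).toNat]
    · rw [coeff_smul', xx_pow]
      have : -(((-i).toNat : ℕ) : ℤ) = i := by omega
      rw [this, coeff_single_same, mul_one]
    · intro j _ hj
      rw [coeff_smul', xx_pow, coeff_single_of_ne, mul_zero]
      omega
    · intro h
      rw [Finset.mem_range, not_lt] at h
      rw [coeff_smul', coeff_eq_zero_of_natDegree_lt (by omega), zero_mul]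
  · apply Finset.sum_eq_zero
    intro j _
    rw [coeff_smul', xx_pow, coeff_single_of_ne, mul_zero]
    omega

theorem aeval_xx_ne_zero {u : K[X]} (hu : u ≠ 0) : aeval (xx : LaurentSeries K) u ≠ 0 := by
  intro h
  apply hu
  ext j
  have := coeff_aeval_xx u (-(j : ℤ))
  rw [h] at this
  simpa using this.symm

theorem order_aeval_xx {u : K[X]} (hu : u ≠ 0) :
    (aeval (xx : LaurentSeries K) u).order = -(u.natDegree : ℤ) := by
  have h0 := aeval_xx_ne_zero hu
  apply le_antisymm
  · apply order_le_of_coeff_ne_zero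
    rw [coeff_aeval_xx, if_pos (by omega)]
    simpa using hu
  · rw [le_order_iff_forall h0]
    intro j hj
    rw [coeff_aeval_xx]
    split_ifs with h
    · apply coeff_eq_zero_of_natDegree_lt
      omega
    · rfl

theorem og_aeval_xx (u : K[X]) : OG (-(u.natDegree : ℤ)) (aeval (xx : LaurentSeries K) u) := by
  by_cases hu : u = 0
  · rw [hu, map_zero]; exact og_zero _
  · rw [og_iff_order (aeval_xx_ne_zero hu), order_aeval_xx hu]

/-- the polynomial part lemma -/
theorem exists_part (f : LaurentSeries K) (k r : ℕ)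
    (hf : ∀ i : ℤ, -(k : ℤ) < i → i < r → f.coeff i = 0) :
    ∃ u : K[X], OG r (f - aeval xx u * xx ^ k) := by
  classical
  obtain ⟨m, hm⟩ : ∃ m : ℕ, ∀ i : ℤ, i < -(m : ℤ) → f.coeff i = 0 := by
    by_cases h0 : f = 0
    · exact ⟨0, fun i _ => by rw [h0]; rfl⟩
    · refine ⟨(-f.order).toNat, fun i hi => coeff_eq_zero_of_lt_order ?_⟩
      omega
  refine ⟨∑ l ∈ Finset.range (m + 1), C (f.coeff (-((l : ℤ) + k))) * X ^ l, ?_⟩
  intro i hi
  rw [HahnSeries.coeff_sub, xx_pow, coeff_mul_single, mul_one, coeff_aeval_xx]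
  have hc : ∀ j : ℕ, (∑ l ∈ Finset.range (m + 1), C (f.coeff (-((l : ℤ) + k))) * X ^ l).coeff j =
      if j < m + 1 then f.coeff (-((j : ℤ) + k)) else 0 := by
    intro j
    rw [finsetSum_coeff]
    simp only [coeff_C_mul, coeff_X_pow, mul_ite, mul_one, mul_zero]
    rw [Finset.sum_ite_eq]
    simp
  split_ifs with h
  · rw [hc]
    have e : (-(((-(i - -(k : ℤ))).toNat : ℕ) + (k : ℤ))) = i := by omega
    split_ifs with h2
    · rw [e, sub_self]
    · rw [hm i (by omega), sub_zero]
  · rw [hf i (by omega) hi, sub_zero]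

/-- finitely many linear conditions on polynomials allow all large degrees -/
theorem exists_degree_of_conditions {ι : Type*} [Finite ι] (l : ι → (K[X] →ₗ[K] K)) :
    ∃ M : ℕ, ∀ m ≥ M, ∃ q : K[X], q.Monic ∧ q.natDegree = m ∧ ∀ i, l i q = 0 := by
  classical
  let w : K[X] →ₗ[K] (ι → K) := LinearMap.pi l
  let U : ℕ →o Submodule K (ι → K) :=
    ⟨fun m => (degreeLT K m).map w, fun a b hab => Submodule.map_mono (degreeLT_mono hab)⟩
  obtain ⟨M, hM⟩ := (monotone_stabilizes_iff_noetherian (R := K) (M := ι → K)).2 inferInstance U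
  refine ⟨M, fun m hm => ?_⟩
  have h1 : U m = U (m + 1) := by rw [← hM m hm, ← hM (m + 1) (by omega)]
  have h2 : w (X ^ m) ∈ U (m + 1) := by
    refine Submodule.mem_map_of_mem ?_
    rw [mem_degreeLT, degree_X_pow]
    exact_mod_cast Nat.lt_succ_self m
  rw [← h1] at h2
  obtain ⟨q, hq, hq2⟩ := (Submodule.mem_map).1 h2
  rw [mem_degreeLT] at hq
  have hd : q.degree < (X ^ m : K[X]).degree := by rwa [degree_X_pow]
  refine ⟨X ^ m - q, (monic_X_pow m).sub_of_left hd, ?_, ?_⟩
  · rw [natDegree_eq_of_degree_eq (degree_sub_eq_left_of_degree_lt hd), natDegree_X_pow]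
  · intro i
    have h3 := congrFun hq2 i
    simp only [w, LinearMap.pi_apply] at h3
    rw [map_sub, h3, sub_self]

end H651
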