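import Mathlib

/-!
# Location of roots
-/

set_option autoImplicit false
set_option linter.style.haveILetI false

namespace H651

open Polynomial

variable {A : Type*} [Field A] {Γ₀ : Type*} [LinearOrderedCommGroupWithZero Γ₀]

/-- all coefficients of `P` have value at most `c` -/
def PB (w : Valuation A Γ₀) (c : Γ₀) (P : A[X]) : Prop := ∀ k, w (P.coeff k) ≤ c

section

variable {w : Valuation A Γ₀} {c c' : Γ₀} {P Q : A[X]}

theorem PB.mono (h : PB w c P) (hc : c ≤ c') : PB w c' P := fun k => (h k).trans hc

theorem PB.add (hP : PB w c P) (hQ : PB w c Q) : PB w c (P + Q) := by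
  intro k
  rw [coeff_add]
  exact w.map_add_le (hP k) (hQ k)

theorem PB.neg (hP : PB w c P) : PB w c (-P) := by
  intro k
  rw [coeff_neg, Valuation.map_neg]
  exact hP k

theorem PB.mul (hP : PB w c P) (hQ : PB w c' Q) : PB w (c * c') (P * Q) := by
  intro k
  rw [coeff_mul]
  apply w.map_sum_le
  intro x _
  rw [map_mul]
  exact mul_le_mul' (hP _) (hQ _)

theorem pb_one : PB w 1 (1 : A[X]) := by
  intro k
  rw [coeff_one]
  split_ifs
  · rw [map_one]
  · rw [map_zero]
    exact zero_le_one

theorem PB.pow (hP : PB w c P) (n : ℕ) : PB w (c ^ n) (P ^ n) := by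
  induction n with
  | zero => rw [pow_zero, pow_zero]; exact pb_one
  | succ n ih => rw [pow_succ, pow_succ]; exact ih.mul hP

theorem pb_C (a : A) : PB w (w a) (C a) := by
  intro k
  rw [coeff_C]
  split_ifs
  · exact le_rfl
  · rw [map_zero]
    exact zero_le

theorem pb_X_pow (n : ℕ) : PB w 1 (X ^ n : A[X]) := by
  intro k
  rw [coeff_X_pow]
  split_ifs
  · rw [map_one]
  · rw [map_zero]
    exact zero_le_one

theorem pb_zero : PB w c (0 : A[X]) := by
  intro k
  rw [coeff_zero, map_zero]
  exact zero_le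

theorem pb_sum {ι : Type*} (s : Finset ι) (P : ι → A[X]) (h : ∀ i ∈ s, PB w c (P i)) :
    PB w c (∑ i ∈ s, P i) := by
  classical
  induction s using Finset.induction_on with
  | empty => rw [Finset.sum_empty]; exact pb_zero
  | insert a s ha ih =>
    rw [Finset.sum_insert ha]
    exact (h a (Finset.mem_insert_self a s)).add
      (ih fun i hi => h i (Finset.mem_insert_of_mem hi))

theorem pb_prod_roots (hc : 1 ≤ c) (S : Multiset A) (hS : ∀ y ∈ S, w y ≤ c) :
    PB w (c ^ Multiset.card S) (S.map fun y => X - C y).prod := by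
  induction S using Multiset.induction_on with
  | empty => simpa using pb_one
  | cons a S ih =>
    rw [Multiset.map_cons, Multiset.prod_cons, mul_comm (X - C a), Multiset.card_cons, pow_succ]
    refine (ih fun y hy => hS y (Multiset.mem_cons_of_mem hy)).mul ?_
    intro k
    rw [coeff_sub, coeff_X, coeff_C]
    apply w.map_sub_le
    · split_ifs
      · rw [map_one]; exact hc
      · rw [map_zero]; exact zero_le
    · split_ifs
      · exact hS a (Multiset.mem_cons_self a S)
      · rw [map_zero]; exact zero_le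

theorem pow_le_pow_c (hc : 1 ≤ c) {a b : ℕ} (h : a ≤ b) : c ^ a ≤ c ^ b :=
  pow_le_pow_right₀ hc h

/-- evaluation of a bounded polynomial at a bounded point -/
theorem eval_bound {n : ℕ} (hc : 1 ≤ c) (hP : PB w c P) (hPn : P.natDegree ≤ n) {y : A}
    (hy : w y ≤ c) : w (P.eval y) ≤ c ^ (n + 1) := by
  rw [eval_eq_sum_range]
  apply w.map_sum_le
  intro i hi
  rw [Finset.mem_range] at hi
  rw [map_mul, map_pow, pow_succ']
  calc w (P.coeff i) * w y ^ i ≤ c * c ^ i := mul_le_mul' (hP i) (pow_le_pow_left' hy i)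
    _ ≤ c * c ^ n := mul_le_mul_right (pow_le_pow_c hc (by omega)) c

/-- evaluation of a monic bounded polynomial at a large point -/
theorem eval_large {d : ℕ} (hc : 1 ≤ c) (hP : PB w c P) (hPm : P.Monic) (hPd : P.natDegree = d)
    {y : A} (hy : c < w y) : w (P.eval y) = w y ^ d := by
  have hy1 : 1 < w y := lt_of_le_of_lt hc hy
  have hy0 : 0 < w y := lt_trans zero_lt_one hy1
  rw [eval_eq_sum_range, Finset.sum_range_succ, hPm.coeff_natDegree, one_mul, hPd]
  rcases Nat.eq_zero_or_pos d with h0 | hd
  · subst h0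
    rw [Finset.range_zero, Finset.sum_empty, zero_add, pow_zero, map_one, pow_zero]
  have h1 : w (∑ i ∈ Finset.range d, P.coeff i * y ^ i) < w (y ^ d) := by
    apply w.map_sum_lt
    · rw [map_pow]
      exact (pow_pos hy0 d).ne'
    · intro i hi
      rw [Finset.mem_range] at hi
      rw [map_mul, map_pow, map_pow]
      calc w (P.coeff i) * w y ^ i ≤ c * w y ^ i := mul_le_mul_left (hP i) _
        _ < w y * w y ^ i := mul_lt_mul_of_pos_right hy (pow_pos hy0 i)
        _ = w y ^ (i + 1) := (pow_succ' _ _).symm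
        _ ≤ w y ^ d := pow_le_pow_right₀ hy1.le hi
  rw [Valuation.map_add_eq_of_lt_right w h1, map_pow]

end

end H651
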