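import Pool.Agent.H651_Ample.Residue

/-!
# Overrings of valuation rings
-/

set_option autoImplicit false
set_option linter.style.haveILetI false

namespace H651

open Polynomial

attribute [-instance] HahnSeries.instSMul
attribute [-instance] HahnSeries.instModule

universe u v

section Overrings

variable {A : Type*} [Field A]

theorem overring_total {V V₁ V₂ : ValuationSubring A} (h1 : V ≤ V₁) (h2 : V ≤ V₂) :
    V₁ ≤ V₂ ∨ V₂ ≤ V₁ := by
  by_contra hcon
  push Not at hcon
  obtain ⟨x, hx1, hx2⟩ := SetLike.not_le_iff_exists.1 hcon.1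
  obtain ⟨y, hy1, hy2⟩ := SetLike.not_le_iff_exists.1 hcon.2
  have hx0 : x ≠ 0 := by
    rintro rfl
    exact hx2 V₂.zero_mem
  have hy0 : y ≠ 0 := by
    rintro rfl
    exact hy2 V₁.zero_mem
  rcases V.mem_or_inv_mem (x / y) with h | h
  · apply hx2
    have h3 := V₂.mul_mem _ _ (h2 h) hy1
    rwa [div_mul_cancel₀ _ hy0] at h3
  · apply hy2
    rw [inv_div] at h
    have h3 := V₁.mul_mem _ _ (h1 h) hx1
    rwa [div_mul_cancel₀ _ hx0] at h3

/-- the valuation of a maximal proper valuation ring is archimedean -/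
theorem arch_of_max {V : ValuationSubring A}
    (hmax : ∀ V' : ValuationSubring A, V ≤ V' → V' = V ∨ V' = ⊤) :
    ∀ x c : V.ValueGroup, x < 1 → ∀ ε, 0 < ε → ∃ m : ℕ, x ^ m * c < ε := by
  intro x c hx ε hε
  obtain ⟨a, rfl⟩ := V.valuation_surjective x
  obtain ⟨b, rfl⟩ := V.valuation_surjective c
  obtain ⟨e, rfl⟩ := V.valuation_surjective ε
  have he0 : e ≠ 0 := (Valuation.pos_iff _).1 hε
  by_contra hcon
  push Not at hcon
  have ha0 : a ≠ 0 := by
    rintro rfl
    have := hcon 1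
    rw [map_zero, pow_one, zero_mul] at this
    exact absurd hε (not_lt.2 this)
  have hw1 : 0 < V.valuation a := (Valuation.pos_iff _).2 ha0
  -- the bigger ring
  have hmono : ∀ z : A, ∀ m n : ℕ, m ≤ n → V.valuation (z * a ^ m) ≤ 1 →
      V.valuation (z * a ^ n) ≤ 1 := by
    intro z m n hmn h
    obtain ⟨k, rfl⟩ : ∃ k, n = m + k := ⟨n - m, by omega⟩
    rw [pow_add, ← mul_assoc, map_mul, map_pow]
    exact mul_le_one' h (pow_le_one' hx.le k)
  let R : Subring A :=
    { carrier := {z | ∃ m : ℕ, V.valuation (z * a ^ m) ≤ 1}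
      mul_mem' := by
        rintro y z ⟨m, hm⟩ ⟨n, hn⟩
        refine ⟨m + n, ?_⟩
        have : y * z * a ^ (m + n) = (y * a ^ m) * (z * a ^ n) := by ring
        rw [this, map_mul]
        exact mul_le_one' hm hn
      one_mem' := ⟨0, by rw [pow_zero, mul_one, map_one]⟩
      add_mem' := by
        rintro y z ⟨m, hm⟩ ⟨n, hn⟩
        refine ⟨max m n, ?_⟩
        rw [add_mul]
        exact (V.valuation.map_add _ _).trans
          (max_le (hmono y m _ (le_max_left _ _) hm) (hmono z n _ (le_max_right _ _) hn))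
      zero_mem' := ⟨0, by rw [zero_mul, map_zero]; exact zero_le_one⟩
      neg_mem' := by
        rintro y ⟨m, hm⟩
        exact ⟨m, by rw [neg_mul, Valuation.map_neg]; exact hm⟩ }
  have hR : V.toSubring ≤ R := by
    intro z hz
    exact ⟨0, by rw [pow_zero, mul_one]; exact (V.valuation_le_one_iff z).2 hz⟩
  set V' := V.ofLE R hR with hV'
  have hmem : ∀ z, z ∈ V' ↔ ∃ m : ℕ, V.valuation (z * a ^ m) ≤ 1 := fun z => Iff.rfl
  have hle : V ≤ V' := hR
  rcases hmax V' hle with h | h
  · have h1 : a⁻¹ ∈ V' := (hmem _).2 ⟨1, by rw [pow_one, inv_mul_cancel₀ ha0, map_one]⟩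
    rw [h, ← V.valuation_le_one_iff, map_inv₀] at h1
    exact absurd h1 (not_le.2 ((one_lt_inv₀ hw1).2 hx))
  · have h1 : b / (e * a) ∈ V' := by
      rw [h]
      exact ValuationSubring.mem_top _
    obtain ⟨m, hm⟩ := (hmem _).1 h1
    have hwe : 0 < V.valuation e := hε
    have h2 := hcon m
    rw [map_mul, map_div₀, map_mul, map_pow, div_mul_eq_mul_div,
      div_le_one₀ (mul_pos hwe hw1)] at hm
    have h3 : V.valuation e ≤ V.valuation e * V.valuation a := by
      calc V.valuation e ≤ V.valuation a ^ m * V.valuation b := h2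
        _ = V.valuation b * V.valuation a ^ m := mul_comm _ _
        _ ≤ V.valuation e * V.valuation a := hm
    have h4 : V.valuation e * V.valuation a < V.valuation e * 1 :=
      mul_lt_mul_of_pos_left hx hwe
    rw [mul_one] at h4
    exact absurd h3 (not_le.2 h4)

/-- without a maximal proper overring, finitely many elements lie in a proper overring -/
theorem exists_overring {V : ValuationSubring A} (hV : V ≠ ⊤)
    (hno : ¬ ∃ V₁ : ValuationSubring A, V ≤ V₁ ∧ V₁ ≠ ⊤ ∧
      ∀ V' : ValuationSubring A, V₁ ≤ V' → V' = V₁ ∨ V' = ⊤) (F : Finset A) :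
    ∃ V' : ValuationSubring A, V ≤ V' ∧ V' ≠ ⊤ ∧ ∀ x ∈ F, x ∈ V' := by
  classical
  have key : ∀ x : A, ∃ V' : ValuationSubring A, V ≤ V' ∧ V' ≠ ⊤ ∧ x ∈ V' := by
    by_contra hcon
    push Not at hcon
    obtain ⟨x, hx⟩ := hcon
    have htot : ∀ V₁ V₂ : ValuationSubring A, V ≤ V₁ → V ≤ V₂ → V₁ ≠ ⊤ → V₂ ≠ ⊤ →
        ∃ V₃ : ValuationSubring A, V ≤ V₃ ∧ V₃ ≠ ⊤ ∧ V₁ ≤ V₃ ∧ V₂ ≤ V₃ := by
      intro V₁ V₂ h1 h2 h1' h2'
      rcases overring_total h1 h2 with h | h
      · exact ⟨V₂, h2, h2', h, le_rfl⟩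
      · exact ⟨V₁, h1, h1', le_rfl, h⟩
    let R : Subring A :=
      { carrier := {z | ∃ V' : ValuationSubring A, V ≤ V' ∧ V' ≠ ⊤ ∧ z ∈ V'}
        mul_mem' := by
          rintro y z ⟨V₁, h1, h1', hy⟩ ⟨V₂, h2, h2', hz⟩
          obtain ⟨V₃, h3, h3', h4, h5⟩ := htot V₁ V₂ h1 h2 h1' h2'
          exact ⟨V₃, h3, h3', V₃.mul_mem _ _ (h4 hy) (h5 hz)⟩
        one_mem' := ⟨V, le_rfl, hV, V.one_mem⟩
        add_mem' := by
          rintro y z ⟨V₁, h1, h1', hy⟩ ⟨V₂, h2, h2', hz⟩
          obtain ⟨V₃, h3, h3', h4, h5⟩ := htot V₁ V₂ h1 h2 h1' h2'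
          exact ⟨V₃, h3, h3', V₃.add_mem _ _ (h4 hy) (h5 hz)⟩
        zero_mem' := ⟨V, le_rfl, hV, V.zero_mem⟩
        neg_mem' := by
          rintro y ⟨V₁, h1, h1', hy⟩
          exact ⟨V₁, h1, h1', V₁.neg_mem _ hy⟩ }
    have hR : V.toSubring ≤ R := fun z hz => ⟨V, le_rfl, hV, hz⟩
    set U := V.ofLE R hR with hU
    have hmem : ∀ z, z ∈ U ↔ ∃ V' : ValuationSubring A, V ≤ V' ∧ V' ≠ ⊤ ∧ z ∈ V' :=
      fun z => Iff.rfl
    apply hno
    refine ⟨U, hR, ?_, ?_⟩
    · intro h
      have h1 : x ∈ U := by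
        rw [h]
        exact ValuationSubring.mem_top _
      obtain ⟨V', h2, h3, h4⟩ := (hmem _).1 h1
      exact hx V' h2 h3 h4
    · intro V' hV'
      by_cases htop : V' = ⊤
      · exact Or.inr htop
      · left
        apply le_antisymm _ hV'
        intro z hz
        exact (hmem z).2 ⟨V', le_trans hR hV', htop, hz⟩
  induction F using Finset.induction_on with
  | empty => exact ⟨V, le_rfl, hV, by simp⟩
  | insert a F _ ih =>
    obtain ⟨V₁, h1, h1', h1''⟩ := ih
    obtain ⟨V₂, h2, h2', h2''⟩ := key a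
    rcases overring_total h1 h2 with h | h
    · refine ⟨V₂, h2, h2', fun z hz => ?_⟩
      rcases Finset.mem_insert.1 hz with rfl | hz
      · exact h2''
      · exact h (h1'' z hz)
    · refine ⟨V₁, h1, h1', fun z hz => ?_⟩
      rcases Finset.mem_insert.1 hz with rfl | hz
      · exact h h2''
      · exact h1'' z hz

end Overrings

section Dec

variable {K A : Type u} [Field K] [Field A] [Algebra K A]

/-- automorphisms of algebraic extensions have finite orbits -/
theorem exists_pow_fix [IsAlgClosed A] [Algebra.IsAlgebraic K A] (σ : A ≃ₐ[K] A) (x : A) :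
    ∃ m : ℕ, (σ ^ (m + 1)) x = x := by
  classical
  have hint : IsIntegral K x := Algebra.IsIntegral.isIntegral x
  have hroot : ∀ j : ℕ, (σ ^ j) x ∈ (minpoly K x).rootSet A := by
    intro j
    rw [mem_rootSet]
    refine ⟨minpoly.ne_zero hint, ?_⟩
    have h1 := aeval_algHom_apply ((σ ^ j : A ≃ₐ[K] A) : A →ₐ[K] A) x (minpoly K x)
    rw [minpoly.aeval, map_zero] at h1
    exact h1
  have hfin : ((minpoly K x).rootSet A).Finite := Set.toFinite _
  obtain ⟨i, _, j, _, hij, heq⟩ := Set.infinite_univ.exists_ne_map_eq_of_mapsTo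
    (f := fun j : ℕ => (σ ^ j) x) (fun j _ => hroot j) hfin
  wlog hlt : i < j generalizing i j
  · exact this j (Set.mem_univ j) i (Set.mem_univ i) (Ne.symm hij) heq.symm (by omega)
  refine ⟨j - i - 1, ?_⟩
  have h1 : j - i - 1 + 1 = j - i := by omega
  rw [h1]
  have h2 : (σ ^ i) ((σ ^ (j - i)) x) = (σ ^ i) x := by
    rw [← AlgEquiv.mul_apply, ← pow_add, Nat.add_sub_cancel' hlt.le]
    exact heq.symm
  exact (σ ^ i).injective h2

/-- decomposition groups grow with the valuation ring -/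
theorem decG_mono [IsAlgClosed A] [Algebra.IsAlgebraic K A] {V V₁ : ValuationSubring A}
    (h : V ≤ V₁) : decG K V.valuation ≤ decG K V₁.valuation := by
  intro σ hσ
  rw [mem_decG] at hσ ⊢
  simp only [ValuationSubring.valuation_le_one_iff] at hσ ⊢
  set V₂ := V₁.comap (σ : A →+* A) with hV₂
  have hmem : ∀ x, x ∈ V₂ ↔ σ x ∈ V₁ := fun x => Iff.rfl
  have hle : V ≤ V₂ := fun x hx => (hmem x).2 (h ((hσ x).2 hx))
  rcases overring_total h hle with h1 | h1
  · -- `V₁` is mapped into itself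
    have hstep : ∀ x, x ∈ V₁ → σ x ∈ V₁ := fun x hx => (hmem x).1 (h1 hx)
    have hpow : ∀ (j : ℕ) (x : A), x ∈ V₁ → (σ ^ j) x ∈ V₁ := by
      intro j
      induction j with
      | zero => intro x hx; rwa [pow_zero, AlgEquiv.one_apply]
      | succ j ih =>
        intro x hx
        rw [pow_succ', AlgEquiv.mul_apply]
        exact hstep _ (ih x hx)
    intro x
    refine ⟨fun hx => ?_, hstep x⟩
    obtain ⟨m, hm⟩ := exists_pow_fix σ x
    rw [← hm, pow_succ, AlgEquiv.mul_apply]
    exact hpow m _ hx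
  · have hstep : ∀ x, σ x ∈ V₁ → x ∈ V₁ := fun x hx => h1 ((hmem x).2 hx)
    have hpow : ∀ (j : ℕ) (x : A), (σ ^ j) x ∈ V₁ → x ∈ V₁ := by
      intro j
      induction j with
      | zero => intro x hx; rwa [pow_zero, AlgEquiv.one_apply] at hx
      | succ j ih =>
        intro x hx
        rw [pow_succ', AlgEquiv.mul_apply] at hx
        exact ih x (hstep _ hx)
    intro x
    refine ⟨hstep x, fun hx => ?_⟩
    obtain ⟨m, hm⟩ := exists_pow_fix σ x
    apply hpow m
    rw [← AlgEquiv.mul_apply, ← pow_succ, hm]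
    exact hx

/-- a nontrivial valuation ring of an algebraic extension is nontrivial on the base -/
theorem exists_small [Algebra.IsAlgebraic K A] {V : ValuationSubring A} (hV : V ≠ ⊤) :
    ∃ π : K, π ≠ 0 ∧ V.valuation (algebraMap K A π) < 1 := by
  obtain ⟨a, ha⟩ : ∃ a : A, a ∉ V := by
    by_contra hcon
    push Not at hcon
    apply hV
    exact ValuationSubring.ext _ _ fun x => ⟨fun _ => ValuationSubring.mem_top x, fun _ => hcon x⟩
  rw [← V.valuation_le_one_iff, not_le] at ha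
  have hint : IsIntegral K a := Algebra.IsIntegral.isIntegral a
  obtain ⟨k, hk⟩ : ∃ k, 1 < V.valuation (algebraMap K A ((minpoly K a).coeff k)) := by
    by_contra hcon
    push Not at hcon
    have h1 : PB V.valuation 1 ((minpoly K a).map (algebraMap K A)) := by
      intro k
      rw [coeff_map]
      exact hcon k
    have h2 := eval_large le_rfl h1 ((minpoly.monic hint).map _) rfl ha
    rw [eval_map_algebraMap, minpoly.aeval, map_zero] at h2
    exact (pow_pos (lt_trans zero_lt_one ha) _).ne h2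
  refine ⟨((minpoly K a).coeff k)⁻¹, ?_, ?_⟩
  · apply inv_ne_zero
    intro h
    rw [h, map_zero, map_zero] at hk
    exact absurd hk (not_lt.2 zero_le_one)
  · rw [map_inv₀, map_inv₀]
    exact inv_lt_one_of_one_lt₀ hk

end Dec

end H651
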