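import Pool.Agent.H651_Ample.Loc

/-!
# The roots of the perturbed polynomial
-/

set_option autoImplicit false
set_option linter.style.haveILetI false

namespace H651

open Polynomial

/-- the perturbed polynomial -/
noncomputable def pert {A : Type*} [Field A] (G : A[X]) (d s : ℕ) (r : ℕ → ℕ → A) (c₀ ε : A) :
    A[X] :=
  C c₀ * (-G) ^ s + C (ε ^ s) * X ^ (d * s + 1) +
    ∑ j ∈ Finset.range (s + 1), ∑ i ∈ Finset.range s,
      C (r j i) * (-G) ^ i * (C ε * X ^ (d - 1)) ^ (s - i) * X ^ j

/-- the remaining terms -/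
noncomputable def prest {A : Type*} [Field A] (G : A[X]) (d s : ℕ) (r : ℕ → ℕ → A) (ε : A) :
    A[X] :=
  ∑ j ∈ Finset.range (s + 1), ∑ i ∈ Finset.range s,
      C (r j i) * (-G) ^ i * (C ε * X ^ (d - 1)) ^ (s - i) * X ^ j

theorem pert_eq {A : Type*} [Field A] (G : A[X]) (d s : ℕ) (r : ℕ → ℕ → A) (c₀ ε : A) :
    pert G d s r c₀ ε =
      C c₀ * (-G) ^ s + C (ε ^ s) * X ^ (d * s + 1) + prest G d s r ε := rfl

variable {A : Type*} [Field A] {Γ₀ : Type*} [LinearOrderedCommGroupWithZero Γ₀]

theorem eval_bound' {w : Valuation A Γ₀} {b c : Γ₀} {P : A[X]} {n : ℕ} (hc : 1 ≤ c)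
    (hP : PB w b P) (hPn : P.natDegree ≤ n) {y : A}
    (hy : w y ≤ c) : w (P.eval y) ≤ b * c ^ n := by
  rw [eval_eq_sum_range]
  apply w.map_sum_le
  intro i hi
  rw [Finset.mem_range] at hi
  rw [map_mul, map_pow]
  exact mul_le_mul' (hP i) ((pow_le_pow_left' hy i).trans (pow_le_pow_c hc (by omega)))

section

variable (w : Valuation A Γ₀) {G : A[X]} {d s : ℕ} {r : ℕ → ℕ → A} {c₀ ε : A} {c : Γ₀}

theorem prest_term_natDegree (hGd : G.natDegree = d) (hd : 1 ≤ d)
    (hr0 : ∀ j i, s < i + j → r j i = 0) (j i : ℕ) (hi : i < s) :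
    (C (r j i) * (-G) ^ i * (C ε * X ^ (d - 1)) ^ (s - i) * X ^ j).natDegree ≤ d * s := by
  by_cases h : s < i + j
  · rw [hr0 j i h, C_0]
    simp
  · push Not at h
    have h1 : (C (r j i) * (-G) ^ i * (C ε * X ^ (d - 1)) ^ (s - i) * X ^ j).natDegree ≤
        0 + d * i + (d - 1) * (s - i) + j := by
      refine (natDegree_mul_le).trans (add_le_add ?_ (natDegree_X_pow_le j))
      refine (natDegree_mul_le).trans (add_le_add ?_ ?_)
      · refine (natDegree_mul_le).trans (add_le_add (natDegree_C _).le ?_)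
        refine (natDegree_pow_le).trans ?_
        rw [natDegree_neg, hGd, mul_comm]
      · refine (natDegree_pow_le).trans ?_
        rw [mul_comm]
        apply Nat.mul_le_mul_right
        refine (natDegree_mul_le).trans ?_
        rw [natDegree_C, zero_add]
        exact natDegree_X_pow_le _
    refine h1.trans ?_
    obtain ⟨k, rfl⟩ : ∃ k, s = i + k := ⟨s - i, by omega⟩
    obtain ⟨m, rfl⟩ : ∃ m, d = m + 1 := ⟨d - 1, by omega⟩
    rw [Nat.add_sub_cancel_left, Nat.add_sub_cancel]
    have h2 : (m + 1) * (i + k) = (m + 1) * i + m * k + k := by ring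
    omega

theorem prest_natDegree (hGd : G.natDegree = d) (hd : 1 ≤ d)
    (hr0 : ∀ j i, s < i + j → r j i = 0) : (prest G d s r ε).natDegree ≤ d * s := by
  unfold prest
  apply natDegree_sum_le_of_forall_le
  intro j _
  apply natDegree_sum_le_of_forall_le
  intro i hi
  rw [Finset.mem_range] at hi
  exact prest_term_natDegree hGd hd hr0 j i hi

variable (hc : 1 ≤ c) (hG : PB w c G) (hr : ∀ j i, w (r j i) ≤ c) (he1 : w ε ≤ 1)

include hc hG hr he1

theorem prest_pb : PB w (w ε * c ^ s) (prest G d s r ε) := by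
  unfold prest
  apply pb_sum
  intro j _
  apply pb_sum
  intro i hi
  rw [Finset.mem_range] at hi
  have h1 : PB w (c * c ^ i * (w ε * 1) ^ (s - i) * 1)
      (C (r j i) * (-G) ^ i * (C ε * X ^ (d - 1)) ^ (s - i) * X ^ j) :=
    ((((pb_C _).mono (hr j i)).mul (hG.neg.pow i)).mul
      (((pb_C ε).mul (pb_X_pow (d - 1))).pow (s - i))).mul (pb_X_pow j)
  refine h1.mono ?_
  rw [mul_one, mul_one, mul_comm (w ε), ← pow_succ']
  refine mul_le_mul' (pow_le_pow_c hc hi) ?_
  calc w ε ^ (s - i) ≤ w ε ^ 1 := pow_le_pow_right_of_le_one' he1 (by omega)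
    _ = w ε := pow_one _

theorem prest_eval_large (hGm : G.Monic) (hGd : G.natDegree = d) (hd : 1 ≤ d)
    (hr0 : ∀ j i, s < i + j → r j i = 0) {y : A} (hy : c < w y) :
    w ((prest G d s r ε).eval y) ≤ c * w ε * w y ^ (d * s) := by
  have hy1 : 1 ≤ w y := (lt_of_le_of_lt hc hy).le
  unfold prest
  rw [eval_finsetSum]
  apply w.map_sum_le
  intro j _
  rw [eval_finsetSum]
  apply w.map_sum_le
  intro i hi
  rw [Finset.mem_range] at hi
  by_cases h : s < i + j
  · rw [hr0 j i h, C_0, zero_mul, zero_mul, zero_mul, eval_zero, map_zero]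
    exact zero_le
  · push Not at h
    rw [eval_mul, eval_mul, eval_mul, eval_C, eval_pow, eval_neg, eval_pow, eval_mul, eval_C,
      eval_pow, eval_X, eval_pow, eval_X, map_mul, map_mul, map_mul, map_pow, map_pow, map_mul,
      map_pow, map_pow, Valuation.map_neg, eval_large hc hG hGm hGd hy]
    have h3 : w ε ^ (s - i) ≤ w ε := by
      calc w ε ^ (s - i) ≤ w ε ^ 1 := pow_le_pow_right_of_le_one' he1 (by omega)
        _ = w ε := pow_one _
    have h4 : (w y ^ d) ^ i * (w y ^ (d - 1)) ^ (s - i) * w y ^ j ≤ w y ^ (d * s) := by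
      rw [← pow_mul, ← pow_mul, ← pow_add, ← pow_add]
      apply pow_le_pow_right₀ hy1
      obtain ⟨k, rfl⟩ : ∃ k, s = i + k := ⟨s - i, by omega⟩
      obtain ⟨m, rfl⟩ : ∃ m, d = m + 1 := ⟨d - 1, by omega⟩
      rw [Nat.add_sub_cancel_left, Nat.add_sub_cancel]
      have h2 : (m + 1) * (i + k) = (m + 1) * i + m * k + k := by ring
      omega
    calc w (r j i) * (w y ^ d) ^ i * (w ε * w y ^ (d - 1)) ^ (s - i) * w y ^ j
        = w (r j i) * w ε ^ (s - i) * ((w y ^ d) ^ i * (w y ^ (d - 1)) ^ (s - i) * w y ^ j) := by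
          have e1 : ∀ a b c' d' j' : Γ₀, a * b * (c' * d') * j' = a * c' * (b * d' * j') := by
            intro a b c' d' j'
            ac_rfl
          rw [mul_pow]
          exact e1 _ _ _ _ _
      _ ≤ c * w ε * w y ^ (d * s) := mul_le_mul' (mul_le_mul' (hr j i) h3) h4

theorem pert_pb (hc₀ : w c₀ ≤ c) : PB w (c ^ (s + 1)) (pert G d s r c₀ ε) := by
  rw [pert_eq]
  refine (PB.add ?_ ?_).add ?_
  · rw [pow_succ']
    exact ((pb_C c₀).mono hc₀).mul (hG.neg.pow s)
  · refine ((pb_C (ε ^ s)).mul (pb_X_pow _)).mono ?_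
    rw [mul_one, map_pow]
    calc w ε ^ s ≤ 1 := pow_le_one' he1 s
      _ ≤ c ^ (s + 1) := one_le_pow₀ hc
  · refine (prest_pb w hc hG hr he1).mono ?_
    calc w ε * c ^ s ≤ 1 * c ^ s := mul_le_mul_left he1 _
      _ = c ^ s := one_mul _
      _ ≤ c ^ (s + 1) := pow_le_pow_c hc (by omega)

end

section

variable {G : A[X]} {d s : ℕ} {r : ℕ → ℕ → A} {c₀ ε : A}

theorem pert_coeff_top (hGd : G.natDegree = d) (hd : 1 ≤ d)
    (hr0 : ∀ j i, s < i + j → r j i = 0) : (pert G d s r c₀ ε).coeff (d * s + 1) = ε ^ s := by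
  rw [pert_eq, coeff_add, coeff_add, coeff_C_mul, coeff_C_mul, coeff_X_pow, if_pos rfl, mul_one]
  have h1 : ((-G) ^ s).natDegree ≤ d * s := by
    refine (natDegree_pow_le).trans ?_
    rw [natDegree_neg, hGd, mul_comm]
  rw [coeff_eq_zero_of_natDegree_lt (show ((-G) ^ s).natDegree < d * s + 1 by omega),
    coeff_eq_zero_of_natDegree_lt (show (prest G d s r ε).natDegree < d * s + 1 from
      Nat.lt_succ_of_le (prest_natDegree hGd hd hr0)), mul_zero, zero_add, add_zero]

theorem pert_natDegree_le (hGd : G.natDegree = d) (hd : 1 ≤ d)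
    (hr0 : ∀ j i, s < i + j → r j i = 0) : (pert G d s r c₀ ε).natDegree ≤ d * s + 1 := by
  rw [pert_eq]
  refine (natDegree_add_le _ _).trans (max_le ((natDegree_add_le _ _).trans (max_le ?_ ?_)) ?_)
  · refine (natDegree_C_mul_le _ _).trans ((natDegree_pow_le).trans ?_)
    rw [natDegree_neg, hGd, mul_comm]
    omega
  · exact (natDegree_C_mul_le _ _).trans (natDegree_X_pow_le _)
  · exact (prest_natDegree hGd hd hr0).trans (Nat.le_succ _)

theorem pert_natDegree (hGd : G.natDegree = d) (hd : 1 ≤ d)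
    (hr0 : ∀ j i, s < i + j → r j i = 0) (hε : ε ≠ 0) :
    (pert G d s r c₀ ε).natDegree = d * s + 1 := by
  apply le_antisymm (pert_natDegree_le hGd hd hr0)
  apply le_natDegree_of_ne_zero
  rw [pert_coeff_top hGd hd hr0]
  exact pow_ne_zero _ hε

end

/-- **Location of the roots of the perturbed polynomial.** -/
theorem pert_roots [IsAlgClosed A] (w : Valuation A Γ₀) {G : A[X]} {d s : ℕ} {r : ℕ → ℕ → A}
    {c₀ ε : A} {c : Γ₀} (hc : 1 ≤ c) (hGm : G.Monic) (hGd : G.natDegree = d) (hd : 1 ≤ d)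
    (hs : 1 ≤ s) (hG : PB w c G) (hr : ∀ j i, w (r j i) ≤ c)
    (hr0 : ∀ j i, s < i + j → r j i = 0) (hc₀ : w c₀ ≤ c) (hc₀' : 1 ≤ c * w c₀) (hε : ε ≠ 0)
    (he : w ε * c ^ (d * s + s + 5) < 1) :
    ∃ y₁ : A, (pert G d s r c₀ ε).eval y₁ = 0 ∧ (derivative (pert G d s r c₀ ε)).eval y₁ ≠ 0 ∧
      c < w y₁ ∧ w y₁ * w ε ^ s = w c₀ ∧
      ∀ y, (pert G d s r c₀ ε).eval y = 0 → y ≠ y₁ →
        w y ≤ c ∧ w (G.eval y) ^ s ≤ w ε * c ^ (d * s + s + 2) := by
  classical
  set e := w ε with hedef
  have hc0 : 0 < c := lt_of_lt_of_le zero_lt_one hc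
  have he0 : 0 < e := by rw [hedef]; exact (Valuation.pos_iff w).2 hε
  have hesmall : ∀ k, k ≤ d * s + s + 5 → e * c ^ k < 1 := fun k hk =>
    lt_of_le_of_lt (mul_le_mul_right (pow_le_pow_c hc hk) e) he
  have he1 : e ≤ 1 := by
    have := hesmall 0 (by omega)
    rw [pow_zero, mul_one] at this
    exact this.le
  have hes : e ^ s ≤ e := by
    calc e ^ s ≤ e ^ 1 := pow_le_pow_right_of_le_one' he1 hs
      _ = e := pow_one _
  set f := pert G d s r c₀ ε with hf
  have hfd : f.natDegree = d * s + 1 := pert_natDegree hGd hd hr0 hε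
  have hftop : f.coeff (d * s + 1) = ε ^ s := pert_coeff_top hGd hd hr0
  have hf0 : f ≠ 0 := by
    rintro h
    rw [h, natDegree_zero] at hfd
    omega
  have hfpb : PB w (c ^ (s + 1)) f := pert_pb w hc hG hr he1 hc₀
  have hfev : ∀ y, f.eval y = c₀ * (-(G.eval y)) ^ s + ε ^ s * y ^ (d * s + 1) +
      (prest G d s r ε).eval y := by
    intro y
    rw [hf, pert_eq, eval_add, eval_add, eval_mul, eval_mul, eval_C, eval_C, eval_pow, eval_neg,
      eval_pow, eval_X]
  -- the coefficient of degree `d s`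
  have hcoef : w (f.coeff (d * s)) = w c₀ := by
    have h1 : f.coeff (d * s) = c₀ * (-1) ^ s + (prest G d s r ε).coeff (d * s) := by
      rw [hf, pert_eq, coeff_add, coeff_add, coeff_C_mul, coeff_C_mul, coeff_X_pow,
        if_neg (by omega), mul_zero, add_zero]
      congr 2
      have h2 : (-G) ^ s = C ((-1) ^ s) * G ^ s := by
        rw [C_pow, C_neg, C_1, ← mul_pow]
        ring
      have h3 : (G ^ s).natDegree = d * s := by rw [hGm.natDegree_pow, hGd, mul_comm]
      rw [h2, coeff_C_mul, ← h3, (hGm.pow s).coeff_natDegree, mul_one]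
    have h2 : w ((prest G d s r ε).coeff (d * s)) < w (c₀ * (-1) ^ s) := by
      rw [map_mul, map_pow, Valuation.map_neg, map_one, one_pow, mul_one]
      have h3 := prest_pb (d := d) (s := s) w hc hG hr he1 (d * s)
      have h4 : e * c ^ s * c < 1 := by
        rw [mul_assoc, ← pow_succ]
        exact hesmall _ (by omega)
      by_contra hcon
      push Not at hcon
      have h5 : 1 ≤ e * c ^ s * c := by
        calc 1 ≤ c * w c₀ := hc₀'
          _ ≤ c * (e * c ^ s) := mul_le_mul_right (hcon.trans h3) c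
          _ = e * c ^ s * c := mul_comm _ _
      exact absurd h5 (not_le.2 h4)
    rw [h1, Valuation.map_add_eq_of_lt_left w h2, map_mul, map_pow, Valuation.map_neg, map_one,
      one_pow, mul_one]
  -- large roots
  have hlarge : ∀ y, f.eval y = 0 → c < w y → w y * e ^ s = w c₀ := by
    intro y hy hcy
    have hy0 : 0 < w y := lt_trans hc0 hcy
    rw [hfev] at hy
    have hwa : w (c₀ * (-(G.eval y)) ^ s) = w c₀ * w y ^ (d * s) := by
      rw [map_mul, map_pow, Valuation.map_neg, eval_large hc hG hGm hGd hcy, ← pow_mul]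
    have h1 : w ((prest G d s r ε).eval y) < w (c₀ * (-(G.eval y)) ^ s) := by
      rw [hwa]
      refine lt_of_le_of_lt (prest_eval_large w hc hG hr he1 hGm hGd hd hr0 hcy) ?_
      apply mul_lt_mul_of_pos_right _ (pow_pos hy0 _)
      by_contra hcon
      push Not at hcon
      have h5 : 1 ≤ e * c ^ 2 := by
        calc 1 ≤ c * w c₀ := hc₀'
          _ ≤ c * (c * e) := mul_le_mul_right hcon c
          _ = e * c ^ 2 := by rw [pow_two]; ac_rfl
      exact absurd h5 (not_le.2 (hesmall 2 (by omega)))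
    have h2 : ε ^ s * y ^ (d * s + 1) =
        -(c₀ * (-(G.eval y)) ^ s + (prest G d s r ε).eval y) := by
      linear_combination hy
    have h3 : w (ε ^ s * y ^ (d * s + 1)) = w c₀ * w y ^ (d * s) := by
      rw [h2, Valuation.map_neg, Valuation.map_add_eq_of_lt_left w h1, hwa]
    rw [map_mul, map_pow, map_pow, pow_succ] at h3
    have h4 : (w y * e ^ s) * w y ^ (d * s) = w c₀ * w y ^ (d * s) := by
      rw [← h3]
      ac_rfl
    exact mul_right_cancel₀ (pow_pos hy0 _).ne' h4
  -- existence of a large root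
  have hex : ∃ y₁, f.eval y₁ = 0 ∧ c < w y₁ := by
    by_contra hcon
    push Not at hcon
    have hspl : f.Splits := IsAlgClosed.splits f
    have h1 : f = C f.leadingCoeff * (f.roots.map fun a => X - C a).prod :=
      hspl.eq_prod_roots
    have hcard : Multiset.card f.roots = d * s + 1 := by
      rw [← hfd]
      exact hspl.natDegree_eq_card_roots.symm
    have hlc : f.leadingCoeff = ε ^ s := by rw [leadingCoeff, hfd, hftop]
    have h2 := pb_prod_roots (w := w) hc f.roots (fun y hy => hcon y (isRoot_of_mem_roots hy))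
      (d * s)
    rw [hcard] at h2
    have h3 : w (f.coeff (d * s)) ≤ e ^ s * c ^ (d * s + 1) := by
      rw [h1, coeff_C_mul, map_mul, hlc, map_pow]
      exact mul_le_mul_right h2 _
    rw [hcoef] at h3
    have h4 : (1 : Γ₀) ≤ e * c ^ (d * s + 2) := by
      calc 1 ≤ c * w c₀ := hc₀'
        _ ≤ c * (e ^ s * c ^ (d * s + 1)) := mul_le_mul_right h3 c
        _ ≤ c * (e * c ^ (d * s + 1)) := mul_le_mul_right (mul_le_mul_left hes _) c
        _ = e * c ^ (d * s + 2) := by
            rw [show d * s + 2 = (d * s + 1) + 1 from rfl, pow_succ c (d * s + 1)]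
            ac_rfl
    exact absurd h4 (not_le.2 (hesmall _ (by omega)))
  obtain ⟨y₁, hy₁, hcy₁⟩ := hex
  have hH := hlarge y₁ hy₁ hcy₁
  set H := w y₁ with hHdef
  have hH0 : 0 < H := lt_trans hc0 hcy₁
  have hH1 : 1 ≤ H := (lt_of_le_of_lt hc hcy₁).le
  have hy₁0 : y₁ ≠ 0 := fun h => by
    rw [hHdef, h, map_zero] at hH0
    exact lt_irrefl _ hH0
  -- the cofactor
  obtain ⟨g, hg⟩ := dvd_iff_isRoot.2 (show f.IsRoot y₁ from hy₁)
  have hg0 : g ≠ 0 := by
    rintro rfl
    rw [mul_zero] at hg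
    exact hf0 hg
  have hgd : g.natDegree = d * s := by
    have h1 : f.natDegree = 1 + g.natDegree := by
      conv_lhs => rw [hg]
      rw [natDegree_mul (X_sub_C_ne_zero y₁) hg0, natDegree_X_sub_C]
    omega
  have hgtop : g.coeff (d * s) = ε ^ s := by
    have h1 : f.leadingCoeff = g.leadingCoeff := by
      rw [hg, leadingCoeff_mul, leadingCoeff_X_sub_C, one_mul]
    rw [leadingCoeff, leadingCoeff, hfd, hftop, hgd] at h1
    exact h1.symm
  have hgk : ∀ k, w (g.coeff k) * H ≤ c ^ (s + 1) := by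
    intro k
    induction k with
    | zero =>
      have h1 : f.coeff 0 = -(y₁ * g.coeff 0) := by
        rw [hg, sub_mul, coeff_sub, coeff_X_mul_zero, coeff_C_mul, zero_sub]
      have h2 := hfpb 0
      rw [h1, Valuation.map_neg, map_mul, mul_comm] at h2
      exact h2
    | succ k ih =>
      have h1 : y₁ * g.coeff (k + 1) = g.coeff k - f.coeff (k + 1) := by
        rw [hg, sub_mul, coeff_sub, coeff_X_mul, coeff_C_mul]
        ring
      have h2 : w (g.coeff k) ≤ c ^ (s + 1) := by
        calc w (g.coeff k) = w (g.coeff k) * 1 := (mul_one _).symm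
          _ ≤ w (g.coeff k) * H := mul_le_mul_right hH1 _
          _ ≤ c ^ (s + 1) := ih
      have h3 : w (y₁ * g.coeff (k + 1)) ≤ c ^ (s + 1) := by
        rw [h1]
        exact w.map_sub_le h2 (hfpb (k + 1))
      rw [map_mul, mul_comm] at h3
      exact h3
  have hgH : ∀ y, w y = H → g.eval y ≠ 0 := by
    intro y hy hgy
    have hy0 : 0 < w y := by rw [hy]; exact hH0
    rw [eval_eq_sum_range, Finset.sum_range_succ, hgd, hgtop] at hgy
    have h1 : w (∑ i ∈ Finset.range (d * s), g.coeff i * y ^ i) < w (ε ^ s * y ^ (d * s)) := by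
      apply w.map_sum_lt
      · rw [map_mul, map_pow, map_pow]
        exact (mul_pos (pow_pos he0 _) (pow_pos hy0 _)).ne'
      · intro i hi
        rw [Finset.mem_range] at hi
        rw [map_mul, map_pow, map_mul, map_pow, map_pow, hy]
        have h2 : c ^ (s + 1) < e ^ s * H ^ 2 := by
          have h3 : e ^ s * H ^ 2 = w c₀ * H := by
            rw [← hH]
            rw [pow_two]
            ac_rfl
          rw [h3]
          -- `c ^ (s+1) < w c₀ * H`, after multiplying by `e ^ s`
          by_contra hcon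
          push Not at hcon
          have h4 : w c₀ * w c₀ ≤ e ^ s * c ^ (s + 1) := by
            calc w c₀ * w c₀ = (w c₀ * H) * e ^ s := by rw [mul_assoc, hH]
              _ ≤ c ^ (s + 1) * e ^ s := mul_le_mul_left hcon _
              _ = e ^ s * c ^ (s + 1) := mul_comm _ _
          have h5 : (1 : Γ₀) ≤ e * c ^ (s + 3) := by
            calc (1 : Γ₀) = 1 * 1 := (one_mul 1).symm
              _ ≤ (c * w c₀) * (c * w c₀) := mul_le_mul' hc₀' hc₀'
              _ = c ^ 2 * (w c₀ * w c₀) := by rw [pow_two]; ac_rfl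
              _ ≤ c ^ 2 * (e ^ s * c ^ (s + 1)) := mul_le_mul_right h4 _
              _ ≤ c ^ 2 * (e * c ^ (s + 1)) := mul_le_mul_right (mul_le_mul_left hes _) _
              _ = e * c ^ (s + 3) := by
                rw [show s + 3 = (s + 1) + 2 from rfl, pow_add c (s + 1) 2]
                ac_rfl
          exact absurd h5 (not_le.2 (hesmall _ (by
            have : 1 * s ≤ d * s := Nat.mul_le_mul_right s hd
            omega)))
        have h6 : (w (g.coeff i) * H ^ i) * H < (e ^ s * H ^ (d * s)) * H := by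
          obtain ⟨k, hk⟩ : ∃ k, d * s = i + 1 + k := ⟨d * s - i - 1, by omega⟩
          calc (w (g.coeff i) * H ^ i) * H = (w (g.coeff i) * H) * H ^ i := by ac_rfl
            _ ≤ c ^ (s + 1) * H ^ i := mul_le_mul_left (hgk i) _
            _ < (e ^ s * H ^ 2) * H ^ i := mul_lt_mul_of_pos_right h2 (pow_pos hH0 _)
            _ = (e ^ s * H ^ (i + 2)) * 1 := by
              rw [mul_one, mul_assoc, ← pow_add, add_comm 2 i]
            _ ≤ (e ^ s * H ^ (i + 2)) * H ^ k := mul_le_mul_right (one_le_pow₀ hH1) _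
            _ = (e ^ s * H ^ (d * s)) * H := by
              rw [mul_assoc, ← pow_add, mul_assoc, ← pow_succ, hk]
              congr 2
              omega
        exact lt_of_mul_lt_mul_right h6 zero_le
    have h2 : ε ^ s * y ^ (d * s) = -∑ i ∈ Finset.range (d * s), g.coeff i * y ^ i := by
      linear_combination hgy
    have h3 := congrArg w h2
    rw [Valuation.map_neg] at h3
    rw [h3] at h1
    exact lt_irrefl _ h1
  refine ⟨y₁, hy₁, ?_, hcy₁, hH, ?_⟩
  · have h1 : (derivative f).eval y₁ = g.eval y₁ := by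
      rw [hg, derivative_mul, eval_add, eval_mul, eval_mul, derivative_sub, derivative_X,
        derivative_C, sub_zero, eval_one, one_mul, eval_sub, eval_X, eval_C, sub_self, zero_mul,
        add_zero]
    rw [h1]
    exact hgH y₁ rfl
  · intro y hy hne
    have hgy : g.eval y = 0 := by
      rw [hg, eval_mul, eval_sub, eval_X, eval_C] at hy
      exact (mul_eq_zero.1 hy).resolve_left (sub_ne_zero.2 hne)
    have hwy : w y ≤ c := by
      by_contra hcon
      push Not at hcon
      have h1 := hlarge y hy hcon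
      apply hgH y _ hgy
      have h2 : w y * e ^ s = H * e ^ s := by rw [h1, hH]
      exact mul_right_cancel₀ (pow_pos he0 _).ne' h2
    refine ⟨hwy, ?_⟩
    rw [hfev] at hy
    have h1 : c₀ * (-(G.eval y)) ^ s =
        -(ε ^ s * y ^ (d * s + 1) + (prest G d s r ε).eval y) := by
      linear_combination hy
    have h2 : w (c₀ * (-(G.eval y)) ^ s) ≤ e * c ^ (d * s + s + 1) := by
      rw [h1, Valuation.map_neg]
      apply w.map_add_le
      · rw [map_mul, map_pow, map_pow]
        calc e ^ s * w y ^ (d * s + 1) ≤ e * c ^ (d * s + 1) :=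
              mul_le_mul' hes (pow_le_pow_left' hwy _)
          _ ≤ e * c ^ (d * s + s + 1) := mul_le_mul_right (pow_le_pow_c hc (by omega)) _
      · refine (eval_bound' hc (prest_pb w hc hG hr he1) (prest_natDegree hGd hd hr0) hwy).trans ?_
        rw [mul_assoc, ← pow_add]
        exact mul_le_mul_right (pow_le_pow_c hc (by omega)) _
    rw [map_mul, map_pow, Valuation.map_neg] at h2
    calc w (G.eval y) ^ s = 1 * w (G.eval y) ^ s := (one_mul _).symm
      _ ≤ (c * w c₀) * w (G.eval y) ^ s := mul_le_mul_left hc₀' _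
      _ = c * (w c₀ * w (G.eval y) ^ s) := mul_assoc _ _ _
      _ ≤ c * (e * c ^ (d * s + s + 1)) := mul_le_mul_right h2 c
      _ = e * c ^ (d * s + s + 2) := by
        rw [show d * s + s + 2 = (d * s + s + 1) + 1 from rfl, pow_succ c (d * s + s + 1)]
        ac_rfl

end H651
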