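import Pool.Agent.H651_Ample.Laur

/-!
# Functions on a curve which are regular outside one rational place
-/

set_option autoImplicit false
set_option linter.style.haveILetI false

namespace H651

open Polynomial

attribute [-instance] HahnSeries.instSMul
attribute [-instance] HahnSeries.instModule

variable {K : Type*} [Field K]

/-- the inclusion of power series in Laurent series -/
noncomputable abbrev jj (K : Type*) [Field K] : PowerSeries K →+* LaurentSeries K :=
  HahnSeries.ofPowerSeries ℤ K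

theorem og_jj (f : PowerSeries K) : OG 0 (jj K f) := by
  intro i hi
  rw [PowerSeries.coeff_coe, if_pos hi]

theorem exists_of_og {f : LaurentSeries K} (h : OG 0 f) : ∃ g, jj K g = f := by
  refine ⟨PowerSeries.mk fun n => f.coeff n, ?_⟩
  ext i
  rw [PowerSeries.coeff_coe]
  split_ifs with hi
  · exact (h i hi).symm
  · rw [PowerSeries.coeff_mk]
    congr 1
    omega

theorem jj_injective : Function.Injective (jj K) := HahnSeries.ofPowerSeries_injective

theorem jj_X : jj K PowerSeries.X = tt := by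
  rw [tt, ← PowerSeries.coe_X]

/-- the substitution `X ↦ 1/t`, `Y ↦ (1/t)^s Y` -/
noncomputable def iota (s : ℕ) : K[X][X] →+* (LaurentSeries K)[X] :=
  (compRingHom (C (xx ^ s) * X)).comp (mapRingHom (aeval (xx : LaurentSeries K)).toRingHom)

theorem coeff_iota (s : ℕ) (G : K[X][X]) (i : ℕ) :
    (iota s G).coeff i = aeval xx (G.coeff i) * xx ^ (s * i) := by
  rw [iota, RingHom.comp_apply, coe_compRingHom_apply, comp_C_mul_X_coeff, coe_mapRingHom,
    coeff_map, ← pow_mul]
  rfl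

theorem iota_C (s : ℕ) (u : K[X]) : iota s (C u) = C (aeval xx u) := by
  ext i
  rw [coeff_iota, coeff_C, coeff_C]
  split_ifs with h
  · rw [h, mul_zero, pow_zero, mul_one]
  · rw [map_zero, zero_mul]

theorem iota_X (s : ℕ) : iota s (X : K[X][X]) = C (xx ^ s) * X := by
  ext i
  rw [coeff_iota, coeff_C_mul, coeff_X, coeff_X]
  split_ifs with h
  · rw [← h, map_one, one_mul, mul_one, mul_one]
  · rw [map_zero, zero_mul, mul_zero]

/-- evaluation at `X = 1/t`, `Y = y` -/
noncomputable def ev (y : LaurentSeries K) : K[X][X] →+* LaurentSeries K :=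
  eval₂RingHom (aeval (xx : LaurentSeries K)).toRingHom y

theorem ev_C (y : LaurentSeries K) (u : K[X]) : ev y (C u) = aeval xx u := by
  rw [ev, coe_eval₂RingHom, eval₂_C]
  rfl

theorem ev_X (y : LaurentSeries K) : ev y X = y := by
  rw [ev, coe_eval₂RingHom, eval₂_X]

theorem eval_iota (s : ℕ) (y' : LaurentSeries K) (G : K[X][X]) :
    (iota s G).eval y' = ev (xx ^ s * y') G := by
  have : (evalRingHom y').comp (iota s) = ev (xx ^ s * y') := by
    apply Polynomial.ringHom_ext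
    · intro a
      rw [RingHom.comp_apply, iota_C, coe_evalRingHom, eval_C, ev_C]
    · rw [RingHom.comp_apply, iota_X, coe_evalRingHom, eval_mul, eval_C, eval_X, ev_X]
  rw [← this]
  rfl

/-- `G` vanishes to order `r` at the places outside the given one lying over infinity -/
def Reg (s : ℕ) (Ψ : (PowerSeries K)[X]) (r : ℕ) (G : K[X][X]) : Prop :=
  ∃ (V : (PowerSeries K)[X]) (W : (LaurentSeries K)[X]),
    iota s G = C (tt ^ r) * V.map (jj K) + Ψ.map (jj K) * W

section

variable {s : ℕ} {Ψ : (PowerSeries K)[X]}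

theorem Reg.add {r : ℕ} {G H : K[X][X]} (hG : Reg s Ψ r G) (hH : Reg s Ψ r H) :
    Reg s Ψ r (G + H) := by
  obtain ⟨V, W, h⟩ := hG
  obtain ⟨V', W', h'⟩ := hH
  refine ⟨V + V', W + W', ?_⟩
  rw [map_add, h, h', Polynomial.map_add]
  ring

theorem Reg.toZero {r : ℕ} {G : K[X][X]} (hG : Reg s Ψ r G) : Reg s Ψ 0 G := by
  obtain ⟨V, W, h⟩ := hG
  refine ⟨C (PowerSeries.X ^ r) * V, W, ?_⟩
  rw [h, Polynomial.map_mul, map_C, map_pow (jj K), jj_X, pow_zero, C_1, one_mul]

theorem Reg.mul {G H : K[X][X]} (hG : Reg s Ψ 0 G) (hH : Reg s Ψ 0 H) :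
    Reg s Ψ 0 (G * H) := by
  obtain ⟨V, W, h⟩ := hG
  obtain ⟨V', W', h'⟩ := hH
  refine ⟨V * V', W * V'.map (jj K) + V.map (jj K) * W' + Ψ.map (jj K) * W * W', ?_⟩
  rw [map_mul, h, h', Polynomial.map_mul, pow_zero, C_1]
  ring

theorem reg_const (a : K) : Reg s Ψ 0 (C (C a)) := by
  refine ⟨C (PowerSeries.C a), 0, ?_⟩
  rw [iota_C, mul_zero, add_zero, pow_zero, C_1, one_mul, map_C, aeval_C]
  rw [LaurentSeries.algebraMap_apply, ← PowerSeries.coe_C]

theorem Reg.X_mul {r : ℕ} {G : K[X][X]} (hG : Reg s Ψ (r + 1) G) : Reg s Ψ r (C X * G) := by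
  obtain ⟨V, W, h⟩ := hG
  refine ⟨V, C xx * W, ?_⟩
  rw [map_mul, iota_C, aeval_X, h, mul_add, ← mul_assoc, ← C_mul, pow_succ']
  have : (xx : LaurentSeries K) * (tt * tt ^ r) = tt ^ r := by
    rw [← mul_assoc, xx_mul_tt, one_mul]
  rw [this]
  ring

theorem Reg.Y_mul {r : ℕ} {G : K[X][X]} (hG : Reg s Ψ (r + s) G) : Reg s Ψ r (X * G) := by
  obtain ⟨V, W, h⟩ := hG
  refine ⟨X * V, C (xx ^ s) * X * W, ?_⟩
  rw [map_mul, iota_X, h, Polynomial.map_mul, map_X]
  have : C (xx ^ s) * C (tt ^ (r + s)) = C ((tt : LaurentSeries K) ^ r) := by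
    rw [← C_mul, pow_add, mul_comm (tt ^ r), ← mul_assoc, ← mul_pow, xx_mul_tt, one_pow, one_mul]
  calc C (xx ^ s) * X * (C (tt ^ (r + s)) * V.map (jj K) + Ψ.map (jj K) * W)
      = (C (xx ^ s) * C (tt ^ (r + s))) * (X * V.map (jj K)) +
        Ψ.map (jj K) * (C (xx ^ s) * X * W) := by ring
    _ = _ := by rw [this]

/-- the ring of functions -/
noncomputable def RR (s : ℕ) (Ψ : (PowerSeries K)[X]) (y : LaurentSeries K) :
    Subalgebra K (LaurentSeries K) where
  carrier := {a | ∃ G, Reg s Ψ 0 G ∧ ev y G = a}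
  mul_mem' := by
    rintro a b ⟨G, hG, rfl⟩ ⟨H, hH, rfl⟩
    exact ⟨G * H, hG.mul hH, map_mul _ _ _⟩
  add_mem' := by
    rintro a b ⟨G, hG, rfl⟩ ⟨H, hH, rfl⟩
    exact ⟨G + H, hG.add hH, map_add _ _ _⟩
  algebraMap_mem' := by
    intro a
    refine ⟨C (C a), reg_const a, ?_⟩
    rw [ev_C, aeval_C]

theorem mem_RR {y a : LaurentSeries K} : a ∈ RR s Ψ y ↔ ∃ G, Reg s Ψ 0 G ∧ ev y G = a := Iff.rfl

/-- coefficients of the remainder -/
theorem reg_rem {e : ℕ} (hΨ : Ψ.Monic) (he : Ψ.natDegree = e) {G : K[X][X]}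
    (hG : Reg s Ψ 0 G) (hGd : G.natDegree < e + 1) :
    ∃ ρ : (PowerSeries K)[X], iota s G =
      C (aeval xx (G.coeff e) * xx ^ (s * e)) * Ψ.map (jj K) + ρ.map (jj K) ∧
        ρ.degree < (e : WithBot ℕ) := by
  obtain ⟨V, W, h⟩ := hG
  rw [pow_zero, C_1, one_mul] at h
  have hΨ' : (Ψ.map (jj K)).Monic := hΨ.map _
  have hne : Ψ ≠ 0 := hΨ.ne_zero
  have hdeg : Ψ.degree = e := by rw [degree_eq_natDegree hne, he]
  refine ⟨V %ₘ Ψ, ?_, ?_⟩
  · -- both sides give the remainder
    set q : LaurentSeries K := aeval xx (G.coeff e) * xx ^ (s * e) with hq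
    have h1 : iota s G - C q * Ψ.map (jj K) = iota s G %ₘ Ψ.map (jj K) := by
      have h2 : (iota s G) /ₘ (Ψ.map (jj K)) = C q ∧
          (iota s G) %ₘ (Ψ.map (jj K)) = iota s G - C q * Ψ.map (jj K) := by
        apply div_modByMonic_unique _ _ hΨ'
        refine ⟨by ring, ?_⟩
        rw [degree_map_eq_of_injective jj_injective, hdeg]
        rw [degree_lt_iff_coeff_zero]
        intro i hi
        rw [coeff_sub, coeff_iota, coeff_C_mul, coeff_map]
        rcases eq_or_lt_of_le hi with hi' | hi'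
        · rw [← hi', ← he, hΨ.coeff_natDegree, map_one, mul_one, he, hq, sub_self]
        · rw [coeff_eq_zero_of_natDegree_lt (show G.natDegree < i by omega), map_zero, zero_mul,
            coeff_eq_zero_of_natDegree_lt (show Ψ.natDegree < i by omega), map_zero, mul_zero,
            sub_zero]
      exact h2.2.symm
    have h3 : iota s G %ₘ Ψ.map (jj K) = (V %ₘ Ψ).map (jj K) := by
      rw [h, add_modByMonic, map_modByMonic _ hΨ]
      have : (Ψ.map (jj K) * W) %ₘ Ψ.map (jj K) = 0 := by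
        rw [modByMonic_eq_zero_iff_dvd hΨ']
        exact dvd_mul_right _ _
      rw [this, add_zero]
    rw [← h3, ← h1]
    ring
  · have := degree_modByMonic_lt V hΨ
    rwa [hdeg] at this

/-- the building lemma: from the leading coefficient -/
theorem exists_reg {e : ℕ} (hΨ : Ψ.Monic) (he : Ψ.natDegree = e) (r : ℕ) (q : K[X])
    (hq : ∀ j < e, ∀ i : ℤ, -((s * j : ℕ) : ℤ) < i → i < r →
      (aeval xx q * xx ^ (s * e) * jj K (Ψ.coeff j)).coeff i = 0) :
    ∃ (G : K[X][X]) (V : (PowerSeries K)[X]),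
      iota s G = C (tt ^ r) * V.map (jj K) + Ψ.map (jj K) * C (aeval xx q * xx ^ (s * e)) := by
  classical
  have h1 : ∀ j : ℕ, ∃ u : K[X], j < e →
      OG r (aeval xx q * xx ^ (s * e) * jj K (Ψ.coeff j) - aeval xx u * xx ^ (s * j)) := by
    intro j
    by_cases hj : j < e
    · obtain ⟨u, hu⟩ := exists_part (aeval xx q * xx ^ (s * e) * jj K (Ψ.coeff j)) (s * j) r
        (hq j hj)
      exact ⟨u, fun _ => hu⟩
    · exact ⟨0, fun h => absurd h hj⟩
  choose u hu using h1
  have h2 : ∀ j : ℕ, ∃ v : PowerSeries K, j < e →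
      tt ^ r * jj K v = aeval xx (u j) * xx ^ (s * j) -
        aeval xx q * xx ^ (s * e) * jj K (Ψ.coeff j) := by
    intro j
    by_cases hj : j < e
    · have h3 : OG 0 (xx ^ r * (aeval xx (u j) * xx ^ (s * j) -
          aeval xx q * xx ^ (s * e) * jj K (Ψ.coeff j))) := by
        have h4 := (og_xx_pow (K := K) r).mul (hu j hj).neg
        rw [neg_sub, neg_add_cancel] at h4
        exact h4
      obtain ⟨v, hv⟩ := exists_of_og h3
      refine ⟨v, fun _ => ?_⟩
      rw [hv, ← mul_assoc, ← mul_pow, tt_mul_xx, one_pow, one_mul]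
    · exact ⟨0, fun h => absurd h hj⟩
  choose v hv using h2
  refine ⟨C q * X ^ e + ∑ j ∈ Finset.range e, C (u j) * X ^ j,
    ∑ j ∈ Finset.range e, C (v j) * X ^ j, ?_⟩
  ext1 i
  rw [coeff_iota, coeff_add, finsetSum_coeff]
  simp only [coeff_C_mul, coeff_X_pow, mul_ite, mul_one, mul_zero]
  rw [Finset.sum_ite_eq, coeff_add, coeff_C_mul, coeff_map, finsetSum_coeff, coeff_mul_C,
    coeff_map]
  simp only [coeff_C_mul, coeff_X_pow, mul_ite, mul_one, mul_zero]
  rw [Finset.sum_ite_eq]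
  simp only [Finset.mem_range]
  rcases lt_trichotomy i e with hi | hi | hi
  · rw [if_neg hi.ne, if_pos hi, if_pos hi, zero_add, hv i hi]
    ring
  · rw [if_pos hi, if_neg (by omega), if_neg (by omega), add_zero, map_zero, mul_zero, zero_add,
      hi, ← he, hΨ.coeff_natDegree, map_one, one_mul]
  · rw [if_neg hi.ne', if_neg (by omega), if_neg (by omega), add_zero, map_zero, map_zero,
      mul_zero, zero_mul, zero_add, coeff_eq_zero_of_natDegree_lt (by omega), map_zero, zero_mul]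

end

end H651
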