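import Pool.Agent.H651_Ample.Reg

/-!
# The ring of functions: pole orders and constants
-/

set_option autoImplicit false
set_option linter.style.haveILetI false

namespace H651

open Polynomial

attribute [-instance] HahnSeries.instSMul
attribute [-instance] HahnSeries.instModule

variable {K : Type*} [Field K]

theorem order_add_eq {f g : LaurentSeries K} (hg : g ≠ 0) (hf : OG (g.order + 1) f) :
    f + g ≠ 0 ∧ (f + g).order = g.order := by
  have h1 : (f + g).coeff g.order ≠ 0 := by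
    rw [HahnSeries.coeff_add, hf _ (by omega), zero_add]
    exact fun h => hg (HahnSeries.coeff_order_eq_zero.1 h)
  have h0 : f + g ≠ 0 := by
    intro h
    rw [h] at h1
    exact h1 rfl
  refine ⟨h0, le_antisymm (HahnSeries.order_le_of_coeff_ne_zero h1) ?_⟩
  rw [← og_iff_order h0]
  exact (hf.mono (by omega)).add ((og_iff_order hg).2 le_rfl)

theorem og_zero_order {f : LaurentSeries K} (hf : f ≠ 0) (h : OG 0 f) : 0 ≤ f.order :=
  (og_iff_order hf).1 h

/-- the data of a curve with a rational place -/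
structure CD (K : Type*) [Field K] where
  /-- scaling exponent -/
  s : ℕ
  hs : 1 ≤ s
  /-- degree of the cofactor -/
  e : ℕ
  /-- the cofactor -/
  Ψ : (PowerSeries K)[X]
  hΨ : Ψ.Monic
  he : Ψ.natDegree = e
  /-- the root -/
  y₀ : PowerSeries K
  /-- the equation -/
  Φ : K[X][X]
  hΦ : Φ.Monic
  hΦd : Φ.natDegree = e + 1
  hdvd : Ψ.map (jj K) ∣ iota s Φ
  hev : ev (xx ^ s * jj K y₀) Φ = 0
  hne : Ψ.eval y₀ ≠ 0

namespace CD

variable (D : CD K)

/-- the second coordinate -/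
noncomputable def y : LaurentSeries K := xx ^ D.s * jj K D.y₀

theorem ev_eq {r : ℕ} {G : K[X][X]} {V : (PowerSeries K)[X]} {W : (LaurentSeries K)[X]}
    (h : iota D.s G = C (tt ^ r) * V.map (jj K) + D.Ψ.map (jj K) * W) :
    ev D.y G = tt ^ r * jj K (V.eval D.y₀) + jj K (D.Ψ.eval D.y₀) * W.eval (jj K D.y₀) := by
  rw [y, ← eval_iota, h, eval_add, eval_mul, eval_mul, eval_C, eval_map, eval₂_at_apply,
    eval_map, eval₂_at_apply]

theorem jne : jj K (D.Ψ.eval D.y₀) ≠ 0 := by
  intro h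
  exact D.hne (jj_injective (h.trans (map_zero _).symm))

/-- the order of the derivative -/
noncomputable def e₀ : ℤ := (jj K (D.Ψ.eval D.y₀)).order

theorem e₀_nonneg : 0 ≤ D.e₀ := og_zero_order D.jne (og_jj _)

/-- the linear conditions -/
noncomputable def cond (j : ℕ) (i : ℤ) : K[X] →ₗ[K] K where
  toFun q := (aeval xx q * xx ^ (D.s * D.e) * jj K (D.Ψ.coeff j)).coeff i
  map_add' a b := by
    rw [map_add, add_mul, add_mul, HahnSeries.coeff_add]
  map_smul' a b := by
    rw [map_smul, smul_mul_assoc, smul_mul_assoc, coeff_smul']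
    rfl

/-- all large pole orders occur -/
theorem exists_pole (r : ℕ) : ∃ M : ℕ, ∀ m ≥ M, ∃ G : K[X][X], Reg D.s D.Ψ r G ∧ ev D.y G ≠ 0 ∧
    (ev D.y G).order = -(m : ℤ) := by
  classical
  obtain ⟨M, hM⟩ := exists_degree_of_conditions
    (ι := Fin D.e × (Finset.Ioo (-((D.s * D.e : ℕ) : ℤ)) (r : ℤ) : Finset ℤ))
    (fun x => D.cond x.1 x.2)
  refine ⟨M + D.s * D.e + 1, fun m hm => ?_⟩
  have he₀ := D.e₀_nonneg
  obtain ⟨q, hq, hqd, hq2⟩ := hM (m + D.e₀.toNat - D.s * D.e) (by omega)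
  obtain ⟨G, V, hG⟩ := exists_reg D.hΨ D.he r q (by
    intro j hj i hi hi'
    have h1 : D.s * j ≤ D.s * D.e := Nat.mul_le_mul_left _ hj.le
    exact hq2 (⟨j, hj⟩, ⟨i, by
      rw [Finset.mem_Ioo]
      exact ⟨by omega, hi'⟩⟩))
  refine ⟨G, ⟨V, _, hG⟩, ?_⟩
  rw [D.ev_eq hG, eval_C]
  have hq0 : q ≠ 0 := hq.ne_zero
  have h1 : jj K (D.Ψ.eval D.y₀) * (aeval xx q * xx ^ (D.s * D.e)) ≠ 0 :=
    mul_ne_zero D.jne (mul_ne_zero (aeval_xx_ne_zero hq0) (pow_ne_zero _ xx_ne_zero))
  have h2 : (jj K (D.Ψ.eval D.y₀) * (aeval xx q * xx ^ (D.s * D.e))).order = -(m : ℤ) := by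
    rw [HahnSeries.order_mul D.jne (mul_ne_zero (aeval_xx_ne_zero hq0)
      (pow_ne_zero _ xx_ne_zero)), HahnSeries.order_mul (aeval_xx_ne_zero hq0)
      (pow_ne_zero _ xx_ne_zero), order_aeval_xx hq0, order_xx_pow]
    have : (jj K (D.Ψ.eval D.y₀)).order = D.e₀ := rfl
    rw [this, hqd]
    omega
  have h3 := order_add_eq h1 (f := tt ^ r * jj K (V.eval D.y₀)) (by
    rw [h2]
    exact ((og_tt_pow r).mul (og_jj _)).mono (by omega))
  exact ⟨h3.1, by rw [h3.2, h2]⟩

/-- reduction modulo the equation -/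
theorem exists_reduced {G : K[X][X]} (hG : Reg D.s D.Ψ 0 G) :
    ∃ G', Reg D.s D.Ψ 0 G' ∧ ev D.y G' = ev D.y G ∧ G'.natDegree < D.e + 1 := by
  refine ⟨G %ₘ D.Φ, ?_, ?_, ?_⟩
  · obtain ⟨V, W, h⟩ := hG
    obtain ⟨U, hU⟩ := D.hdvd
    refine ⟨V, W - U * iota D.s (G /ₘ D.Φ), ?_⟩
    have h1 : G %ₘ D.Φ = G - D.Φ * (G /ₘ D.Φ) := by
      rw [modByMonic_eq_sub_mul_div]
    rw [h1, map_sub, map_mul, h, hU]
    ring
  · have h1 : G %ₘ D.Φ = G - D.Φ * (G /ₘ D.Φ) := by
      rw [modByMonic_eq_sub_mul_div]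
    rw [h1, map_sub, map_mul]
    have h2 : ev D.y D.Φ = 0 := D.hev
    rw [h2, zero_mul, sub_zero]
  · rw [← D.hΦd]
    apply natDegree_modByMonic_lt _ D.hΦ
    intro h
    have := D.hΦd
    rw [h, natDegree_one] at this
    omega

/-- polynomials giving functions without poles -/
noncomputable def WW : Submodule K K[X][X] where
  carrier := {G | Reg D.s D.Ψ 0 G ∧ G.natDegree < D.e + 1 ∧ OG 0 (ev D.y G)}
  add_mem' := by
    rintro G H ⟨h1, h2, h3⟩ ⟨h4, h5, h6⟩
    refine ⟨h1.add h4, lt_of_le_of_lt (natDegree_add_le _ _) (max_lt h2 h5), ?_⟩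
    rw [map_add]
    exact h3.add h6
  zero_mem' := by
    refine ⟨⟨0, 0, by simp⟩, by simp, ?_⟩
    rw [map_zero]
    exact og_zero 0
  smul_mem' := by
    rintro a G ⟨h1, h2, h3⟩
    have e1 : a • G = C (C a) * G := by
      ext i j
      rw [coeff_smul, coeff_smul, coeff_C_mul, coeff_C_mul, smul_eq_mul]
    rw [e1]
    refine ⟨(reg_const a).mul h1, ?_, ?_⟩
    · refine lt_of_le_of_lt (natDegree_C_mul_le _ _) h2
    · rw [map_mul, ev_C, aeval_C]
      have := (og_algebraMap a).mul h3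
      rwa [add_zero] at this

theorem mem_WW {G : K[X][X]} :
    G ∈ D.WW ↔ Reg D.s D.Ψ 0 G ∧ G.natDegree < D.e + 1 ∧ OG 0 (ev D.y G) := Iff.rfl

/-- the two coordinates which determine an element of `WW` -/
noncomputable def TT : D.WW →ₗ[K] K[X] × K where
  toFun G := (G.1.coeff D.e, (G.1.coeff 0).coeff 0)
  map_add' := by
    intro a b
    simp
  map_smul' := by
    intro a b
    simp

theorem TT_injective : Function.Injective D.TT := by
  rw [injective_iff_map_eq_zero]
  rintro ⟨G, hG⟩ h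
  rw [mem_WW] at hG
  obtain ⟨h1, h2, h3⟩ := hG
  have h4 : G.coeff D.e = 0 := congrArg Prod.fst h
  have h5 : (G.coeff 0).coeff 0 = 0 := congrArg Prod.snd h
  obtain ⟨ρ, hρ, hρd⟩ := reg_rem D.hΨ D.he h1 h2
  rw [h4, map_zero, zero_mul, C_0, zero_mul, zero_add] at hρ
  have h6 : ∀ i, OG 0 (aeval xx (G.coeff i) * xx ^ (D.s * i) : LaurentSeries K) := by
    intro i
    rw [← coeff_iota, hρ, coeff_map]
    exact og_jj _
  have h7 : ∀ i, G.coeff i = 0 := by
    intro i
    by_contra hne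
    have h8 := og_zero_order (mul_ne_zero (aeval_xx_ne_zero hne) (pow_ne_zero _ xx_ne_zero)) (h6 i)
    rw [HahnSeries.order_mul (aeval_xx_ne_zero hne) (pow_ne_zero _ xx_ne_zero),
      order_aeval_xx hne, order_xx_pow] at h8
    have hi : i = 0 := by
      by_contra hi
      have : 1 ≤ D.s * i := Nat.mul_pos D.hs (Nat.pos_of_ne_zero hi)
      omega
    subst hi
    have h9 : (G.coeff 0).natDegree = 0 := by omega
    rw [eq_C_of_natDegree_eq_zero h9, h5, C_0] at hne
    exact hne rfl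
  have : G = 0 := by
    ext1 i
    rw [h7 i, coeff_zero]
  exact Subtype.ext this

theorem TT_mem (G : D.WW) : (D.TT G).1 ∈ degreeLT K (D.e₀.toNat + 1) := by
  obtain ⟨G, hG⟩ := G
  have hG' := hG
  rw [mem_WW] at hG
  obtain ⟨h1, h2, h3⟩ := hG
  change G.coeff D.e ∈ _
  obtain ⟨ρ, hρ, hρd⟩ := reg_rem D.hΨ D.he h1 h2
  rw [mem_degreeLT]
  by_cases hq : G.coeff D.e = 0
  · rw [hq, degree_zero]
    exact WithBot.bot_lt_coe _
  have h4 : ev D.y G = aeval xx (G.coeff D.e) * xx ^ (D.s * D.e) * jj K (D.Ψ.eval D.y₀) +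
      jj K (ρ.eval D.y₀) := by
    rw [y, ← eval_iota, hρ, eval_add, eval_mul, eval_C, eval_map, eval₂_at_apply, eval_map,
      eval₂_at_apply]
  have h5 : OG 0 (aeval xx (G.coeff D.e) * xx ^ (D.s * D.e) * jj K (D.Ψ.eval D.y₀)) := by
    have := h3.sub (og_jj (ρ.eval D.y₀))
    rw [h4, add_sub_cancel_right] at this
    exact this
  have h6 := og_zero_order (mul_ne_zero (mul_ne_zero (aeval_xx_ne_zero hq)
    (pow_ne_zero _ xx_ne_zero)) D.jne) h5
  rw [HahnSeries.order_mul (mul_ne_zero (aeval_xx_ne_zero hq) (pow_ne_zero _ xx_ne_zero)) D.jne,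
    HahnSeries.order_mul (aeval_xx_ne_zero hq) (pow_ne_zero _ xx_ne_zero),
    order_aeval_xx hq, order_xx_pow] at h6
  have h7 : (jj K (D.Ψ.eval D.y₀)).order = D.e₀ := rfl
  rw [h7] at h6
  rw [degree_eq_natDegree hq]
  have h8 : (G.coeff D.e).natDegree < D.e₀.toNat + 1 := by omega
  exact_mod_cast h8

instance : Module.Finite K D.WW := by
  let T : D.WW →ₗ[K] (degreeLT K (D.e₀.toNat + 1)) × K :=
    LinearMap.prod ((LinearMap.fst K _ _ ∘ₗ D.TT).codRestrict _ D.TT_mem)
      (LinearMap.snd K _ _ ∘ₗ D.TT)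
  have hT : Function.Injective T := by
    intro a b hab
    apply D.TT_injective
    have h1 := congrArg Prod.fst hab
    have h2 := congrArg Prod.snd hab
    apply Prod.ext
    · exact congrArg Subtype.val h1
    · exact h2
  exact Module.Finite.of_injective T hT

/-- the evaluation as a linear map -/
noncomputable def evL : K[X][X] →ₗ[K] LaurentSeries K where
  toFun G := ev D.y G
  map_add' a b := map_add _ a b
  map_smul' a G := by
    have e1 : a • G = C (C a) * G := by
      ext i j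
      rw [coeff_smul, coeff_smul, coeff_C_mul, coeff_C_mul, smul_eq_mul]
    rw [e1, map_mul, ev_C, aeval_C, RingHom.id_apply, Algebra.smul_def]

/-- functions without poles are constant -/
theorem const_of_og {a : LaurentSeries K} (ha : a ∈ RR D.s D.Ψ D.y) (h0 : OG 0 a) :
    ∃ c : K, algebraMap K _ c = a := by
  classical
  refine ⟨a.coeff 0, ?_⟩
  by_contra hne
  set b : LaurentSeries K := a - algebraMap K _ (a.coeff 0) with hb
  have hb0 : b ≠ 0 := fun h => hne (sub_eq_zero.1 h).symm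
  have hbA : b ∈ RR D.s D.Ψ D.y := Subalgebra.sub_mem _ ha (Subalgebra.algebraMap_mem _ _)
  have hb1 : OG 1 b := by
    intro i hi
    rcases lt_or_eq_of_le (Int.lt_add_one_iff.1 (by omega : i < 0 + 1)) with h | h
    · exact (h0.sub (og_algebraMap _)) i h
    · subst h
      rw [hb, HahnSeries.coeff_sub, LaurentSeries.algebraMap_apply, HahnSeries.C_apply,
        HahnSeries.coeff_single_same, sub_self]
  have hord : 1 ≤ b.order := (og_iff_order hb0).1 hb1
  let V : Submodule K (LaurentSeries K) := D.WW.map D.evL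
  have hVfin : Module.Finite K V := inferInstance
  have hmem : ∀ k : ℕ, b ^ k ∈ V := by
    intro k
    have h1 : b ^ k ∈ RR D.s D.Ψ D.y := Subalgebra.pow_mem _ hbA k
    obtain ⟨G, hG, hG2⟩ := mem_RR.1 h1
    obtain ⟨G', hG', hG2', hG3'⟩ := D.exists_reduced hG
    refine ⟨G', ⟨hG', hG3', ?_⟩, ?_⟩
    · rw [hG2', hG2]
      exact (hb1.mono (by norm_num)).pow0 k
    · change ev D.y G' = _
      rw [hG2', hG2]
  have hli : LinearIndependent K (fun k : ℕ => (⟨b ^ k, hmem k⟩ : V)) := by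
    rw [linearIndependent_iff']
    intro t g hg i hi
    have h1 : ∑ k ∈ t, g k • b ^ k = 0 := by
      have := congrArg (Submodule.subtype V) hg
      rw [map_sum, map_zero] at this
      exact this
    have h2 : ∀ r : ℤ, OG r (g i • b ^ i) := by
      intro r
      refine og_of_sum t (fun k => g k • b ^ k) ?_ (by rw [h1]; exact og_zero r) i hi
      intro k _ l _ hkl hk hl
      have key : ∀ k : ℕ, g k • b ^ k ≠ 0 → (g k • b ^ k).order = k * b.order := by
        intro k hk
        have hgk : g k ≠ 0 := fun h => hk (by rw [h, zero_smul])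
        have h3 : algebraMap K (LaurentSeries K) (g k) ≠ 0 := by
          rw [LaurentSeries.algebraMap_apply]
          exact HahnSeries.C_ne_zero hgk
        rw [Algebra.smul_def, HahnSeries.order_mul h3 (pow_ne_zero _ hb0), HahnSeries.order_pow,
          LaurentSeries.algebraMap_apply, HahnSeries.order_C, zero_add, nsmul_eq_mul]
      rw [key k hk, key l hl]
      intro h
      have h4 : (k : ℤ) = l := mul_right_cancel₀ (by omega) h
      exact hkl (by exact_mod_cast h4)
    have h3 : g i • b ^ i = 0 := eq_zero_of_og fun r => h2 r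
    rcases smul_eq_zero.1 h3 with h4 | h4
    · exact h4
    · exact absurd h4 (pow_ne_zero _ hb0)
  have := hli.finite
  exact not_finite ℕ

end CD

end H651
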