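import Pool.Agent.H651_Ample.Three

/-!
# Residue fields
-/

set_option autoImplicit false
set_option linter.style.haveILetI false

namespace H651

open Polynomial

attribute [-instance] HahnSeries.instSMul
attribute [-instance] HahnSeries.instModule

universe u v

section Res

variable {K : Type*} [Field K] {Γ₀ : Type*} [LinearOrderedCommGroupWithZero Γ₀]

theorem residue_zero_iff (v : Valuation K Γ₀) (x : v.valuationSubring) :
    IsLocalRing.residue v.valuationSubring x = 0 ↔ v (x : K) < 1 := by
  rw [IsLocalRing.residue_eq_zero_iff, IsLocalRing.mem_maximalIdeal, mem_nonunits_iff,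
    (Valuation.valuationSubring.integers v).isUnit_iff_valuation_eq_one]
  have h1 : v (algebraMap v.valuationSubring K x) ≤ 1 := x.2
  have h2 : algebraMap v.valuationSubring K x = (x : K) := rfl
  rw [h2] at h1 ⊢
  exact ⟨fun h => lt_of_le_of_ne h1 h, fun h => h.ne⟩

end Res

section

variable {K A : Type*} [Field K] [Field A] [Algebra K A] {Γ₀ : Type*}
  [LinearOrderedCommGroupWithZero Γ₀] (w : Valuation A Γ₀)

/-- the valuation ring of the restriction -/
abbrev resO (K : Type*) {A : Type*} [Field K] [Field A] [Algebra K A] {Γ₀ : Type*}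
    [LinearOrderedCommGroupWithZero Γ₀] (w : Valuation A Γ₀) : ValuationSubring K :=
  (w.comap (algebraMap K A)).valuationSubring

/-- the embedding of the valuation ring -/
def phiO (K : Type*) {A : Type*} [Field K] [Field A] [Algebra K A] {Γ₀ : Type*}
    [LinearOrderedCommGroupWithZero Γ₀] (w : Valuation A Γ₀) : resO K w →+* A :=
  (algebraMap K A).comp (resO K w).subtype

theorem phiO_apply (x : resO K w) : phiO K w x = algebraMap K A (x : K) := rfl

theorem phiO_le (x : resO K w) : w (phiO K w x) ≤ 1 := x.2

theorem residue_zero_iff' (x : resO K w) :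
    IsLocalRing.residue (resO K w) x = 0 ↔ w (phiO K w x) < 1 :=
  residue_zero_iff (w.comap (algebraMap K A)) x

theorem eval_le (P : (resO K w)[X]) {y : A} (hy : w y ≤ 1) : w (eval₂ (phiO K w) y P) ≤ 1 := by
  rw [eval₂_eq_sum_range]
  apply w.map_sum_le
  intro i _
  rw [map_mul, map_pow]
  exact mul_le_one' (phiO_le w _) (pow_le_one' hy i)

theorem eval_lt (P : (resO K w)[X]) (hP : P.map (IsLocalRing.residue (resO K w)) = 0) {y : A}
    (hy : w y ≤ 1) : w (eval₂ (phiO K w) y P) < 1 := by
  rw [eval₂_eq_sum_range]
  apply w.map_sum_lt one_ne_zero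
  intro i _
  have h1 : w (phiO K w (P.coeff i)) < 1 := by
    rw [← residue_zero_iff', ← coeff_map, hP, coeff_zero]
  rw [map_mul, map_pow]
  calc w (phiO K w (P.coeff i)) * w y ^ i ≤ w (phiO K w (P.coeff i)) * 1 :=
        mul_le_mul_right (pow_le_one' hy i) _
    _ = w (phiO K w (P.coeff i)) := mul_one _
    _ < 1 := h1

/-- polynomials with coprime reductions are not both small -/
theorem not_both_small (P Q : (resO K w)[X])
    (hcop : IsCoprime (P.map (IsLocalRing.residue (resO K w)))
      (Q.map (IsLocalRing.residue (resO K w)))) {y : A} (hy : w y ≤ 1)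
    (h1 : w (eval₂ (phiO K w) y P) < 1) (h2 : w (eval₂ (phiO K w) y Q) < 1) : False := by
  obtain ⟨a, b, hab⟩ := hcop
  obtain ⟨a', rfl⟩ := (mem_lifts _).1 (mem_lifts_of_surjective
    (IsLocalRing.residue_surjective (R := resO K w)) a)
  obtain ⟨b', rfl⟩ := (mem_lifts _).1 (mem_lifts_of_surjective
    (IsLocalRing.residue_surjective (R := resO K w)) b)
  have h3 : (a' * P + b' * Q - 1).map (IsLocalRing.residue (resO K w)) = 0 := by
    rw [Polynomial.map_sub, Polynomial.map_add, Polynomial.map_mul, Polynomial.map_mul,
      Polynomial.map_one, hab, sub_self]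
  have h4 := eval_lt w _ h3 hy
  rw [eval₂_sub, eval₂_add, eval₂_mul, eval₂_mul, eval₂_one] at h4
  have h5 : ∀ (a P : (resO K w)[X]), w (eval₂ (phiO K w) y P) < 1 →
      w (eval₂ (phiO K w) y a * eval₂ (phiO K w) y P) < 1 := by
    intro a P hP
    rw [map_mul]
    calc w (eval₂ (phiO K w) y a) * w (eval₂ (phiO K w) y P)
        ≤ 1 * w (eval₂ (phiO K w) y P) := mul_le_mul_left (eval_le w a hy) _
      _ = w (eval₂ (phiO K w) y P) := one_mul _
      _ < 1 := hP
  have h6 := h5 a' P h1
  have h7 := h5 b' Q h2
  have h8 : (1 : A) = (eval₂ (phiO K w) y a' * eval₂ (phiO K w) y P +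
      eval₂ (phiO K w) y b' * eval₂ (phiO K w) y Q) -
      (eval₂ (phiO K w) y a' * eval₂ (phiO K w) y P +
      eval₂ (phiO K w) y b' * eval₂ (phiO K w) y Q - 1) := by ring
  have h9 : w (1 : A) < 1 := by
    rw [h8]
    exact w.map_sub_lt (w.map_add_lt h6 h7) h4
  rw [map_one] at h9
  exact lt_irrefl _ h9

theorem multiset_prod_le_one (s : Multiset A) (h : ∀ a ∈ s, w a ≤ 1) : w s.prod ≤ 1 := by
  induction s using Multiset.induction_on with
  | empty => rw [Multiset.prod_zero, map_one]
  | cons a s ih =>
    rw [Multiset.prod_cons, map_mul]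
    exact mul_le_one' (h a (Multiset.mem_cons_self a s))
      (ih fun b hb => h b (Multiset.mem_cons_of_mem hb))

theorem multiset_prod_lt_one (s : Multiset A) (h : ∀ a ∈ s, w a ≤ 1) {b : A} (hb : b ∈ s)
    (hb1 : w b < 1) : w s.prod < 1 := by
  classical
  rw [← Multiset.cons_erase hb, Multiset.prod_cons, map_mul]
  calc w b * w (s.erase b).prod ≤ w b * 1 :=
        mul_le_mul_right (multiset_prod_le_one w _ fun a ha => h a (Multiset.mem_of_mem_erase ha)) _
    _ = w b := mul_one _
    _ < 1 := hb1

theorem pb_prod_X_sub_C (s : Multiset A) (h : ∀ a ∈ s, w a ≤ 1) :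
    PB w 1 ((s.map (fun a => X - C a)).prod) := by
  induction s using Multiset.induction_on with
  | empty => rw [Multiset.map_zero, Multiset.prod_zero]; exact pb_one
  | cons a s ih =>
    rw [Multiset.map_cons, Multiset.prod_cons]
    have h1 : PB w 1 (X - C a : A[X]) := by
      rw [sub_eq_add_neg]
      have h2 : PB w 1 (X : A[X]) := by
        have := pb_X_pow (w := w) 1
        rwa [pow_one] at this
      exact h2.add ((pb_C a).mono (h a (Multiset.mem_cons_self a s))).neg
    have h3 := h1.mul (ih fun b hb => h b (Multiset.mem_cons_of_mem hb))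
    rwa [one_mul] at h3

end

section Main

variable {K A : Type u} [Field K] [Field A] [Algebra K A] {Γ₀ : Type v}
  [LinearOrderedCommGroupWithZero Γ₀]

/-- the polynomials needed, from an irreducible polynomial over the residue field -/
theorem residue_poly [IsAlgClosed A] [Algebra.IsAlgebraic K A] (w : Valuation A Γ₀)
    (g : (IsLocalRing.ResidueField (resO K w))[X]) (hgm : g.Monic) (hgi : Irreducible g)
    (hgs : g.Separable) {n : ℕ} (hgd : g.natDegree = n) (hn : 1 ≤ n) :
    ∃ G : K[X], G.Monic ∧ G.natDegree = n ∧
      ∀ y : A, w (aeval y G) < 1 → n ∣ (minpoly (hField K w) y).natDegree := by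
  classical
  haveI : Algebra.IsAlgebraic (hField K w) A := Algebra.IsAlgebraic.tower_top (K := K) _
  haveI : IsAlgClosure (hField K w) A := ⟨inferInstance, inferInstance⟩
  haveI : Normal (hField K w) A := IsAlgClosure.normal _ _
  haveI : IsAlgClosure K A := ⟨inferInstance, inferInstance⟩
  haveI : Normal K A := IsAlgClosure.normal _ _
  obtain ⟨G₀, hG₀g, hG₀d, hG₀m⟩ := lifts_and_natDegree_eq_and_monic
    (mem_lifts_of_surjective (IsLocalRing.residue_surjective (R := resO K w)) g) hgm
  set G : K[X] := G₀.map (resO K w).subtype with hG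
  have hGm : G.Monic := hG₀m.map _
  have hGd : G.natDegree = n := by rw [hG, hG₀m.natDegree_map, hG₀d, hgd]
  have hGev : ∀ (P : (resO K w)[X]) (y : A), aeval y (P.map (resO K w).subtype) =
      eval₂ (phiO K w) y P := by
    intro P y
    rw [aeval_def, eval₂_map]
    rfl
  set GA : A[X] := G.map (algebraMap K A) with hGA
  have hGAm : GA.Monic := hGm.map _
  have hGAd : GA.natDegree = n := by rw [hGA, hGm.natDegree_map, hGd]
  have hGAb : PB w 1 GA := by
    intro k
    rw [hGA, coeff_map, hG, coeff_map]
    exact phiO_le w (G₀.coeff k)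
  have hspl : GA.Splits := IsAlgClosed.splits _
  have hmm : ∀ P : K[X], (P.map (algebraMap K (hField K w))).map (algebraMap (hField K w) A) =
      P.map (algebraMap K A) := by
    intro P
    rw [Polynomial.map_map, ← IsScalarTower.algebraMap_eq]
  have hint : ∀ y : A, w (aeval y G) < 1 → w y ≤ 1 := by
    intro y hy
    by_contra hcon
    push Not at hcon
    rw [← eval_map_algebraMap, eval_large le_rfl hGAb hGAm hGAd hcon] at hy
    exact absurd hy (not_lt.2 (one_le_pow₀ hcon.le))
  have hroot : ∀ η : A, aeval η G = 0 → w η ≤ 1 := by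
    intro η hη
    apply hint
    rw [hη, map_zero]
    exact zero_lt_one
  -- different roots have different residues
  have hsepr : ∀ η η' : A, aeval η G = 0 → aeval η' G = 0 → η ≠ η' → w (η - η') = 1 := by
    intro η η' hη hη' hne
    apply le_antisymm ((w.map_sub _ _).trans (max_le (hroot η hη) (hroot η' hη')))
    by_contra hcon
    push Not at hcon
    have h1 : η ∈ GA.roots := by
      rw [mem_roots hGAm.ne_zero, IsRoot.def, hGA, eval_map_algebraMap, hη]
    have h1' : η' ∈ GA.roots := by
      rw [mem_roots hGAm.ne_zero, IsRoot.def, hGA, eval_map_algebraMap, hη']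
    have h2 := hspl.eval_root_derivative hGAm h1
    have h3 : w (eval η (derivative GA)) < 1 := by
      rw [h2]
      apply multiset_prod_lt_one w _ _ (b := η - η')
      · rw [Multiset.mem_map]
        exact ⟨η', (Multiset.mem_erase_of_ne (Ne.symm hne)).2 h1', rfl⟩
      · exact hcon
      · intro a ha
        rw [Multiset.mem_map] at ha
        obtain ⟨b, hb, rfl⟩ := ha
        have hb' := Multiset.mem_of_mem_erase hb
        rw [mem_roots hGAm.ne_zero, IsRoot.def, hGA, eval_map_algebraMap] at hb'
        exact (w.map_sub _ _).trans (max_le (hroot η hη) (hroot b hb'))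
    apply not_both_small w G₀ (derivative G₀) _ (hroot η hη)
    · rw [← hGev, ← hG, hη, map_zero]
      exact zero_lt_one
    · rw [← hGev, ← derivative_map, ← hG, ← eval_map_algebraMap, ← derivative_map, ← hGA]
      exact h3
    · rw [← derivative_map, hG₀g]
      exact hgs
  -- roots generate extensions of full degree
  have hdeg : ∀ η : A, aeval η G = 0 → (minpoly (hField K w) η).natDegree = n := by
    intro η hη
    have hintη : IsIntegral (hField K w) η := Algebra.IsIntegral.isIntegral η
    set Q := minpoly (hField K w) η with hQ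
    have hQm : Q.Monic := minpoly.monic hintη
    have hQdvd : Q ∣ G.map (algebraMap K (hField K w)) := by
      apply minpoly.dvd
      rw [aeval_map_algebraMap, hη]
    have hQle : Q.natDegree ≤ n := by
      have := natDegree_le_of_dvd hQdvd (hGm.map _).ne_zero
      rwa [hGm.natDegree_map, hGd] at this
    -- coefficients of `Q` are integral together with their conjugates
    set QA : A[X] := Q.map (algebraMap (hField K w) A) with hQA
    have hQAm : QA.Monic := hQm.map _
    have hQAspl : QA.Splits := IsAlgClosed.splits _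
    have hQAroots : ∀ a ∈ QA.roots, aeval a G = 0 := by
      intro a ha
      rw [mem_roots hQAm.ne_zero, IsRoot.def] at ha
      obtain ⟨T, hT⟩ := hQdvd
      rw [← eval_map_algebraMap]
      have h1 : G.map (algebraMap K A) = QA * T.map (algebraMap (hField K w) A) := by
        rw [hQA, ← Polynomial.map_mul, ← hT, hmm]
      rw [h1, eval_mul, ha, zero_mul]
    have hcoef : ∀ (σ : A ≃ₐ[K] A) (k : ℕ), w (σ (QA.coeff k)) ≤ 1 := by
      intro σ k
      have h1 : QA.map (σ : A →+* A) = ((QA.roots.map σ).map (fun a => X - C a)).prod := by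
        conv_lhs => rw [hQAspl.eq_prod_roots_of_monic hQAm]
        rw [Polynomial.map_multiset_prod, Multiset.map_map, Multiset.map_map]
        congr 1
        apply Multiset.map_congr rfl
        intro a _
        simp
      have h2 := pb_prod_X_sub_C w (QA.roots.map σ) (by
        intro a ha
        rw [Multiset.mem_map] at ha
        obtain ⟨b, hb, rfl⟩ := ha
        apply hroot
        have h3 := aeval_algHom_apply (σ : A →ₐ[K] A) b G
        rw [hQAroots b hb, map_zero] at h3
        exact h3) k
      rw [← h1, coeff_map] at h2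
      exact h2
    -- approximation of the coefficients
    have happ : ∀ k : ℕ, ∃ b : K, w (QA.coeff k - algebraMap K A b) < 1 := by
      intro k
      have hmem : QA.coeff k ∈ hField K w := by
        rw [hQA, coeff_map]
        exact (Q.coeff k).2
      obtain ⟨N, hN⟩ := mem_hField.1 hmem
      haveI := hN.1
      haveI := hN.2.1
      obtain ⟨b, hb⟩ := exists_residue (w.comap (algebraMap N A)) ⟨QA.coeff k, hN.2.2.1⟩
        (fixed_of_HCond hN) (by
          intro σ
          have h1 : (σ.liftNormal A) (QA.coeff k) =
              algebraMap N A (σ ⟨QA.coeff k, hN.2.2.1⟩) :=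
            AlgEquiv.liftNormal_commutes σ A ⟨QA.coeff k, hN.2.2.1⟩
          rw [Valuation.comap_apply, ← h1]
          exact hcoef _ k)
      rw [Valuation.comap_apply] at hb
      exact ⟨b, hb⟩
    choose b hb using happ
    have hbO : ∀ k, (w.comap (algebraMap K A)) (b k) ≤ 1 := by
      intro k
      rw [Valuation.comap_apply]
      have h1 : algebraMap K A (b k) = QA.coeff k - (QA.coeff k - algebraMap K A (b k)) := by ring
      rw [h1]
      exact (w.map_sub _ _).trans (max_le (by simpa using hcoef 1 k) (hb k).le)
    set m := Q.natDegree with hm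
    set P : (resO K w)[X] := X ^ m + ∑ k ∈ Finset.range m, C (⟨b k, hbO k⟩ : resO K w) * X ^ k
      with hP
    have hPdeg : (∑ k ∈ Finset.range m, C (⟨b k, hbO k⟩ : resO K w) * X ^ k).degree <
        (m : WithBot ℕ) := by
      apply lt_of_le_of_lt (degree_sum_le _ _)
      rw [Finset.sup_lt_iff (by exact_mod_cast WithBot.bot_lt_coe m)]
      intro k hk
      rw [Finset.mem_range] at hk
      exact lt_of_le_of_lt (degree_C_mul_X_pow_le _ _) (by exact_mod_cast hk)
    have hPm : P.Monic := monic_X_pow_add hPdeg
    have hPd : P.natDegree = m := by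
      rw [hP, natDegree_add_eq_left_of_degree_lt, natDegree_X_pow]
      rw [degree_X_pow]
      exact hPdeg
    have hPη : w (eval₂ (phiO K w) η P) < 1 := by
      have h1 : QA.eval η = 0 := by
        rw [hQA, eval_map_algebraMap]
        exact minpoly.aeval _ η
      have h2 : QA = X ^ m + ∑ k ∈ Finset.range m, C (QA.coeff k) * X ^ k := by
        have hQAd : QA.natDegree = m := by rw [hQA, hQm.natDegree_map]
        conv_lhs => rw [QA.as_sum_range_C_mul_X_pow, hQAd, Finset.sum_range_succ]
        have : QA.coeff m = 1 := by rw [← hQAd]; exact hQAm.coeff_natDegree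
        rw [this, C_1, one_mul, add_comm]
      have h3 : eval₂ (phiO K w) η P = -(∑ k ∈ Finset.range m,
          (QA.coeff k - algebraMap K A (b k)) * η ^ k) := by
        have h4 : eval₂ (phiO K w) η P = eval₂ (phiO K w) η P - QA.eval η := by rw [h1, sub_zero]
        rw [h4, h2, hP, eval₂_add, eval₂_pow, eval₂_X, eval_add, eval_pow, eval_X,
          add_sub_add_left_eq_sub, eval₂_finsetSum, eval_finsetSum, ← Finset.sum_sub_distrib,
          ← Finset.sum_neg_distrib]
        apply Finset.sum_congr rfl
        intro k hk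
        rw [eval₂_mul, eval₂_C, eval₂_pow, eval₂_X, eval_mul, eval_C, eval_pow, eval_X, ← h2]
        rw [phiO_apply]
        ring
      rw [h3, Valuation.map_neg]
      apply w.map_sum_lt one_ne_zero
      intro k _
      rw [map_mul, map_pow]
      calc w (QA.coeff k - algebraMap K A (b k)) * w η ^ k
          ≤ w (QA.coeff k - algebraMap K A (b k)) * 1 :=
            mul_le_mul_right (pow_le_one' (hroot η hη) k) _
        _ = w (QA.coeff k - algebraMap K A (b k)) := mul_one _
        _ < 1 := hb k
    by_contra hne
    have hlt : m < n := lt_of_le_of_ne hQle hne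
    have hndvd : ¬ g ∣ P.map (IsLocalRing.residue (resO K w)) := by
      intro hdvd
      have h1 := natDegree_le_of_dvd hdvd (hPm.map _).ne_zero
      rw [hPm.natDegree_map, hPd, hgd] at h1
      omega
    apply not_both_small w G₀ P _ (hroot η hη) _ hPη
    · rw [hG₀g]
      exact (hgi.coprime_iff_not_dvd).2 hndvd
    · rw [← hGev, ← hG, hη, map_zero]
      exact zero_lt_one
  refine ⟨G, hGm, hGd, fun y hy => ?_⟩
  have h1 : aeval y G = (GA.roots.map (fun a => y - a)).prod := by
    rw [← eval_map_algebraMap]
    exact hspl.eval_eq_prod_roots_of_monic hGAm y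
  rw [h1] at hy
  obtain ⟨η, hη, hyη⟩ := exists_small_factor w 1 _ y (by rw [one_pow]; exact hy)
  have hη0 : aeval η G = 0 := by
    rw [mem_roots hGAm.ne_zero, IsRoot.def, hGA, eval_map_algebraMap] at hη
    exact hη
  have hsepη : (minpoly (hField K w) η).Separable := by
    apply Separable.of_dvd (f := G.map (algebraMap K (hField K w)))
    · apply Separable.map
      rw [← separable_map (algebraMap K A), ← hGA]
      rw [← nodup_roots_iff_of_splits hGAm.ne_zero hspl]
      rw [Multiset.nodup_iff_count_le_one]
      intro a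
      by_contra hcon
      push Not at hcon
      have ha : a ∈ GA.roots := Multiset.count_pos.1 (by omega)
      have ha0 : aeval a G = 0 := by
        rw [mem_roots hGAm.ne_zero, IsRoot.def, hGA, eval_map_algebraMap] at ha
        exact ha
      have h2 := hspl.eval_root_derivative hGAm ha
      have h3 : eval a (derivative GA) = 0 := by
        rw [h2]
        apply Multiset.prod_eq_zero
        rw [Multiset.mem_map]
        refine ⟨a, ?_, sub_self a⟩
        rw [← Multiset.count_pos, Multiset.count_erase_self]
        omega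
      apply not_both_small w G₀ (derivative G₀) _ (hroot a ha0)
      · rw [← hGev, ← hG, ha0, map_zero]
        exact zero_lt_one
      · rw [← hGev, ← derivative_map, ← hG, ← eval_map_algebraMap, ← derivative_map, ← hGA, h3,
          map_zero]
        exact zero_lt_one
      · rw [← derivative_map, hG₀g]
        exact hgs
    · apply minpoly.dvd
      rw [aeval_map_algebraMap, hη0]
  have hmem : η ∈ IntermediateField.adjoin (hField K w) {y} := by
    apply krasner_mem w (hField_inv w) η y hsepη
    intro σ hσ
    have h2 : aeval (σ η) G = 0 := by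
      have h3 := aeval_algHom_apply ((σ : A →ₐ[hField K w] A).restrictScalars K) η G
      rw [hη0, map_zero] at h3
      exact h3
    rw [hsepr _ _ h2 hη0 hσ]
    exact hyη
  have hinty : IsIntegral (hField K w) y := Algebra.IsIntegral.isIntegral y
  have hintη : IsIntegral (hField K w) η := Algebra.IsIntegral.isIntegral η
  have h2 : IntermediateField.adjoin (hField K w) {η} ≤
      IntermediateField.adjoin (hField K w) {y} :=
    (IntermediateField.adjoin_simple_le_iff).2 hmem
  have h3 := IntermediateField.finrank_dvd_of_le_right h2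
  rwa [IntermediateField.adjoin.finrank hintη, IntermediateField.adjoin.finrank hinty,
    hdeg η hη0] at h3

/-- **The residue field case.** -/
theorem ample_of_residue [IsAlgClosed A] [Algebra.IsAlgebraic K A] (H : ProSolv K)
    (w : Valuation A Γ₀) (hnt : ∃ π : K, π ≠ 0 ∧ w (algebraMap K A π) < 1)
    (hk : ∃ f : (IsLocalRing.ResidueField (resO K w))[X],
      Irreducible f ∧ f.Separable ∧ 3 ≤ f.natDegree)
    {N : ℕ} (S : Finset (MvPolynomial (Fin N) K)) (x : Fin N → LaurentSeries K)
    (hS : ∀ p ∈ S, MvPolynomial.aeval x p = 0) :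
    ∃ y : Fin N → K, ∀ p ∈ S, MvPolynomial.eval y p = 0 := by
  haveI : Algebra.IsAlgebraic (hField K w) A := Algebra.IsAlgebraic.tower_top (K := K) _
  haveI : IsAlgClosure (hField K w) A := ⟨inferInstance, inferInstance⟩
  haveI : Normal (hField K w) A := IsAlgClosure.normal _ _
  obtain ⟨d₀, q, hd₀, hq, hirr⟩ := exists_hasIrr hk
  refine ample_of_polys (W := hField K w) (A := A) H w (hField_inv w) hnt hd₀ hq.two_le
    (fun k => ?_) S x hS
  obtain ⟨g, hgm, hgi, hgs, hgd⟩ := hirr k
  obtain ⟨G, hGm, hGd, hG⟩ := residue_poly w g hgm hgi hgs hgd (Nat.mul_pos hd₀ (pow_pos hq.pos k))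
  exact ⟨G, hGm, hGd, 1, one_ne_zero, fun y hy => hG y (by rwa [map_one, map_one] at hy)⟩

end Main

end H651
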