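import Pool.Agent.H651_Ample.HField
import Pool.Agent.H651_Ample.Dense

/-!
# Infinite decomposition groups
-/

set_option autoImplicit false
set_option linter.style.haveILetI false

namespace H651

open Polynomial

attribute [-instance] HahnSeries.instSMul
attribute [-instance] HahnSeries.instModule

universe u v

variable {K A : Type u} [Field K] [Field A] [Algebra K A]

/-- two automorphisms agreeing on separable elements are equal -/
theorem algEquiv_eq_of_sep [Algebra.IsAlgebraic K A] {σ τ : A ≃ₐ[K] A}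
    (h : ∀ a : A, IsSeparable K a → σ a = τ a) : σ = τ := by
  ext x
  set q := ringExpChar K with hq
  haveI : ExpChar K q := ringExpChar.expChar K
  haveI : ExpChar A q := expChar_of_injective_algebraMap (algebraMap K A).injective q
  haveI : ExpChar (separableClosure K A) q := expChar_of_injective_algebraMap
    (algebraMap K (separableClosure K A)).injective q
  obtain ⟨m, hm⟩ := (isPurelyInseparable_iff_pow_mem (separableClosure K A) q
    (E := A)).1 inferInstance x
  obtain ⟨y', hy'⟩ := hm
  have hy : x ^ q ^ m ∈ separableClosure K A := by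
    rw [← hy']
    exact y'.2
  rw [mem_separableClosure_iff] at hy
  have h1 := h _ hy
  rw [map_pow, map_pow] at h1
  exact iterateFrobenius_inj A q m h1

theorem exists_sep_of_ne [Algebra.IsAlgebraic K A] {σ τ : A ≃ₐ[K] A} (h : σ ≠ τ) :
    ∃ a : A, IsSeparable K a ∧ σ a ≠ τ a := by
  by_contra hcon
  push Not at hcon
  exact h (algEquiv_eq_of_sep hcon)

/-- a separable element on which three given automorphisms differ -/
theorem exists_three [Algebra.IsAlgebraic K A] {D : Set (A ≃ₐ[K] A)} (hD : 3 ≤ D.encard) :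
    ∃ x : A, IsSeparable K x ∧ ∃ σ₁ ∈ D, ∃ σ₂ ∈ D, ∃ σ₃ ∈ D,
      σ₁ x ≠ σ₂ x ∧ σ₁ x ≠ σ₃ x ∧ σ₂ x ≠ σ₃ x := by
  classical
  obtain ⟨t, htD, ht⟩ := Set.exists_subset_encard_eq hD
  obtain ⟨σ₁, σ₂, σ₃, h12, h13, h23, rfl⟩ := Set.encard_eq_three.1 ht
  have hs1 : σ₁ ∈ D := htD (by simp)
  have hs2 : σ₂ ∈ D := htD (by simp)
  have hs3 : σ₃ ∈ D := htD (by simp)
  obtain ⟨a, ha, ha'⟩ := exists_sep_of_ne h12
  obtain ⟨b, hb, hb'⟩ := exists_sep_of_ne h13
  obtain ⟨c, hc, hc'⟩ := exists_sep_of_ne h23
  set L : IntermediateField K A := IntermediateField.adjoin K {a, b, c} with hL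
  have hmem : ∀ z ∈ ({a, b, c} : Set A), IsSeparable K z := by
    intro z hz
    simp only [Set.mem_insert_iff, Set.mem_singleton_iff] at hz
    rcases hz with rfl | rfl | rfl
    · exact ha
    · exact hb
    · exact hc
  haveI : Algebra.IsSeparable K L :=
    (IntermediateField.isSeparable_adjoin_iff_isSeparable K A).2 hmem
  haveI : Finite ({a, b, c} : Set A) := Set.toFinite _
  haveI : FiniteDimensional K L :=
    IntermediateField.finiteDimensional_adjoin fun z _ => Algebra.IsIntegral.isIntegral z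
  obtain ⟨x, hx⟩ := Field.exists_primitive_element K L
  have hpoly : ∀ z : L, ∃ p : K[X], z = aeval x p := by
    intro z
    have h1 : z ∈ IntermediateField.adjoin K {x} := by
      rw [hx]
      exact IntermediateField.mem_top
    have h2 := IntermediateField.adjoin_simple_toSubalgebra_of_isAlgebraic
      (Algebra.IsAlgebraic.isAlgebraic (R := K) x)
    rw [← IntermediateField.mem_toSubalgebra, h2, Algebra.adjoin_singleton_eq_range_aeval] at h1
    obtain ⟨p, hp⟩ := h1
    exact ⟨p, hp.symm⟩
  have hneq : ∀ (σ τ : A ≃ₐ[K] A) (z : A) (hz : z ∈ L), σ z ≠ τ z → σ (x : A) ≠ τ (x : A) := by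
    intro σ τ z hz hne heq
    apply hne
    obtain ⟨p, hp⟩ := hpoly ⟨z, hz⟩
    have h1 : z = aeval (x : A) p := by
      have h2 := congrArg (algebraMap L A) hp
      rw [← aeval_algebraMap_apply] at h2
      exact h2
    rw [h1]
    have h3 : ∀ ρ : A ≃ₐ[K] A, ρ (aeval (x : A) p) = aeval (ρ (x : A)) p := fun ρ =>
      (aeval_algHom_apply (ρ : A →ₐ[K] A) (x : A) p).symm
    rw [h3, h3, heq]
  have haL : a ∈ L := IntermediateField.subset_adjoin K _ (by simp)
  have hbL : b ∈ L := IntermediateField.subset_adjoin K _ (by simp)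
  have hcL : c ∈ L := IntermediateField.subset_adjoin K _ (by simp)
  refine ⟨(x : A), ?_, σ₁, hs1, σ₂, hs2, σ₃, hs3, hneq _ _ a haL ha', hneq _ _ b hbL hb',
    hneq _ _ c hcL hc'⟩
  have h1 : IsSeparable K x := Algebra.IsSeparable.isSeparable K x
  rw [IsSeparable, ← IntermediateField.minpoly_eq]
  exact h1

/-- three distinct roots -/
theorem three_le_natDegree {R : Type*} [Field R] {f : R[X]} (hf : f ≠ 0) {a b c : R}
    (ha : f.eval a = 0) (hb : f.eval b = 0) (hc : f.eval c = 0) (hab : a ≠ b) (hac : a ≠ c)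
    (hbc : b ≠ c) : 3 ≤ f.natDegree := by
  classical
  have h1 : ({a, b, c} : Finset R) ⊆ f.roots.toFinset := by
    intro z hz
    simp only [Finset.mem_insert, Finset.mem_singleton] at hz
    rw [Multiset.mem_toFinset, mem_roots hf, IsRoot.def]
    rcases hz with rfl | rfl | rfl
    · exact ha
    · exact hb
    · exact hc
  have h2 : ({a, b, c} : Finset R).card = 3 := Finset.card_eq_three.2 ⟨a, b, c, hab, hac, hbc, rfl⟩
  rw [← h2]
  exact (Finset.card_le_card h1).trans ((Multiset.toFinset_card_le _).trans (card_roots' f))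

variable {Γ₀ : Type v} [LinearOrderedCommGroupWithZero Γ₀]

/-- the field of a valuation with large decomposition group has a separable irreducible
polynomial of degree at least three -/
theorem hField_exists [Algebra.IsAlgebraic K A] {w : Valuation A Γ₀}
    (hD : 3 ≤ ((decG K w : Subgroup (A ≃ₐ[K] A)) : Set (A ≃ₐ[K] A)).encard) :
    ∃ f : (hField K w)[X], Irreducible f ∧ f.Separable ∧ 3 ≤ f.natDegree := by
  obtain ⟨x, hx, σ₁, h1, σ₂, h2, σ₃, h3, h12, h13, h23⟩ := exists_three hD
  have hint : IsIntegral K x := Algebra.IsIntegral.isIntegral x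
  have hint' : IsIntegral (hField K w) x := hint.tower_top
  refine ⟨minpoly (hField K w) x, minpoly.irreducible hint', ?_, ?_⟩
  · exact Separable.of_dvd (Separable.map (f := algebraMap K (hField K w)) hx)
      (minpoly.dvd_map_of_isScalarTower K (hField K w) x)
  · set f := minpoly (hField K w) x with hf
    have hroot : ∀ σ ∈ decG K w, (f.map (algebraMap (hField K w) A)).eval (σ x) = 0 := by
      intro σ hσ
      have hmap : (f.map (algebraMap (hField K w) A)).map (σ : A →+* A) =
          f.map (algebraMap (hField K w) A) := by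
        ext k
        rw [coeff_map, coeff_map]
        obtain ⟨N, hN⟩ := mem_hField.1 (f.coeff k).2
        exact hN.2.2.2 σ fun y _ => hσ y
      rw [← hmap, eval_map]
      have h4 := eval₂_at_apply (p := f.map (algebraMap (hField K w) A)) (σ : A →+* A) x
      have h5 : (σ : A →+* A) x = σ x := rfl
      rw [h5] at h4
      have h6 : (f.map (algebraMap (hField K w) A)).eval x = 0 := by
        rw [eval_map_algebraMap]
        exact minpoly.aeval _ x
      rw [h4, h6, map_zero]
    have hf0 : f ≠ 0 := minpoly.ne_zero hint'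
    have h4 := three_le_natDegree ((Polynomial.map_ne_zero_iff
      (algebraMap (hField K w) A).injective).2 hf0) (hroot σ₁ h1) (hroot σ₂ h2) (hroot σ₃ h3)
      h12 h13 h23
    rwa [natDegree_map] at h4

/-- **The rank one case.** -/
theorem ample_of_arch [IsAlgClosed A] [Algebra.IsAlgebraic K A] (H : ProSolv K)
    (w : Valuation A Γ₀)
    (harch : ∀ x c : Γ₀, x < 1 → ∀ ε, 0 < ε → ∃ m : ℕ, x ^ m * c < ε)
    (hnt : ∃ π : K, π ≠ 0 ∧ w (algebraMap K A π) < 1)
    (hD : 3 ≤ ((decG K w : Subgroup (A ≃ₐ[K] A)) : Set (A ≃ₐ[K] A)).encard)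
    {N : ℕ} (S : Finset (MvPolynomial (Fin N) K)) (x : Fin N → LaurentSeries K)
    (hS : ∀ p ∈ S, MvPolynomial.aeval x p = 0) :
    ∃ y : Fin N → K, ∀ p ∈ S, MvPolynomial.eval y p = 0 := by
  haveI : Algebra.IsAlgebraic (hField K w) A := Algebra.IsAlgebraic.tower_top (K := K) _
  haveI : IsAlgClosure (hField K w) A := ⟨inferInstance, inferInstance⟩
  haveI : Normal (hField K w) A := IsAlgClosure.normal _ _
  haveI : IsAlgClosure K A := ⟨inferInstance, inferInstance⟩
  haveI : Normal K A := IsAlgClosure.normal _ _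
  refine ample_of_dense (W := hField K w) (A := A) H w (hField_inv w) hnt ?_ (hField_exists hD)
    S x hS
  intro c a ha
  obtain ⟨N, hN⟩ := mem_hField.1 c.2
  haveI := hN.1
  haveI := hN.2.1
  obtain ⟨b, hb⟩ := exists_dense (w.comap (algebraMap N A)) harch ⟨(c : A), hN.2.2.1⟩
    (fixed_of_HCond hN) ((Valuation.pos_iff w).2 ha)
  refine ⟨b, ?_⟩
  rw [Valuation.comap_apply] at hb
  exact hb

end H651
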